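import Pool.Agent.Pancake.Exist

/-!
# MP_771030_an: squares of absolutely continuous functions and a Grönwall lemma
-/

namespace Pancake

open Set Filter Topology MeasureTheory
open scoped ENNReal NNReal ComplexConjugate Interval

noncomputable section

lemma sq_real {u γ : ℝ → ℝ} {s t : ℝ} (hst : s ≤ t) (hγ : IntervalIntegrable γ volume s t)
    (hu : ∀ τ ∈ Icc s t, u τ - u s = ∫ r in s..τ, γ r) :
    u t ^ 2 - u s ^ 2 = ∫ τ in s..t, 2 * (u τ * γ τ) := by
  set U : ℝ → ℝ := fun τ => u s + ∫ r in s..τ, γ r with hU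
  have hUu : ∀ τ ∈ Icc s t, U τ = u τ := by
    intro τ hτ
    simp only [hU]
    rw [← hu τ hτ]; ring
  have hAC : AbsolutelyContinuousOnInterval U s t := by
    have h1 : AbsolutelyContinuousOnInterval (fun τ => ∫ r in s..τ, γ r) s t :=
      hγ.absolutelyContinuousOnInterval_intervalIntegral left_mem_uIcc
    have h2 : AbsolutelyContinuousOnInterval (fun _ : ℝ => u s) s t :=
      (contDiff_const (n := 1)).contDiffOn.absolutelyContinuousOnInterval
    exact h2.add h1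
  have key := hAC.integral_deriv_mul_eq_sub hAC
  have hs : s ∈ Icc s t := left_mem_Icc.mpr hst
  have ht : t ∈ Icc s t := right_mem_Icc.mpr hst
  rw [hUu s hs, hUu t ht] at key
  rw [sq, sq, ← key]
  apply intervalIntegral.integral_congr_ae
  filter_upwards [hγ.ae_hasDerivAt_integral] with x hx hx2
  have hx3 : x ∈ [[s, t]] := uIoc_subset_uIcc hx2
  have h4 := (hx hx3 s left_mem_uIcc).const_add (u s)
  have h5 : deriv U x = γ x := h4.deriv
  rw [h5]
  rw [uIcc_of_le hst] at hx3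
  rw [hUu x hx3]
  ring

lemma intervalIntegrable_re {β : ℝ → ℂ} {s t : ℝ} (hβ : IntervalIntegrable β volume s t) :
    IntervalIntegrable (fun τ => (β τ).re) volume s t := by
  rw [intervalIntegrable_iff] at hβ ⊢
  exact hβ.re

lemma intervalIntegrable_im {β : ℝ → ℂ} {s t : ℝ} (hβ : IntervalIntegrable β volume s t) :
    IntervalIntegrable (fun τ => (β τ).im) volume s t := by
  rw [intervalIntegrable_iff] at hβ ⊢
  exact hβ.im

lemma re_intervalIntegral {β : ℝ → ℂ} {s t : ℝ} (hβ : IntervalIntegrable β volume s t) :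
    (∫ τ in s..t, β τ).re = ∫ τ in s..t, (β τ).re := by
  have := Complex.reCLM.intervalIntegral_comp_comm hβ
  exact this.symm

lemma im_intervalIntegral {β : ℝ → ℂ} {s t : ℝ} (hβ : IntervalIntegrable β volume s t) :
    (∫ τ in s..t, β τ).im = ∫ τ in s..t, (β τ).im := by
  have := Complex.imCLM.intervalIntegral_comp_comm hβ
  exact this.symm

lemma normSq_int {x β : ℝ → ℂ} {s t : ℝ} (hst : s ≤ t) (hβ : IntervalIntegrable β volume s t)
    (hx : ∀ τ ∈ Icc s t, x τ - x s = ∫ r in s..τ, β r) :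
    ‖x t‖ ^ 2 - ‖x s‖ ^ 2 = ∫ τ in s..t, 2 * (conj (x τ) * β τ).re := by
  have hmono : ∀ τ ∈ Icc s t, IntervalIntegrable β volume s τ := by
    intro τ hτ
    apply hβ.mono_set
    rw [uIcc_of_le hτ.1, uIcc_of_le hst]
    exact Icc_subset_Icc_right hτ.2
  have h1 := sq_real (u := fun τ => (x τ).re) (γ := fun τ => (β τ).re) hst
    (intervalIntegrable_re hβ) (by
      intro τ hτ
      rw [← re_intervalIntegral (hmono τ hτ), ← hx τ hτ, Complex.sub_re])
  have h2 := sq_real (u := fun τ => (x τ).im) (γ := fun τ => (β τ).im) hst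
    (intervalIntegrable_im hβ) (by
      intro τ hτ
      rw [← im_intervalIntegral (hmono τ hτ), ← hx τ hτ, Complex.sub_im])
  have hxc : ContinuousOn x [[s, t]] := by
    have h3 : ContinuousOn (fun τ => x s + ∫ r in s..τ, β r) [[s, t]] :=
      continuousOn_const.add (intervalIntegral.continuousOn_primitive_interval' hβ left_mem_uIcc)
    refine h3.congr ?_
    intro τ hτ
    rw [uIcc_of_le hst] at hτ
    simp only
    rw [← hx τ hτ]; ring
  have i1 : IntervalIntegrable (fun τ => 2 * ((x τ).re * (β τ).re)) volume s t :=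
    ((intervalIntegrable_re hβ).continuousOn_mul
      (Complex.continuous_re.comp_continuousOn hxc)).const_mul 2
  have i2 : IntervalIntegrable (fun τ => 2 * ((x τ).im * (β τ).im)) volume s t :=
    ((intervalIntegrable_im hβ).continuousOn_mul
      (Complex.continuous_im.comp_continuousOn hxc)).const_mul 2
  have e : ∀ z : ℂ, ‖z‖ ^ 2 = z.re ^ 2 + z.im ^ 2 := by
    intro z
    rw [← Complex.normSq_eq_norm_sq, Complex.normSq_apply]; ring
  rw [e, e]
  have : (x t).re ^ 2 + (x t).im ^ 2 - ((x s).re ^ 2 + (x s).im ^ 2) =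
      ((x t).re ^ 2 - (x s).re ^ 2) + ((x t).im ^ 2 - (x s).im ^ 2) := by ring
  rw [this]
  rw [h1, h2, ← intervalIntegral.integral_add i1 i2]
  apply intervalIntegral.integral_congr
  intro τ _
  simp only [Complex.mul_re, Complex.conj_re, Complex.conj_im]
  ring

/-- Doubling lemma. -/
lemma doubling {G H : ℝ → ℝ} {T : ℝ} (hG : ContinuousOn G (Icc 0 T)) (hG0 : G 0 = 0)
    (hH0 : 0 ≤ H 0)
    (hd : ∀ s ∈ Icc 0 T, ∀ t ∈ Icc 0 T, s ≤ t → G t - G s ≤ 1 / 2 → H t ≤ 2 * H s) (n : ℕ) :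
    ∀ t ∈ Icc 0 T, G t ≤ (n + 1 : ℝ) / 2 → H t ≤ 2 ^ (n + 1) * H 0 := by
  induction n with
  | zero =>
    intro t ht hGt
    have := hd 0 ⟨le_rfl, ht.1.trans ht.2⟩ t ht ht.1 (by rw [hG0, sub_zero]; simpa using hGt)
    simpa using this
  | succ n ih =>
    intro t ht hGt
    by_cases hc : G t ≤ (n + 1 : ℝ) / 2
    · refine (ih t ht hc).trans ?_
      rw [pow_succ 2 (n + 1)]
      have : 0 ≤ 2 ^ (n + 1) * H 0 := by positivity
      linarith
    · push Not at hc
      have hIVT := intermediate_value_Icc ht.1 (hG.mono (Icc_subset_Icc_right ht.2))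
      obtain ⟨s, hs, hGs⟩ := hIVT (show (n + 1 : ℝ) / 2 ∈ Icc (G 0) (G t) from
        ⟨by rw [hG0]; positivity, hc.le⟩)
      have hs' : s ∈ Icc 0 T := ⟨hs.1, hs.2.trans ht.2⟩
      have h1 := ih s hs' hGs.le
      have h2 := hd s hs' t ht hs.2 (by rw [hGs]; push_cast at hGt; linarith)
      rw [pow_succ 2 (n + 1)]
      linarith

/-- Grönwall lemma with integrable kernel. -/
lemma gronwall {A Φ : ℝ → ℝ} {T δ : ℝ} (hδ : 0 ≤ δ)
    (hΦ : IntervalIntegrable Φ volume 0 T) (hΦ0 : ∀ t ∈ Icc 0 T, 0 ≤ Φ t)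
    (hA : ContinuousOn A (Icc 0 T)) (hA0 : ∀ t ∈ Icc 0 T, 0 ≤ A t)
    (h : ∀ t ∈ Icc 0 T, A t ≤ δ + ∫ τ in (0 : ℝ)..t, Φ τ * A τ) {n : ℕ}
    (hn : ∫ τ in (0 : ℝ)..T, Φ τ ≤ (n + 1 : ℝ) / 2) :
    ∀ t ∈ Icc 0 T, A t ≤ 2 ^ (n + 1) * δ := by
  intro t0 ht0
  have hT : 0 ≤ T := ht0.1.trans ht0.2
  have hint : ∀ s ∈ Icc 0 T, ∀ t ∈ Icc 0 T, IntervalIntegrable Φ volume s t := by
    intro s hs t ht
    apply hΦ.mono_set
    rw [uIcc_of_le hT]
    exact uIcc_subset_Icc hs ht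
  have hAu : ContinuousOn A (uIcc 0 T) := by rwa [uIcc_of_le hT]
  have hΦA : IntervalIntegrable (fun τ => Φ τ * A τ) volume 0 T := hΦ.mul_continuousOn hAu
  have hint2 : ∀ s ∈ Icc 0 T, ∀ t ∈ Icc 0 T,
      IntervalIntegrable (fun τ => Φ τ * A τ) volume s t := by
    intro s hs t ht
    apply hΦA.mono_set
    rw [uIcc_of_le hT]
    exact uIcc_subset_Icc hs ht
  have h0T : (0 : ℝ) ∈ Icc 0 T := ⟨le_rfl, hT⟩
  set G : ℝ → ℝ := fun t => ∫ τ in (0 : ℝ)..t, Φ τ with hG
  set H : ℝ → ℝ := fun t => δ + ∫ τ in (0 : ℝ)..t, Φ τ * A τ with hH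
  have hGsub : ∀ s ∈ Icc 0 T, ∀ t ∈ Icc 0 T, G t - G s = ∫ τ in s..t, Φ τ := by
    intro s hs t ht
    simp only [hG]
    rw [intervalIntegral.integral_interval_sub_left (hint 0 h0T t ht) (hint 0 h0T s hs)]
  have hHsub : ∀ s ∈ Icc 0 T, ∀ t ∈ Icc 0 T, H t - H s = ∫ τ in s..t, Φ τ * A τ := by
    intro s hs t ht
    simp only [hH]
    rw [← intervalIntegral.integral_interval_sub_left (hint2 0 h0T t ht) (hint2 0 h0T s hs)]
    ring
  have hHmono : ∀ s ∈ Icc 0 T, ∀ t ∈ Icc 0 T, s ≤ t → H s ≤ H t := by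
    intro s hs t ht hst
    have h1 := hHsub s hs t ht
    have h2 : 0 ≤ ∫ τ in s..t, Φ τ * A τ := by
      apply intervalIntegral.integral_nonneg hst
      intro u hu
      have hu' : u ∈ Icc 0 T := ⟨hs.1.trans hu.1, hu.2.trans ht.2⟩
      exact mul_nonneg (hΦ0 u hu') (hA0 u hu')
    linarith
  have hH0 : H 0 = δ := by simp [hH]
  have hHnn : ∀ t ∈ Icc 0 T, 0 ≤ H t := by
    intro t ht
    have := hHmono 0 h0T t ht ht.1
    linarith
  have hGc : ContinuousOn G (Icc 0 T) := by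
    have := intervalIntegral.continuousOn_primitive_interval' hΦ (left_mem_uIcc (a := (0 : ℝ)) (b := T))
    rwa [uIcc_of_le hT] at this
  have hd : ∀ s ∈ Icc 0 T, ∀ t ∈ Icc 0 T, s ≤ t → G t - G s ≤ 1 / 2 → H t ≤ 2 * H s := by
    intro s hs t ht hst hGst
    have h1 := hHsub s hs t ht
    have h2 : ∫ τ in s..t, Φ τ * A τ ≤ ∫ τ in s..t, Φ τ * H t := by
      apply intervalIntegral.integral_mono_on hst (hint2 s hs t ht) ((hint s hs t ht).mul_const _)
      intro u hu
      have hu' : u ∈ Icc 0 T := ⟨hs.1.trans hu.1, hu.2.trans ht.2⟩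
      have h3 := h u hu'
      have h4 := hHmono u hu' t ht hu.2
      have h5 := hΦ0 u hu'
      have h6 : A u ≤ H t := h3.trans h4
      gcongr
    rw [intervalIntegral.integral_mul_const, ← hGsub s hs t ht] at h2
    have h7 := hHnn t ht
    nlinarith
  have key := doubling hGc (by simp [hG]) (by rw [hH0]; exact hδ) hd n t0 ht0 (by
    have h1 := hGsub t0 ht0 T ⟨hT, le_rfl⟩
    have h2 : 0 ≤ ∫ τ in t0..T, Φ τ := by
      apply intervalIntegral.integral_nonneg ht0.2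
      intro u hu
      exact hΦ0 u ⟨ht0.1.trans hu.1, hu.2⟩
    have h3 : G T ≤ (n + 1 : ℝ) / 2 := hn
    linarith)
  rw [hH0] at key
  exact (h t0 ht0).trans key

end

end Pancake
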