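import Mathlib

/-!
# MP_771030_an: arithmetic of the differential inequality
-/

namespace Pancake

noncomputable section

lemma frac_le_one (κ : ℝ) : |κ| / (|κ| + 1) ≤ 1 := by
  rw [div_le_one (by positivity)]; linarith

lemma frac_nonneg (κ : ℝ) : 0 ≤ |κ| / (|κ| + 1) := by positivity

/-- The constant of the differential inequality. -/
def Cmain (ν κ g M0 M1 : ℝ) : ℝ :=
  200 * |κ| * (|κ| + 1) * M1 / ν + 2 * g ^ 2 / ν + 4 * |κ| * (|κ| + 1) * (M0 + 1) / ν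
    + 200 * |κ| * (|κ| + 1) * M0 / ν + |κ| + 25 * |κ|

lemma arith_c1 {ν κ M1 S0 S1 A : ℝ} (hν : 0 < ν) (hM1 : 0 ≤ M1) (hS0 : 0 ≤ S0) (hS1 : 0 ≤ S1)
    (hA : |A| ≤ 25 * M1 / (ν / (4 * (|κ| + 1))) * S0 + ν / (4 * (|κ| + 1)) * S1) :
    2 * κ * A ≤ 200 * |κ| * (|κ| + 1) * M1 / ν * S0 + ν / 2 * S1 := by
  have hκ1 : 0 < |κ| + 1 := by positivity
  have h1 : 2 * κ * A ≤ 2 * |κ| * (25 * M1 / (ν / (4 * (|κ| + 1))) * S0 + ν / (4 * (|κ| + 1)) * S1) := by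
    calc _ ≤ |2 * κ * A| := le_abs_self _
      _ = 2 * |κ| * |A| := by rw [abs_mul, abs_mul, abs_of_pos (by norm_num : (0 : ℝ) < 2)]
      _ ≤ _ := by gcongr
  refine h1.trans ?_
  have e1 : 2 * |κ| * (25 * M1 / (ν / (4 * (|κ| + 1))) * S0) =
      200 * |κ| * (|κ| + 1) * M1 / ν * S0 := by field_simp; ring
  have e2 : 2 * |κ| * (ν / (4 * (|κ| + 1)) * S1) = (|κ| / (|κ| + 1)) * (ν / 2 * S1) := by
    field_simp; ring
  have h5 := frac_le_one κ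
  have h6 : 0 ≤ ν / 2 * S1 := by positivity
  have h7 : (|κ| / (|κ| + 1)) * (ν / 2 * S1) ≤ 1 * (ν / 2 * S1) := by gcongr
  linarith

lemma arith_c4 {ν κ M0 S1 Z δ lam A m : ℝ} (hν : 0 < ν) (hM0 : 0 ≤ M0) (hS1 : 0 ≤ S1)
    (hl0 : 0 < lam) (hl1 : lam ≤ 1)
    (hA : |A| ≤ ((ν / (4 * lam * (|κ| + 1) * (M0 + 1))) / 2 * (S1 * M0)
        + 16 * m * Z / (2 * (ν / (4 * lam * (|κ| + 1) * (M0 + 1)))))
      + (25 * M0 / (2 * (ν / (8 * (|κ| + 1)))) * (Z + δ) + ν / (8 * (|κ| + 1)) * S1)) :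
    2 * (lam * κ) * A ≤ ν / 2 * S1
      + 4 * |κ| * (|κ| + 1) * (M0 + 1) / ν * (16 * m * lam ^ 2 * Z)
      + 200 * |κ| * (|κ| + 1) * M0 / ν * (lam * (Z + δ)) := by
  have hκ1 : 0 < |κ| + 1 := by positivity
  have hM01 : 0 < M0 + 1 := by positivity
  have h1 : 2 * (lam * κ) * A ≤ 2 * (lam * |κ|) * (((ν / (4 * lam * (|κ| + 1) * (M0 + 1))) / 2 * (S1 * M0)
        + 16 * m * Z / (2 * (ν / (4 * lam * (|κ| + 1) * (M0 + 1)))))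
      + (25 * M0 / (2 * (ν / (8 * (|κ| + 1)))) * (Z + δ) + ν / (8 * (|κ| + 1)) * S1)) := by
    calc _ ≤ |2 * (lam * κ) * A| := le_abs_self _
      _ = 2 * (lam * |κ|) * |A| := by
          rw [abs_mul, abs_mul, abs_mul, abs_of_pos (by norm_num : (0 : ℝ) < 2), abs_of_pos hl0]
      _ ≤ _ := by gcongr
  refine h1.trans ?_
  have e1 : 2 * (lam * |κ|) * ((ν / (4 * lam * (|κ| + 1) * (M0 + 1))) / 2 * (S1 * M0)) =
      (|κ| / (|κ| + 1)) * ((M0 / (M0 + 1)) * (ν / 4 * S1)) := by field_simp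
  have e2 : 2 * (lam * |κ|) * (16 * m * Z / (2 * (ν / (4 * lam * (|κ| + 1) * (M0 + 1))))) =
      4 * |κ| * (|κ| + 1) * (M0 + 1) / ν * (16 * m * lam ^ 2 * Z) := by field_simp
  have e3 : 2 * (lam * |κ|) * (25 * M0 / (2 * (ν / (8 * (|κ| + 1)))) * (Z + δ)) =
      200 * |κ| * (|κ| + 1) * M0 / ν * (lam * (Z + δ)) := by field_simp; ring
  have e4 : 2 * (lam * |κ|) * (ν / (8 * (|κ| + 1)) * S1) =
      lam * ((|κ| / (|κ| + 1)) * (ν / 4 * S1)) := by field_simp; ring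
  have h5 := frac_le_one κ
  have h6 := frac_nonneg κ
  have h7 : M0 / (M0 + 1) ≤ 1 := by rw [div_le_one hM01]; linarith
  have h8 : 0 ≤ ν / 4 * S1 := by positivity
  have h9 : (|κ| / (|κ| + 1)) * ((M0 / (M0 + 1)) * (ν / 4 * S1)) ≤ 1 * (1 * (ν / 4 * S1)) := by
    gcongr
  have h10 : lam * ((|κ| / (|κ| + 1)) * (ν / 4 * S1)) ≤ 1 * (1 * (ν / 4 * S1)) := by gcongr
  have e : 2 * (lam * |κ|) * (((ν / (4 * lam * (|κ| + 1) * (M0 + 1))) / 2 * (S1 * M0)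
        + 16 * m * Z / (2 * (ν / (4 * lam * (|κ| + 1) * (M0 + 1)))))
      + (25 * M0 / (2 * (ν / (8 * (|κ| + 1)))) * (Z + δ) + ν / (8 * (|κ| + 1)) * S1))
      = 2 * (lam * |κ|) * ((ν / (4 * lam * (|κ| + 1) * (M0 + 1))) / 2 * (S1 * M0))
        + 2 * (lam * |κ|) * (16 * m * Z / (2 * (ν / (4 * lam * (|κ| + 1) * (M0 + 1)))))
        + 2 * (lam * |κ|) * (25 * M0 / (2 * (ν / (8 * (|κ| + 1)))) * (Z + δ))
        + 2 * (lam * |κ|) * (ν / (8 * (|κ| + 1)) * S1) := by ring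
  rw [e, e1, e2, e3, e4]
  linarith

lemma arith_c3 {κ S2 Z δ lam A m ℓ : ℝ} (hl0 : 0 < lam)
    (hA : |A| ≤ (ℓ * S2 + 16 * m / ℓ) / 2 * Z + (25 * S2 + 1) / 2 * (Z + δ)) :
    2 * (lam * κ) * A ≤
      |κ| * ((ℓ * S2 + 16 * m / ℓ) * (lam * Z)) + |κ| * ((25 * S2 + 1) * (lam * (Z + δ))) := by
  have h1 : 2 * (lam * κ) * A ≤ 2 * (lam * |κ|) *
        ((ℓ * S2 + 16 * m / ℓ) / 2 * Z + (25 * S2 + 1) / 2 * (Z + δ)) := by
    calc _ ≤ |2 * (lam * κ) * A| := le_abs_self _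
      _ = 2 * (lam * |κ|) * |A| := by
          rw [abs_mul, abs_mul, abs_mul, abs_of_pos (by norm_num : (0 : ℝ) < 2), abs_of_pos hl0]
      _ ≤ _ := by gcongr
  refine h1.trans (le_of_eq ?_)
  ring

/-- The final comparison. -/
lemma arith_fin {ν κ g M0 M1 S0 S1 S2 Z δ m ℓ lam c1 cY c3 c4 : ℝ} (hν : 0 < ν) (hM0 : 0 ≤ M0)
    (hM1 : 0 ≤ M1) (hS0 : 0 ≤ S0) (hS1 : 0 ≤ S1) (hS2 : 0 ≤ S2) (hZ : 0 ≤ Z) (hδ : 0 ≤ δ)
    (hm : 0 ≤ m) (hℓ1 : 1 ≤ ℓ) (hℓ2 : ℓ ^ 2 = 1 + 16 * m) (hlam : lam = 1 / ℓ)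
    (h1 : c1 ≤ 200 * |κ| * (|κ| + 1) * M1 / ν * S0 + ν / 2 * S1)
    (hY : cY ≤ ν / 2 * S1 + 2 * g ^ 2 / ν * Z)
    (h3 : c3 ≤ |κ| * ((ℓ * S2 + 16 * m / ℓ) * (lam * Z)) + |κ| * ((25 * S2 + 1) * (lam * (Z + δ))))
    (h4 : c4 ≤ ν / 2 * S1 + 4 * |κ| * (|κ| + 1) * (M0 + 1) / ν * (16 * m * lam ^ 2 * Z)
      + 200 * |κ| * (|κ| + 1) * M0 / ν * (lam * (Z + δ))) :
    -2 * ν * S1 + c1 + cY + c3 + c4 ≤ Cmain ν κ g M0 M1 * ℓ * (1 + S2) * (S0 + lam * Z + δ) := by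
  have hℓ0 : 0 < ℓ := by linarith
  have hlam0 : 0 < lam := by rw [hlam]; positivity
  have hlam1 : lam ≤ 1 := by rw [hlam, div_le_one hℓ0]; exact hℓ1
  have hℓlam : ℓ * lam = 1 := by rw [hlam]; field_simp
  set E : ℝ := S0 + lam * Z + δ with hE
  have hlZ : 0 ≤ lam * Z := by positivity
  have hE0 : 0 ≤ E := by positivity
  have f1 : 1 ≤ ℓ * (1 + S2) := by nlinarith
  set W : ℝ := ℓ * (1 + S2) * E with hW
  have hEW : E ≤ W := by rw [hW]; nlinarith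
  have g1 : S0 ≤ W := by linarith
  have g2 : Z ≤ W := by
    have h1 : Z = ℓ * (lam * Z) := by rw [← mul_assoc, hℓlam, one_mul]
    have h2 : lam * Z ≤ E := by rw [hE]; linarith
    calc Z = ℓ * (lam * Z) := h1
      _ ≤ ℓ * E := by gcongr
      _ ≤ ℓ * (1 + S2) * E := by gcongr; nlinarith
  have h16 : (16 : ℝ) * m ≤ ℓ ^ 2 := by rw [hℓ2]; linarith
  have g3 : 16 * m * lam ^ 2 * Z ≤ W := by
    have h1 : 16 * m * lam ^ 2 * Z ≤ ℓ ^ 2 * lam ^ 2 * Z := by gcongr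
    have h2 : ℓ ^ 2 * lam ^ 2 * Z = Z := by rw [← mul_pow, hℓlam, one_pow, one_mul]
    linarith
  have hlE : lam * (Z + δ) ≤ E := by
    rw [hE, mul_add]
    have : lam * δ ≤ 1 * δ := by gcongr
    linarith
  have g4 : lam * (Z + δ) ≤ W := by linarith
  have g5 : (ℓ * S2 + 16 * m / ℓ) * (lam * Z) ≤ W := by
    have h1 : 16 * m / ℓ ≤ ℓ := by rw [div_le_iff₀ hℓ0]; nlinarith
    have h2 : lam * Z ≤ E := by rw [hE]; linarith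
    calc (ℓ * S2 + 16 * m / ℓ) * (lam * Z) ≤ (ℓ * S2 + ℓ) * E := by gcongr
      _ = W := by rw [hW]; ring
  have g6 : (25 * S2 + 1) * (lam * (Z + δ)) ≤ 25 * W := by
    calc (25 * S2 + 1) * (lam * (Z + δ)) ≤ (25 * (1 + S2)) * E := by gcongr; linarith
      _ ≤ (25 * (ℓ * (1 + S2))) * E := by gcongr; nlinarith
      _ = 25 * W := by rw [hW]; ring
  have k1 : 0 ≤ 200 * |κ| * (|κ| + 1) * M1 / ν := by positivity
  have k2 : 0 ≤ 2 * g ^ 2 / ν := by positivity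
  have k3 : 0 ≤ 4 * |κ| * (|κ| + 1) * (M0 + 1) / ν := by positivity
  have k4 : 0 ≤ 200 * |κ| * (|κ| + 1) * M0 / ν := by positivity
  have k5 : 0 ≤ |κ| := abs_nonneg _
  have m1 := mul_le_mul_of_nonneg_left g1 k1
  have m2 := mul_le_mul_of_nonneg_left g2 k2
  have m3 := mul_le_mul_of_nonneg_left g3 k3
  have m4 := mul_le_mul_of_nonneg_left g4 k4
  have m5 := mul_le_mul_of_nonneg_left g5 k5
  have m6 := mul_le_mul_of_nonneg_left g6 k5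
  have hfin : Cmain ν κ g M0 M1 * ℓ * (1 + S2) * E =
      200 * |κ| * (|κ| + 1) * M1 / ν * W + 2 * g ^ 2 / ν * W
      + 4 * |κ| * (|κ| + 1) * (M0 + 1) / ν * W
      + 200 * |κ| * (|κ| + 1) * M0 / ν * W + |κ| * W + |κ| * (25 * W) := by
    rw [hW]; unfold Cmain; ring
  rw [hfin]
  have hνS : 0 ≤ ν * S1 := by positivity
  clear_value W
  linarith

end

end Pancake
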