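import Pool.Agent.Pancake.Sys

/-!
# MP_771030_an: compactness of bounded families of solutions
-/

namespace Pancake

open Set Filter Topology MeasureTheory
open scoped ENNReal NNReal ComplexConjugate

noncomputable section

/-- Extraction of a convergent subsequence from uniformly Lipschitz families. -/
lemma extraction {ι : Type*} [Countable ι] (f : ℕ → ι → ℝ → ℂ) (M Lc : ι → ℝ)
    (hb : ∀ n i t, ‖f n i t‖ ≤ M i) (hL : ∀ n i s t, ‖f n i s - f n i t‖ ≤ Lc i * |s - t|) :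
    ∃ φ : ℕ → ℕ, StrictMono φ ∧ ∃ F : ι → ℝ → ℂ,
      ∀ i t, Tendsto (fun n => f (φ n) i t) atTop (𝓝 (F i t)) := by
  set S : Set (ι × ℚ → ℂ) := Set.pi univ (fun p => Metric.closedBall 0 (M p.1)) with hS
  have hSc : IsCompact S := isCompact_univ_pi fun p => isCompact_closedBall _ _
  obtain ⟨G, _, φ, hφ, hG⟩ := hSc.tendsto_subseq (x := fun n p => f n p.1 p.2) (fun n => by
    rw [hS, mem_univ_pi]
    intro p
    rw [mem_closedBall_zero_iff]
    exact hb n p.1 p.2)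
  rw [tendsto_pi_nhds] at hG
  have key : ∀ i t, ∃ y, Tendsto (fun n => f (φ n) i t) atTop (𝓝 y) := by
    intro i t
    apply cauchySeq_tendsto_of_complete
    rw [Metric.cauchySeq_iff']
    intro ε hε
    have hLp : 0 < |Lc i| + 1 := by positivity
    obtain ⟨q, hq1, hq2⟩ := exists_rat_btwn (show t < t + ε / (4 * (|Lc i| + 1)) by
      have : 0 < ε / (4 * (|Lc i| + 1)) := by positivity
      linarith)
    have hq : ∀ n, ‖f n i t - f n i q‖ ≤ ε / 4 := by
      intro n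
      refine (hL n i t q).trans ?_
      have h1 : |t - (q : ℝ)| ≤ ε / (4 * (|Lc i| + 1)) := by
        rw [abs_sub_comm, abs_of_pos (by linarith)]
        linarith
      calc Lc i * |t - (q : ℝ)| ≤ (|Lc i| + 1) * (ε / (4 * (|Lc i| + 1))) := by
            have : Lc i ≤ |Lc i| + 1 := by linarith [le_abs_self (Lc i)]
            have h0 := abs_nonneg (t - (q : ℝ))
            calc Lc i * |t - (q : ℝ)| ≤ (|Lc i| + 1) * |t - (q : ℝ)| := by gcongr
              _ ≤ _ := by gcongr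
        _ = ε / 4 := by field_simp
    have hc := (hG (i, q)).cauchySeq
    rw [Metric.cauchySeq_iff'] at hc
    obtain ⟨N, hN⟩ := hc (ε / 4) (by positivity)
    refine ⟨N, fun n hn => ?_⟩
    have h1 := hN n hn
    rw [dist_eq_norm] at h1 ⊢
    simp only [Function.comp] at h1
    have e : f (φ n) i t - f (φ N) i t = (f (φ n) i t - f (φ n) i q)
        + (f (φ n) i q - f (φ N) i q) - (f (φ N) i t - f (φ N) i q) := by ring
    rw [e]
    calc _ ≤ ‖f (φ n) i t - f (φ n) i q‖ + ‖f (φ n) i q - f (φ N) i q‖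
          + ‖f (φ N) i t - f (φ N) i q‖ := (norm_sub_le _ _).trans (by gcongr; exact norm_add_le _ _)
      _ < ε := by linarith [hq (φ n), hq (φ N)]
  choose F hF using key
  exact ⟨φ, hφ, F, hF⟩

lemma L_le_liminf {ι : Type*} {l : Filter ι} [l.NeBot] {f : ι → K → ℝ} {fl : K → ℝ}
    (h : ∀ k, Tendsto (fun n => f n k) l (𝓝 (fl k))) :
    L fl ≤ liminf (fun n => L (f n)) l := by
  unfold L
  rw [ENNReal.tsum_eq_iSup_sum]
  apply iSup_le
  intro s
  have h1 : Tendsto (fun n => ∑ k ∈ s, ENNReal.ofReal (f n k)) l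
      (𝓝 (∑ k ∈ s, ENNReal.ofReal (fl k))) := by
    apply tendsto_finsetSum
    intro k _
    exact (ENNReal.continuous_ofReal.tendsto _).comp (h k)
  rw [← h1.liminf_eq]
  exact liminf_le_liminf (Eventually.of_forall fun n => ENNReal.sum_le_tsum s)

lemma norm_le_sqrt_of_L {x : K → ℂ} {M : ℝ} (hM : 0 ≤ M)
    (h : L (fun k => ‖x k‖ ^ 2) ≤ ENNReal.ofReal M) (k : K) : ‖x k‖ ≤ √M := by
  apply Real.le_sqrt_of_sq_le
  exact le_of_L (f := fun k => ‖x k‖ ^ 2) hM h k

/-- Lipschitz constant of the mode `k` of `a`. -/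
def lipA (ν κ g M0 M1 : ℝ) (k : K) : ℝ :=
  |ν| * nsq k * √M1 + |κ| * (nrm k * (M1 + M1)) + |g| * √M0

/-- Lipschitz constant of the mode `k` of `θ`. -/
def lipT (κ M0 M1 : ℝ) (k : K) : ℝ := |κ| * (nrm k * (M1 + M0))

lemma lipA_nonneg {ν κ g M0 M1 : ℝ} (h1 : 0 ≤ M1) (k : K) :
    0 ≤ lipA ν κ g M0 M1 k := by
  unfold lipA
  have := nsq_nonneg k
  have := nrm_nonneg k
  positivity

lemma lipT_nonneg {κ M0 M1 : ℝ} (h0 : 0 ≤ M0) (h1 : 0 ≤ M1) (k : K) :
    0 ≤ lipT κ M0 M1 k := by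
  unfold lipT
  have := nrm_nonneg k
  positivity

lemma norm_Fa_le {ν κ g M0 M1 : ℝ} (h0 : 0 ≤ M0) (h1 : 0 ≤ M1) {c : K → K → ℝ}
    (hc : ∀ k h, |c k h| ≤ nrm k) {a θ : K → ℂ}
    (ha : L (fun k => ‖a k‖ ^ 2) ≤ ENNReal.ofReal M1)
    (hθ : L (fun k => ‖θ k‖ ^ 2) ≤ ENNReal.ofReal M0) (k : K) :
    ‖Fa ν κ g c a θ k‖ ≤ lipA ν κ g M0 M1 k := by
  unfold Fa lipA
  have e1 : ‖-((ν * nsq k : ℝ) : ℂ) * a k‖ ≤ |ν| * nsq k * √M1 := by
    rw [norm_mul, norm_neg, Complex.norm_real, Real.norm_eq_abs, abs_mul,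
      abs_of_nonneg (nsq_nonneg k)]
    have := nsq_nonneg k
    gcongr
    exact norm_le_sqrt_of_L h1 ha k
  have e2 : ‖(κ : ℂ) * Bil c a a k‖ ≤ |κ| * (nrm k * (M1 + M1)) := by
    rw [norm_mul, Complex.norm_real, Real.norm_eq_abs]
    gcongr
    exact norm_Bil_le (nrm_nonneg k) h1 h1 (hc k) ha ha
  have e3 : ‖Complex.I * ((g * fk k : ℝ) : ℂ) * θ k‖ ≤ |g| * √M0 := by
    rw [norm_mul, norm_mul, Complex.norm_I, Complex.norm_real, Real.norm_eq_abs, abs_mul, one_mul]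
    have h3 := abs_fk_le k
    have h4 := norm_le_sqrt_of_L h0 hθ k
    calc |g| * |fk k| * ‖θ k‖ ≤ |g| * 1 * √M0 := by gcongr
      _ = |g| * √M0 := by ring
  calc _ ≤ ‖-((ν * nsq k : ℝ) : ℂ) * a k‖ + ‖(κ : ℂ) * Bil c a a k‖
        + ‖Complex.I * ((g * fk k : ℝ) : ℂ) * θ k‖ :=
        (norm_sub_le _ _).trans (by gcongr; exact norm_add_le _ _)
    _ ≤ _ := by linarith

lemma norm_Ft_le {κ M0 M1 : ℝ} (h0 : 0 ≤ M0) (h1 : 0 ≤ M1) {e : K → K → ℝ}
    (he : ∀ k h, |e k h| ≤ nrm k) {a θ : K → ℂ}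
    (ha : L (fun k => ‖a k‖ ^ 2) ≤ ENNReal.ofReal M1)
    (hθ : L (fun k => ‖θ k‖ ^ 2) ≤ ENNReal.ofReal M0) (k : K) :
    ‖Ft κ e a θ k‖ ≤ lipT κ M0 M1 k := by
  unfold Ft lipT
  rw [norm_mul, Complex.norm_real, Real.norm_eq_abs]
  gcongr
  exact norm_Bil_le (nrm_nonneg k) h0 h1 (he k) ha hθ

lemma Cls.ba' {M0 M1 ν : ℝ} {J : Set ℝ} {a θ : ℝ → K → ℂ} (h : Cls M0 M1 ν J a θ) {t : ℝ}
    (ht : t ∈ J) : L (fun k => ‖a t k‖ ^ 2) ≤ ENNReal.ofReal M1 :=
  (L_a_le (h.z t ht)).trans (h.ba t ht)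

lemma continuousOn_Fa {ν κ g M0 M1 : ℝ} (h1 : 0 ≤ M1) {c : K → K → ℝ}
    (hc : ∀ k h, |c k h| ≤ nrm k) {J : Set ℝ} {a θ : ℝ → K → ℂ}
    (ca : ∀ k, ContinuousOn (fun t => a t k) J) (ct : ∀ k, ContinuousOn (fun t => θ t k) J)
    (hcl : Cls M0 M1 ν J a θ) (k : K) :
    ContinuousOn (fun τ => Fa ν κ g c (a τ) (θ τ) k) J := by
  intro t ht
  unfold ContinuousWithinAt Fa
  apply Tendsto.sub
  · apply Tendsto.add
    · exact tendsto_const_nhds.mul (ca k t ht)
    · apply tendsto_const_nhds.mul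
      refine tendsto_Bil (nrm_nonneg k) h1 h1 (Eventually.of_forall fun _ => hc k) (hc k)
        (fun h => tendsto_const_nhds) ?_ (hcl.z t ht) ?_ (hcl.ba t ht) ?_ (hcl.ba' ht)
        (fun k => ca k t ht) (fun k => ca k t ht)
      · filter_upwards [self_mem_nhdsWithin] with τ hτ using hcl.z τ hτ
      · filter_upwards [self_mem_nhdsWithin] with τ hτ using hcl.ba τ hτ
      · filter_upwards [self_mem_nhdsWithin] with τ hτ using hcl.ba' hτ
  · exact tendsto_const_nhds.mul (ct k t ht)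

lemma continuousOn_Ft {ν κ M0 M1 : ℝ} (h0 : 0 ≤ M0) (h1 : 0 ≤ M1) {e : K → K → ℝ}
    (he : ∀ k h, |e k h| ≤ nrm k) {J : Set ℝ} {a θ : ℝ → K → ℂ}
    (ca : ∀ k, ContinuousOn (fun t => a t k) J) (ct : ∀ k, ContinuousOn (fun t => θ t k) J)
    (hcl : Cls M0 M1 ν J a θ) (k : K) :
    ContinuousOn (fun τ => Ft κ e (a τ) (θ τ) k) J := by
  intro t ht
  unfold ContinuousWithinAt Ft
  apply tendsto_const_nhds.mul
  refine tendsto_Bil (nrm_nonneg k) h0 h1 (Eventually.of_forall fun _ => he k) (he k)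
    (fun h => tendsto_const_nhds) ?_ (hcl.z t ht) ?_ (hcl.ba t ht) ?_ (hcl.bt t ht)
    (fun k => ca k t ht) (fun k => ct k t ht)
  · filter_upwards [self_mem_nhdsWithin] with τ hτ using hcl.z τ hτ
  · filter_upwards [self_mem_nhdsWithin] with τ hτ using hcl.ba τ hτ
  · filter_upwards [self_mem_nhdsWithin] with τ hτ using hcl.bt τ hτ

lemma lip_a {ν κ g M0 M1 α β : ℝ} (h0 : 0 ≤ M0) (h1 : 0 ≤ M1) {c e : K → K → ℝ}
    (hc : ∀ k h, |c k h| ≤ nrm k) {a θ : ℝ → K → ℂ}
    (hs : IntSol ν κ g c e (Icc α β) a θ) (hcl : Cls M0 M1 ν (Icc α β) a θ) (k : K) {s t : ℝ}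
    (hs' : s ∈ Icc α β) (ht : t ∈ Icc α β) :
    ‖a s k - a t k‖ ≤ lipA ν κ g M0 M1 k * |s - t| := by
  wlog hst : s ≤ t generalizing s t
  · rw [norm_sub_rev, abs_sub_comm]
    exact this ht hs' (le_of_not_ge hst)
  rw [norm_sub_rev, abs_sub_comm, hs.ea k s hs' t ht hst]
  apply intervalIntegral.norm_integral_le_of_norm_le_const
  intro τ hτ
  rw [uIoc_of_le hst] at hτ
  have hτ' : τ ∈ Icc α β := ⟨hs'.1.trans hτ.1.le, hτ.2.trans ht.2⟩
  exact norm_Fa_le h0 h1 hc (hcl.ba' hτ') (hcl.bt τ hτ') k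

lemma lip_t {ν κ g M0 M1 α β : ℝ} (h0 : 0 ≤ M0) (h1 : 0 ≤ M1) {c e : K → K → ℝ}
    (he : ∀ k h, |e k h| ≤ nrm k) {a θ : ℝ → K → ℂ}
    (hs : IntSol ν κ g c e (Icc α β) a θ) (hcl : Cls M0 M1 ν (Icc α β) a θ) (k : K) {s t : ℝ}
    (hs' : s ∈ Icc α β) (ht : t ∈ Icc α β) :
    ‖θ s k - θ t k‖ ≤ lipT κ M0 M1 k * |s - t| := by
  wlog hst : s ≤ t generalizing s t
  · rw [norm_sub_rev, abs_sub_comm]
    exact this ht hs' (le_of_not_ge hst)
  rw [norm_sub_rev, abs_sub_comm, hs.et k s hs' t ht hst]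
  apply intervalIntegral.norm_integral_le_of_norm_le_const
  intro τ hτ
  rw [uIoc_of_le hst] at hτ
  have hτ' : τ ∈ Icc α β := ⟨hs'.1.trans hτ.1.le, hτ.2.trans ht.2⟩
  exact norm_Ft_le h0 h1 he (hcl.ba' hτ') (hcl.bt τ hτ') k

/-- Compactness theorem. -/
theorem compactness {ν κ g M0 M1 : ℝ} (h0 : 0 ≤ M0) (h1 : 0 ≤ M1)
    {cn en : ℕ → K → K → ℝ} {c e : K → K → ℝ}
    (hcn : ∀ n k h, |cn n k h| ≤ nrm k) (hen : ∀ n k h, |en n k h| ≤ nrm k)
    (hc : ∀ k h, |c k h| ≤ nrm k) (he : ∀ k h, |e k h| ≤ nrm k)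
    (hcl : ∀ k h, Tendsto (fun n => cn n k h) atTop (𝓝 (c k h)))
    (hel : ∀ k h, Tendsto (fun n => en n k h) atTop (𝓝 (e k h)))
    {an θn : ℕ → ℝ → K → ℂ} {α β : ℕ → ℝ} (hαβ : ∀ n, α n ≤ β n) {I : Set ℝ} (hI : I.OrdConnected)
    (hJ : ∀ t ∈ I, ∀ᶠ n in atTop, t ∈ Icc (α n) (β n))
    (hsol : ∀ n, IntSol ν κ g (cn n) (en n) (Icc (α n) (β n)) (an n) (θn n))
    (hcls : ∀ n, Cls M0 M1 ν (Icc (α n) (β n)) (an n) (θn n)) :
    ∃ φ : ℕ → ℕ, StrictMono φ ∧ ∃ a θ : ℝ → K → ℂ,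
      (∀ t ∈ I, ∀ k, Tendsto (fun n => an (φ n) t k) atTop (𝓝 (a t k))) ∧
      (∀ t ∈ I, ∀ k, Tendsto (fun n => θn (φ n) t k) atTop (𝓝 (θ t k))) ∧
      IntSol ν κ g c e I a θ ∧ Cls M0 M1 ν I a θ := by
  -- clamp the time
  set cl : ℕ → ℝ → ℝ := fun n t => max (α n) (min t (β n)) with hcldef
  have hclm : ∀ n t, cl n t ∈ Icc (α n) (β n) := by
    intro n t
    refine ⟨le_max_left _ _, max_le (hαβ n) (min_le_right _ _)⟩
  have hclL : ∀ n s t, |cl n s - cl n t| ≤ |s - t| := by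
    intro n s t
    simp only [hcldef]
    calc |max (α n) (min s (β n)) - max (α n) (min t (β n))| ≤ |min s (β n) - min t (β n)| := by
          have := abs_max_sub_max_le_abs (min s (β n)) (min t (β n)) (α n)
          rwa [max_comm (min s (β n)), max_comm (min t (β n))] at this
      _ ≤ |s - t| := by
          have := abs_min_sub_min_le_max s (β n) t (β n)
          rwa [sub_self, abs_zero, max_eq_left (abs_nonneg _)] at this
  have hcle : ∀ n t, t ∈ Icc (α n) (β n) → cl n t = t := by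
    intro n t ht
    simp only [hcldef]
    rw [min_eq_left ht.2, max_eq_right ht.1]
  -- the family
  set f : ℕ → K ⊕ K → ℝ → ℂ := fun n i t => Sum.elim (fun k => an n (cl n t) k)
    (fun k => θn n (cl n t) k) i with hf
  obtain ⟨φ, hφ, F, hF⟩ := extraction f
    (Sum.elim (fun _ => √M1) (fun _ => √M0))
    (Sum.elim (fun k => lipA ν κ g M0 M1 k) (fun k => lipT κ M0 M1 k))
    (by
      intro n i t
      rcases i with k | k
      · exact norm_le_sqrt_of_L h1 ((hcls n).ba' (hclm n t)) k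
      · exact norm_le_sqrt_of_L h0 ((hcls n).bt _ (hclm n t)) k)
    (by
      intro n i s t
      rcases i with k | k
      · refine (lip_a h0 h1 (hcn n) (hsol n) (hcls n) k (hclm n s) (hclm n t)).trans ?_
        exact mul_le_mul_of_nonneg_left (hclL n s t) (lipA_nonneg h1 k)
      · refine (lip_t h0 h1 (hen n) (hsol n) (hcls n) k (hclm n s) (hclm n t)).trans ?_
        exact mul_le_mul_of_nonneg_left (hclL n s t) (lipT_nonneg h0 h1 k))
  have hφt : Tendsto φ atTop atTop := hφ.tendsto_atTop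
  have hJφ : ∀ t ∈ I, ∀ᶠ n in atTop, t ∈ Icc (α (φ n)) (β (φ n)) := fun t ht =>
    hφt.eventually (hJ t ht)
  set a : ℝ → K → ℂ := fun t k => F (Sum.inl k) t with ha
  set θ : ℝ → K → ℂ := fun t k => F (Sum.inr k) t with hθ
  have ta : ∀ t ∈ I, ∀ k, Tendsto (fun n => an (φ n) t k) atTop (𝓝 (a t k)) := by
    intro t ht k
    refine (hF (Sum.inl k) t).congr' ?_
    filter_upwards [hJφ t ht] with n hn
    simp only [hf, Sum.elim_inl, hcle _ _ hn]
  have tt : ∀ t ∈ I, ∀ k, Tendsto (fun n => θn (φ n) t k) atTop (𝓝 (θ t k)) := by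
    intro t ht k
    refine (hF (Sum.inr k) t).congr' ?_
    filter_upwards [hJφ t ht] with n hn
    simp only [hf, Sum.elim_inr, hcle _ _ hn]
  -- bounds for the limit
  have hLa : ∀ t ∈ I, L (fun k => nsq k * ‖a t k‖ ^ 2) ≤ ENNReal.ofReal M1 := by
    intro t ht
    apply L_le_of_tendsto (l := atTop) (f := fun n k => nsq k * ‖an (φ n) t k‖ ^ 2)
    · intro k
      exact tendsto_const_nhds.mul ((ta t ht k).norm.pow 2)
    · filter_upwards [hJφ t ht] with n hn using (hcls (φ n)).ba t hn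
  have hLt : ∀ t ∈ I, L (fun k => ‖θ t k‖ ^ 2) ≤ ENNReal.ofReal M0 := by
    intro t ht
    apply L_le_of_tendsto (l := atTop) (f := fun n k => ‖θn (φ n) t k‖ ^ 2)
    · intro k
      exact (tt t ht k).norm.pow 2
    · filter_upwards [hJφ t ht] with n hn using (hcls (φ n)).bt t hn
  have hz : ∀ t ∈ I, a t 0 = 0 := by
    intro t ht
    refine tendsto_nhds_unique (ta t ht 0) (tendsto_const_nhds.congr' ?_)
    filter_upwards [hJφ t ht] with n hn
    rw [(hcls (φ n)).z t hn]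
  have hsa : ∀ t ∈ I, Sym (a t) := by
    intro t ht k
    refine tendsto_nhds_unique (ta t ht (-k)) ?_
    refine (((Complex.continuous_conj.tendsto _).comp (ta t ht k))).congr' ?_
    filter_upwards [hJφ t ht] with n hn
    exact ((hcls (φ n)).sa t hn k).symm
  have hst : ∀ t ∈ I, Sym (θ t) := by
    intro t ht k
    refine tendsto_nhds_unique (tt t ht (-k)) ?_
    refine (((Complex.continuous_conj.tendsto _).comp (tt t ht k))).congr' ?_
    filter_upwards [hJφ t ht] with n hn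
    exact ((hcls (φ n)).st t hn k).symm
  have hLa' : ∀ t ∈ I, L (fun k => ‖a t k‖ ^ 2) ≤ ENNReal.ofReal M1 := fun t ht =>
    (L_a_le (hz t ht)).trans (hLa t ht)
  -- continuity of the limit
  have hFlip_a : ∀ k s t, ‖F (Sum.inl k) s - F (Sum.inl k) t‖ ≤ lipA ν κ g M0 M1 k * |s - t| := by
    intro k s t
    refine le_of_tendsto (((hF (Sum.inl k) s).sub (hF (Sum.inl k) t)).norm)
      (Eventually.of_forall fun n => ?_)
    refine (lip_a h0 h1 (hcn (φ n)) (hsol (φ n)) (hcls (φ n)) k (hclm (φ n) s) (hclm (φ n) t)).trans ?_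
    exact mul_le_mul_of_nonneg_left (hclL (φ n) s t) (lipA_nonneg h1 k)
  have hFlip_t : ∀ k s t, ‖F (Sum.inr k) s - F (Sum.inr k) t‖ ≤ lipT κ M0 M1 k * |s - t| := by
    intro k s t
    refine le_of_tendsto (((hF (Sum.inr k) s).sub (hF (Sum.inr k) t)).norm)
      (Eventually.of_forall fun n => ?_)
    refine (lip_t h0 h1 (hen (φ n)) (hsol (φ n)) (hcls (φ n)) k (hclm (φ n) s) (hclm (φ n) t)).trans ?_
    exact mul_le_mul_of_nonneg_left (hclL (φ n) s t) (lipT_nonneg h0 h1 k)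
  have hcont_a : ∀ k, Continuous (fun t => a t k) := by
    intro k
    have : LipschitzWith (Real.toNNReal (lipA ν κ g M0 M1 k)) (fun t => a t k) := by
      apply LipschitzWith.of_dist_le_mul
      intro s t
      rw [dist_eq_norm, Real.dist_eq, Real.coe_toNNReal _ (lipA_nonneg h1 k)]
      exact hFlip_a k s t
    exact this.continuous
  have hcont_t : ∀ k, Continuous (fun t => θ t k) := by
    intro k
    have : LipschitzWith (Real.toNNReal (lipT κ M0 M1 k)) (fun t => θ t k) := by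
      apply LipschitzWith.of_dist_le_mul
      intro s t
      rw [dist_eq_norm, Real.dist_eq, Real.coe_toNNReal _ (lipT_nonneg h0 h1 k)]
      exact hFlip_t k s t
    exact this.continuous
  -- pointwise limits of the right-hand sides
  have hFa : ∀ t ∈ I, ∀ k, Tendsto (fun n => Fa ν κ g (cn (φ n)) (an (φ n) t) (θn (φ n) t) k) atTop
      (𝓝 (Fa ν κ g c (a t) (θ t) k)) := by
    intro t ht k
    unfold Fa
    apply Tendsto.sub
    · apply Tendsto.add
      · exact tendsto_const_nhds.mul (ta t ht k)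
      · apply tendsto_const_nhds.mul
        refine tendsto_Bil (nrm_nonneg k) h1 h1 (Eventually.of_forall fun n => hcn (φ n) k) (hc k)
          (fun h => (hcl k h).comp hφt) ?_ (hz t ht) ?_ (hLa t ht) ?_ (hLa' t ht)
          (ta t ht) (ta t ht)
        · filter_upwards [hJφ t ht] with n hn using (hcls (φ n)).z t hn
        · filter_upwards [hJφ t ht] with n hn using (hcls (φ n)).ba t hn
        · filter_upwards [hJφ t ht] with n hn using (hcls (φ n)).ba' hn
    · exact tendsto_const_nhds.mul (tt t ht k)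
  have hFt : ∀ t ∈ I, ∀ k, Tendsto (fun n => Ft κ (en (φ n)) (an (φ n) t) (θn (φ n) t) k) atTop
      (𝓝 (Ft κ e (a t) (θ t) k)) := by
    intro t ht k
    unfold Ft
    apply tendsto_const_nhds.mul
    refine tendsto_Bil (nrm_nonneg k) h0 h1 (Eventually.of_forall fun n => hen (φ n) k) (he k)
      (fun h => (hel k h).comp hφt) ?_ (hz t ht) ?_ (hLa t ht) ?_ (hLt t ht)
      (ta t ht) (tt t ht)
    · filter_upwards [hJφ t ht] with n hn using (hcls (φ n)).z t hn
    · filter_upwards [hJφ t ht] with n hn using (hcls (φ n)).ba t hn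
    · filter_upwards [hJφ t ht] with n hn using (hcls (φ n)).bt t hn
  refine ⟨φ, hφ, a, θ, ta, tt, ⟨fun k => (hcont_a k).continuousOn, fun k => (hcont_t k).continuousOn,
    ?_, ?_⟩, ⟨hsa, hst, hz, hLt, hLa, ?_⟩⟩
  · intro k s hs t ht hst
    have hIcc : Icc s t ⊆ I := hI.out hs ht
    have hlim : Tendsto (fun n => ∫ τ in s..t, Fa ν κ g (cn (φ n)) (an (φ n) τ) (θn (φ n) τ) k) atTop
        (𝓝 (∫ τ in s..t, Fa ν κ g c (a τ) (θ τ) k)) := by
      apply intervalIntegral.tendsto_integral_filter_of_dominated_convergence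
        (fun _ => lipA ν κ g M0 M1 k)
      · filter_upwards [hJφ s hs, hJφ t ht] with n hn1 hn2
        have hsub : Icc s t ⊆ Icc (α (φ n)) (β (φ n)) := Icc_subset_Icc hn1.1 hn2.2
        rw [uIoc_of_le hst]
        exact ((continuousOn_Fa h1 (hcn (φ n)) (hsol (φ n)).ca (hsol (φ n)).ct (hcls (φ n)) k).mono
          (Ioc_subset_Icc_self.trans hsub)).aestronglyMeasurable measurableSet_Ioc
      · filter_upwards [hJφ s hs, hJφ t ht] with n hn1 hn2
        refine Eventually.of_forall fun τ hτ => ?_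
        rw [uIoc_of_le hst] at hτ
        have hτ' : τ ∈ Icc (α (φ n)) (β (φ n)) := ⟨hn1.1.trans hτ.1.le, hτ.2.trans hn2.2⟩
        exact norm_Fa_le h0 h1 (hcn (φ n)) ((hcls (φ n)).ba' hτ') ((hcls (φ n)).bt τ hτ') k
      · exact intervalIntegrable_const
      · refine Eventually.of_forall fun τ hτ => ?_
        rw [uIoc_of_le hst] at hτ
        exact hFa τ (hIcc ⟨hτ.1.le, hτ.2⟩) k
    refine tendsto_nhds_unique ((ta t ht k).sub (ta s hs k)) (hlim.congr' ?_)
    filter_upwards [hJφ s hs, hJφ t ht] with n hn1 hn2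
    exact ((hsol (φ n)).ea k s hn1 t hn2 hst).symm
  · intro k s hs t ht hst
    have hIcc : Icc s t ⊆ I := hI.out hs ht
    have hlim : Tendsto (fun n => ∫ τ in s..t, Ft κ (en (φ n)) (an (φ n) τ) (θn (φ n) τ) k) atTop
        (𝓝 (∫ τ in s..t, Ft κ e (a τ) (θ τ) k)) := by
      apply intervalIntegral.tendsto_integral_filter_of_dominated_convergence
        (fun _ => lipT κ M0 M1 k)
      · filter_upwards [hJφ s hs, hJφ t ht] with n hn1 hn2
        have hsub : Icc s t ⊆ Icc (α (φ n)) (β (φ n)) := Icc_subset_Icc hn1.1 hn2.2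
        rw [uIoc_of_le hst]
        exact ((continuousOn_Ft h0 h1 (hen (φ n)) (hsol (φ n)).ca (hsol (φ n)).ct (hcls (φ n)) k).mono
          (Ioc_subset_Icc_self.trans hsub)).aestronglyMeasurable measurableSet_Ioc
      · filter_upwards [hJφ s hs, hJφ t ht] with n hn1 hn2
        refine Eventually.of_forall fun τ hτ => ?_
        rw [uIoc_of_le hst] at hτ
        have hτ' : τ ∈ Icc (α (φ n)) (β (φ n)) := ⟨hn1.1.trans hτ.1.le, hτ.2.trans hn2.2⟩
        exact norm_Ft_le h0 h1 (hen (φ n)) ((hcls (φ n)).ba' hτ') ((hcls (φ n)).bt τ hτ') k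
      · exact intervalIntegrable_const
      · refine Eventually.of_forall fun τ hτ => ?_
        rw [uIoc_of_le hst] at hτ
        exact hFt τ (hIcc ⟨hτ.1.le, hτ.2⟩) k
    refine tendsto_nhds_unique ((tt t ht k).sub (tt s hs k)) (hlim.congr' ?_)
    filter_upwards [hJφ s hs, hJφ t ht] with n hn1 hn2
    exact ((hsol (φ n)).et k s hn1 t hn2 hst).symm
  · intro s hs t ht hst
    have hIcc : Icc s t ⊆ I := hI.out hs ht
    -- Fatou
    set G : ℕ → ℝ → ℝ≥0∞ := fun n τ => L (fun k => nsq k ^ 2 * ‖f (φ n) (Sum.inl k) τ‖ ^ 2) with hG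
    have hptw : ∀ τ, L (fun k => nsq k ^ 2 * ‖a τ k‖ ^ 2) ≤ liminf (fun n => G n τ) atTop := by
      intro τ
      apply L_le_liminf
      intro k
      exact tendsto_const_nhds.mul ((hF (Sum.inl k) τ).norm.pow 2)
    have hmeas : ∀ n, AEMeasurable (G n) (volume.restrict (Icc s t)) := by
      intro n
      apply AEMeasurable.tsum
      intro k
      apply AEMeasurable.ennreal_ofReal
      apply Continuous.aemeasurable
      have hcf : Continuous (fun τ => f (φ n) (Sum.inl k) τ) := by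
        have : LipschitzWith (Real.toNNReal (lipA ν κ g M0 M1 k))
            (fun τ => f (φ n) (Sum.inl k) τ) := by
          apply LipschitzWith.of_dist_le_mul
          intro s t
          rw [dist_eq_norm, Real.dist_eq, Real.coe_toNNReal _ (lipA_nonneg h1 k)]
          refine (lip_a h0 h1 (hcn (φ n)) (hsol (φ n)) (hcls (φ n)) k (hclm (φ n) s)
            (hclm (φ n) t)).trans ?_
          exact mul_le_mul_of_nonneg_left (hclL (φ n) s t) (lipA_nonneg h1 k)
        exact this.continuous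
      exact continuous_const.mul (hcf.norm.pow 2)
    calc ∫⁻ τ in Icc s t, L (fun k => nsq k ^ 2 * ‖a τ k‖ ^ 2)
        ≤ ∫⁻ τ in Icc s t, liminf (fun n => G n τ) atTop := lintegral_mono fun τ => hptw τ
      _ ≤ liminf (fun n => ∫⁻ τ in Icc s t, G n τ) atTop := lintegral_liminf_le' hmeas
      _ ≤ ENNReal.ofReal (M1 / ν + M1 * (t - s)) := by
          apply liminf_le_of_frequently_le'
          apply Eventually.frequently
          filter_upwards [hJφ s hs, hJφ t ht] with n hn1 hn2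
          have e : ∫⁻ τ in Icc s t, G n τ =
              ∫⁻ τ in Icc s t, L (fun k => nsq k ^ 2 * ‖an (φ n) τ k‖ ^ 2) := by
            apply setLIntegral_congr_fun measurableSet_Icc
            intro τ hτ
            have hτ' : τ ∈ Icc (α (φ n)) (β (φ n)) := ⟨hn1.1.trans hτ.1, hτ.2.trans hn2.2⟩
            simp only [hG, hf, Sum.elim_inl, hcle _ _ hτ']
          rw [e]
          exact (hcls (φ n)).bi s hn1 t hn2 hst

end

end Pancake
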