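import Pool.Agent.Pancake.Energy

/-!
# MP_771030_an: the two inclusions, in sequence space
-/

namespace Pancake

open Set Filter Topology MeasureTheory
open scoped ENNReal NNReal ComplexConjugate Interval

noncomputable section

/-- Weak solutions on the time set `J`. -/
structure Weak (ν κ g : ℝ) (J : Set ℝ) (a θ : ℝ → K → ℂ) : Prop where
  int : IntSol ν κ g ck ek J a θ
  sa : ∀ t ∈ J, Sym (a t)
  st : ∀ t ∈ J, Sym (θ t)
  z : ∀ t ∈ J, a t 0 = 0
  bd : ∀ s ∈ J, ∀ t ∈ J, s ≤ t → ∃ M : ℝ, ∀ τ ∈ Icc s t,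
    L (fun k => ‖a τ k‖ ^ 2) ≤ ENNReal.ofReal M ∧ L (fun k => ‖θ τ k‖ ^ 2) ≤ ENNReal.ofReal M
  h1 : ∀ s ∈ J, ∀ t ∈ J, s ≤ t → ∫⁻ τ in Icc s t, L (fun k => nsq k * ‖a τ k‖ ^ 2) ≠ ∞

variable {ν κ g M M0 M1 s t T : ℝ} {J : Set ℝ} {a θ a1 θ1 a2 θ2 : ℝ → K → ℂ}

lemma IntSol.mono {c e : K → K → ℝ} (I : IntSol ν κ g c e J a θ) {J' : Set ℝ} (h : J' ⊆ J) :
    IntSol ν κ g c e J' a θ :=
  ⟨fun k => (I.ca k).mono h, fun k => (I.ct k).mono h,
    fun k x hx y hy hxy => I.ea k x (h hx) y (h hy) hxy,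
    fun k x hx y hy hxy => I.et k x (h hx) y (h hy) hxy⟩

lemma Cls.mono (C : Cls M0 M1 ν J a θ) {J' : Set ℝ} (h : J' ⊆ J) : Cls M0 M1 ν J' a θ :=
  ⟨fun t ht => C.sa t (h ht), fun t ht => C.st t (h ht), fun t ht => C.z t (h ht),
    fun t ht => C.bt t (h ht), fun t ht => C.ba t (h ht),
    fun s hs t ht hst => C.bi s (h hs) t (h ht) hst⟩

lemma Weak.wb (W : Weak ν κ g J a θ) (hJ : J.OrdConnected) (hs : s ∈ J) (ht : t ∈ J)
    (hst : s ≤ t) : ∃ M, WB ν κ g M s t a θ := by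
  obtain ⟨M, hM⟩ := W.bd s hs t ht hst
  have hsub : Icc s t ⊆ J := hJ.out hs ht
  exact ⟨M, W.int.mono hsub, fun τ hτ => W.sa τ (hsub hτ), fun τ hτ => W.st τ (hsub hτ),
    fun τ hτ => W.z τ (hsub hτ), fun τ hτ => (hM τ hτ).1, fun τ hτ => (hM τ hτ).2,
    W.h1 s hs t ht hst⟩

/-- Time shift of the integral form. -/
lemma IntSol.shift {c e : K → K → ℝ} (I : IntSol ν κ g c e J a θ) (p : ℝ) :
    IntSol ν κ g c e ((fun t => t + p) ⁻¹' J) (fun t => a (t + p)) (fun t => θ (t + p)) := by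
  refine ⟨fun k => ?_, fun k => ?_, ?_, ?_⟩
  · exact (I.ca k).comp (continuous_add_const p).continuousOn (fun t ht => ht)
  · exact (I.ct k).comp (continuous_add_const p).continuousOn (fun t ht => ht)
  · intro k x hx y hy hxy
    have := I.ea k (x + p) hx (y + p) hy (by linarith)
    rw [this]
    exact (intervalIntegral.integral_comp_add_right
      (fun τ => Fa ν κ g c (a τ) (θ τ) k) p).symm
  · intro k x hx y hy hxy
    have := I.et k (x + p) hx (y + p) hy (by linarith)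
    rw [this]
    exact (intervalIntegral.integral_comp_add_right
      (fun τ => Ft κ e (a τ) (θ τ) k) p).symm

lemma lintegral_shift (f : ℝ → ℝ≥0∞) (s t p : ℝ) :
    ∫⁻ τ in Icc s t, f (τ + p) = ∫⁻ τ in Icc (s + p) (t + p), f τ := by
  have e : (fun τ => τ + p) ⁻¹' (Icc (s + p) (t + p)) = Icc s t := by
    ext x; simp
  have h := (measurePreserving_add_right (volume : Measure ℝ) p).setLIntegral_comp_preimage_emb
    (measurableEmbedding_addRight p) f (Icc (s + p) (t + p))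
  rw [e] at h
  exact h

lemma Cls.shift (C : Cls M0 M1 ν J a θ) (p : ℝ) :
    Cls M0 M1 ν ((fun t => t + p) ⁻¹' J) (fun t => a (t + p)) (fun t => θ (t + p)) := by
  refine ⟨fun t ht => C.sa _ ht, fun t ht => C.st _ ht, fun t ht => C.z _ ht,
    fun t ht => C.bt _ ht, fun t ht => C.ba _ ht, ?_⟩
  intro s hs t ht hst
  rw [lintegral_shift (fun τ => L (fun k => nsq k ^ 2 * ‖a τ k‖ ^ 2))]
  have := C.bi (s + p) hs (t + p) ht (by linarith)
  rwa [show t + p - (s + p) = t - s by ring] at this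

lemma WB.shift (W : WB ν κ g M s t a θ) (p : ℝ) :
    WB ν κ g M (s - p) (t - p) (fun τ => a (τ + p)) (fun τ => θ (τ + p)) := by
  have e : (fun τ => τ + p) ⁻¹' (Icc s t) = Icc (s - p) (t - p) := by
    ext x; simp only [mem_preimage, mem_Icc]; constructor <;> rintro ⟨h1, h2⟩ <;> constructor <;> linarith
  have hm : ∀ τ ∈ Icc (s - p) (t - p), τ + p ∈ Icc s t := by
    intro τ hτ
    rw [← e] at hτ
    exact hτ
  refine ⟨by rw [← e]; exact W.int.shift p, fun τ hτ => W.sa _ (hm τ hτ),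
    fun τ hτ => W.st _ (hm τ hτ), fun τ hτ => W.z _ (hm τ hτ), fun τ hτ => W.ba _ (hm τ hτ),
    fun τ hτ => W.bt _ (hm τ hτ), ?_⟩
  rw [lintegral_shift (fun τ => L (fun k => nsq k * ‖a τ k‖ ^ 2)), sub_add_cancel, sub_add_cancel]
  exact W.h1

/-- A strong solution is a weak solution. -/
lemma Cls.weak (hJ : J.OrdConnected) (I : IntSol ν κ g ck ek J a θ) (C : Cls M0 M1 ν J a θ) :
    Weak ν κ g J a θ := by
  refine ⟨I, C.sa, C.st, C.z, ?_, ?_⟩
  · intro s hs t ht _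
    refine ⟨max M0 M1, fun τ hτ => ?_⟩
    have hτ' := hJ.out hs ht hτ
    exact ⟨(C.ba' hτ').trans (ENNReal.ofReal_le_ofReal (le_max_right _ _)),
      (C.bt τ hτ').trans (ENNReal.ofReal_le_ofReal (le_max_left _ _))⟩
  · intro s hs t ht _
    have hsub : Icc s t ⊆ J := hJ.out hs ht
    exact (Cls.toWB (I.mono hsub) (C.mono hsub) (le_max_left M0 M1) (le_max_right M0 M1)).h1

/-- Weak solutions with regular data are strong. -/
theorem weak_strong (hν : 0 < ν) (h0 : 0 ≤ M0) (h1 : 0 ≤ M1) (hM : g ^ 2 * M0 ≤ ν ^ 2 * M1)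
    (W : Weak ν κ g (Ici 0) a θ)
    (hb0 : L (fun k => nsq k * ‖a 0 k‖ ^ 2) ≤ ENNReal.ofReal M1)
    (hbθ : L (fun k => ‖θ 0 k‖ ^ 2) ≤ ENNReal.ofReal M0) : Cls M0 M1 ν (Ici 0) a θ := by
  obtain ⟨a1, θ1, ha1, hθ1, I1, C1⟩ := exist_strong (κ := κ) hν h0 h1 hM (W.sa 0 self_mem_Ici)
    (W.st 0 self_mem_Ici) (W.z 0 self_mem_Ici) hb0 hbθ
  have key : ∀ t ∈ Ici (0 : ℝ), a1 t = a t ∧ θ1 t = θ t := by
    intro t ht
    obtain ⟨M, hW⟩ := W.wb ordConnected_Ici (self_mem_Ici (a := (0 : ℝ))) ht ht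
    have hsub : Icc 0 t ⊆ Ici (0 : ℝ) := fun x hx => hx.1
    exact uniq hν ht (I1.mono hsub) (C1.mono hsub) hW ha1 hθ1 t ⟨ht, le_rfl⟩
  refine ⟨W.sa, W.st, W.z, ?_, ?_, ?_⟩
  · intro t ht
    rw [← (key t ht).2]
    exact C1.bt t ht
  · intro t ht
    rw [← (key t ht).1]
    exact C1.ba t ht
  · intro s hs t ht hst
    have e : ∫⁻ τ in Icc s t, L (fun k => nsq k ^ 2 * ‖a τ k‖ ^ 2) =
        ∫⁻ τ in Icc s t, L (fun k => nsq k ^ 2 * ‖a1 τ k‖ ^ 2) := by
      apply setLIntegral_congr_fun measurableSet_Icc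
      intro τ hτ
      have hτ' : τ ∈ Ici (0 : ℝ) := (mem_Ici.mp hs).trans hτ.1
      simp only [(key τ hτ').1]
    rw [e]
    exact C1.bi s hs t ht hst

/-- Uniqueness of weak solutions with regular data. -/
theorem weak_unique (hν : 0 < ν) {a θ b η : ℝ → K → ℂ} (W1 : Weak ν κ g (Ici 0) a θ)
    (W2 : Weak ν κ g (Ici 0) b η) (hb0 : L (fun k => nsq k * ‖a 0 k‖ ^ 2) ≠ ∞)
    (hbθ : L (fun k => ‖θ 0 k‖ ^ 2) ≠ ∞)
    (ha : a 0 = b 0) (hθ : θ 0 = η 0) : ∀ t ∈ Ici (0 : ℝ), a t = b t ∧ θ t = η t := by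
  set M0 : ℝ := (L (fun k => ‖θ 0 k‖ ^ 2)).toReal with hM0
  set M1 : ℝ := (L (fun k => nsq k * ‖a 0 k‖ ^ 2)).toReal + g ^ 2 * M0 / ν ^ 2 with hM1
  have h0 : 0 ≤ M0 := ENNReal.toReal_nonneg
  have h1' : 0 ≤ (L (fun k => nsq k * ‖a 0 k‖ ^ 2)).toReal := ENNReal.toReal_nonneg
  have h2 : 0 ≤ g ^ 2 * M0 / ν ^ 2 := by positivity
  have h1 : 0 ≤ M1 := by rw [hM1]; positivity
  have hM : g ^ 2 * M0 ≤ ν ^ 2 * M1 := by
    have e : ν ^ 2 * (g ^ 2 * M0 / ν ^ 2) = g ^ 2 * M0 := by field_simp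
    rw [hM1, mul_add, e]
    have : 0 ≤ ν ^ 2 * (L (fun k => nsq k * ‖a 0 k‖ ^ 2)).toReal := by positivity
    linarith
  have C1 := weak_strong (κ := κ) hν h0 h1 hM W1 (by
    rw [hM1]
    calc L (fun k => nsq k * ‖a 0 k‖ ^ 2)
        = ENNReal.ofReal (L (fun k => nsq k * ‖a 0 k‖ ^ 2)).toReal := (ENNReal.ofReal_toReal hb0).symm
      _ ≤ _ := ENNReal.ofReal_le_ofReal (by linarith)) (by rw [hM0, ENNReal.ofReal_toReal hbθ])
  intro t ht
  obtain ⟨M, hW⟩ := W2.wb ordConnected_Ici (self_mem_Ici (a := (0 : ℝ))) ht ht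
  have hsub : Icc 0 t ⊆ Ici (0 : ℝ) := fun x hx => hx.1
  exact uniq hν ht (W1.int.mono hsub) (C1.mono hsub) hW ha hθ t ⟨ht, le_rfl⟩

/-- The inclusion `⊇` in sequence space. -/
theorem core_sup (hν : 0 < ν) (h0 : 0 ≤ M0) (h1 : 0 ≤ M1) (hM : g ^ 2 * M0 ≤ ν ^ 2 * M1)
    {an θn : ℕ → ℝ → K → ℂ} {tn : ℕ → ℝ} (htn : ∀ n : ℕ, (n : ℝ) ≤ tn n)
    (W : ∀ n, Weak ν κ g (Ici 0) (an n) (θn n))
    (hb0 : ∀ n, L (fun k => nsq k * ‖an n 0 k‖ ^ 2) ≤ ENNReal.ofReal M1)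
    (hbθ : ∀ n, L (fun k => ‖θn n 0 k‖ ^ 2) ≤ ENNReal.ofReal M0)
    {y η : K → ℂ} (hy : ∀ k, Tendsto (fun n => an n (tn n) k) atTop (𝓝 (y k)))
    (hη : ∀ k, Tendsto (fun n => θn n (tn n) k) atTop (𝓝 (η k))) :
    ∃ a θ : ℝ → K → ℂ, a 0 = y ∧ θ 0 = η ∧ IntSol ν κ g ck ek univ a θ ∧ Cls M0 M1 ν univ a θ := by
  have hC : ∀ n, Cls M0 M1 ν (Ici 0) (an n) (θn n) := fun n =>
    weak_strong hν h0 h1 hM (W n) (hb0 n) (hbθ n)
  have htn0 : ∀ n, 0 ≤ tn n := fun n => (Nat.cast_nonneg n).trans (htn n)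
  have hsub : ∀ n, Icc (-(tn n)) (n : ℝ) ⊆ (fun t => t + tn n) ⁻¹' (Ici 0) := by
    intro n x hx
    simp only [mem_preimage, mem_Ici]
    linarith [hx.1]
  obtain ⟨φ, hφ, a, θ, ta, tt, hS, hCl⟩ := compactness h0 h1
    (cn := fun _ => ck) (en := fun _ => ek) (c := ck) (e := ek)
    (fun n => abs_ck_le) (fun n => abs_ek_le_left) abs_ck_le abs_ek_le_left
    (fun k h => tendsto_const_nhds) (fun k h => tendsto_const_nhds)
    (an := fun n t => an n (t + tn n)) (θn := fun n t => θn n (t + tn n))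
    (α := fun n => -(tn n)) (β := fun n => (n : ℝ))
    (fun n => by have := htn0 n; have : (0 : ℝ) ≤ n := Nat.cast_nonneg n; linarith)
    (I := univ) ordConnected_univ
    (fun t _ => by
      filter_upwards [tendsto_natCast_atTop_atTop.eventually_ge_atTop |t|] with n hn
      have h3 := htn n
      have h4 := neg_abs_le t
      have h5 := le_abs_self t
      exact ⟨by linarith, by linarith⟩)
    (fun n => ((W n).int.shift (tn n)).mono (hsub n))
    (fun n => ((hC n).shift (tn n)).mono (hsub n))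
  refine ⟨a, θ, ?_, ?_, hS, hCl⟩
  · funext k
    refine tendsto_nhds_unique (ta 0 (mem_univ _) k) ?_
    have := (hy k).comp hφ.tendsto_atTop
    simpa [Function.comp_def] using this
  · funext k
    refine tendsto_nhds_unique (tt 0 (mem_univ _) k) ?_
    have := (hη k).comp hφ.tendsto_atTop
    simpa [Function.comp_def] using this

/-! ### The high frequency perturbation -/

/-- The frequency `(j + 1, 0)`. -/
def qf (j : ℕ) : K := ![(j : ℤ) + 1, 0]

lemma qf_zero (j : ℕ) : qf j 0 = (j : ℤ) + 1 := rfl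

lemma qf_ne_zero (j : ℕ) : qf j ≠ 0 := by
  intro h
  have := congrFun h 0
  rw [qf_zero, Pi.zero_apply] at this
  omega

lemma qf_ne_neg (j : ℕ) : qf j ≠ -qf j := by
  intro h
  have := congrFun h 0
  rw [Pi.neg_apply, qf_zero] at this
  omega

lemma eventually_ne_qf (k : K) : ∀ᶠ j in atTop, ¬ (k = qf j ∨ k = -qf j) := by
  filter_upwards [eventually_ge_atTop (k 0).natAbs] with j hj
  rintro (h | h)
  · have := congrFun h 0
    rw [qf_zero] at this
    omega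
  · have := congrFun h 0
    rw [Pi.neg_apply, qf_zero] at this
    omega

open Classical in
/-- Replace the modes `± q` so as to raise the squared norm by `2 d`. -/
def repl (θ : K → ℂ) (q : K) (d : ℝ) (k : K) : ℂ :=
  if k = q ∨ k = -q then ((√(‖θ q‖ ^ 2 + d) : ℝ) : ℂ) else θ k

lemma repl_sym {θ : K → ℂ} (h : Sym θ) (q : K) (d : ℝ) : Sym (repl θ q d) := by
  intro k
  unfold repl
  by_cases hk : k = q ∨ k = -q
  · have hk' : -k = q ∨ -k = -q := by
      rcases hk with hk | hk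
      · right; rw [hk]
      · left; rw [hk, neg_neg]
    rw [if_pos hk, if_pos hk', Complex.conj_ofReal]
  · have hk' : ¬ (-k = q ∨ -k = -q) := by
      rintro (h1 | h1)
      · exact hk (Or.inr (by rw [← h1, neg_neg]))
      · exact hk (Or.inl (neg_injective h1))
    rw [if_neg hk, if_neg hk']
    exact h k

lemma repl_hasSum {θ : K → ℂ} (h : Sym θ) {q : K} (hq : q ≠ -q) {d m : ℝ} (hd : 0 ≤ d)
    (hs : HasSum (fun k => ‖θ k‖ ^ 2) m) : HasSum (fun k => ‖repl θ q d k‖ ^ 2) (m + d + d) := by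
  classical
  have h1 := (hs.add (hasSum_ite_eq q d)).add (hasSum_ite_eq (-q) d)
  refine h1.congr_fun ?_
  intro k
  have hsq : ‖((√(‖θ q‖ ^ 2 + d) : ℝ) : ℂ)‖ ^ 2 = ‖θ q‖ ^ 2 + d := by
    rw [Complex.norm_real, Real.norm_eq_abs, sq_abs, Real.sq_sqrt (by positivity)]
  unfold repl
  by_cases h1 : k = q
  · have h2 : k ≠ -q := by rw [h1]; exact hq
    rw [if_pos (Or.inl h1), hsq, if_pos h1, if_neg h2, h1, add_zero]
  · by_cases h2 : k = -q
    · rw [if_pos (Or.inr h2), hsq, if_neg h1, if_pos h2, h2, h q, Complex.norm_conj, add_zero]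
    · rw [if_neg (by tauto), if_neg h1, if_neg h2, add_zero, add_zero]

/-- The inclusion `⊆` in sequence space. -/
theorem core_sub (hν : 0 < ν) (hM : 1 ≤ M) (W : Weak ν κ g univ a θ)
    (hbd : ∀ t, L (fun k => ‖a t k‖ ^ 2) ≤ ENNReal.ofReal M ∧
      L (fun k => ‖θ t k‖ ^ 2) ≤ ENNReal.ofReal M)
    {C : ℝ} (hM0 : M ≤ M0) (hC : M / ν * (1 + 8 * g ^ 2 / ν) ≤ C) (n : ℕ) :
    ∃ T : ℝ, n ≤ T ∧ ∃ aj θj : ℕ → ℝ → K → ℂ,
      (∀ j, Weak ν κ g (Ici 0) (aj j) (θj j)) ∧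
      (∀ j, L (fun k => nsq k * ‖aj j 0 k‖ ^ 2) ≤ ENNReal.ofReal C) ∧
      (∀ j, L (fun k => ‖θj j 0 k‖ ^ 2) = ENNReal.ofReal M0) ∧
      (∀ j, θj j 0 0 = θ 0 0) ∧
      (∀ k, Tendsto (fun j => aj j T k) atTop (𝓝 (a 0 k))) ∧
      (∀ k, Tendsto (fun j => θj j T k) atTop (𝓝 (θ 0 k))) ∧
      ∃ B : ℝ, ∀ j, Cls M0 B ν (Ici 0) (aj j) (θj j) := by
  have hM00 : 0 ≤ M0 := by linarith
  -- a good initial time
  have hWB : WB ν κ g M (-(n : ℝ) - 1) (-(n : ℝ) - 1 + 1) a θ := by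
    refine ⟨W.int.mono (subset_univ _), fun τ _ => W.sa τ (mem_univ _),
      fun τ _ => W.st τ (mem_univ _), fun τ _ => W.z τ (mem_univ _), fun τ _ => (hbd τ).1,
      fun τ _ => (hbd τ).2, W.h1 _ (mem_univ _) _ (mem_univ _) (by linarith)⟩
  obtain ⟨τ, hτ, hτ1⟩ := exists_time hν hM hWB
  have hτn : τ ≤ -(n : ℝ) := by linarith [hτ.2]
  have hτ0 : 0 ≤ -τ := by have : (0 : ℝ) ≤ n := Nat.cast_nonneg n; linarith
  set M1 : ℝ := C + g ^ 2 * M0 / ν ^ 2 with hM1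
  have hC0 : 0 ≤ C := le_trans (by positivity) hC
  have hM10 : 0 ≤ M1 := by positivity
  have hM1' : g ^ 2 * M0 ≤ ν ^ 2 * M1 := by
    have e : ν ^ 2 * (g ^ 2 * M0 / ν ^ 2) = g ^ 2 * M0 := by field_simp
    rw [hM1, mul_add, e]
    have : 0 ≤ ν ^ 2 * C := by positivity
    linarith
  have hCM1 : C ≤ M1 := by
    rw [hM1]
    have : 0 ≤ g ^ 2 * M0 / ν ^ 2 := by positivity
    linarith
  -- the squared norm of the temperature
  have hθs : Summable (fun k => ‖θ τ k‖ ^ 2) :=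
    summable_of_L (fun k => by positivity) (ofReal_ne (hbd τ).2)
  set m : ℝ := ∑' k, ‖θ τ k‖ ^ 2 with hm
  have hmM : m ≤ M := tsum_le_of_L (fun k => by positivity) (by linarith) (hbd τ).2
  set d : ℝ := (M0 - m) / 2 with hd
  have hd0 : 0 ≤ d := by rw [hd]; linarith
  have hnew : ∀ j, L (fun k => ‖repl (θ τ) (qf j) d k‖ ^ 2) = ENNReal.ofReal M0 := by
    intro j
    have h1 := repl_hasSum (W.st τ (mem_univ _)) (qf_ne_neg j) hd0 hθs.hasSum
    have h2 : m + d + d = M0 := by rw [hd]; ring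
    rw [← hm, h2] at h1
    unfold L
    rw [← ENNReal.ofReal_tsum_of_nonneg (fun k => by positivity) h1.summable, h1.tsum_eq]
  choose aj θj haj hθj Ij Cj using fun j : ℕ =>
    exist_strong (κ := κ) hν hM00 hM10 hM1' (W.sa τ (mem_univ _))
      (repl_sym (W.st τ (mem_univ _)) (qf j) d) (W.z τ (mem_univ _))
      (hτ1.trans (ENNReal.ofReal_le_ofReal (hC.trans hCM1))) (hnew j).le
  obtain ⟨φ, hφ, b, η, ta, tt, hS, hCl⟩ := compactness hM00 hM10
    (cn := fun _ => ck) (en := fun _ => ek) (c := ck) (e := ek)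
    (fun n => abs_ck_le) (fun n => abs_ek_le_left) abs_ck_le abs_ek_le_left
    (fun k h => tendsto_const_nhds) (fun k h => tendsto_const_nhds)
    (an := aj) (θn := θj)
    (α := fun _ => 0) (β := fun n => (n : ℝ))
    (fun n => Nat.cast_nonneg n)
    (I := Ici 0) ordConnected_Ici
    (fun t ht => by
      filter_upwards [tendsto_natCast_atTop_atTop.eventually_ge_atTop t] with n hn
      exact ⟨ht, hn⟩)
    (fun n => (Ij n).mono fun x hx => hx.1)
    (fun n => (Cj n).mono fun x hx => hx.1)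
  have hb0 : b 0 = a τ := by
    funext k
    refine tendsto_nhds_unique (ta 0 self_mem_Ici k) (tendsto_const_nhds.congr' ?_)
    exact Eventually.of_forall fun j => by simp only [haj]
  have hη0 : η 0 = θ τ := by
    funext k
    refine tendsto_nhds_unique (tt 0 self_mem_Ici k) (tendsto_const_nhds.congr' ?_)
    filter_upwards [hφ.tendsto_atTop.eventually (eventually_ne_qf k)] with j hj
    simp only [hθj, repl, if_neg hj]
  -- compare with the given trajectory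
  have hWB2 : WB ν κ g M τ (τ + -τ) a θ := by
    refine ⟨W.int.mono (subset_univ _), fun τ _ => W.sa τ (mem_univ _),
      fun τ _ => W.st τ (mem_univ _), fun τ _ => W.z τ (mem_univ _), fun τ _ => (hbd τ).1,
      fun τ _ => (hbd τ).2, W.h1 _ (mem_univ _) _ (mem_univ _) (by linarith)⟩
  have hWB3 := hWB2.shift τ
  rw [sub_self, show τ + -τ - τ = -τ by ring] at hWB3
  have hsub : Icc 0 (-τ) ⊆ Ici (0 : ℝ) := fun x hx => hx.1
  have huniq := uniq hν hτ0 (hS.mono hsub) (hCl.mono hsub) hWB3 (by rw [hb0]; simp)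
    (by rw [hη0]; simp) (-τ) ⟨hτ0, le_rfl⟩
  simp only [neg_add_cancel] at huniq
  refine ⟨-τ, by linarith, fun j => aj (φ j), fun j => θj (φ j), ?_, ?_, ?_, ?_, ?_, ?_,
    M1, fun j => Cj (φ j)⟩
  · intro j
    exact Cls.weak ordConnected_Ici (Ij (φ j)) (Cj (φ j))
  · intro j
    simp only [haj]
    exact hτ1.trans (ENNReal.ofReal_le_ofReal hC)
  · intro j
    simp only [hθj]
    exact hnew (φ j)
  · intro j
    simp only [hθj]
    have h1 : ¬ ((0 : K) = qf (φ j) ∨ (0 : K) = -qf (φ j)) := by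
      rintro (h | h)
      · exact qf_ne_zero _ h.symm
      · exact qf_ne_zero (φ j) (neg_eq_zero.mp h.symm)
    simp only [repl, if_neg h1]
    exact (zero_mode W.int (mem_univ τ) (mem_univ 0) (by linarith)).symm
  · intro k
    have := ta (-τ) hτ0 k
    rwa [huniq.1] at this
  · intro k
    have := tt (-τ) hτ0 k
    rwa [huniq.2] at this

end

end Pancake
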