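import Mathlib

/-!
# MP_771030_an: definitions

The semi-dissipative two-dimensional Boussinesq system on the periodic box `Ω = [0, L]²`.
-/

namespace Pancake

open MeasureTheory Set
open scoped ENNReal Real

noncomputable section

/-- The periodic box `Ω = [0, L]²`. -/
def Om (L : ℝ) : Set (Fin 2 → ℝ) := Icc 0 (fun _ => L)

/-- Lebesgue measure on `Ω`. -/
abbrev mu (L : ℝ) : Measure (Fin 2 → ℝ) := (volume : Measure (Fin 2 → ℝ)).restrict (Om L)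

/-- The space `L²(Ω)` of real valued square integrable functions on `Ω`. -/
abbrev E (L : ℝ) : Type := Lp ℝ 2 (mu L)

/-- The value at `y` of (a representative of) `f ∈ L²(Ω)`. -/
def ev (L : ℝ) (f : E L) (y : Fin 2 → ℝ) : ℝ := f y

/-- Triples `(u₁, u₂, θ)` of functions in `L²(Ω)`, that is `L²(Ω)² × L²(Ω)`. -/
abbrev St (L : ℝ) : Type := E L × E L × E L

/-- The inner product `⟨a, x⟩` of the Hilbert space `L²(Ω)² × L²(Ω)`. -/
def ip (L : ℝ) (a x : St L) : ℝ := inner ℝ a.1 x.1 + inner ℝ a.2.1 x.2.1 + inner ℝ a.2.2 x.2.2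

/-- The closure of `X` in the weak topology of `L²(Ω)² × L²(Ω)`, the coarsest topology for which
all the functions `x ↦ ⟨a, x⟩` are continuous: the set of the `y` such that the family
`(⟨a, y⟩)_a` belongs to the closure of `{(⟨a, x⟩)_a : x ∈ X}` for pointwise convergence. -/
def wkClosure (L : ℝ) (X : Set (St L)) : Set (St L) :=
  {y | (fun a => ip L a y) ∈ closure ((fun (x : St L) (a : St L) => ip L a x) '' X)}

/-- `κ₀ = 2π / L`. -/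
def kap (L : ℝ) : ℝ := 2 * π / L

/-- The Fourier mode `exp(-i κ₀ k·x)`. -/
def chi (L : ℝ) (k : Fin 2 → ℤ) (x : Fin 2 → ℝ) : ℂ :=
  Complex.exp (-(Complex.I * ((kap L * ((k 0 : ℝ) * x 0 + (k 1 : ℝ) * x 1) : ℝ) : ℂ)))

/-- The Fourier coefficient `f̂_k = L⁻² ∫_Ω f(x) exp(-i κ₀ k·x) dx`. -/
def fc (L : ℝ) (f : E L) (k : Fin 2 → ℤ) : ℂ :=
  ((1 / L ^ 2 : ℝ) : ℂ) * ∫ y in Om L, (ev L f y : ℂ) * chi L k y

/-- The phase space `H × L²(Ω)`: the velocity has mean zero and is divergence free. If `mz` holds,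
the temperature is also required to have mean zero. -/
def phase (L : ℝ) (mz : Prop) : Set (St L) :=
  {x | fc L x.1 0 = 0 ∧ fc L x.2.1 0 = 0 ∧
    (∀ k : Fin 2 → ℤ, (k 0 : ℂ) * fc L x.1 k + (k 1 : ℂ) * fc L x.2.1 k = 0) ∧
    (mz → fc L x.2.2 0 = 0)}

/-- `‖∇u‖²` in `L²(Ω)`, computed from the Fourier coefficients; it is infinite if and only if
the velocity is not in `V`. -/
def gradSq (L : ℝ) (x : St L) : ℝ≥0∞ :=
  ∑' k : Fin 2 → ℤ, ENNReal.ofReal (L ^ 2 * kap L ^ 2 * ((k 0 : ℝ) ^ 2 + (k 1 : ℝ) ^ 2) *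
    (‖fc L x.1 k‖ ^ 2 + ‖fc L x.2.1 k‖ ^ 2))

/-- Smooth `L`-periodic (complex valued) test functions. -/
structure Test (L : ℝ) (φ : (Fin 2 → ℝ) → ℂ) : Prop where
  smooth : ContDiff ℝ ((⊤ : ℕ∞) : WithTop ℕ∞) φ
  per : ∀ x i, φ (x + Pi.single i L) = φ x

/-- The partial derivative `∂_j φ`. -/
def pd (j : Fin 2) (φ : (Fin 2 → ℝ) → ℂ) (x : Fin 2 → ℝ) : ℂ := fderiv ℝ φ x (Pi.single j 1)

/-- The Laplacian. -/
def lap (φ : (Fin 2 → ℝ) → ℂ) (x : Fin 2 → ℝ) : ℂ := pd 0 (pd 0 φ) x + pd 1 (pd 1 φ) x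

/-- Test velocity fields `(v, w)`: smooth, `L`-periodic, divergence free and of mean zero. -/
structure TestField (L : ℝ) (v w : (Fin 2 → ℝ) → ℂ) : Prop where
  test1 : Test L v
  test2 : Test L w
  divFree : ∀ y, pd 0 v y + pd 1 w y = 0
  mean1 : ∫ y in Om L, v y = 0
  mean2 : ∫ y in Om L, w y = 0

/-- `(u · ∇) φ` at the point `y`, for the state `x = (u₁, u₂, θ)`. -/
def adv (L : ℝ) (x : St L) (φ : (Fin 2 → ℝ) → ℂ) (y : Fin 2 → ℝ) : ℂ :=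
  (ev L x.1 y : ℂ) * pd 0 φ y + (ev L x.2.1 y : ℂ) * pd 1 φ y

/-- `∫_Ω u · (v, w)`. -/
def velInt (L : ℝ) (x : St L) (v w : (Fin 2 → ℝ) → ℂ) : ℂ :=
  ∫ y in Om L, ((ev L x.1 y : ℂ) * v y + (ev L x.2.1 y : ℂ) * w y)

/-- `∫_Ω (u · (u · ∇)(v, w) + ν u · Δ(v, w) + g θ w)`. -/
def velRhs (L ν g : ℝ) (x : St L) (v w : (Fin 2 → ℝ) → ℂ) : ℂ :=
  ∫ y in Om L, ((ev L x.1 y : ℂ) * adv L x v y + (ev L x.2.1 y : ℂ) * adv L x w y +
    (ν : ℂ) * ((ev L x.1 y : ℂ) * lap v y + (ev L x.2.1 y : ℂ) * lap w y) + (g : ℂ) * (ev L x.2.2 y : ℂ) * w y)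

/-- `∫_Ω θ φ`. -/
def tempInt (L : ℝ) (x : St L) (φ : (Fin 2 → ℝ) → ℂ) : ℂ := ∫ y in Om L, (ev L x.2.2 y : ℂ) * φ y

/-- `∫_Ω θ (u · ∇) φ`. -/
def tempRhs (L : ℝ) (x : St L) (φ : (Fin 2 → ℝ) → ℂ) : ℂ :=
  ∫ y in Om L, (ev L x.2.2 y : ℂ) * adv L x φ y

/-- Weak solutions `z(t) = (u₁(t), u₂(t), θ(t))` of the semi-dissipative Boussinesq system on the
time set `J` (a half line or the whole line): weakly continuous in `H × L²(Ω)`, locally bounded,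
with `∇u` locally square integrable in time, and satisfying the weak formulation. -/
structure WeakSol (L ν g : ℝ) (mz : Prop) (J : Set ℝ) (z : ℝ → St L) : Prop where
  mem : ∀ t ∈ J, z t ∈ phase L mz
  cont : ∀ a : St L, ContinuousOn (fun t => ip L a (z t)) J
  bdd : ∀ s ∈ J, ∀ t ∈ J, ∃ M : ℝ, ∀ τ ∈ Icc s t, ‖z τ‖ ≤ M
  diss : ∀ s ∈ J, ∀ t ∈ J, ∫⁻ τ in Icc s t, gradSq L (z τ) ≠ ⊤
  mom : ∀ v w : (Fin 2 → ℝ) → ℂ, TestField L v w → ∀ s ∈ J, ∀ t ∈ J, s ≤ t →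
    velInt L (z t) v w - velInt L (z s) v w = ∫ τ in s..t, velRhs L ν g (z τ) v w
  temp : ∀ φ : (Fin 2 → ℝ) → ℂ, Test L φ → ∀ s ∈ J, ∀ t ∈ J, s ≤ t →
    tempInt L (z t) φ - tempInt L (z s) φ = ∫ τ in s..t, tempRhs L (z τ) φ

/-- The weak sigma-attractor `𝒜`: the points through which passes a solution defined for all real
times and bounded in `H × L²(Ω)`. -/
def attractor (L ν g : ℝ) (mz : Prop) : Set (St L) :=
  {x | ∃ z : ℝ → St L, WeakSol L ν g mz univ z ∧ z 0 = x ∧ ∃ M : ℝ, ∀ t, ‖z t‖ ≤ M}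

/-- `S` is the solution operator on `V × L²(Ω)`: for every datum `x` in `V × L²(Ω)` the function
`t ↦ S(t) x` is, on `[0, ∞)`, the one and only weak solution starting from `x`. -/
def SolOp (L ν g : ℝ) (mz : Prop) (S : ℝ → St L → St L) : Prop :=
  ∀ x ∈ phase L mz, gradSq L x ≠ ⊤ → ∀ z : ℝ → St L,
    (WeakSol L ν g mz (Ici 0) z ∧ z 0 = x) ↔ ∀ t, 0 ≤ t → z t = S t x

/-- `ω(X) = ⋂_{τ ≥ 0} closure {S(t) x : t > τ, x ∈ X}`, closures in the weak topology. -/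
def omegaLim (L : ℝ) (S : ℝ → St L → St L) (X : Set (St L)) : Set (St L) :=
  ⋂ τ ∈ Ici (0 : ℝ), wkClosure L {w | ∃ x ∈ X, ∃ t > τ, S t x = w}

/-- `R(r) = 2 g r / (ν κ₀²)`. -/
def Rad (L ν g r : ℝ) : ℝ := 2 * g * r / (ν * kap L ^ 2)

/-- The set `B̃_r = {(u₀, θ₀) ∈ H × L² : ‖θ₀‖ = r, ‖∇u₀‖ ≤ R(r)}`. -/
def Btilde (L ν g : ℝ) (mz : Prop) (r : ℝ) : Set (St L) :=
  {x | x ∈ phase L mz ∧ ‖x.2.2‖ = r ∧ gradSq L x ≤ ENNReal.ofReal (Rad L ν g r ^ 2)}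

end

end Pancake
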