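import Pool.Agent.Pancake.Static4
import Pool.Agent.Pancake.Arith

/-!
# MP_771030_an: the differential inequality for the difference of two solutions
-/

namespace Pancake

open Set Filter Topology
open scoped ENNReal NNReal ComplexConjugate

noncomputable section

variable {b ζ a1 a2 θ2 : K → ℂ}

lemma bound1 {S0 S1 M1 ε : ℝ} (hε : 0 < ε) (h0 : 0 ≤ S0) (h01 : S0 ≤ S1) (hM1 : 0 ≤ M1)
    (hb0 : L (fun k => ‖b k‖ ^ 2) ≤ ENNReal.ofReal S0)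
    (hb1 : L (fun k => nsq k * ‖b k‖ ^ 2) ≤ ENNReal.ofReal S1)
    (ha1 : L (fun k => nsq k * ‖a1 k‖ ^ 2) ≤ ENNReal.ofReal M1) :
    |∑' p : K × K, X1 b a1 p.1 p.2| ≤ 25 * M1 / ε * S0 + ε * S1 := by
  have hS1 : 0 ≤ S1 := h0.trans h01
  refine (rows (X := X1 b a1) (f := fun k => ‖b k‖) (g := fun k => ‖b k‖)
    (h := fun k => nrm k * ‖a1 k‖) (by positivity) (fun k h => abs_X1_le k h) ?_).2.2
  rw [T_swap']
  exact T_N1 (a := fun k => ‖a1 k‖) (b := fun k => ‖b k‖) hε h0 h01 hM1 hb0 hb1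
    (by rw [nrm_mul_sq_eq]; exact ha1)

open Classical in
lemma bound4 {S1 M0 m0 Z ε p : ℝ} (m : ℕ) (hε : 0 < ε) (hp : 0 < p) (hS1 : 0 ≤ S1) (hM0 : 0 ≤ M0)
    (hm0 : 0 < m0) (hZ : 0 ≤ Z) (hb00 : b 0 = 0) (hζ0 : ζ 0 = 0)
    (hb1 : L (fun k => nsq k * ‖b k‖ ^ 2) ≤ ENNReal.ofReal S1)
    (hθ : L (fun k => ‖θ2 k‖ ^ 2) ≤ ENNReal.ofReal M0)
    (hη : L (fun k => eta ζ k ^ 2) ≤ ENNReal.ofReal Z)
    (hζ : L (fun k => ‖ζ k‖ ^ 2) ≤ ENNReal.ofReal m0) :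
    |∑' q : K × K, X4 b ζ θ2 q.1 q.2| ≤ (p / 2 * (S1 * M0) + 16 * m * Z / (2 * p))
      + (25 * M0 / (2 * ε) * (Z + m0 / 4 ^ m) + ε * S1) := by
  have hN : (1 : ℝ) ≤ 2 ^ m := one_le_pow₀ (by norm_num)
  have hN2 : ((2 : ℝ) ^ m) ^ 2 = 4 ^ m := by
    rw [← pow_mul, mul_comm, pow_mul]; norm_num
  set bl : K → ℝ := fun k => if low m k then ‖b k‖ else 0 with hbl
  set bh : K → ℝ := fun k => if low m k then 0 else ‖b k‖ with hbh
  have hbl0 : ∀ k, 0 ≤ bl k := fun k => by simp only [hbl]; split_ifs <;> positivity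
  have hbh0 : ∀ k, 0 ≤ bh k := fun k => by simp only [hbh]; split_ifs <;> positivity
  have hblh : (fun k => ‖b k‖) = fun k => bl k + bh k := by
    funext k
    simp only [hbl, hbh]
    split_ifs <;> simp
  have hbl_le : ∀ k, bl k ≤ ‖b k‖ := fun k => by
    simp only [hbl]; split_ifs <;> simp
  have hbh_le : ∀ k, bh k ≤ ‖b k‖ := fun k => by
    simp only [hbh]; split_ifs <;> simp
  have Lbl : L (fun k => nsq k * bl k ^ 2) ≤ ENNReal.ofReal S1 := by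
    refine (L_mono fun k => ?_).trans hb1
    have := nsq_nonneg k; have := hbl0 k; have := hbl_le k
    gcongr
  have Lbh : L (fun k => nsq k * bh k ^ 2) ≤ ENNReal.ofReal S1 := by
    refine (L_mono fun k => ?_).trans hb1
    have := nsq_nonneg k; have := hbh0 k; have := hbh_le k
    gcongr
  have hbh_low : ∀ k, nsq k < ((2 : ℝ) ^ m) ^ 2 → bh k = 0 := by
    intro k hk
    simp only [hbh]
    split_ifs with hl
    · rfl
    · have : k = 0 := by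
        by_contra hk0
        exact hl ⟨hk0, by rwa [hN2] at hk⟩
      rw [this, hb00, norm_zero]
  refine (rows (X := X4 b ζ θ2) (f := eta ζ) (g := fun k => ‖b k‖) (h := fun k => ‖θ2 k‖)
    (by positivity) (fun k h => abs_X4_le k h) ?_).2.2
  rw [hblh, T_add_mid (eta_nonneg ζ) hbl0 hbh0 (fun k => norm_nonneg _),
    ENNReal.ofReal_add (by positivity) (by positivity)]
  apply add_le_add
  · exact T_N4 m hp hS1 hM0 hZ Lbl (fun k hk => by simp only [hbl, if_neg hk]) hθ hη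
  · have := T_N2 (N := (2 : ℝ) ^ m) hε hS1 hM0 hm0 hZ hN Lbh hbh_low hθ hη (L_eta1 hζ0 hζ)
    rwa [hN2] at this

open Classical in
lemma bound3 {S2 m0 Z ℓ : ℝ} (m : ℕ) (hℓ : 0 < ℓ) (hS2 : 0 ≤ S2)
    (hm0 : 0 < m0) (hZ : 0 ≤ Z) (hζ0 : ζ 0 = 0) (hs : Sym a1)
    (ha2 : L (fun k => nsq k ^ 2 * ‖a1 k‖ ^ 2) ≤ ENNReal.ofReal S2)
    (hη : L (fun k => eta ζ k ^ 2) ≤ ENNReal.ofReal Z)
    (hζ : L (fun k => ‖ζ k‖ ^ 2) ≤ ENNReal.ofReal m0)
    (hsum : Summable (fun p : K × K => 1 / nsq p.1 * X3' ζ a1 p.1 p.2)) :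
    |∑' p : K × K, 1 / nsq p.1 * X3' ζ a1 p.1 p.2| ≤
      (ℓ * S2 + 16 * m / ℓ) / 2 * Z + (25 * S2 + 1) / 2 * (Z + m0 / 4 ^ m) := by
  have hN : (1 : ℝ) ≤ 2 ^ m := one_le_pow₀ (by norm_num)
  have hN2 : ((2 : ℝ) ^ m) ^ 2 = 4 ^ m := by
    rw [← pow_mul, mul_comm, pow_mul]; norm_num
  set xl : K → ℝ := fun k => if low m k then nrm k * ‖a1 k‖ else 0 with hxl
  set xh : K → ℝ := fun k => if low m k then 0 else nrm k * ‖a1 k‖ with hxh
  have hxx0 : ∀ k, 0 ≤ nrm k * ‖a1 k‖ := fun k => mul_nonneg (nrm_nonneg k) (norm_nonneg _)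
  have hxl0 : ∀ k, 0 ≤ xl k := fun k => by
    simp only [hxl]; split_ifs
    · exact hxx0 k
    · exact le_rfl
  have hxh0 : ∀ k, 0 ≤ xh k := fun k => by
    simp only [hxh]; split_ifs
    · exact le_rfl
    · exact hxx0 k
  have hxlh : (fun k => nrm k * ‖a1 k‖) = fun k => xl k + xh k := by
    funext k
    simp only [hxl, hxh]
    split_ifs <;> simp
  have hxl_le : ∀ k, xl k ≤ nrm k * ‖a1 k‖ := fun k => by
    simp only [hxl]; split_ifs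
    · exact le_rfl
    · exact hxx0 k
  have hxh_le : ∀ k, xh k ≤ nrm k * ‖a1 k‖ := fun k => by
    simp only [hxh]; split_ifs
    · exact hxx0 k
    · exact le_rfl
  have hL2 : L (fun k => nsq k * (nrm k * ‖a1 k‖) ^ 2) ≤ ENNReal.ofReal S2 := by
    refine le_trans (le_of_eq ?_) ha2
    congr 1
    funext k
    rw [mul_pow, nrm_sq]; ring
  have Lxl : L (fun k => nsq k * xl k ^ 2) ≤ ENNReal.ofReal S2 := by
    refine (L_mono fun k => ?_).trans hL2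
    have := nsq_nonneg k; have := hxl0 k; have := hxl_le k
    gcongr
  have Lxh : L (fun k => nsq k * xh k ^ 2) ≤ ENNReal.ofReal S2 := by
    refine (L_mono fun k => ?_).trans hL2
    have := nsq_nonneg k; have := hxh0 k; have := hxh_le k
    gcongr
  have hxh_low : ∀ k, nsq k < ((2 : ℝ) ^ m) ^ 2 → xh k = 0 := by
    intro k hk
    simp only [hxh]
    split_ifs with hl
    · rfl
    · have : k = 0 := by
        by_contra hk0
        exact hl ⟨hk0, by rwa [hN2] at hk⟩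
      rw [this, nrm_zero, zero_mul]
  have T3 : T (eta ζ) (fun k => nrm k * ‖a1 k‖) (eta ζ) ≤
      ENNReal.ofReal ((ℓ * S2 + 16 * m / ℓ) / 2 * Z + (25 * S2 + 1) / 2 * (Z + m0 / 4 ^ m)) := by
    rw [hxlh, T_add_mid (eta_nonneg ζ) hxl0 hxh0 (eta_nonneg ζ),
      ENNReal.ofReal_add (by positivity) (by positivity)]
    apply add_le_add
    · exact T_N5 m hℓ hS2 hZ Lxl (fun k hk => by simp only [hxl, if_neg hk]) hxl0 hη
    · have := T_N3 (N := (2 : ℝ) ^ m) hS2 hm0 hZ hN Lxh hxh_low hη (L_eta1 hζ0 hζ)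
      rwa [hN2] at this
  have hanti := antisymm_sum (X := X3' ζ a1) (fun k h => antisymm_term ek_antisymm hs ζ k h)
    (fun k => 1 / nsq k) hsum
  have h2 := (double_bound (X := fun k h => (1 / 2) * ((1 / nsq k - 1 / nsq h) * X3' ζ a1 k h))
    (f := eta ζ) (g := fun k => nrm k * ‖a1 k‖) (h := eta ζ) (fun k h => by
      rw [abs_mul, abs_of_pos (by norm_num : (0 : ℝ) < 1 / 2)]
      have := abs_X3_diff_le (ζ := ζ) (a1 := a1) hζ0 k h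
      linarith) (ofReal_ne T3)).2
  have h3 : (T (eta ζ) (fun k => nrm k * ‖a1 k‖) (eta ζ)).toReal ≤
      (ℓ * S2 + 16 * m / ℓ) / 2 * Z + (25 * S2 + 1) / 2 * (Z + m0 / 4 ^ m) :=
    ENNReal.toReal_le_of_le_ofReal (by positivity) T3
  have h4 : ∑' p : K × K, (1 / 2 : ℝ) * ((1 / nsq p.1 - 1 / nsq p.2) * X3' ζ a1 p.1 p.2)
      = ∑' p : K × K, 1 / nsq p.1 * X3' ζ a1 p.1 p.2 := by
    rw [tsum_mul_left, ← hanti]; ring
  rw [← h4]
  exact h2.trans h3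

variable {ν κ g M P : ℝ} {θ1 : K → ℂ}

lemma PairBd.boundY (H : PairBd M P a1 θ1 a2 θ2) (hν : 0 < ν) :
    |∑' k, Yb (fun k => a1 k - a2 k) (fun k => θ1 k - θ2 k) g k| ≤
      ν / 4 * (∑' k, nsq k * ‖a1 k - a2 k‖ ^ 2)
        + g ^ 2 / ν * ∑' k, eta (fun k => θ1 k - θ2 k) k ^ 2 := by
  have h1 := norm_tsum_le_tsum_norm
    (f := fun k => Yb (fun k => a1 k - a2 k) (fun k => θ1 k - θ2 k) g k) (by
    simpa only [Real.norm_eq_abs] using H.sYabs (g := g) hν)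
  simp only [Real.norm_eq_abs] at h1
  refine h1.trans ?_
  have h2 := (H.sYabs (g := g) hν).tsum_le_tsum (fun k => abs_Yb_le (g := g) hν H.zζ k)
      ((H.sb1.mul_left _).add (H.sη.mul_left _))
  refine h2.trans (le_of_eq ?_)
  rw [(H.sb1.mul_left _).tsum_add (H.sη.mul_left _), tsum_mul_left, tsum_mul_left]

/-- The static differential inequality. -/
lemma PairBd.main (H : PairBd M P a1 θ1 a2 θ2) (hν : 0 < ν) {M0 M1 m0 : ℝ} (hM0 : 0 ≤ M0)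
    (hM1 : 0 ≤ M1) (hm0 : 0 < m0) (m : ℕ) {S2 : ℝ} (hS2 : 0 ≤ S2)
    (ha1 : L (fun k => nsq k * ‖a1 k‖ ^ 2) ≤ ENNReal.ofReal M1)
    (ha2 : L (fun k => nsq k ^ 2 * ‖a1 k‖ ^ 2) ≤ ENNReal.ofReal S2)
    (hθ : L (fun k => ‖θ2 k‖ ^ 2) ≤ ENNReal.ofReal M0)
    (hζ : L (fun k => ‖θ1 k - θ2 k‖ ^ 2) ≤ ENNReal.ofReal m0) :
    Dsum ν κ g (1 / √(1 + 16 * m)) a1 θ1 a2 θ2 ≤
      Cmain ν κ g M0 M1 * √(1 + 16 * m) * (1 + S2) *
        ((∑' k, ‖a1 k - a2 k‖ ^ 2)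
          + 1 / √(1 + 16 * m) * (∑' k, eta (fun k => θ1 k - θ2 k) k ^ 2) + m0 / 4 ^ m) := by
  have hm : (0 : ℝ) ≤ m := Nat.cast_nonneg m
  have hℓ1 : 1 ≤ √(1 + 16 * (m : ℝ)) := Real.one_le_sqrt.mpr (by linarith)
  have hℓ0 : 0 < √(1 + 16 * (m : ℝ)) := by linarith
  have hℓ2 : √(1 + 16 * (m : ℝ)) ^ 2 = 1 + 16 * m := Real.sq_sqrt (by positivity)
  have hlam0 : 0 < 1 / √(1 + 16 * (m : ℝ)) := by positivity
  have hlam1 : 1 / √(1 + 16 * (m : ℝ)) ≤ 1 := by rw [div_le_one hℓ0]; exact hℓ1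
  have LS0 : L (fun k => ‖a1 k - a2 k‖ ^ 2) = ENNReal.ofReal (∑' k, ‖a1 k - a2 k‖ ^ 2) :=
    L_eq_ofReal (fun k => by positivity) (ofReal_ne H.b0)
  have LS1 : L (fun k => nsq k * ‖a1 k - a2 k‖ ^ 2) =
      ENNReal.ofReal (∑' k, nsq k * ‖a1 k - a2 k‖ ^ 2) :=
    L_eq_ofReal (fun k => nnb (fun k => a1 k - a2 k) k) (ofReal_ne H.b1)
  have LZ : L (fun k => eta (fun k => θ1 k - θ2 k) k ^ 2) =
      ENNReal.ofReal (∑' k, eta (fun k => θ1 k - θ2 k) k ^ 2) :=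
    L_eq_ofReal (fun k => by positivity) (ofReal_ne (L_eta0 H.ζ0))
  have hS00 : 0 ≤ ∑' k, ‖a1 k - a2 k‖ ^ 2 := tsum_nonneg fun k => by positivity
  have hS10 : 0 ≤ ∑' k, nsq k * ‖a1 k - a2 k‖ ^ 2 :=
    tsum_nonneg fun k => nnb (fun k => a1 k - a2 k) k
  have hZ0 : 0 ≤ ∑' k, eta (fun k => θ1 k - θ2 k) k ^ 2 := tsum_nonneg fun k => by positivity
  have hS01 : (∑' k, ‖a1 k - a2 k‖ ^ 2) ≤ ∑' k, nsq k * ‖a1 k - a2 k‖ ^ 2 := by
    have h := L_a_le (a := fun k => a1 k - a2 k) H.zb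
    rw [LS0, LS1, ENNReal.ofReal_le_ofReal_iff hS10] at h
    exact h
  have hκ1 : 0 < |κ| + 1 := by positivity
  have hsum3 : Summable (fun p : K × K => 1 / nsq p.1 * X3' (fun k => θ1 k - θ2 k) a1 p.1 p.2) :=
    (double_bound (X := fun k h => 1 / nsq k * X3' (fun k => θ1 k - θ2 k) a1 k h)
      (fun k h => abs_X3_le k h) (ofReal_ne H.T3)).1
  have B1 := bound1 (b := fun k => a1 k - a2 k) (a1 := a1) (ε := ν / (4 * (|κ| + 1)))
    (by positivity) hS00 hS01 hM1 LS0.le LS1.le ha1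
  have B2 : ∑' p : K × K, X2 (fun k => a1 k - a2 k) a2 p.1 p.2 = 0 :=
    antisymm_sum_zero (X := X2 (fun k => a1 k - a2 k) a2)
      (fun k h => antisymm_term ck_antisymm H.s2 (fun k => a1 k - a2 k) k h)
      (double_bound (X := X2 (fun k => a1 k - a2 k) a2) (fun k h => abs_X2_le k h)
        (ofReal_ne H.T2)).1
  have BY := H.boundY (g := g) hν
  have B4 := bound4 (b := fun k => a1 k - a2 k) (ζ := fun k => θ1 k - θ2 k) (θ2 := θ2) m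
    (ε := ν / (8 * (|κ| + 1)))
    (p := ν / (4 * (1 / √(1 + 16 * (m : ℝ))) * (|κ| + 1) * (M0 + 1)))
    (by positivity) (by positivity) hS10 hM0 hm0 hZ0 H.zb H.zζ LS1.le hθ LZ.le hζ
  have B3 := bound3 (ζ := fun k => θ1 k - θ2 k) (a1 := a1) (ℓ := √(1 + 16 * (m : ℝ))) m hℓ0 hS2
    hm0 hZ0 H.zζ H.s1 ha2 LZ.le hζ hsum3
  have c1 := arith_c1 hν hM1 hS00 hS10 B1
  have c3 := arith_c3 (κ := κ) hlam0 B3
  have c4 := arith_c4 hν hM0 hS10 hlam0 hlam1 B4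
  have cY : 2 * (∑' k, Yb (fun k => a1 k - a2 k) (fun k => θ1 k - θ2 k) g k) ≤
      ν / 2 * (∑' k, nsq k * ‖a1 k - a2 k‖ ^ 2)
        + 2 * g ^ 2 / ν * ∑' k, eta (fun k => θ1 k - θ2 k) k ^ 2 := by
    have h1 := (le_abs_self _).trans BY
    calc _ ≤ 2 * (ν / 4 * (∑' k, nsq k * ‖a1 k - a2 k‖ ^ 2)
        + g ^ 2 / ν * ∑' k, eta (fun k => θ1 k - θ2 k) k ^ 2) := by linarith
      _ = _ := by ring
  have fin := arith_fin hν hM0 hM1 hS00 hS10 hS2 hZ0 (by positivity : 0 ≤ m0 / 4 ^ m) hm hℓ1 hℓ2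
    rfl c1 cY c3 c4
  refine le_trans (le_of_eq ?_) fin
  unfold Dsum
  rw [B2]
  ring

end

end Pancake
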