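import Pool.Agent.Pancake.AC
import Pool.Agent.Pancake.Static5

/-!
# MP_771030_an: energy identity for the difference of two weak solutions
-/

namespace Pancake

open Set Filter Topology MeasureTheory
open scoped ENNReal NNReal ComplexConjugate Interval

noncomputable section

/-- A weak solution on `[s, t]` with the uniform bound `M`. -/
structure WB (ν κ g M s t : ℝ) (a θ : ℝ → K → ℂ) : Prop where
  int : IntSol ν κ g ck ek (Icc s t) a θ
  sa : ∀ τ ∈ Icc s t, Sym (a τ)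
  st : ∀ τ ∈ Icc s t, Sym (θ τ)
  z : ∀ τ ∈ Icc s t, a τ 0 = 0
  ba : ∀ τ ∈ Icc s t, L (fun k => ‖a τ k‖ ^ 2) ≤ ENNReal.ofReal M
  bt : ∀ τ ∈ Icc s t, L (fun k => ‖θ τ k‖ ^ 2) ≤ ENNReal.ofReal M
  h1 : ∫⁻ τ in Icc s t, L (fun k => nsq k * ‖a τ k‖ ^ 2) ≠ ∞

lemma aemeas_L {w : K → ℝ} {a : ℝ → K → ℂ} {s t : ℝ}
    (ca : ∀ k, ContinuousOn (fun τ => a τ k) (Icc s t)) :
    AEMeasurable (fun τ => L (fun k => w k * ‖a τ k‖ ^ 2)) (volume.restrict (Icc s t)) := by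
  apply AEMeasurable.tsum
  intro k
  apply AEMeasurable.ennreal_ofReal
  exact (continuousOn_const.mul ((ca k).norm.pow 2)).aemeasurable measurableSet_Icc

lemma aesm_Bil {c : K → K → ℝ} (hc : ∀ k h, |c k h| ≤ nrm k) {a x : ℝ → K → ℂ} {s t : ℝ}
    (ca : ∀ k, ContinuousOn (fun τ => a τ k) (Icc s t))
    (cx : ∀ k, ContinuousOn (fun τ => x τ k) (Icc s t))
    (ba : ∀ τ ∈ Icc s t, L (fun k => ‖a τ k‖ ^ 2) ≠ ∞)
    (bx : ∀ τ ∈ Icc s t, L (fun k => ‖x τ k‖ ^ 2) ≠ ∞) (k : K) :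
    AEStronglyMeasurable (fun τ => Bil c (a τ) (x τ) k) (volume.restrict (Icc s t)) := by
  apply aestronglyMeasurable_of_tendsto_ae (atTop : Filter (Finset K))
    (f := fun F τ => ∑ h ∈ F, (c k h : ℂ) * a τ (k - h) * x τ h)
  · intro F
    apply ContinuousOn.aestronglyMeasurable _ measurableSet_Icc
    apply continuousOn_finsetSum
    intro h _
    exact (continuousOn_const.mul (ca _)).mul (cx h)
  · filter_upwards [ae_restrict_mem measurableSet_Icc] with τ hτ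
    exact (summable_bil (hc k) (ba τ hτ) (bx τ hτ)).hasSum

variable {ν κ g M s t : ℝ} {a θ : ℝ → K → ℂ}

lemma WB.fa (W : WB ν κ g M s t a θ) (hM : 0 ≤ M) (k : K) :
    IntegrableOn (fun τ => Fa ν κ g ck (a τ) (θ τ) k) (Icc s t) := by
  apply IntegrableOn.of_bound (C := lipA ν κ g M M k) measure_Icc_lt_top
  · unfold Fa
    refine (AEStronglyMeasurable.add ?_ ?_).sub ?_
    · exact (continuousOn_const.mul (W.int.ca k)).aestronglyMeasurable measurableSet_Icc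
    · exact (aesm_Bil abs_ck_le W.int.ca W.int.ca (fun τ hτ => ofReal_ne (W.ba τ hτ))
        (fun τ hτ => ofReal_ne (W.ba τ hτ)) k).const_mul _
    · exact (continuousOn_const.mul (W.int.ct k)).aestronglyMeasurable measurableSet_Icc
  · filter_upwards [ae_restrict_mem measurableSet_Icc] with τ hτ
    exact norm_Fa_le hM hM abs_ck_le (W.ba τ hτ) (W.bt τ hτ) k

lemma WB.ft (W : WB ν κ g M s t a θ) (hM : 0 ≤ M) (k : K) :
    IntegrableOn (fun τ => Ft κ ek (a τ) (θ τ) k) (Icc s t) := by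
  apply IntegrableOn.of_bound (C := lipT κ M M k) measure_Icc_lt_top
  · unfold Ft
    exact (aesm_Bil abs_ek_le_left W.int.ca W.int.ct (fun τ hτ => ofReal_ne (W.ba τ hτ))
        (fun τ hτ => ofReal_ne (W.bt τ hτ)) k).const_mul _
  · filter_upwards [ae_restrict_mem measurableSet_Icc] with τ hτ
    exact norm_Ft_le hM hM abs_ek_le_left (W.ba τ hτ) (W.bt τ hτ) k

lemma ii_of_integrableOn {E : Type*} [NormedAddCommGroup E] {f : ℝ → E} {s t x y : ℝ}
    (h : IntegrableOn f (Icc s t)) (hx : x ∈ Icc s t) (hy : y ∈ Icc s t) :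
    IntervalIntegrable f volume x y := by
  rw [intervalIntegrable_iff]
  exact h.mono_set (uIoc_subset_uIcc.trans (uIcc_subset_Icc hx hy))

/-- The weighted energy of the difference. -/
def En (lam : ℝ) (a1 θ1 a2 θ2 : K → ℂ) : ℝ :=
  (∑' k, ‖a1 k - a2 k‖ ^ 2) + lam * ∑' k, eta (fun k => θ1 k - θ2 k) k ^ 2

/-- The weighted energy of the mode `k` of the difference. -/
def en (lam : ℝ) (a1 θ1 a2 θ2 : K → ℂ) (k : K) : ℝ :=
  ‖a1 k - a2 k‖ ^ 2 + lam * eta (fun k => θ1 k - θ2 k) k ^ 2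

variable {a1 θ1 a2 θ2 : ℝ → K → ℂ}

lemma eta_sq (ζ : K → ℂ) (k : K) : eta ζ k ^ 2 = 1 / nsq k * ‖ζ k‖ ^ 2 := by
  unfold eta
  rw [div_pow, nrm_sq]; ring

lemma mode_energy (hst : s ≤ t) (hM : 0 ≤ M) (W1 : WB ν κ g M s t a1 θ1)
    (W2 : WB ν κ g M s t a2 θ2) (lam : ℝ) (k : K) :
    IntervalIntegrable (fun τ => dk' ν κ g lam (fun k => a1 τ k - a2 τ k)
      (fun k => θ1 τ k - θ2 τ k) (a1 τ) (θ1 τ) (a2 τ) (θ2 τ) k) volume s t ∧
    en lam (a1 t) (θ1 t) (a2 t) (θ2 t) k - en lam (a1 s) (θ1 s) (a2 s) (θ2 s) k =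
      ∫ τ in s..t, dk' ν κ g lam (fun k => a1 τ k - a2 τ k)
        (fun k => θ1 τ k - θ2 τ k) (a1 τ) (θ1 τ) (a2 τ) (θ2 τ) k := by
  have hs : s ∈ Icc s t := left_mem_Icc.mpr hst
  have ht : t ∈ Icc s t := right_mem_Icc.mpr hst
  have f1 := W1.fa hM k
  have f2 := W2.fa hM k
  have g1 := W1.ft hM k
  have g2 := W2.ft hM k
  have fi : IntervalIntegrable (fun τ => Fa ν κ g ck (a1 τ) (θ1 τ) k - Fa ν κ g ck (a2 τ) (θ2 τ) k)
      volume s t := ii_of_integrableOn (f1.sub f2) hs ht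
  have gi : IntervalIntegrable (fun τ => Ft κ ek (a1 τ) (θ1 τ) k - Ft κ ek (a2 τ) (θ2 τ) k)
      volume s t := ii_of_integrableOn (g1.sub g2) hs ht
  have e1 := normSq_int (x := fun τ => a1 τ k - a2 τ k) hst fi (by
    intro τ hτ
    have h1 := W1.int.ea k s hs τ hτ hτ.1
    have h2 := W2.int.ea k s hs τ hτ hτ.1
    rw [intervalIntegral.integral_sub (ii_of_integrableOn f1 hs hτ) (ii_of_integrableOn f2 hs hτ),
      ← h1, ← h2]
    ring)
  have e2 := normSq_int (x := fun τ => θ1 τ k - θ2 τ k) hst gi (by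
    intro τ hτ
    have h1 := W1.int.et k s hs τ hτ hτ.1
    have h2 := W2.int.et k s hs τ hτ hτ.1
    rw [intervalIntegral.integral_sub (ii_of_integrableOn g1 hs hτ) (ii_of_integrableOn g2 hs hτ),
      ← h1, ← h2]
    ring)
  have hci : ∀ {x1 x2 β : ℝ → ℂ}, ContinuousOn x1 (Icc s t) → ContinuousOn x2 (Icc s t) →
      IntervalIntegrable β volume s t →
      IntervalIntegrable (fun τ => 2 * (conj (x1 τ - x2 τ) * β τ).re) volume s t := by
    intro x1 x2 β c1 c2 hβ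
    have c3 : ContinuousOn (fun τ => conj (x1 τ - x2 τ)) [[s, t]] := by
      rw [uIcc_of_le hst]
      exact Complex.continuous_conj.comp_continuousOn (c1.sub c2)
    exact (intervalIntegrable_re (hβ.continuousOn_mul c3)).const_mul 2
  have i1 := hci (W1.int.ca k) (W2.int.ca k) fi
  have i2 := (hci (W1.int.ct k) (W2.int.ct k) gi).const_mul (lam * (1 / nsq k))
  have hd : ∀ τ, dk' ν κ g lam (fun k => a1 τ k - a2 τ k)
        (fun k => θ1 τ k - θ2 τ k) (a1 τ) (θ1 τ) (a2 τ) (θ2 τ) k =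
      2 * (conj (a1 τ k - a2 τ k) * (Fa ν κ g ck (a1 τ) (θ1 τ) k - Fa ν κ g ck (a2 τ) (θ2 τ) k)).re +
      lam * (1 / nsq k) * (2 * (conj (θ1 τ k - θ2 τ k) *
        (Ft κ ek (a1 τ) (θ1 τ) k - Ft κ ek (a2 τ) (θ2 τ) k)).re) := by
    intro τ
    unfold dk'
    ring
  constructor
  · simp only [hd]
    exact i1.add i2
  · simp only [hd]
    rw [intervalIntegral.integral_add i1 i2, ← e1,
      intervalIntegral.integral_const_mul (lam * (1 / nsq k)), ← e2]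
    unfold en
    simp only [eta_sq]
    ring

lemma two_sq (x y : ℂ) : ‖x - y‖ ^ 2 ≤ 2 * ‖x‖ ^ 2 + 2 * ‖y‖ ^ 2 := by
  have := norm_sub_le x y
  have h0 := norm_nonneg (x - y)
  have h1 := norm_nonneg x
  have h2 := norm_nonneg y
  nlinarith [sq_nonneg (‖x‖ - ‖y‖)]

lemma L_sub_le {w : K → ℝ} (hw : ∀ k, 0 ≤ w k) {x y : K → ℂ} {A B : ℝ} (hA : 0 ≤ A) (hB : 0 ≤ B)
    (hx : L (fun k => w k * ‖x k‖ ^ 2) ≤ ENNReal.ofReal A)
    (hy : L (fun k => w k * ‖y k‖ ^ 2) ≤ ENNReal.ofReal B) :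
    L (fun k => w k * ‖x k - y k‖ ^ 2) ≤ ENNReal.ofReal (2 * A + 2 * B) := by
  have h1 : L (fun k => w k * ‖x k - y k‖ ^ 2) ≤
      L (fun k => 2 * (w k * ‖x k‖ ^ 2) + 2 * (w k * ‖y k‖ ^ 2)) := by
    apply L_mono
    intro k
    have := two_sq (x k) (y k)
    have := hw k
    nlinarith
  refine h1.trans ?_
  rw [L_add (fun k => by have := hw k; positivity) (fun k => by have := hw k; positivity),
    L_mul_left (by norm_num), L_mul_left (by norm_num), ENNReal.ofReal_add (by positivity) (by positivity),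
    ENNReal.ofReal_mul (by norm_num), ENNReal.ofReal_mul (by norm_num)]
  gcongr

/-- The (a.e. finite) enstrophy as a real number. -/
def S1r (a : ℝ → K → ℂ) (τ : ℝ) : ℝ := (L (fun k => nsq k * ‖a τ k‖ ^ 2)).toReal

lemma WB.S1 (W : WB ν κ g M s t a θ) : IntegrableOn (S1r a) (Icc s t) :=
  integrable_toReal_of_lintegral_ne_top (aemeas_L W.int.ca) W.h1

lemma WB.fin (W : WB ν κ g M s t a θ) :
    ∀ᵐ τ ∂(volume.restrict (Icc s t)), L (fun k => nsq k * ‖a τ k‖ ^ 2) = ENNReal.ofReal (S1r a τ) := by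
  filter_upwards [ae_lt_top' (aemeas_L W.int.ca) W.h1] with τ hτ
  unfold S1r
  rw [ENNReal.ofReal_toReal hτ.ne]

/-- Bound used in the dominated convergence. -/
def Pb (M : ℝ) (a1 a2 : ℝ → K → ℂ) (τ : ℝ) : ℝ := 4 * M + 2 * S1r a1 τ + 2 * S1r a2 τ

lemma S1r_nonneg (a : ℝ → K → ℂ) (τ : ℝ) : 0 ≤ S1r a τ := ENNReal.toReal_nonneg

lemma pairBd_ae (hM : 1 ≤ M) (W1 : WB ν κ g M s t a1 θ1)
    (W2 : WB ν κ g M s t a2 θ2) (hz : ∀ τ ∈ Icc s t, θ1 τ 0 - θ2 τ 0 = 0) :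
    ∀ᵐ τ ∂(volume.restrict (Icc s t)), PairBd (4 * M) (Pb M a1 a2 τ) (a1 τ) (θ1 τ) (a2 τ) (θ2 τ) := by
  filter_upwards [W1.fin, W2.fin, ae_restrict_mem measurableSet_Icc] with τ h1 h2 hτ
  have n1 := S1r_nonneg a1 τ
  have n2 := S1r_nonneg a2 τ
  have hM4 : ENNReal.ofReal M ≤ ENNReal.ofReal (4 * M) := ENNReal.ofReal_le_ofReal (by linarith)
  have e4 : 2 * M + 2 * M = 4 * M := by ring
  have hone : ∀ x : K → ℂ, (fun k => (fun _ : K => (1 : ℝ)) k * ‖x k‖ ^ 2) = fun k => ‖x k‖ ^ 2 := by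
    intro x; funext k; simp
  refine ⟨by linarith, by unfold Pb; linarith, (W1.ba τ hτ).trans hM4, (W2.ba τ hτ).trans hM4, ?_,
    (W1.bt τ hτ).trans hM4, (W2.bt τ hτ).trans hM4, ?_, ?_, ?_, ?_, by unfold Pb; linarith, ?_,
    hz τ hτ, W1.sa τ hτ, W2.sa τ hτ⟩
  · rw [← e4]
    have := L_sub_le (w := fun _ => 1) (x := a1 τ) (y := a2 τ) (fun _ => zero_le_one)
      (by linarith : 0 ≤ M) (by linarith : 0 ≤ M) (by simpa using W1.ba τ hτ)
      (by simpa using W2.ba τ hτ)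
    simpa using this
  · rw [← e4]
    have := L_sub_le (w := fun _ => 1) (x := θ1 τ) (y := θ2 τ) (fun _ => zero_le_one)
      (by linarith : 0 ≤ M) (by linarith : 0 ≤ M) (by simpa using W1.bt τ hτ)
      (by simpa using W2.bt τ hτ)
    simpa using this
  · rw [h1]; apply ENNReal.ofReal_le_ofReal; unfold Pb; linarith
  · rw [h2]; apply ENNReal.ofReal_le_ofReal; unfold Pb; linarith
  · refine (L_sub_le (w := nsq) nsq_nonneg n1 n2 h1.le h2.le).trans ?_
    apply ENNReal.ofReal_le_ofReal; unfold Pb; linarith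
  · rw [W1.z τ hτ, W2.z τ hτ, sub_zero]

lemma pb_integrable (W1 : WB ν κ g M s t a1 θ1) (W2 : WB ν κ g M s t a2 θ2) :
    IntegrableOn (Pb M a1 a2) (Icc s t) := by
  unfold Pb
  exact ((integrableOn_const (C := 4 * M) (by simp)).add (W1.S1.const_mul 2)).add
    (W2.S1.const_mul 2)

lemma en_hasSum {lam : ℝ} {a1 θ1 a2 θ2 : K → ℂ} (h1 : L (fun k => ‖a1 k - a2 k‖ ^ 2) ≠ ∞)
    (h2 : L (fun k => ‖θ1 k - θ2 k‖ ^ 2) ≠ ∞) :
    HasSum (en lam a1 θ1 a2 θ2) (En lam a1 θ1 a2 θ2) := by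
  unfold en En
  refine HasSum.add ?_ (HasSum.mul_left _ ?_)
  · exact (summable_of_L (fun k => by positivity) h1).hasSum
  · refine (summable_of_L (fun k => by positivity) ?_).hasSum
    have h3 : L (fun k => ‖θ1 k - θ2 k‖ ^ 2) ≤
        ENNReal.ofReal (L (fun k => ‖θ1 k - θ2 k‖ ^ 2)).toReal := by
      rw [ENNReal.ofReal_toReal h2]
    exact ofReal_ne (L_eta0 (ζ := fun k => θ1 k - θ2 k) h3)

/-- The energy identity for the difference of two weak solutions. -/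
theorem pair_energy {lam : ℝ} (hν : 0 < ν) (hst : s ≤ t) (hM : 1 ≤ M) (hl0 : 0 ≤ lam)
    (hl1 : lam ≤ 1) (W1 : WB ν κ g M s t a1 θ1) (W2 : WB ν κ g M s t a2 θ2)
    (hz : ∀ τ ∈ Icc s t, θ1 τ 0 - θ2 τ 0 = 0) :
    IntegrableOn (fun τ => Dsum ν κ g lam (a1 τ) (θ1 τ) (a2 τ) (θ2 τ)) (Icc s t) ∧
    En lam (a1 t) (θ1 t) (a2 t) (θ2 t) - En lam (a1 s) (θ1 s) (a2 s) (θ2 s) =
      ∫ τ in s..t, Dsum ν κ g lam (a1 τ) (θ1 τ) (a2 τ) (θ2 τ) := by
  have hM0 : 0 ≤ M := by linarith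
  have hs : s ∈ Icc s t := left_mem_Icc.mpr hst
  have ht : t ∈ Icc s t := right_mem_Icc.mpr hst
  have hP := pairBd_ae hM W1 W2 hz
  set D : Finset K → ℝ → ℝ := fun F τ => ∑ k ∈ F, dk' ν κ g lam (fun k => a1 τ k - a2 τ k)
    (fun k => θ1 τ k - θ2 τ k) (a1 τ) (θ1 τ) (a2 τ) (θ2 τ) k with hD
  have hDi : ∀ F, IntervalIntegrable (D F) volume s t := by
    intro F
    have h1 := IntervalIntegrable.sum (μ := volume) (a := s) (b := t) F
      (f := fun k τ => dk' ν κ g lam (fun k => a1 τ k - a2 τ k)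
      (fun k => θ1 τ k - θ2 τ k) (a1 τ) (θ1 τ) (a2 τ) (θ2 τ) k)
      (fun k _ => (mode_energy hst hM0 W1 W2 lam k).1)
    refine h1.congr ?_
    intro τ _
    simp only [hD, Finset.sum_apply]
  have hDm : ∀ F, AEStronglyMeasurable (D F) (volume.restrict (Icc s t)) := by
    intro F
    have := (intervalIntegrable_iff_integrableOn_Icc_of_le hst).mp (hDi F)
    exact this.aestronglyMeasurable
  have hlim : ∀ᵐ τ ∂(volume.restrict (Icc s t)), Tendsto (fun F => D F τ) atTop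
      (𝓝 (Dsum ν κ g lam (a1 τ) (θ1 τ) (a2 τ) (θ2 τ))) := by
    filter_upwards [hP] with τ H
    exact H.hasSum hν
  have hbd : ∀ F, ∀ᵐ τ ∂(volume.restrict (Icc s t)), ‖D F τ‖ ≤ Cdom ν κ g (4 * M) * Pb M a1 a2 τ := by
    intro F
    filter_upwards [hP] with τ H
    exact H.dom hν hl0 hl1 F
  have hPi : IntegrableOn (fun τ => Cdom ν κ g (4 * M) * Pb M a1 a2 τ) (Icc s t) :=
    (pb_integrable W1 W2).const_mul _
  have hDs : IntegrableOn (fun τ => Dsum ν κ g lam (a1 τ) (θ1 τ) (a2 τ) (θ2 τ)) (Icc s t) := by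
    refine Integrable.mono' hPi ?_ ?_
    · exact aestronglyMeasurable_of_tendsto_ae atTop hDm hlim
    · filter_upwards [hP] with τ H
      exact le_of_tendsto (H.hasSum hν).norm (Eventually.of_forall fun F => H.dom hν hl0 hl1 F)
  refine ⟨hDs, ?_⟩
  have hfin : ∀ F : Finset K, ∑ k ∈ F, en lam (a1 t) (θ1 t) (a2 t) (θ2 t) k -
      ∑ k ∈ F, en lam (a1 s) (θ1 s) (a2 s) (θ2 s) k = ∫ τ in s..t, D F τ := by
    intro F
    rw [← Finset.sum_sub_distrib]
    simp only [hD]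
    rw [intervalIntegral.integral_finsetSum (fun k _ => (mode_energy hst hM0 W1 W2 lam k).1)]
    apply Finset.sum_congr rfl
    intro k _
    exact (mode_energy hst hM0 W1 W2 lam k).2
  have hIoc : ∀ {p : ℝ → Prop}, (∀ᵐ τ ∂(volume.restrict (Icc s t)), p τ) →
      ∀ᵐ τ ∂volume, τ ∈ Ι s t → p τ := by
    intro p hp
    rw [ae_restrict_iff' measurableSet_Icc] at hp
    filter_upwards [hp] with τ h hτ
    rw [uIoc_of_le hst] at hτ
    exact h ⟨hτ.1.le, hτ.2⟩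
  have hDlim : Tendsto (fun F => ∫ τ in s..t, D F τ) atTop
      (𝓝 (∫ τ in s..t, Dsum ν κ g lam (a1 τ) (θ1 τ) (a2 τ) (θ2 τ))) := by
    apply intervalIntegral.tendsto_integral_filter_of_dominated_convergence
      (fun τ => Cdom ν κ g (4 * M) * Pb M a1 a2 τ)
    · refine Eventually.of_forall fun F => ?_
      rw [uIoc_of_le hst]
      exact (hDm F).mono_measure (Measure.restrict_mono Ioc_subset_Icc_self le_rfl)
    · exact Eventually.of_forall fun F => hIoc (hbd F)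
    · exact ii_of_integrableOn hPi hs ht
    · exact hIoc hlim
  have hne : ∀ τ ∈ Icc s t, HasSum (en lam (a1 τ) (θ1 τ) (a2 τ) (θ2 τ))
      (En lam (a1 τ) (θ1 τ) (a2 τ) (θ2 τ)) := by
    intro τ hτ
    apply en_hasSum
    · have := L_sub_le (w := fun _ => 1) (x := a1 τ) (y := a2 τ) (fun _ => zero_le_one)
        hM0 hM0 (by simpa using W1.ba τ hτ) (by simpa using W2.ba τ hτ)
      simp only [one_mul] at this
      exact ofReal_ne this
    · have := L_sub_le (w := fun _ => 1) (x := θ1 τ) (y := θ2 τ) (fun _ => zero_le_one)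
        hM0 hM0 (by simpa using W1.bt τ hτ) (by simpa using W2.bt τ hτ)
      simp only [one_mul] at this
      exact ofReal_ne this
  have hl := ((hne t ht).sub (hne s hs))
  unfold HasSum at hl
  simp only [Finset.sum_sub_distrib, SummationFilter.unconditional_filter] at hl
  refine tendsto_nhds_unique hl ?_
  refine hDlim.congr ?_
  intro F
  exact (hfin F).symm

lemma WB.mono (W : WB ν κ g M s t a θ) {s' t' : ℝ} (hs : s ≤ s') (ht : t' ≤ t) :
    WB ν κ g M s' t' a θ := by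
  have hsub : Icc s' t' ⊆ Icc s t := Icc_subset_Icc hs ht
  refine ⟨⟨fun k => (W.int.ca k).mono hsub, fun k => (W.int.ct k).mono hsub,
    fun k x hx y hy hxy => W.int.ea k x (hsub hx) y (hsub hy) hxy,
    fun k x hx y hy hxy => W.int.et k x (hsub hx) y (hsub hy) hxy⟩,
    fun τ hτ => W.sa τ (hsub hτ), fun τ hτ => W.st τ (hsub hτ), fun τ hτ => W.z τ (hsub hτ),
    fun τ hτ => W.ba τ (hsub hτ), fun τ hτ => W.bt τ (hsub hτ), ?_⟩
  exact ne_top_of_le_ne_top W.h1 (lintegral_mono_set hsub)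

end

end Pancake
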