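import Pool.Agent.Pancake.Uniq

/-!
# MP_771030_an: energy inequality for weak solutions
-/

namespace Pancake

open Set Filter Topology MeasureTheory
open scoped ENNReal NNReal ComplexConjugate Interval

noncomputable section

variable {ν κ g M M0 M1 s t T : ℝ} {a θ a1 θ1 a2 θ2 : ℝ → K → ℂ}

open Classical in
/-- Remove the zero mode. -/
def rz (θ : K → ℂ) (k : K) : ℂ := if k = 0 then 0 else θ k

lemma rz_zero (θ : K → ℂ) : rz θ 0 = 0 := by simp [rz]

lemma rz_of_ne (θ : K → ℂ) {k : K} (hk : k ≠ 0) : rz θ k = θ k := by simp [rz, hk]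

lemma norm_rz_le (θ : K → ℂ) (k : K) : ‖rz θ k‖ ≤ ‖θ k‖ := by
  by_cases hk : k = 0
  · rw [hk, rz_zero, norm_zero]; exact norm_nonneg _
  · rw [rz_of_ne θ hk]

lemma L_rz (θ : K → ℂ) : L (fun k => ‖rz θ k‖ ^ 2) ≤ L (fun k => ‖θ k‖ ^ 2) := by
  apply L_mono
  intro k
  have := norm_rz_le θ k
  gcongr

lemma Fa_rz (c : K → K → ℝ) (a θ : K → ℂ) (k : K) : Fa ν κ g c a (rz θ) k = Fa ν κ g c a θ k := by
  unfold Fa
  by_cases hk : k = 0
  · rw [hk]; simp
  · rw [rz_of_ne θ hk]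

lemma Ft_rz (a θ : K → ℂ) (k : K) : Ft κ ek a (rz θ) k = Ft κ ek a θ k := by
  unfold Ft Bil
  congr 1
  apply tsum_congr
  intro h
  by_cases hh : h = 0
  · rw [hh, ek_zero_right]; simp
  · rw [rz_of_ne θ hh]

lemma WB.rz (W : WB ν κ g M s t a θ) : WB ν κ g M s t a (fun τ => rz (θ τ)) := by
  refine ⟨⟨W.int.ca, ?_, ?_, ?_⟩, W.sa, ?_, W.z, W.ba, fun τ hτ => (L_rz (θ τ)).trans (W.bt τ hτ),
    W.h1⟩
  · intro k
    by_cases hk : k = 0
    · rw [hk]
      simp only [rz_zero]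
      exact continuousOn_const
    · simp only [rz_of_ne _ hk]
      exact W.int.ct k
  · intro k x hx y hy hxy
    simp only [Fa_rz]
    exact W.int.ea k x hx y hy hxy
  · intro k x hx y hy hxy
    simp only [Ft_rz]
    by_cases hk : k = 0
    · subst hk
      simp only [rz_zero, Ft_zero, intervalIntegral.integral_zero, sub_zero]
    · simp only [rz_of_ne _ hk]
      exact W.int.et k x hx y hy hxy
  · intro τ hτ k
    by_cases hk : k = 0
    · subst hk
      simp [rz_zero]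
    · rw [rz_of_ne _ hk, rz_of_ne _ (neg_ne_zero.mpr hk)]
      exact W.st τ hτ k

lemma Fa_zero' (c : K → K → ℝ) (k : K) : Fa ν κ g c (fun _ => 0) (fun _ => 0) k = 0 := by
  unfold Fa Bil
  simp

lemma Ft_zero' (c : K → K → ℝ) (k : K) : Ft κ c (fun _ => 0) (fun _ => 0) k = 0 := by
  unfold Ft Bil
  simp

lemma wb_zero (ν κ g M s t : ℝ) : WB ν κ g M s t (fun _ _ => 0) (fun _ _ => 0) := by
  refine ⟨⟨fun k => continuousOn_const, fun k => continuousOn_const, ?_, ?_⟩, ?_, ?_, ?_, ?_, ?_, ?_⟩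
  · intro k x _ y _ _
    simp only [Fa_zero']
    simp
  · intro k x _ y _ _
    simp only [Ft_zero']
    simp
  · intro τ _ k; simp
  · intro τ _ k; simp
  · intro τ _; rfl
  · intro τ _; simp [L]
  · intro τ _; simp [L]
  · simp [L]

/-- The bound for the energy dissipation. -/
lemma dsum_le (hν : 0 < ν) {M P : ℝ} {a θ : K → ℂ} (H : PairBd M P a θ (fun _ => 0) (fun _ => 0)) :
    Dsum ν κ g 0 a θ (fun _ => 0) (fun _ => 0) ≤
      -(3 / 2) * ν * (∑' k, nsq k * ‖a k‖ ^ 2) + 2 * g ^ 2 / ν * M := by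
  have hX2 : ∑' p : K × K, X2 (fun k => a k - (fun _ => 0) k) (fun _ => 0) p.1 p.2 = 0 := by
    simp [X2]
  have hX1 : ∑' p : K × K, X1 (fun k => a k - (fun _ => 0) k) a p.1 p.2 = 0 := by
    apply antisymm_sum_zero (X := X1 (fun k => a k - (fun _ => 0) k) a)
    · intro k h
      have := antisymm_term ck_antisymm H.s1 a k h
      simpa [X1] using this
    · exact (double_bound (X := X1 (fun k => a k - (fun _ => 0) k) a)
        (fun k h => abs_X1_le k h) (ofReal_ne H.T1)).1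
  have BY := H.boundY (g := g) hν
  have hZ : ∑' k, eta (fun k => θ k - (fun _ => 0) k) k ^ 2 ≤ M :=
    tsum_le_of_L (fun k => by positivity) (by linarith [H.hM]) (L_eta0 H.ζ0)
  unfold Dsum
  rw [hX1, hX2]
  have h1 := (le_abs_self _).trans BY
  have h2 : g ^ 2 / ν * ∑' k, eta (fun k => θ k - (fun _ => 0) k) k ^ 2 ≤ g ^ 2 / ν * M := by gcongr
  have e : (∑' k, nsq k * ‖a k - (fun _ : K => (0 : ℂ)) k‖ ^ 2) = ∑' k, nsq k * ‖a k‖ ^ 2 := by simp
  rw [e] at h1 ⊢
  have e3 : 2 * g ^ 2 / ν * M = 2 * (g ^ 2 / ν * M) := by ring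
  rw [e3]
  linarith

/-- Energy inequality for weak solutions. -/
lemma energy_ineq (hν : 0 < ν) (hst : s ≤ t) (hM : 1 ≤ M) (W : WB ν κ g M s t a θ) :
    3 / 2 * ν * ∫ τ in s..t, S1r a τ ≤ M + 8 * g ^ 2 / ν * M * (t - s) := by
  have hs : s ∈ Icc s t := left_mem_Icc.mpr hst
  have ht : t ∈ Icc s t := right_mem_Icc.mpr hst
  have hz : ∀ τ ∈ Icc s t, (fun τ => Pancake.rz (θ τ)) τ 0 - (fun (_ : ℝ) (_ : K) => (0 : ℂ)) τ 0 = 0 := by
    intro τ _
    simp [rz_zero]
  have W0 := wb_zero ν κ g M s t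
  obtain ⟨hi, he⟩ := pair_energy (lam := 0) hν hst hM le_rfl zero_le_one W.rz W0 hz
  have hP := pairBd_ae hM W.rz W0 hz
  have hfin := W.fin
  have hbound : ∀ᵐ τ ∂(volume.restrict (Icc s t)),
      Dsum ν κ g 0 (a τ) (Pancake.rz (θ τ)) (fun _ => 0) (fun _ => 0) ≤
        -(3 / 2) * ν * S1r a τ + 8 * g ^ 2 / ν * M := by
    filter_upwards [hP, hfin] with τ H hf
    have h1 := dsum_le (κ := κ) (g := g) hν H
    have e : ∑' k, nsq k * ‖a τ k‖ ^ 2 = S1r a τ := by
      unfold S1r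
      rw [L_eq_ofReal (fun k => nnb (a τ) k) (ofReal_ne hf.le),
        ENNReal.toReal_ofReal (tsum_nonneg fun k => nnb (a τ) k)]
    rw [e] at h1
    refine h1.trans (le_of_eq ?_)
    ring
  have hr : IntegrableOn (fun τ => -(3 / 2) * ν * S1r a τ + 8 * g ^ 2 / ν * M) (Icc s t) :=
    (W.S1.const_mul _).add (integrableOn_const (by simp))
  have h2 : ∫ τ in s..t, Dsum ν κ g 0 (a τ) (Pancake.rz (θ τ)) (fun _ => 0) (fun _ => 0) ≤
      ∫ τ in s..t, (-(3 / 2) * ν * S1r a τ + 8 * g ^ 2 / ν * M) :=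
    intervalIntegral.integral_mono_ae_restrict hst (ii_of_integrableOn hi hs ht)
      (ii_of_integrableOn hr hs ht) hbound
  rw [intervalIntegral.integral_add ((ii_of_integrableOn W.S1 hs ht).const_mul _)
    intervalIntegrable_const, intervalIntegral.integral_const_mul,
    intervalIntegral.integral_const, smul_eq_mul] at h2
  simp only at he
  rw [← he] at h2
  unfold En at h2
  simp only [sub_zero, zero_mul, add_zero] at h2
  have h3 : 0 ≤ ∑' k, ‖a t k‖ ^ 2 := tsum_nonneg fun k => by positivity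
  have h4 : ∑' k, ‖a s k‖ ^ 2 ≤ M :=
    tsum_le_of_L (fun k => by positivity) (by linarith) (W.ba s hs)
  linarith

/-- In every unit interval the enstrophy is bounded at some time. -/
lemma exists_time (hν : 0 < ν) (hM : 1 ≤ M) (W : WB ν κ g M s (s + 1) a θ) :
    ∃ τ ∈ Icc s (s + 1), L (fun k => nsq k * ‖a τ k‖ ^ 2) ≤
      ENNReal.ofReal (M / ν * (1 + 8 * g ^ 2 / ν)) := by
  by_contra hcon
  push Not at hcon
  have hst : s ≤ s + 1 := by linarith
  have h1 := energy_ineq hν hst hM W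
  set C : ℝ := M / ν * (1 + 8 * g ^ 2 / ν) with hC
  have hCpos : 0 < C := by positivity
  have h2 : ENNReal.ofReal C ≤ ∫⁻ τ in Icc s (s + 1), L (fun k => nsq k * ‖a τ k‖ ^ 2) := by
    calc ENNReal.ofReal C = ∫⁻ _ in Icc s (s + 1), ENNReal.ofReal C := by
          rw [setLIntegral_const, Real.volume_Icc, add_sub_cancel_left, ENNReal.ofReal_one, mul_one]
      _ ≤ _ := setLIntegral_mono' measurableSet_Icc fun τ hτ => (hcon τ hτ).le
  have h3 : ∫⁻ τ in Icc s (s + 1), L (fun k => nsq k * ‖a τ k‖ ^ 2) =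
      ENNReal.ofReal (∫ τ in s..(s + 1), S1r a τ) := by
    rw [intervalIntegral.integral_of_le hst, ← integral_Icc_eq_integral_Ioc,
      ofReal_integral_eq_lintegral_ofReal W.S1 (Eventually.of_forall fun τ => S1r_nonneg a τ)]
    exact lintegral_congr_ae W.fin
  rw [h3] at h2
  have h4 : 0 ≤ ∫ τ in s..(s + 1), S1r a τ :=
    intervalIntegral.integral_nonneg hst fun u _ => S1r_nonneg a u
  rw [ENNReal.ofReal_le_ofReal_iff h4] at h2
  have h5 : ν * C = M + 8 * g ^ 2 / ν * M := by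
    rw [hC]; field_simp
  have h6 : ν * C ≤ ν * ∫ τ in s..(s + 1), S1r a τ := by gcongr
  have h7 : (0 : ℝ) < ν * C := by positivity
  rw [add_sub_cancel_left, mul_one] at h1
  linarith

end

end Pancake
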