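import Pool.Agent.Pancake.Trig

/-!
# MP_771030_an: solutions in physical space and solutions in sequence space
-/

namespace Pancake

open Set Filter Topology MeasureTheory
open scoped ENNReal NNReal ComplexConjugate Real

noncomputable section

variable {Λ ν g : ℝ} {mz : Prop} {J : Set ℝ} {z : ℝ → St Λ}

/-- `-k₁ û₁ + k₀ û₂`. -/
def Vk (Λ : ℝ) (x : St Λ) (k : K) : ℂ := -(k 1 : ℂ) * fc Λ x.1 k + (k 0 : ℂ) * fc Λ x.2.1 k

/-- Solutions, with the equations tested with the Fourier modes only. -/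
structure TrigSol (Λ ν g : ℝ) (mz : Prop) (J : Set ℝ) (z : ℝ → St Λ) : Prop where
  mem : ∀ t ∈ J, z t ∈ phase Λ mz
  cont : ∀ l : St Λ →L[ℝ] ℝ, ContinuousOn (fun t => l (z t)) J
  bdd : ∀ s ∈ J, ∀ t ∈ J, ∃ M : ℝ, ∀ τ ∈ Icc s t, ‖z τ‖ ≤ M
  diss : ∀ s ∈ J, ∀ t ∈ J, ∫⁻ τ in Icc s t, gradSq Λ (z τ) ≠ ∞
  tu : ∀ k, ∀ s ∈ J, ∀ t ∈ J, s ≤ t → Vk Λ (z t) k - Vk Λ (z s) k = ∫ τ in s..t, Nk Λ ν g (z τ) k
  tt : ∀ k, ∀ s ∈ J, ∀ t ∈ J, s ≤ t → tm Λ (z t) k - tm Λ (z s) k = ∫ τ in s..t, Tk Λ (z τ) k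

lemma contOn_clm (hc : ∀ l : St Λ →L[ℝ] ℝ, ContinuousOn (fun t => l (z t)) J)
    (φ : St Λ →L[ℝ] ℂ) : ContinuousOn (fun t => φ (z t)) J := by
  have h1 := hc (Complex.reCLM.comp φ)
  have h2 := hc (Complex.imCLM.comp φ)
  have e : (fun t => φ (z t)) = fun t => (((φ (z t)).re : ℝ) : ℂ) + (((φ (z t)).im : ℝ) : ℂ) * Complex.I := by
    funext t
    exact (Complex.re_add_im _).symm
  rw [e]
  exact (Complex.continuous_ofReal.comp_continuousOn h1).add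
    ((Complex.continuous_ofReal.comp_continuousOn h2).mul continuousOn_const)

/-- The first component. -/
def fstL (Λ : ℝ) : St Λ →L[ℝ] E Λ := ContinuousLinearMap.fst ℝ (E Λ) (E Λ × E Λ)
/-- The second component. -/
def sndL (Λ : ℝ) : St Λ →L[ℝ] E Λ :=
  (ContinuousLinearMap.fst ℝ (E Λ) (E Λ)).comp (ContinuousLinearMap.snd ℝ (E Λ) (E Λ × E Λ))
/-- The third component. -/
def thdL (Λ : ℝ) : St Λ →L[ℝ] E Λ :=
  (ContinuousLinearMap.snd ℝ (E Λ) (E Λ)).comp (ContinuousLinearMap.snd ℝ (E Λ) (E Λ × E Λ))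

/-- Inner products are continuous linear functionals. -/
lemma ip_clm (a : St Λ) : ∃ l : St Λ →L[ℝ] ℝ, ∀ x, l x = ip Λ a x := by
  refine ⟨((innerSL ℝ a.1).comp (fstL Λ) + (innerSL ℝ a.2.1).comp (sndL Λ)) +
    (innerSL ℝ a.2.2).comp (thdL Λ), fun x => rfl⟩

/-- Continuous linear functionals are inner products (Riesz). -/
lemma clm_ip (l : St Λ →L[ℝ] ℝ) : ∃ a : St Λ, ∀ x, l x = ip Λ a x := by
  set l1 : E Λ →L[ℝ] ℝ := l.comp (ContinuousLinearMap.inl ℝ (E Λ) (E Λ × E Λ)) with hl1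
  set l2 : E Λ →L[ℝ] ℝ := (l.comp (ContinuousLinearMap.inr ℝ (E Λ) (E Λ × E Λ))).comp
      (ContinuousLinearMap.inl ℝ (E Λ) (E Λ)) with hl2
  set l3 : E Λ →L[ℝ] ℝ := (l.comp (ContinuousLinearMap.inr ℝ (E Λ) (E Λ × E Λ))).comp
      (ContinuousLinearMap.inr ℝ (E Λ) (E Λ)) with hl3
  refine ⟨((InnerProductSpace.toDual ℝ (E Λ)).symm l1, (InnerProductSpace.toDual ℝ (E Λ)).symm l2,
    (InnerProductSpace.toDual ℝ (E Λ)).symm l3), fun x => ?_⟩
  unfold ip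
  simp only [InnerProductSpace.toDual_symm_apply]
  change l x = l (x.1, 0) + l (0, (x.2.1, 0)) + l (0, (0, x.2.2))
  rw [← map_add, ← map_add]
  congr 1
  ext1
  · simp
  · ext1
    · simp
    · simp

/-- The velocity mode as a continuous linear map. -/
def amL (hΛ : 0 < Λ) (k : K) : St Λ →L[ℝ] ℂ :=
  ((-Complex.I * (-(k 1 : ℂ)) / (nrm k : ℂ)) • ((fcL hΛ k).comp (fstL Λ))) +
    ((-Complex.I * (k 0 : ℂ) / (nrm k : ℂ)) • ((fcL hΛ k).comp (sndL Λ)))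

lemma amL_apply (hΛ : 0 < Λ) (k : K) (x : St Λ) : amL hΛ k x = am Λ x k := by
  change (-Complex.I * (-(k 1 : ℂ)) / (nrm k : ℂ)) * fc Λ x.1 k +
    (-Complex.I * (k 0 : ℂ) / (nrm k : ℂ)) * fc Λ x.2.1 k = am Λ x k
  unfold am
  ring

/-- The temperature mode as a continuous linear map. -/
def tmL (hΛ : 0 < Λ) (k : K) : St Λ →L[ℝ] ℂ := (fcL hΛ k).comp (thdL Λ)

lemma tmL_apply (hΛ : 0 < Λ) (k : K) (x : St Λ) : tmL hΛ k x = tm Λ x k := rfl

lemma Vk_eq (x : St Λ) (k : K) : Vk Λ x k = Complex.I * (nrm k : ℂ) * am Λ x k := by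
  unfold Vk am
  by_cases hk : k = 0
  · subst hk; simp
  have hn := nrm_ne k hk
  have hI := Complex.I_sq
  field_simp
  linear_combination (-(k 1 : ℂ) * fc Λ x.1 k + (k 0 : ℂ) * fc Λ x.2.1 k) * hI

lemma Nk_eq' (hΛ : 0 < Λ) {x : St Λ} (hx : x ∈ phase Λ mz) (ν g : ℝ) (k : K) :
    Nk Λ ν g x k = Complex.I * (nrm k : ℂ) *
      Fa (ν * kap Λ ^ 2) (kap Λ) g ck (am Λ x) (tm Λ x) k := by
  by_cases hk : k = 0
  · subst hk; simp [Nk]
  rw [← Nk_eq hΛ hx]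
  have hn := nrm_ne k hk
  have hI := Complex.I_sq
  field_simp
  linear_combination (Nk Λ ν g x k) * hI

lemma am_bound (hΛ : 0 < Λ) {x : St Λ} (hx : x ∈ phase Λ mz) {M : ℝ} (hM : ‖x‖ ≤ M) :
    L (fun k => ‖am Λ x k‖ ^ 2) ≤ ENNReal.ofReal (2 * M ^ 2 / Λ ^ 2) ∧
    L (fun k => ‖tm Λ x k‖ ^ 2) ≤ ENNReal.ofReal (2 * M ^ 2 / Λ ^ 2) := by
  have h1 : ‖x.1‖ ≤ M := (norm_fst_le _).trans hM
  have h2 : ‖x.2.1‖ ≤ M := ((norm_fst_le _).trans (norm_snd_le _)).trans hM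
  have h3 : ‖x.2.2‖ ≤ M := ((norm_snd_le _).trans (norm_snd_le _)).trans hM
  have n1 := norm_nonneg x.1
  have n2 := norm_nonneg x.2.1
  have n3 := norm_nonneg x.2.2
  constructor
  · rw [L_am hΛ hx]
    apply ENNReal.ofReal_le_ofReal
    gcongr
    nlinarith
  · rw [L_tm hΛ x]
    apply ENNReal.ofReal_le_ofReal
    gcongr
    nlinarith

lemma state_bound (hΛ : 0 < Λ) {x : St Λ} (hx : x ∈ phase Λ mz) {M : ℝ} (hM0 : 0 ≤ M)
    (h1 : L (fun k => ‖am Λ x k‖ ^ 2) ≤ ENNReal.ofReal M)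
    (h2 : L (fun k => ‖tm Λ x k‖ ^ 2) ≤ ENNReal.ofReal M) : ‖x‖ ≤ Λ * √M := by
  rw [L_am hΛ hx, ENNReal.ofReal_le_ofReal_iff hM0, div_le_iff₀ (by positivity)] at h1
  rw [L_tm hΛ x, ENNReal.ofReal_le_ofReal_iff hM0, div_le_iff₀ (by positivity)] at h2
  have hs : (Λ * √M) ^ 2 = M * Λ ^ 2 := by
    rw [mul_pow, Real.sq_sqrt hM0]; ring
  have key : ∀ y : ℝ, 0 ≤ y → y ^ 2 ≤ M * Λ ^ 2 → y ≤ Λ * √M := by
    intro y hy h
    rw [← hs] at h
    exact (pow_le_pow_iff_left₀ hy (by positivity) two_ne_zero).mp h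
  rw [Prod.norm_def, Prod.norm_def]
  apply max_le
  · exact key _ (norm_nonneg _) (by nlinarith [sq_nonneg ‖x.2.1‖])
  · apply max_le
    · exact key _ (norm_nonneg _) (by nlinarith [sq_nonneg ‖x.1‖])
    · exact key _ (norm_nonneg _) h2

lemma lintegral_grad (hΛ : 0 < Λ) {s t : ℝ} (hm : ∀ τ ∈ Icc s t, z τ ∈ phase Λ mz) :
    ∫⁻ τ in Icc s t, gradSq Λ (z τ) = ENNReal.ofReal (Λ ^ 2 * kap Λ ^ 2) *
      ∫⁻ τ in Icc s t, L (fun k => nsq k * ‖am Λ (z τ) k‖ ^ 2) := by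
  rw [← lintegral_const_mul' _ _ ENNReal.ofReal_ne_top]
  apply setLIntegral_congr_fun measurableSet_Icc
  intro τ hτ
  exact gradSq_eq hΛ (hm τ hτ)

lemma const_pos (hΛ : 0 < Λ) : 0 < Λ ^ 2 * kap Λ ^ 2 := by
  have := kap_pos hΛ
  positivity

/-- From physical space to sequence space. -/
lemma TrigSol.weak (hΛ : 0 < Λ) (hJ : J.OrdConnected) (H : TrigSol Λ ν g mz J z) :
    Weak (ν * kap Λ ^ 2) (kap Λ) g J (fun t => am Λ (z t)) (fun t => tm Λ (z t)) := by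
  have hc := const_pos hΛ
  refine ⟨⟨?_, ?_, ?_, ?_⟩, fun t _ => am_sym _, fun t _ => tm_sym _, fun t _ => am_zero _, ?_, ?_⟩
  · intro k
    have := contOn_clm H.cont (amL hΛ k)
    simpa only [amL_apply] using this
  · intro k
    exact contOn_clm H.cont (tmL hΛ k)
  · intro k s hs t ht hst
    have h := H.tu k s hs t ht hst
    have e : ∀ τ, am Λ (z τ) k = -Complex.I * Vk Λ (z τ) k / (nrm k : ℂ) := fun τ => rfl
    rw [e, e, ← sub_div, ← mul_sub, h, mul_div_assoc, ← intervalIntegral.integral_div,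
      ← intervalIntegral.integral_const_mul]
    apply intervalIntegral.integral_congr
    intro τ hτ
    rw [uIcc_of_le hst] at hτ
    have hτ' : τ ∈ J := hJ.out hs ht hτ
    simp only
    rw [← mul_div_assoc]
    exact Nk_eq hΛ (H.mem τ hτ') ν g k
  · intro k s hs t ht hst
    have h := H.tt k s hs t ht hst
    rw [h]
    apply intervalIntegral.integral_congr
    intro τ hτ
    rw [uIcc_of_le hst] at hτ
    have hτ' : τ ∈ J := hJ.out hs ht hτ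
    exact Tk_eq hΛ (H.mem τ hτ') k
  · intro s hs t ht _
    obtain ⟨M, hM⟩ := H.bdd s hs t ht
    exact ⟨_, fun τ hτ => am_bound hΛ (H.mem τ (hJ.out hs ht hτ)) (hM τ hτ)⟩
  · intro s hs t ht _
    have h := H.diss s hs t ht
    rw [lintegral_grad hΛ (fun τ hτ => H.mem τ (hJ.out hs ht hτ))] at h
    intro hcon
    apply h
    rw [hcon]
    exact ENNReal.mul_top (by rw [Ne, ENNReal.ofReal_eq_zero, not_le]; exact hc)

/-- From sequence space to physical space. -/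
lemma Weak.trig (hΛ : 0 < Λ) (hJ : J.OrdConnected)
    (hJ' : ∀ t ∈ J, ∃ s ∈ J, ∃ r ∈ J, s ≤ r ∧ Icc s r ∈ 𝓝[J] t) {a θ : ℝ → K → ℂ}
    (W : Weak (ν * kap Λ ^ 2) (kap Λ) g J a θ) (hm : mz → ∀ t ∈ J, θ t 0 = 0) :
    ∃ z : ℝ → St Λ, TrigSol Λ ν g mz J z ∧ ∀ t ∈ J, am Λ (z t) = a t ∧ tm Λ (z t) = θ t := by
  classical
  have hex : ∀ t, ∃ x : St Λ, t ∈ J → (x ∈ phase Λ mz ∧ am Λ x = a t ∧ tm Λ x = θ t) := by
    intro t
    by_cases ht : t ∈ J
    · obtain ⟨M, hM⟩ := W.bd t ht t ht le_rfl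
      obtain ⟨x, hx⟩ := exists_state hΛ (mz := mz) (W.sa t ht) (W.st t ht) (W.z t ht)
        (ofReal_ne (hM t ⟨le_rfl, le_rfl⟩).1) (ofReal_ne (hM t ⟨le_rfl, le_rfl⟩).2)
        (fun h => hm h t ht)
      exact ⟨x, fun _ => hx⟩
    · exact ⟨0, fun h => absurd h ht⟩
  choose z hz using hex
  have hmem : ∀ t ∈ J, z t ∈ phase Λ mz := fun t ht => (hz t ht).1
  have ha : ∀ t ∈ J, am Λ (z t) = a t := fun t ht => (hz t ht).2.1
  have hθ : ∀ t ∈ J, tm Λ (z t) = θ t := fun t ht => (hz t ht).2.2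
  have hbdd : ∀ s ∈ J, ∀ t ∈ J, ∃ M : ℝ, ∀ τ ∈ Icc s t, ‖z τ‖ ≤ M := by
    intro s hs t ht
    by_cases hst : s ≤ t
    · obtain ⟨M, hM⟩ := W.bd s hs t ht hst
      refine ⟨Λ * √(max M 0), fun τ hτ => ?_⟩
      have hτ' : τ ∈ J := hJ.out hs ht hτ
      apply state_bound hΛ (hmem τ hτ') (le_max_right _ _)
      · rw [ha τ hτ']
        exact (hM τ hτ).1.trans (ENNReal.ofReal_le_ofReal (le_max_left _ _))
      · rw [hθ τ hτ']
        exact (hM τ hτ).2.trans (ENNReal.ofReal_le_ofReal (le_max_left _ _))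
    · refine ⟨0, fun τ hτ => absurd (hτ.1.trans hτ.2) hst⟩
  have cfc1 : ∀ k, ContinuousOn (fun t => fc Λ (z t).1 k) J := by
    intro k
    have h1 : ContinuousOn (fun t => Complex.I * a t k * (-(k 1 : ℂ)) / (nrm k : ℂ)) J :=
      ((continuousOn_const.mul (W.int.ca k)).mul continuousOn_const).div_const _
    refine h1.congr fun t ht => ?_
    simp only
    rw [fc1 (hmem t ht), ha t ht]
  have cfc2 : ∀ k, ContinuousOn (fun t => fc Λ (z t).2.1 k) J := by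
    intro k
    have h1 : ContinuousOn (fun t => Complex.I * a t k * (k 0 : ℂ) / (nrm k : ℂ)) J :=
      ((continuousOn_const.mul (W.int.ca k)).mul continuousOn_const).div_const _
    refine h1.congr fun t ht => ?_
    simp only
    rw [fc2 (hmem t ht), ha t ht]
  have cfc3 : ∀ k, ContinuousOn (fun t => fc Λ (z t).2.2 k) J := by
    intro k
    refine (W.int.ct k).congr fun t ht => ?_
    exact congrFun (hθ t ht) k
  refine ⟨z, ⟨hmem, ?_, hbdd, ?_, ?_, ?_⟩, fun t ht => ⟨ha t ht, hθ t ht⟩⟩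
  · intro l t ht
    obtain ⟨s, hs, r, hr, _, hnb⟩ := hJ' t ht
    obtain ⟨M, hM⟩ := hbdd s hs r hr
    apply tendsto_St hΛ (M := M)
    · filter_upwards [hnb] with τ hτ using hM τ hτ
    · exact fun k => cfc1 k t ht
    · exact fun k => cfc2 k t ht
    · exact fun k => cfc3 k t ht
  · intro s hs t ht
    by_cases hst : s ≤ t
    · rw [lintegral_grad hΛ (fun τ hτ => hmem τ (hJ.out hs ht hτ))]
      apply ENNReal.mul_ne_top ENNReal.ofReal_ne_top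
      have e : ∫⁻ τ in Icc s t, L (fun k => nsq k * ‖am Λ (z τ) k‖ ^ 2) =
          ∫⁻ τ in Icc s t, L (fun k => nsq k * ‖a τ k‖ ^ 2) := by
        apply setLIntegral_congr_fun measurableSet_Icc
        intro τ hτ
        simp only [ha τ (hJ.out hs ht hτ)]
      rw [e]
      exact W.h1 s hs t ht hst
    · rw [Icc_eq_empty hst]; simp
  · intro k s hs t ht hst
    have h := W.int.ea k s hs t ht hst
    rw [Vk_eq, Vk_eq, ha t ht, ha s hs, ← mul_sub, h, ← intervalIntegral.integral_const_mul]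
    apply intervalIntegral.integral_congr
    intro τ hτ
    rw [uIcc_of_le hst] at hτ
    have hτ' : τ ∈ J := hJ.out hs ht hτ
    simp only
    rw [Nk_eq' hΛ (hmem τ hτ'), ha τ hτ', hθ τ hτ']
  · intro k s hs t ht hst
    have h := W.int.et k s hs t ht hst
    rw [hθ t ht, hθ s hs, h]
    apply intervalIntegral.integral_congr
    intro τ hτ
    rw [uIcc_of_le hst] at hτ
    have hτ' : τ ∈ J := hJ.out hs ht hτ
    simp only
    rw [Tk_eq hΛ (hmem τ hτ'), ha τ hτ', hθ τ hτ']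

end

end Pancake
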