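import Pool.Agent.Pancake.Expand
import Pool.Agent.Pancake.Phys

/-!
# MP_771030_an: the weak formulation with smooth test functions and with Fourier modes
-/

namespace Pancake

open Set Filter Topology MeasureTheory
open scoped ENNReal NNReal ComplexConjugate Real

noncomputable section

variable {Λ ν g : ℝ} {mz : Prop} {J : Set ℝ} {z : ℝ → St Λ}

lemma int_E (f : E Λ) : Integrable (fun x => ((f x : ℝ) : ℂ)) (mu Λ) :=
  (memLp_E f).integrable (by norm_num)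

lemma int_mul (f g : E Λ) : Integrable (fun x => ((f x : ℝ) : ℂ) * ((g x : ℝ) : ℂ)) (mu Λ) :=
  (memLp_E f).integrable_mul (memLp_E g)

lemma Test.int_mul {φ : (Fin 2 → ℝ) → ℂ} (h : Test Λ φ) {F : (Fin 2 → ℝ) → ℂ}
    (hF : Integrable F (mu Λ)) : Integrable (fun x => F x * φ x) (mu Λ) := by
  obtain ⟨C, hC⟩ := (isCompact_Icc (a := (0 : Fin 2 → ℝ)) (b := fun _ => Λ)).exists_bound_of_continuousOn
    h.cont.continuousOn
  apply hF.mul_bdd (c := C) h.cont.aestronglyMeasurable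
  change ∀ᵐ x ∂((volume : Measure (Fin 2 → ℝ)).restrict (Icc 0 (fun _ => Λ))), ‖φ x‖ ≤ C
  rw [ae_restrict_iff' measurableSet_Icc]
  exact Eventually.of_forall fun x hx => hC x hx

lemma cf_mul_back (hΛ : 0 < Λ) (F : (Fin 2 → ℝ) → ℂ) (k : K) :
    ∫ x in Om Λ, F x * chi Λ k x = ((Λ ^ 2 : ℝ) : ℂ) * cf Λ F k := by
  unfold cf
  rw [← mul_assoc, ← Complex.ofReal_mul]
  have : Λ ^ 2 * (1 / Λ ^ 2) = 1 := by field_simp
  rw [this, Complex.ofReal_one, one_mul]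

lemma Test.hasSum' (hΛ : 0 < Λ) {φ : (Fin 2 → ℝ) → ℂ} (h : Test Λ φ) {F : (Fin 2 → ℝ) → ℂ}
    (hF : Integrable F (mu Λ)) :
    HasSum (fun k => cf Λ φ k * (((Λ ^ 2 : ℝ) : ℂ) * cf Λ F (-k))) (∫ x in Om Λ, F x * φ x) := by
  have := h.hasSum hΛ hF
  simpa only [cf_mul_back hΛ] using this

lemma RT_split {x : St Λ} {φ : (Fin 2 → ℝ) → ℂ} (h : Test Λ φ) :
    tempRhs Λ x φ = (∫ y in Om Λ, ((x.1 y : ℂ) * (x.2.2 y : ℂ)) * pd 0 φ y) +
      ∫ y in Om Λ, ((x.2.1 y : ℂ) * (x.2.2 y : ℂ)) * pd 1 φ y := by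
  unfold tempRhs adv ev
  rw [← integral_add ((h.pd 0).int_mul (int_mul x.1 x.2.2)) ((h.pd 1).int_mul (int_mul x.2.1 x.2.2))]
  congr 1
  funext y
  ring

lemma RT_hasSum (hΛ : 0 < Λ) {x : St Λ} {φ : (Fin 2 → ℝ) → ℂ} (h : Test Λ φ) :
    HasSum (fun k => cf Λ φ k * (((Λ ^ 2 : ℝ) : ℂ) * Tk Λ x (-k))) (tempRhs Λ x φ) := by
  rw [RT_split h]
  have h1 := ((h.pd 0).hasSum' hΛ (int_mul x.1 x.2.2)).add ((h.pd 1).hasSum' hΛ (int_mul x.2.1 x.2.2))
  refine h1.congr_fun ?_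
  intro k
  rw [cf_pd hΛ h, cf_pd hΛ h]
  unfold Tk pc
  simp only [Pi.neg_apply, Int.cast_neg]
  ring

lemma RT_chi (hΛ : 0 < Λ) (x : St Λ) (k : K) :
    tempRhs Λ x (chi Λ k) = ((Λ ^ 2 : ℝ) : ℂ) * Tk Λ x k := by
  rw [RT_split (test_chi hΛ k)]
  have e1 : ∀ (F : (Fin 2 → ℝ) → ℂ) (j : Fin 2), ∫ y in Om Λ, F y * pd j (chi Λ k) y =
      -(Complex.I * (kap Λ : ℂ) * (k j : ℂ)) * (((Λ ^ 2 : ℝ) : ℂ) * cf Λ F k) := by
    intro F j
    rw [← cf_mul_back hΛ, ← integral_const_mul]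
    congr 1
    funext y
    rw [pd_chi]
    ring
  rw [e1, e1]
  unfold Tk pc
  ring

lemma LM_split {x : St Λ} {v w : (Fin 2 → ℝ) → ℂ} (hv : Test Λ v) (hw : Test Λ w) :
    velInt Λ x v w = (∫ y in Om Λ, (x.1 y : ℂ) * v y) + ∫ y in Om Λ, (x.2.1 y : ℂ) * w y := by
  unfold velInt ev
  rw [integral_add (hv.int_mul (int_E x.1)) (hw.int_mul (int_E x.2.1))]

lemma int7 {f1 f2 f3 f4 f5 f6 f7 : (Fin 2 → ℝ) → ℂ} (i1 : Integrable f1 (mu Λ))
    (i2 : Integrable f2 (mu Λ)) (i3 : Integrable f3 (mu Λ)) (i4 : Integrable f4 (mu Λ))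
    (i5 : Integrable f5 (mu Λ)) (i6 : Integrable f6 (mu Λ)) (i7 : Integrable f7 (mu Λ)) :
    ∫ y in Om Λ, (f1 y + f2 y + f3 y + f4 y + (f5 y + f6 y) + f7 y) =
      ((∫ y in Om Λ, f1 y) + (∫ y in Om Λ, f2 y) + (∫ y in Om Λ, f3 y) + (∫ y in Om Λ, f4 y)) +
      ((∫ y in Om Λ, f5 y) + (∫ y in Om Λ, f6 y)) + ∫ y in Om Λ, f7 y := by
  have j2 : Integrable (fun y => f1 y + f2 y) (mu Λ) := i1.add i2
  have j3 : Integrable (fun y => f1 y + f2 y + f3 y) (mu Λ) := j2.add i3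
  have j4 : Integrable (fun y => f1 y + f2 y + f3 y + f4 y) (mu Λ) := j3.add i4
  have j6 : Integrable (fun y => f5 y + f6 y) (mu Λ) := i5.add i6
  have j7 : Integrable (fun y => f1 y + f2 y + f3 y + f4 y + (f5 y + f6 y)) (mu Λ) := j4.add j6
  rw [integral_add j7 i7, integral_add j4 j6, integral_add j3 i4, integral_add j2 i3,
    integral_add i1 i2, integral_add i5 i6]

lemma RM_split {x : St Λ} {v w : (Fin 2 → ℝ) → ℂ} (hv : Test Λ v) (hw : Test Λ w) :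
    velRhs Λ ν g x v w = ((∫ y in Om Λ, ((x.1 y : ℂ) * (x.1 y : ℂ)) * pd 0 v y) +
      (∫ y in Om Λ, ((x.1 y : ℂ) * (x.2.1 y : ℂ)) * pd 1 v y) +
      (∫ y in Om Λ, ((x.1 y : ℂ) * (x.2.1 y : ℂ)) * pd 0 w y) +
      (∫ y in Om Λ, ((x.2.1 y : ℂ) * (x.2.1 y : ℂ)) * pd 1 w y)) +
      ((ν : ℂ) * (∫ y in Om Λ, (x.1 y : ℂ) * lap v y) +
      (ν : ℂ) * (∫ y in Om Λ, (x.2.1 y : ℂ) * lap w y)) +
      (g : ℂ) * ∫ y in Om Λ, (x.2.2 y : ℂ) * w y := by
  have i1 := (hv.pd 0).int_mul (int_mul x.1 x.1)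
  have i2 := (hv.pd 1).int_mul (int_mul x.1 x.2.1)
  have i3 := (hw.pd 0).int_mul (int_mul x.1 x.2.1)
  have i4 := (hw.pd 1).int_mul (int_mul x.2.1 x.2.1)
  have i5 := (hv.lap.int_mul (int_E x.1)).const_mul (ν : ℂ)
  have i6 := (hw.lap.int_mul (int_E x.2.1)).const_mul (ν : ℂ)
  have i7 := (hw.int_mul (int_E x.2.2)).const_mul (g : ℂ)
  rw [← integral_const_mul, ← integral_const_mul, ← integral_const_mul,
    ← int7 i1 i2 i3 i4 i5 i6 i7]
  unfold velRhs adv ev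
  congr 1
  funext y
  ring

/-- The test field `(-k₁ χ_k, k₀ χ_k)`. -/
lemma RM_chi (hΛ : 0 < Λ) (x : St Λ) (k : K) :
    velRhs Λ ν g x (fun y => -(k 1 : ℂ) * chi Λ k y) (fun y => (k 0 : ℂ) * chi Λ k y) =
      ((Λ ^ 2 : ℝ) : ℂ) * Nk Λ ν g x k := by
  have tc := test_chi hΛ k
  rw [RM_split (tc.const_mul _) (tc.const_mul _)]
  have hpd : ∀ (c : ℂ) (j : Fin 2) (y : Fin 2 → ℝ), pd j (fun y => c * chi Λ k y) y =
      c * (-(Complex.I * (kap Λ : ℂ) * (k j : ℂ)) * chi Λ k y) := by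
    intro c j y
    have h1 : HasFDerivAt (fun y => c * chi Λ k y) (c • (chi Λ k y • phs Λ k)) y :=
      (hasFDerivAt_chi k y).const_mul c
    rw [← pd_chi]
    unfold pd
    rw [h1.fderiv, (hasFDerivAt_chi k y).fderiv]
    rfl
  have hpd' : ∀ (c : ℂ) (j : Fin 2), pd j (fun y => c * chi Λ k y) =
      fun y => (c * -(Complex.I * (kap Λ : ℂ) * (k j : ℂ))) * chi Λ k y := by
    intro c j
    funext y
    rw [hpd]
    ring
  have hlap : ∀ (c : ℂ) (y : Fin 2 → ℝ), lap (fun y => c * chi Λ k y) y =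
      (-((kap Λ ^ 2 * nsq k : ℝ) : ℂ) * c) * chi Λ k y := by
    intro c y
    unfold lap
    simp only [hpd']
    have hI := Complex.I_sq
    unfold nsq
    push_cast
    linear_combination ((kap Λ : ℂ) ^ 2 * ((k 0 : ℂ) ^ 2 + (k 1 : ℂ) ^ 2) * c * chi Λ k y) * hI
  have e0 : ∀ (F : (Fin 2 → ℝ) → ℂ) (c : ℂ), ∫ y in Om Λ, F y * (c * chi Λ k y) =
      c * (((Λ ^ 2 : ℝ) : ℂ) * cf Λ F k) := by
    intro F c
    rw [← cf_mul_back hΛ, ← integral_const_mul]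
    congr 1
    funext y
    ring
  simp only [hpd', hlap]
  simp only [e0]
  unfold Nk pc tm fc ev
  simp only [cf]
  push_cast
  ring

lemma LM_chi (hΛ : 0 < Λ) (x : St Λ) (k : K) :
    velInt Λ x (fun y => -(k 1 : ℂ) * chi Λ k y) (fun y => (k 0 : ℂ) * chi Λ k y) =
      ((Λ ^ 2 : ℝ) : ℂ) * Vk Λ x k := by
  have tc := test_chi hΛ k
  rw [LM_split (tc.const_mul _) (tc.const_mul _)]
  have e0 : ∀ (F : (Fin 2 → ℝ) → ℂ) (c : ℂ), ∫ y in Om Λ, F y * (c * chi Λ k y) =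
      c * (((Λ ^ 2 : ℝ) : ℂ) * cf Λ F k) := by
    intro F c
    rw [← cf_mul_back hΛ, ← integral_const_mul]
    congr 1
    funext y
    ring
  simp only [e0]
  unfold Vk
  simp only [fc_eq_cf]
  ring

/-- From smooth test functions to Fourier modes. -/
theorem WeakSol.trig (hΛ : 0 < Λ) (H : WeakSol Λ ν g mz J z) : TrigSol Λ ν g mz J z := by
  have hL : ((Λ ^ 2 : ℝ) : ℂ) ≠ 0 := by
    rw [Ne, Complex.ofReal_eq_zero]; positivity
  refine ⟨H.mem, fun l => ?_, H.bdd, H.diss, ?_, ?_⟩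
  · obtain ⟨a, ha⟩ := clm_ip l
    simp only [ha]
    exact H.cont a
  · intro k s hs t ht hst
    have tc := test_chi hΛ k
    by_cases hk : k = 0
    · subst hk
      simp [Vk, Nk]
    have hdiv : ∀ x, pd 0 (fun y => -(k 1 : ℂ) * chi Λ k y) x +
        pd 1 (fun y => (k 0 : ℂ) * chi Λ k y) x = 0 := by
      intro x
      have hpd : ∀ (c : ℂ) (j : Fin 2) (y : Fin 2 → ℝ), pd j (fun y => c * chi Λ k y) y =
          c * (-(Complex.I * (kap Λ : ℂ) * (k j : ℂ)) * chi Λ k y) := by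
        intro c j y
        have h1 : HasFDerivAt (fun y => c * chi Λ k y) (c • (chi Λ k y • phs Λ k)) y :=
          (hasFDerivAt_chi k y).const_mul c
        rw [← pd_chi]
        unfold pd
        rw [h1.fderiv, (hasFDerivAt_chi k y).fderiv]
        rfl
      rw [hpd, hpd]
      ring
    have hmean : ∫ x in Om Λ, chi Λ k x = 0 := by
      obtain ⟨j, hj⟩ : ∃ j, k j ≠ 0 := by
        by_contra hcon
        push Not at hcon
        exact hk (funext hcon)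
      have h1 := integral_pd hΛ tc j
      simp only [pd_chi] at h1
      rw [integral_const_mul] at h1
      have hκ : (kap Λ : ℂ) ≠ 0 := by
        rw [Ne, Complex.ofReal_eq_zero]; exact (kap_pos hΛ).ne'
      have hkj : (k j : ℂ) ≠ 0 := by exact_mod_cast hj
      rcases mul_eq_zero.mp h1 with h2 | h2
      · exfalso
        rw [neg_eq_zero] at h2
        exact (mul_ne_zero (mul_ne_zero Complex.I_ne_zero hκ) hkj) h2
      · exact h2
    have key := H.mom (fun y => -(k 1 : ℂ) * chi Λ k y) (fun y => (k 0 : ℂ) * chi Λ k y)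
      ⟨tc.const_mul _, tc.const_mul _, hdiv, by rw [integral_const_mul, hmean, mul_zero],
      by rw [integral_const_mul, hmean, mul_zero]⟩ s hs t ht hst
    simp only [LM_chi hΛ, RM_chi hΛ] at key
    rw [← mul_sub, intervalIntegral.integral_const_mul] at key
    exact mul_left_cancel₀ hL key
  · intro k s hs t ht hst
    have key := H.temp (chi Λ k) (test_chi hΛ k) s hs t ht hst
    unfold tempInt ev at key
    simp only [RT_chi hΛ, cf_mul_back hΛ] at key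
    rw [← mul_sub, intervalIntegral.integral_const_mul] at key
    exact mul_left_cancel₀ hL key

end

end Pancake
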