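import Pool.Agent.Pancake.Equiv

/-!
# MP_771030_an: from Fourier modes to smooth test functions
-/

namespace Pancake

open Set Filter Topology MeasureTheory
open scoped ENNReal NNReal ComplexConjugate Real

noncomputable section

variable {Λ ν g : ℝ} {mz : Prop} {J : Set ℝ} {z : ℝ → St Λ}

lemma nrm_le_one_add (k : K) : nrm k ≤ 1 + nsq k := by
  have h := nrm_sq k
  nlinarith [sq_nonneg (nrm k - 1), nrm_nonneg k]

lemma lipT_le {κ M : ℝ} (hM : 0 ≤ M) (k : K) :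
    lipT κ M M k ≤ (|κ| * (M + M)) * (1 + nsq k) := by
  unfold lipT
  have h := nrm_le_one_add k
  calc |κ| * (nrm k * (M + M)) = (|κ| * (M + M)) * nrm k := by ring
    _ ≤ (|κ| * (M + M)) * (1 + nsq k) := by gcongr

lemma lipA_le {ν κ g M : ℝ} (hM : 0 ≤ M) (k : K) :
    lipA ν κ g M M k ≤ (|ν| * √M + |κ| * (M + M) + |g| * √M) * (1 + nsq k) := by
  unfold lipA
  have h := nrm_le_one_add k
  have hn := nsq_nonneg k
  have h1 : |ν| * nsq k * √M ≤ |ν| * √M * (1 + nsq k) := by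
    have : 0 ≤ |ν| * √M := by positivity
    nlinarith
  have h2 : |κ| * (nrm k * (M + M)) ≤ |κ| * (M + M) * (1 + nsq k) := by
    calc |κ| * (nrm k * (M + M)) = (|κ| * (M + M)) * nrm k := by ring
      _ ≤ (|κ| * (M + M)) * (1 + nsq k) := by gcongr
  have h3 : |g| * √M ≤ |g| * √M * (1 + nsq k) := by
    have : 0 ≤ |g| * √M := by positivity
    nlinarith
  calc _ ≤ |ν| * √M * (1 + nsq k) + |κ| * (M + M) * (1 + nsq k) + |g| * √M * (1 + nsq k) := by
        linarith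
    _ = _ := by ring

/-- The stream coefficients of a divergence free test field. -/
def bk (Λ : ℝ) (v w : (Fin 2 → ℝ) → ℂ) (k : K) : ℂ :=
  (-(k 1 : ℂ) * cf Λ v k + (k 0 : ℂ) * cf Λ w k) / (nrm k : ℂ) ^ 2

section field

variable {v w : (Fin 2 → ℝ) → ℂ}

lemma cf_zero_eq (v : (Fin 2 → ℝ) → ℂ) (h : ∫ x in Om Λ, v x = 0) : cf Λ v 0 = 0 := by
  unfold cf
  have e : ∀ x, v x * chi Λ 0 x = v x := by
    intro x
    simp [chi]
  simp only [e]
  rw [h, mul_zero]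

lemma div_cf (hΛ : 0 < Λ) (hv : Test Λ v) (hw : Test Λ w) (hdiv : ∀ x, pd 0 v x + pd 1 w x = 0)
    (k : K) : (k 0 : ℂ) * cf Λ v k + (k 1 : ℂ) * cf Λ w k = 0 := by
  have h1 := cf_add (hv.pd 0).integrable (hw.pd 1).integrable k
  have h2 : cf Λ (fun x => pd 0 v x + pd 1 w x) k = 0 := by
    unfold cf
    simp only [hdiv, zero_mul, integral_zero, mul_zero]
  rw [h2, cf_pd hΛ hv, cf_pd hΛ hw] at h1
  have hκ : (kap Λ : ℂ) ≠ 0 := by
    rw [Ne, Complex.ofReal_eq_zero]; exact (kap_pos hΛ).ne'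
  have h3 : (Complex.I * (kap Λ : ℂ)) * ((k 0 : ℂ) * cf Λ v k + (k 1 : ℂ) * cf Λ w k) = 0 := by
    rw [h1]; ring
  rcases mul_eq_zero.mp h3 with h4 | h4
  · exact absurd h4 (mul_ne_zero Complex.I_ne_zero hκ)
  · exact h4

lemma cf_v (hΛ : 0 < Λ) (hv : Test Λ v) (hw : Test Λ w) (hdiv : ∀ x, pd 0 v x + pd 1 w x = 0)
    (hv0 : ∫ x in Om Λ, v x = 0) (k : K) : cf Λ v k = -(k 1 : ℂ) * bk Λ v w k := by
  by_cases hk : k = 0
  · subst hk; rw [cf_zero_eq v hv0]; simp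
  have hn := nrm_ne k hk
  have hd := div_cf hΛ hv hw hdiv k
  have hsq := nrm_sq' k
  unfold bk
  field_simp
  rw [hsq]
  linear_combination (k 0 : ℂ) * hd

lemma cf_w (hΛ : 0 < Λ) (hv : Test Λ v) (hw : Test Λ w) (hdiv : ∀ x, pd 0 v x + pd 1 w x = 0)
    (hw0 : ∫ x in Om Λ, w x = 0) (k : K) : cf Λ w k = (k 0 : ℂ) * bk Λ v w k := by
  by_cases hk : k = 0
  · subst hk; rw [cf_zero_eq w hw0]; simp
  have hn := nrm_ne k hk
  have hd := div_cf hΛ hv hw hdiv k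
  have hsq := nrm_sq' k
  unfold bk
  field_simp
  rw [hsq]
  linear_combination (k 1 : ℂ) * hd

lemma bk_bound (hv : ∀ k, cf Λ v k = -(k 1 : ℂ) * bk Λ v w k)
    (hw : ∀ k, cf Λ w k = (k 0 : ℂ) * bk Λ v w k) (k : K) :
    ‖bk Λ v w k‖ * nrm k ≤ ‖cf Λ v k‖ + ‖cf Λ w k‖ := by
  have h1 : ‖cf Λ v k‖ = |(k 1 : ℝ)| * ‖bk Λ v w k‖ := by
    rw [hv k, norm_mul, norm_neg, ← Complex.ofReal_intCast, Complex.norm_real, Real.norm_eq_abs]
  have h2 : ‖cf Λ w k‖ = |(k 0 : ℝ)| * ‖bk Λ v w k‖ := by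
    rw [hw k, norm_mul, ← Complex.ofReal_intCast, Complex.norm_real, Real.norm_eq_abs]
  rw [h1, h2]
  have h3 : nrm k ≤ |(k 1 : ℝ)| + |(k 0 : ℝ)| := by
    unfold nrm nsq
    rw [Real.sqrt_le_left (by positivity)]
    have := sq_abs (k 0 : ℝ)
    have := sq_abs (k 1 : ℝ)
    nlinarith [mul_nonneg (abs_nonneg (k 0 : ℝ)) (abs_nonneg (k 1 : ℝ))]
  have h4 := norm_nonneg (bk Λ v w k)
  nlinarith

lemma LM_hasSum (hΛ : 0 < Λ) (hv : Test Λ v) (hw : Test Λ w)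
    (hbv : ∀ k, cf Λ v k = -(k 1 : ℂ) * bk Λ v w k)
    (hbw : ∀ k, cf Λ w k = (k 0 : ℂ) * bk Λ v w k) (x : St Λ) :
    HasSum (fun k => -bk Λ v w k * (((Λ ^ 2 : ℝ) : ℂ) * Vk Λ x (-k))) (velInt Λ x v w) := by
  rw [LM_split hv hw]
  have h1 := (hv.hasSum' hΛ (int_E x.1)).add (hw.hasSum' hΛ (int_E x.2.1))
  refine h1.congr_fun ?_
  intro k
  rw [hbv k, hbw k]
  unfold Vk
  simp only [Pi.neg_apply, Int.cast_neg, fc_eq_cf]
  ring

lemma RM_hasSum (hΛ : 0 < Λ) (hv : Test Λ v) (hw : Test Λ w)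
    (hbv : ∀ k, cf Λ v k = -(k 1 : ℂ) * bk Λ v w k)
    (hbw : ∀ k, cf Λ w k = (k 0 : ℂ) * bk Λ v w k) (x : St Λ) :
    HasSum (fun k => -bk Λ v w k * (((Λ ^ 2 : ℝ) : ℂ) * Nk Λ ν g x (-k))) (velRhs Λ ν g x v w) := by
  rw [RM_split hv hw]
  have h1 := (hv.pd 0).hasSum' hΛ (int_mul x.1 x.1)
  have h2 := (hv.pd 1).hasSum' hΛ (int_mul x.1 x.2.1)
  have h3 := (hw.pd 0).hasSum' hΛ (int_mul x.1 x.2.1)
  have h4 := (hw.pd 1).hasSum' hΛ (int_mul x.2.1 x.2.1)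
  have h5 := (hv.lap.hasSum' hΛ (int_E x.1)).mul_left (ν : ℂ)
  have h6 := (hw.lap.hasSum' hΛ (int_E x.2.1)).mul_left (ν : ℂ)
  have h7 := (hw.hasSum' hΛ (int_E x.2.2)).mul_left (g : ℂ)
  have h8 := ((((h1.add h2).add h3).add h4).add (h5.add h6)).add h7
  refine h8.congr_fun ?_
  intro k
  rw [cf_pd hΛ hv, cf_pd hΛ hv, cf_pd hΛ hw, cf_pd hΛ hw, cf_lap hΛ hv, cf_lap hΛ hw, hbv k, hbw k]
  unfold Nk pc tm
  simp only [Pi.neg_apply, Int.cast_neg, fc_eq_cf, nsq_neg]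
  push_cast
  ring

end field

/-- Interchange of the sum over the modes and the time integral. -/
lemma sum_integral {s t : ℝ} (hst : s ≤ t) {c : K → ℂ} {G : ℝ → K → ℂ} {R : ℝ → ℂ} {B : K → ℝ}
    (hG : ∀ k, IntegrableOn (fun τ => G τ k) (Icc s t))
    (hb : ∀ k, ∀ τ ∈ Icc s t, ‖c k * G τ k‖ ≤ B k) (hB : Summable B)
    (hR : ∀ τ ∈ Icc s t, HasSum (fun k => c k * G τ k) (R τ)) :
    HasSum (fun k => c k * ∫ τ in s..t, G τ k) (∫ τ in s..t, R τ) := by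
  have key := intervalIntegral.hasSum_integral_of_dominated_convergence (μ := volume) (a := s)
    (b := t) (F := fun k τ => c k * G τ k) (f := R) (fun k _ => B k)
    (fun k => by
      rw [uIoc_of_le hst]
      exact ((hG k).aestronglyMeasurable.mono_measure
        (Measure.restrict_mono Ioc_subset_Icc_self le_rfl)).const_mul _)
    (fun k => Eventually.of_forall fun τ hτ => by
      rw [uIoc_of_le hst] at hτ
      exact hb k τ ⟨hτ.1.le, hτ.2⟩)
    (Eventually.of_forall fun τ _ => hB)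
    intervalIntegrable_const
    (Eventually.of_forall fun τ hτ => by
      rw [uIoc_of_le hst] at hτ
      exact hR τ ⟨hτ.1.le, hτ.2⟩)
  refine key.congr_fun ?_
  intro k
  rw [intervalIntegral.integral_const_mul]

/-- From Fourier modes to smooth test functions. -/
theorem TrigSol.weakSol (hΛ : 0 < Λ) (hJ : J.OrdConnected) (H : TrigSol Λ ν g mz J z) :
    WeakSol Λ ν g mz J z := by
  have hΛ2 : (0 : ℝ) ≤ Λ ^ 2 := by positivity
  have hW := H.weak hΛ hJ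
  refine ⟨H.mem, fun a => ?_, H.bdd, H.diss, ?_, ?_⟩
  · obtain ⟨l, hl⟩ := ip_clm a
    simp only [← hl]
    exact H.cont l
  · rintro v w ⟨hv, hw, hdiv, hv0, hw0⟩ s hs t ht hst
    have hsub : Icc s t ⊆ J := hJ.out hs ht
    obtain ⟨M0, hWB0⟩ := hW.wb hJ hs ht hst
    set M := max M0 0 with hM
    have hM0 : 0 ≤ M := le_max_right _ _
    have hWB := hWB0.weaken (le_max_left M0 0)
    have hbv := cf_v hΛ hv hw hdiv hv0
    have hbw := cf_w hΛ hv hw hdiv hw0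
    have hNk : ∀ k, ∀ τ ∈ Icc s t, Nk Λ ν g (z τ) (-k) = Complex.I * (nrm (-k) : ℂ) *
        Fa (ν * kap Λ ^ 2) (kap Λ) g ck (am Λ (z τ)) (tm Λ (z τ)) (-k) := fun k τ hτ =>
      Nk_eq' hΛ (H.mem τ (hsub hτ)) ν g (-k)
    have hsum : Summable fun k : K => (‖cf Λ v k‖ + ‖cf Λ w k‖) *
        (Λ ^ 2 * ((|ν * kap Λ ^ 2| * √M + |kap Λ| * (M + M) + |g| * √M) * (1 + nsq k))) := by
      have h1 := ((hv.summable hΛ).add (hw.summable hΛ)).mul_left
        (Λ ^ 2 * (|ν * kap Λ ^ 2| * √M + |kap Λ| * (M + M) + |g| * √M))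
      refine h1.congr fun k => ?_
      ring
    have key := sum_integral (s := s) (t := t) hst (c := fun k => -bk Λ v w k)
      (G := fun τ k => ((Λ ^ 2 : ℝ) : ℂ) * Nk Λ ν g (z τ) (-k))
      (R := fun τ => velRhs Λ ν g (z τ) v w)
      (fun k => by
        have h1 := (hWB.fa hM0 (-k)).const_mul (((Λ ^ 2 : ℝ) : ℂ) * (Complex.I * (nrm (-k) : ℂ)))
        refine IntegrableOn.congr_fun h1 (fun τ hτ => ?_) measurableSet_Icc
        rw [hNk k τ hτ]
        ring)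
      (fun k τ hτ => by
        have hFa := norm_Fa_le (ν := ν * kap Λ ^ 2) (κ := kap Λ) (g := g) hM0 hM0 abs_ck_le
          (hWB.ba τ hτ) (hWB.bt τ hτ) (-k)
        have h2 := hFa.trans (lipA_le hM0 (-k))
        rw [nsq_neg] at h2
        have h3 := bk_bound hbv hbw k
        rw [norm_mul, norm_mul, norm_neg, hNk k τ hτ, norm_mul, norm_mul, Complex.norm_I,
          Complex.norm_real, Complex.norm_real, Real.norm_eq_abs, Real.norm_eq_abs, nrm_neg,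
          abs_of_nonneg (nrm_nonneg k), abs_of_nonneg hΛ2, one_mul]
        calc ‖bk Λ v w k‖ * (Λ ^ 2 * (nrm k *
              ‖Fa (ν * kap Λ ^ 2) (kap Λ) g ck (am Λ (z τ)) (tm Λ (z τ)) (-k)‖))
            = (‖bk Λ v w k‖ * nrm k) * (Λ ^ 2 *
              ‖Fa (ν * kap Λ ^ 2) (kap Λ) g ck (am Λ (z τ)) (tm Λ (z τ)) (-k)‖) := by ring
          _ ≤ (‖cf Λ v k‖ + ‖cf Λ w k‖) * (Λ ^ 2 *
              ((|ν * kap Λ ^ 2| * √M + |kap Λ| * (M + M) + |g| * √M) * (1 + nsq k))) := by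
              gcongr)
      hsum (fun τ _ => RM_hasSum hΛ hv hw hbv hbw (z τ))
    have hl := (LM_hasSum hΛ hv hw hbv hbw (z t)).sub (LM_hasSum hΛ hv hw hbv hbw (z s))
    refine hl.unique (key.congr_fun fun k => ?_)
    rw [intervalIntegral.integral_const_mul, ← H.tu (-k) s hs t ht hst]
    ring
  · intro φ hφ s hs t ht hst
    have hsub : Icc s t ⊆ J := hJ.out hs ht
    obtain ⟨M0, hWB0⟩ := hW.wb hJ hs ht hst
    set M := max M0 0 with hM
    have hM0 : 0 ≤ M := le_max_right _ _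
    have hWB := hWB0.weaken (le_max_left M0 0)
    have hTk : ∀ k, ∀ τ ∈ Icc s t, Tk Λ (z τ) (-k) =
        Ft (kap Λ) ek (am Λ (z τ)) (tm Λ (z τ)) (-k) := fun k τ hτ =>
      Tk_eq hΛ (H.mem τ (hsub hτ)) (-k)
    have hsum : Summable fun k : K => ‖cf Λ φ k‖ * (Λ ^ 2 * ((|kap Λ| * (M + M)) * (1 + nsq k))) := by
      have h1 := (hφ.summable hΛ).mul_left (Λ ^ 2 * (|kap Λ| * (M + M)))
      refine h1.congr fun k => ?_
      ring
    have key := sum_integral (s := s) (t := t) hst (c := fun k => cf Λ φ k)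
      (G := fun τ k => ((Λ ^ 2 : ℝ) : ℂ) * Tk Λ (z τ) (-k))
      (R := fun τ => tempRhs Λ (z τ) φ)
      (fun k => by
        have h1 := (hWB.ft hM0 (-k)).const_mul ((Λ ^ 2 : ℝ) : ℂ)
        refine IntegrableOn.congr_fun h1 (fun τ hτ => ?_) measurableSet_Icc
        rw [hTk k τ hτ])
      (fun k τ hτ => by
        have hFt := norm_Ft_le (κ := kap Λ) hM0 hM0 abs_ek_le_left
          (hWB.ba τ hτ) (hWB.bt τ hτ) (-k)
        have h2 := hFt.trans (lipT_le hM0 (-k))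
        rw [nsq_neg] at h2
        rw [norm_mul, norm_mul, hTk k τ hτ, Complex.norm_real, Real.norm_eq_abs,
          abs_of_nonneg hΛ2]
        gcongr)
      hsum (fun τ _ => RT_hasSum hΛ hφ)
    have hl := (hφ.hasSum' hΛ (int_E (z t).2.2)).sub (hφ.hasSum' hΛ (int_E (z s).2.2))
    unfold tempInt ev
    refine hl.unique (key.congr_fun fun k => ?_)
    rw [intervalIntegral.integral_const_mul, ← H.tt (-k) s hs t ht hst]
    unfold tm
    simp only [fc_eq_cf]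
    ring

end

end Pancake
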