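import Pool.Agent.Pancake.Compact

/-!
# MP_771030_an: existence of strong solutions
-/

namespace Pancake

open Set Filter Topology MeasureTheory
open scoped ENNReal NNReal ComplexConjugate

noncomputable section

/-- The symmetric set of modes `|k| < n`. -/
def BB (n : ℕ) : Finset K := (finite_ball 0 n).toFinset

lemma mem_BB {n : ℕ} {k : K} : k ∈ BB n ↔ nsq k < (n : ℝ) ^ 2 := by
  unfold BB
  rw [Set.Finite.mem_toFinset]
  change nsq (0 - k) < _ ↔ _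
  rw [zero_sub, nsq_neg]

lemma BB_neg {n : ℕ} : ∀ k ∈ BB n, -k ∈ BB n := by
  intro k hk
  rw [mem_BB] at hk ⊢
  rwa [nsq_neg]

lemma eventually_mem_BB (k : K) : ∀ᶠ n : ℕ in atTop, k ∈ BB n := by
  have h : Tendsto (fun n : ℕ => (n : ℝ) ^ 2) atTop atTop :=
    (tendsto_pow_atTop two_ne_zero).comp tendsto_natCast_atTop_atTop
  filter_upwards [h.eventually_gt_atTop (nsq k)] with n hn
  rwa [mem_BB]

lemma abs_cut_le {B : Finset K} {c : K → K → ℝ} (hc : ∀ k h, |c k h| ≤ nrm k) (k h : K) :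
    |cut B c k h| ≤ nrm k := by
  unfold cut
  split_ifs
  · exact hc k h
  · rw [abs_zero]; exact nrm_nonneg k

lemma tendsto_cut (c : K → K → ℝ) (k h : K) :
    Tendsto (fun n => cut (BB n) c k h) atTop (𝓝 (c k h)) := by
  apply tendsto_const_nhds.congr'
  filter_upwards [eventually_mem_BB k, eventually_mem_BB h, eventually_mem_BB (k - h)]
    with n h1 h2 h3
  unfold cut
  rw [if_pos ⟨h1, h2, h3⟩]

lemma sum_le_of_L {f : K → ℝ} (hf : ∀ k, 0 ≤ f k) {M : ℝ} (hM : 0 ≤ M)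
    (h : L f ≤ ENNReal.ofReal M) (B : Finset K) : ∑ k ∈ B, f k ≤ M := by
  have hs := summable_of_L hf (ne_top_of_le_ne_top ENNReal.ofReal_ne_top h)
  exact (hs.sum_le_tsum B (fun k _ => hf k)).trans (tsum_le_of_L hf hM h)

lemma L_eq_sum {f : K → ℝ} (hf : ∀ k, 0 ≤ f k) {B : Finset K} (hB : ∀ k ∉ B, f k = 0) :
    L f = ENNReal.ofReal (∑ k ∈ B, f k) := by
  unfold L
  rw [tsum_eq_sum (s := B)]
  · rw [ENNReal.ofReal_sum_of_nonneg fun k _ => hf k]
  · intro k hk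
    rw [hB k hk, ENNReal.ofReal_zero]

/-- From the Galerkin system to the integral form. -/
lemma galerkin_int {ν κ g M0 M1 : ℝ} (hν : 0 < ν) (h0 : 0 ≤ M0) (h1 : 0 ≤ M1)
    (hM : g ^ 2 * M0 ≤ ν ^ 2 * M1)
    (B : Finset K) (hB : ∀ k ∈ B, -k ∈ B) {T : ℝ} (hT : 0 ≤ T) {a0 θ0 : K → ℂ}
    (ha0 : Sym a0) (hθ0 : Sym θ0) (ha00 : a0 0 = 0)
    (hb0 : L (fun k => nsq k * ‖a0 k‖ ^ 2) ≤ ENNReal.ofReal M1)
    (hbθ : L (fun k => ‖θ0 k‖ ^ 2) ≤ ENNReal.ofReal M0) :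
    ∃ a θ : ℝ → K → ℂ,
      (∀ k ∈ B, a 0 k = a0 k) ∧ (∀ k ∈ B, θ 0 k = θ0 k) ∧
      IntSol ν κ g (cut B ck) (cut B ek) (Icc 0 T) a θ ∧ Cls M0 M1 ν (Icc 0 T) a θ := by
  have hnn : ∀ (x : K → ℂ) k, 0 ≤ nsq k * ‖x k‖ ^ 2 := fun x k => by
    have := nsq_nonneg k; positivity
  have hnn2 : ∀ (x : K → ℂ) k, 0 ≤ nsq k ^ 2 * ‖x k‖ ^ 2 := fun x k => by
    have := nsq_nonneg k; positivity
  obtain ⟨a, θ, ha, hθ, hout, houtθ, hsa, hst, hz, da, dt, bθ, ba, bi⟩ :=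
    galerkin (κ := κ) hν hM B hB hT ha0 hθ0 ha00
      (sum_le_of_L (hnn a0) h1 hb0 B) (sum_le_of_L (fun k => by positivity) h0 hbθ B)
  have ca : ∀ k, ContinuousOn (fun t => a t k) (Icc 0 T) := fun k t ht =>
    (da t ht k).continuousWithinAt
  have ct : ∀ k, ContinuousOn (fun t => θ t k) (Icc 0 T) := fun k t ht =>
    (dt t ht k).continuousWithinAt
  have hcls : Cls M0 M1 ν (Icc 0 T) a θ := by
    refine ⟨hsa, hst, hz, ?_, ?_, ?_⟩
    · intro t ht
      rw [L_eq_sum (fun k => by positivity) (B := B) (fun k hk => by rw [houtθ t k hk]; simp)]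
      exact ENNReal.ofReal_le_ofReal (bθ t ht)
    · intro t ht
      rw [L_eq_sum (hnn (a t)) (B := B) (fun k hk => by rw [hout t k hk]; simp)]
      exact ENNReal.ofReal_le_ofReal (ba t ht)
    · intro s hs t ht hst
      have e : ∀ τ, L (fun k => nsq k ^ 2 * ‖a τ k‖ ^ 2) =
          ENNReal.ofReal (∑ k ∈ B, nsq k ^ 2 * ‖a τ k‖ ^ 2) := fun τ =>
        L_eq_sum (hnn2 (a τ)) (B := B) (fun k hk => by rw [hout τ k hk]; simp)
      have hcont : ContinuousOn (fun τ => ∑ k ∈ B, nsq k ^ 2 * ‖a τ k‖ ^ 2) (Icc s t) := by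
        apply continuousOn_finsetSum
        intro k _
        exact continuousOn_const.mul (((ca k).mono (Icc_subset_Icc hs.1 ht.2)).norm.pow 2)
      simp only [e]
      rw [← ofReal_integral_eq_lintegral_ofReal hcont.integrableOn_Icc
        (Eventually.of_forall fun τ => Finset.sum_nonneg fun k _ => hnn2 (a τ) k)]
      apply ENNReal.ofReal_le_ofReal
      rw [integral_Icc_eq_integral_Ioc, ← intervalIntegral.integral_of_le hst]
      exact bi s hs t ht hst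
  refine ⟨a, θ, ha, hθ, ⟨ca, ct, ?_, ?_⟩, hcls⟩
  · intro k s hs t ht hst
    have hsub : Icc s t ⊆ Icc 0 T := Icc_subset_Icc hs.1 ht.2
    rw [intervalIntegral.integral_eq_sub_of_hasDeriv_right_of_le hst ((ca k).mono hsub)]
    · intro x hx
      exact (da x (hsub ⟨hx.1.le, hx.2.le⟩) k).mono_of_mem_nhdsWithin
        (Icc_mem_nhdsGT_of_mem ⟨hs.1.trans hx.1.le, lt_of_lt_of_le hx.2 ht.2⟩)
    · apply ContinuousOn.intervalIntegrable
      rw [uIcc_of_le hst]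
      exact (continuousOn_Fa h1 (abs_cut_le abs_ck_le) ca ct hcls k).mono hsub
  · intro k s hs t ht hst
    have hsub : Icc s t ⊆ Icc 0 T := Icc_subset_Icc hs.1 ht.2
    rw [intervalIntegral.integral_eq_sub_of_hasDeriv_right_of_le hst ((ct k).mono hsub)]
    · intro x hx
      exact (dt x (hsub ⟨hx.1.le, hx.2.le⟩) k).mono_of_mem_nhdsWithin
        (Icc_mem_nhdsGT_of_mem ⟨hs.1.trans hx.1.le, lt_of_lt_of_le hx.2 ht.2⟩)
    · apply ContinuousOn.intervalIntegrable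
      rw [uIcc_of_le hst]
      exact (continuousOn_Ft h0 h1 (abs_cut_le abs_ek_le_left) ca ct hcls k).mono hsub

/-- Existence of strong solutions. -/
theorem exist_strong {ν κ g M0 M1 : ℝ} (hν : 0 < ν) (h0 : 0 ≤ M0) (h1 : 0 ≤ M1)
    (hM : g ^ 2 * M0 ≤ ν ^ 2 * M1) {a0 θ0 : K → ℂ}
    (ha0 : Sym a0) (hθ0 : Sym θ0) (ha00 : a0 0 = 0)
    (hb0 : L (fun k => nsq k * ‖a0 k‖ ^ 2) ≤ ENNReal.ofReal M1)
    (hbθ : L (fun k => ‖θ0 k‖ ^ 2) ≤ ENNReal.ofReal M0) :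
    ∃ a θ : ℝ → K → ℂ, a 0 = a0 ∧ θ 0 = θ0 ∧
      IntSol ν κ g ck ek (Ici 0) a θ ∧ Cls M0 M1 ν (Ici 0) a θ := by
  choose an θn han hθn hsol hcls using fun n : ℕ =>
    galerkin_int (κ := κ) hν h0 h1 hM (BB n) BB_neg (Nat.cast_nonneg n) ha0 hθ0 ha00 hb0 hbθ
  obtain ⟨φ, hφ, a, θ, ta, tt, hS, hC⟩ := compactness h0 h1
    (cn := fun n => cut (BB n) ck) (en := fun n => cut (BB n) ek) (c := ck) (e := ek)
    (fun n => abs_cut_le abs_ck_le) (fun n => abs_cut_le abs_ek_le_left) abs_ck_le abs_ek_le_left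
    (tendsto_cut ck) (tendsto_cut ek) (α := fun _ => 0) (β := fun n => (n : ℝ))
    (fun n => Nat.cast_nonneg n) (I := Ici 0) ordConnected_Ici
    (fun t ht => by
      filter_upwards [tendsto_natCast_atTop_atTop.eventually_ge_atTop t] with n hn
      exact ⟨ht, hn⟩) hsol hcls
  refine ⟨a, θ, ?_, ?_, hS, hC⟩
  · funext k
    refine tendsto_nhds_unique (ta 0 self_mem_Ici k) (tendsto_const_nhds.congr' ?_)
    filter_upwards [hφ.tendsto_atTop.eventually (eventually_mem_BB k)] with n hn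
    exact (han (φ n) k hn).symm
  · funext k
    refine tendsto_nhds_unique (tt 0 self_mem_Ici k) (tendsto_const_nhds.congr' ?_)
    filter_upwards [hφ.tendsto_atTop.eventually (eventually_mem_BB k)] with n hn
    exact (hθn (φ n) k hn).symm

end

end Pancake
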