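import Pool.Agent.Pancake.TestFn

/-!
# MP_771030_an: Fourier expansion of test functions
-/

namespace Pancake

open Set Filter Topology MeasureTheory UnitAddTorus
open scoped ENNReal NNReal ComplexConjugate Real

noncomputable section

local instance msCExpand : MeasureSpace UnitAddCircle := ⟨AddCircle.haarAddCircle⟩

local instance hmCExpand : Measure.IsAddHaarMeasure (volume : Measure UnitAddCircle) :=
  inferInstanceAs (Measure.IsAddHaarMeasure AddCircle.haarAddCircle)

local instance pmCExpand : IsProbabilityMeasure (volume : Measure UnitAddCircle) :=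
  inferInstanceAs (IsProbabilityMeasure AddCircle.haarAddCircle)

variable {Λ : ℝ}

lemma Test.bdd {φ : (Fin 2 → ℝ) → ℂ} (h : Test Λ φ) : MemLp φ 2 (mu Λ) := by
  obtain ⟨C, hC⟩ := (isCompact_Icc (a := (0 : Fin 2 → ℝ)) (b := fun _ => Λ)).exists_bound_of_continuousOn
    h.cont.continuousOn
  apply MemLp.of_bound h.cont.aestronglyMeasurable C
  change ∀ᵐ x ∂((volume : Measure (Fin 2 → ℝ)).restrict (Icc 0 (fun _ => Λ))), ‖φ x‖ ≤ C
  rw [ae_restrict_iff' measurableSet_Icc]
  exact Eventually.of_forall fun x hx => hC x hx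

/-- Almost everywhere expansion on the torus. -/
lemma Test.expand (hΛ : 0 < Λ) {φ : (Fin 2 → ℝ) → ℂ} (h : Test Λ φ) :
    ∀ᵐ y ∂(volume : Measure (UnitAddTorus (Fin 2))),
      φ (sg Λ y) = ∑' k : Fin 2 → ℤ, cf Λ φ k * mFourier k y := by
  have hF : MemLp (fun y => φ (sg Λ y)) 2 (volume : Measure (UnitAddTorus (Fin 2))) :=
    memLp_sg hΛ h.bdd
  have hcoef : ∀ k, mFourierCoeff (hF.toLp _ : UnitAddTorus (Fin 2) → ℂ) k = cf Λ φ k := by
    intro k
    rw [mFourierCoeff_congr hF.coeFn_toLp, cf_eq hΛ h.cont.aestronglyMeasurable]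
  have hsum : Summable fun k : Fin 2 → ℤ => cf Λ φ k • (mFourier k : C(UnitAddTorus (Fin 2), ℂ)) := by
    apply Summable.of_norm
    simp only [norm_smul, mFourier_norm, mul_one]
    exact h.summable0 hΛ
  set G : C(UnitAddTorus (Fin 2), ℂ) := ∑' k, cf Λ φ k • (mFourier k) with hG
  have h1 := (ContinuousMap.toLp (E := ℂ) 2 (volume : Measure (UnitAddTorus (Fin 2))) ℂ).hasSum
    hsum.hasSum
  have h2 := hasSum_mFourier_series_L2 (hF.toLp _)
  simp only [hcoef] at h2
  have h3 : (fun k => cf Λ φ k • mFourierLp 2 k) = fun k =>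
      (ContinuousMap.toLp (E := ℂ) 2 (volume : Measure (UnitAddTorus (Fin 2))) ℂ)
        (cf Λ φ k • (mFourier k)) := by
    funext k
    rw [map_smul]
  rw [h3] at h2
  have h4 := h2.unique h1
  have h5 := ContinuousMap.coeFn_toLp (𝕜 := ℂ) (p := 2) (volume : Measure (UnitAddTorus (Fin 2))) G
  filter_upwards [hF.coeFn_toLp, h5] with y hy1 hy2
  rw [← hy1, h4, hy2]
  have h6 := ContinuousMap.hasSum_apply hsum.hasSum y
  rw [← hG] at h6
  rw [← h6.tsum_eq]
  rfl

/-- Integration of a test function against an integrable function. -/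
lemma Test.hasSum (hΛ : 0 < Λ) {φ : (Fin 2 → ℝ) → ℂ} (h : Test Λ φ) {F : (Fin 2 → ℝ) → ℂ}
    (hF : Integrable F (mu Λ)) :
    HasSum (fun k => cf Λ φ k * ∫ x in Om Λ, F x * chi Λ (-k) x) (∫ x in Om Λ, F x * φ x) := by
  have hFs : Integrable (fun y => F (sg Λ y)) (volume : Measure (UnitAddTorus (Fin 2))) := by
    rw [← memLp_one_iff_integrable] at hF ⊢
    exact memLp_sg hΛ hF
  have hi : ∀ k : Fin 2 → ℤ, Integrable (fun y => cf Λ φ k * (mFourier k y * F (sg Λ y)))
      (volume : Measure (UnitAddTorus (Fin 2))) := by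
    intro k
    apply Integrable.const_mul
    apply hFs.bdd_mul (c := 1) (mFourier k).continuous.aestronglyMeasurable
    exact Eventually.of_forall fun y => ((mFourier k).norm_coe_le_norm y).trans mFourier_norm.le
  have hn : ∀ (k : Fin 2 → ℤ) (y : UnitAddTorus (Fin 2)), ‖mFourier k y‖ = 1 := by
    intro k y
    have := chi_sg hΛ (-k) y
    rw [neg_neg] at this
    rw [← this, norm_chi]
  have hs : Summable fun k : Fin 2 → ℤ => ∫ y, ‖cf Λ φ k * (mFourier k y * F (sg Λ y))‖ := by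
    have e : ∀ k : Fin 2 → ℤ, ∫ y, ‖cf Λ φ k * (mFourier k y * F (sg Λ y))‖ =
        ‖cf Λ φ k‖ * ∫ y, ‖F (sg Λ y)‖ := by
      intro k
      rw [← integral_const_mul]
      congr 1
      funext y
      rw [norm_mul, norm_mul, hn, one_mul]
    simp only [e]
    exact (h.summable0 hΛ).mul_right _
  have key := hasSum_integral_of_summable_integral_norm hi hs
  have e1 : ∀ k : Fin 2 → ℤ, ∫ y, cf Λ φ k * (mFourier k y * F (sg Λ y)) =
      ((1 / Λ ^ 2 : ℝ) : ℂ) * (cf Λ φ k * ∫ x in Om Λ, F x * chi Λ (-k) x) := by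
    intro k
    rw [integral_const_mul]
    have h1 := integral_sg hΛ (f := fun x => F x * chi Λ (-k) x)
      (hF.aestronglyMeasurable.mul (continuous_chi Λ (-k)).aestronglyMeasurable)
    simp only [chi_sg hΛ, neg_neg] at h1
    have h2 : ∫ y, mFourier k y * F (sg Λ y) = ∫ y, F (sg Λ y) * mFourier k y := by
      congr 1; funext y; ring
    rw [h2, h1, Complex.real_smul]
    ring
  have e2 : ∫ y, ∑' k : Fin 2 → ℤ, cf Λ φ k * (mFourier k y * F (sg Λ y)) =
      ((1 / Λ ^ 2 : ℝ) : ℂ) * ∫ x in Om Λ, F x * φ x := by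
    have h1 := integral_sg hΛ (f := fun x => F x * φ x)
      (hF.aestronglyMeasurable.mul h.cont.aestronglyMeasurable)
    rw [Complex.real_smul] at h1
    rw [← h1]
    apply integral_congr_ae
    filter_upwards [h.expand hΛ] with y hy
    rw [hy, ← tsum_mul_left]
    apply tsum_congr
    intro k
    ring
  simp only [e1] at key
  rw [e2] at key
  have h7 := key.mul_left ((Λ ^ 2 : ℝ) : ℂ)
  have e3 : ∀ w : ℂ, ((Λ ^ 2 : ℝ) : ℂ) * (((1 / Λ ^ 2 : ℝ) : ℂ) * w) = w := by
    intro w
    rw [← mul_assoc, ← Complex.ofReal_mul]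
    have : Λ ^ 2 * (1 / Λ ^ 2) = 1 := by field_simp
    rw [this, Complex.ofReal_one, one_mul]
  simp only [e3] at h7
  exact h7

end

end Pancake
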