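import Mathlib

/-!
# MP_771030_an: a truncated ordinary differential equation and a barrier lemma
-/

namespace Pancake

open Set Filter Topology
open scoped NNReal

noncomputable section

variable {E : Type*} [NormedAddCommGroup E] [NormedSpace ℝ E]

/-- Solutions of `x' = φ(x) G(x)` with `φ` compactly supported. -/
lemma ode_exists [CompleteSpace E] {G : E → E} (hG : ContDiff ℝ 1 G) {φ : E → ℝ} (hφ : ContDiff ℝ 1 φ)
    (hsupp : HasCompactSupport φ) (x0 : E) {T : ℝ} (hT : 0 ≤ T) :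
    ∃ x : ℝ → E, x 0 = x0 ∧
      ∀ t ∈ Icc 0 T, HasDerivWithinAt x (φ (x t) • G (x t)) (Icc 0 T) t := by
  set v : E → E := fun y => φ y • G y with hv
  have hvc : ContDiff ℝ 1 v := hφ.smul hG
  have hvs : HasCompactSupport v := hsupp.smul_right
  obtain ⟨Kc, hK⟩ := ContDiff.lipschitzWith_of_hasCompactSupport hvs hvc one_ne_zero
  obtain ⟨C, hC⟩ := hvs.exists_bound_of_continuous hvc.continuous
  have hC0 : 0 ≤ C := le_trans (norm_nonneg _) (hC x0)
  have h0 : (0 : ℝ) ∈ Icc 0 T := ⟨le_rfl, hT⟩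
  have hPL : IsPicardLindelof (fun _ => v) (⟨0, h0⟩ : Icc (0 : ℝ) T) x0
      (⟨C * T, by positivity⟩ : ℝ≥0) 0 (⟨C, hC0⟩ : ℝ≥0) Kc := by
    refine ⟨fun t _ => hK.lipschitzOnWith, fun x _ => continuousOn_const, fun t _ x _ => hC x, ?_⟩
    simp only [sub_zero, sub_self, NNReal.coe_zero]
    rw [max_eq_left hT]
    exact le_rfl
  obtain ⟨x, hx0, hx⟩ := hPL.exists_eq_forall_mem_Icc_hasDerivWithinAt₀
  exact ⟨x, hx0, hx⟩

/-- Uniqueness for the same equation. -/
lemma ode_unique {G : E → E} (hG : ContDiff ℝ 1 G) {φ : E → ℝ} (hφ : ContDiff ℝ 1 φ)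
    (hsupp : HasCompactSupport φ) {T : ℝ} {x y : ℝ → E}
    (hx : ∀ t ∈ Icc 0 T, HasDerivWithinAt x (φ (x t) • G (x t)) (Icc 0 T) t)
    (hy : ∀ t ∈ Icc 0 T, HasDerivWithinAt y (φ (y t) • G (y t)) (Icc 0 T) t)
    (h0 : x 0 = y 0) : EqOn x y (Icc 0 T) := by
  set v : E → E := fun y => φ y • G y with hv
  have hvc : ContDiff ℝ 1 v := hφ.smul hG
  have hvs : HasCompactSupport v := hsupp.smul_right
  obtain ⟨Kc, hK⟩ := ContDiff.lipschitzWith_of_hasCompactSupport hvs hvc one_ne_zero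
  refine ODE_solution_unique_of_mem_Icc_right (v := fun _ => v) (s := fun _ => univ) (K := Kc)
    (fun t _ => hK.lipschitzOnWith) (fun t ht => (hx t ht).continuousWithinAt) (fun t ht => ?_)
    (fun t _ => mem_univ _) (fun t ht => (hy t ht).continuousWithinAt) (fun t ht => ?_)
    (fun t _ => mem_univ _) h0
  · exact (hx t ⟨ht.1, ht.2.le⟩).mono_of_mem_nhdsWithin (Icc_mem_nhdsGE_of_mem ht)
  · exact (hy t ⟨ht.1, ht.2.le⟩).mono_of_mem_nhdsWithin (Icc_mem_nhdsGE_of_mem ht)

/-- Barrier: `f` cannot cross the level `m` if `f' ≤ 0` above it. -/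
lemma barrier {f f' : ℝ → ℝ} {T m : ℝ}
    (hf : ∀ t ∈ Icc 0 T, HasDerivWithinAt f (f' t) (Icc 0 T) t) (h0 : f 0 ≤ m)
    (hb : ∀ t ∈ Icc 0 T, m ≤ f t → f' t ≤ 0) : ∀ t ∈ Icc 0 T, f t ≤ m := by
  intro t ht
  apply le_of_forall_pos_le_add
  intro ε hε
  have hT : 0 ≤ T := ht.1.trans ht.2
  have h1T : 0 < 1 + T := by linarith
  set δ := ε / (1 + T) with hδ
  have hδ0 : 0 < δ := by positivity
  have key : ∀ ⦃x⦄, x ∈ Icc 0 T → f x ≤ m + δ * (1 + x) := by
    apply image_le_of_deriv_right_lt_deriv_boundary' (f' := f') (B' := fun _ => δ)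
      (fun t ht => (hf t ht).continuousWithinAt)
      (fun t ht => (hf t ⟨ht.1, ht.2.le⟩).mono_of_mem_nhdsWithin (Icc_mem_nhdsGE_of_mem ht))
    · have : 0 < δ * (1 + 0) := by simpa using hδ0
      linarith
    · fun_prop
    · intro x _
      have h : HasDerivAt (fun y : ℝ => m + δ * (1 + y)) δ x := by
        have := ((hasDerivAt_id x).const_add 1).const_mul δ |>.const_add m
        simpa using this
      exact h.hasDerivWithinAt
    · intro x hx hfx
      have h1 : m ≤ f x := by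
        rw [hfx]
        have : 0 ≤ δ * (1 + x) := mul_nonneg hδ0.le (by linarith [hx.1])
        linarith
      have := hb x ⟨hx.1, hx.2.le⟩ h1
      linarith
  have h2 := key ht
  have h3 : δ * (1 + t) ≤ ε := by
    rw [hδ, div_mul_eq_mul_div, div_le_iff₀ h1T]
    have := ht.2
    gcongr
  linarith

/-- Derivative bound integrated: if `f' ≤ -p + C` with `p` continuous then the integral of `p` is
controlled. -/
lemma integral_bound {f f' p : ℝ → ℝ} {T C : ℝ}
    (hf : ∀ t ∈ Icc 0 T, HasDerivWithinAt f (f' t) (Icc 0 T) t)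
    (hp : ContinuousOn p (Icc 0 T)) (hb : ∀ t ∈ Icc 0 T, f' t ≤ - p t + C)
    {s t : ℝ} (hs : s ∈ Icc 0 T) (ht : t ∈ Icc 0 T) (hst : s ≤ t) :
    ∫ τ in s..t, p τ ≤ f s - f t + C * (t - s) := by
  have hsub : Icc s t ⊆ Icc 0 T := Icc_subset_Icc hs.1 ht.2
  -- the function `F x = f x + ∫ p - C x` is antitone
  have hint : ∀ x ∈ Icc s t, IntervalIntegrable p MeasureTheory.volume s x := by
    intro x hx
    apply ContinuousOn.intervalIntegrable
    rw [uIcc_of_le hx.1]
    exact hp.mono ((Icc_subset_Icc le_rfl hx.2).trans hsub)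
  set F : ℝ → ℝ := fun x => f x + (∫ τ in s..x, p τ) - C * x with hF
  have hcont : ContinuousOn F (Icc s t) := by
    have hfc : ContinuousOn f (Icc s t) := fun x hx =>
      (hf x (hsub hx)).continuousWithinAt.mono hsub
    refine (hfc.add ?_).sub (by fun_prop)
    have := intervalIntegral.continuousOn_primitive_interval
      (a := s) (b := t) (μ := MeasureTheory.volume) (f := p) (by
        rw [uIcc_of_le hst]
        exact (hp.mono hsub).integrableOn_Icc)
    rwa [uIcc_of_le hst] at this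
  have hder : ∀ x ∈ interior (Icc s t), deriv F x ≤ 0 := by
    intro x hx
    rw [interior_Icc] at hx
    have hx' : x ∈ Icc 0 T := hsub ⟨hx.1.le, hx.2.le⟩
    have hnh : Icc 0 T ∈ 𝓝 x := Icc_mem_nhds (lt_of_le_of_lt hs.1 hx.1) (lt_of_lt_of_le hx.2 ht.2)
    have h1 : HasDerivAt f (f' x) x := (hf x hx').hasDerivAt hnh
    have h2 : HasDerivAt (fun y => ∫ τ in s..y, p τ) (p x) x := by
      apply intervalIntegral.integral_hasDerivAt_right (hint x ⟨hx.1.le, hx.2.le⟩)
      · exact ContinuousOn.stronglyMeasurableAtFilter isOpen_Ioo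
          (hp.mono (Ioo_subset_Icc_self)) x ⟨lt_of_le_of_lt hs.1 hx.1, lt_of_lt_of_le hx.2 ht.2⟩
      · exact (hp x hx').continuousAt hnh
    have h3 : HasDerivAt F (f' x + p x - C) x := by
      have := (h1.add h2).sub ((hasDerivAt_id x).const_mul C)
      rw [mul_one] at this
      exact this
    rw [h3.deriv]
    have := hb x hx'
    linarith
  have hdiff : DifferentiableOn ℝ F (interior (Icc s t)) := by
    intro x hx
    rw [interior_Icc] at hx
    have hx' : x ∈ Icc 0 T := hsub ⟨hx.1.le, hx.2.le⟩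
    have hnh : Icc 0 T ∈ 𝓝 x := Icc_mem_nhds (lt_of_le_of_lt hs.1 hx.1) (lt_of_lt_of_le hx.2 ht.2)
    have h1 : HasDerivAt f (f' x) x := (hf x hx').hasDerivAt hnh
    have h2 : HasDerivAt (fun y => ∫ τ in s..y, p τ) (p x) x := by
      apply intervalIntegral.integral_hasDerivAt_right (hint x ⟨hx.1.le, hx.2.le⟩)
      · exact ContinuousOn.stronglyMeasurableAtFilter isOpen_Ioo
          (hp.mono (Ioo_subset_Icc_self)) x ⟨lt_of_le_of_lt hs.1 hx.1, lt_of_lt_of_le hx.2 ht.2⟩
      · exact (hp x hx').continuousAt hnh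
    exact ((h1.add h2).sub ((hasDerivAt_id x).const_mul C)).differentiableAt.differentiableWithinAt
  have hanti : AntitoneOn F (Icc s t) := antitoneOn_of_deriv_nonpos (convex_Icc s t) hcont hdiff hder
  have := hanti (left_mem_Icc.mpr hst) (right_mem_Icc.mpr hst) hst
  simp only [hF, intervalIntegral.integral_same, add_zero] at this
  linarith

end

end Pancake
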