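import Pool.Agent.Pancake.Kernel
import Pool.Agent.Pancake.ODE

/-!
# MP_771030_an: Galerkin approximations
-/

namespace Pancake

open Set Filter Topology
open scoped ENNReal NNReal ComplexConjugate

noncomputable section

/-- Fourier symbol of the buoyancy term. -/
def fk (k : K) : ℝ := (k 0 : ℝ) / nrm k

@[simp] lemma fk_zero : fk 0 = 0 := by simp [fk]

@[simp] lemma fk_neg (k : K) : fk (-k) = - fk k := by
  simp [fk, neg_div]

lemma abs_fk_le (k : K) : |fk k| ≤ 1 := by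
  unfold fk
  rw [abs_div, abs_of_nonneg (nrm_nonneg k)]
  apply div_le_one_of_le₀ _ (nrm_nonneg k)
  unfold nrm nsq
  apply Real.abs_le_sqrt
  nlinarith [sq_nonneg (k 1 : ℝ)]

lemma ek_zero_left (h : K) : ek 0 h = 0 := by simp [ek, crs]

lemma ek_zero_right (k : K) : ek k 0 = 0 := by simp [ek, crs]

lemma ck_zero_left (h : K) : ck 0 h = 0 := by simp [ck, crs]

/-- Extension by zero of a function on the finite set of modes `B`. -/
def ext (B : Finset K) (x : B → ℂ) (k : K) : ℂ := if h : k ∈ B then x ⟨k, h⟩ else 0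

lemma ext_of_mem {B : Finset K} (x : B → ℂ) {k : K} (h : k ∈ B) : ext B x k = x ⟨k, h⟩ := by
  simp [ext, h]

lemma ext_of_not_mem {B : Finset K} (x : B → ℂ) {k : K} (h : k ∉ B) : ext B x k = 0 := by
  simp [ext, h]

/-- Symmetrised extension. -/
def sy (B : Finset K) (x : B → ℂ) (k : K) : ℂ := (ext B x k + conj (ext B x (-k))) / 2

lemma sy_sym (B : Finset K) (x : B → ℂ) : Sym (sy B x) := by
  intro k
  unfold sy
  rw [neg_neg, map_div₀, map_add, Complex.conj_conj, add_comm, Complex.conj_ofNat]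

/-- The state space of the Galerkin system. -/
abbrev Gsp (B : Finset K) := (B → ℂ) × (B → ℂ)

/-- momentum part of the vector field. -/
def Ga (ν κ g : ℝ) (B : Finset K) (x : Gsp B) (k : K) : ℂ :=
  -(ν * nsq k : ℝ) * ext B x.1 k + κ * ∑ h ∈ B, (ck k h : ℂ) * sy B x.1 (k - h) * ext B x.1 h
    - Complex.I * (g * fk k : ℝ) * ext B x.2 k

/-- temperature part of the vector field. -/
def Gt (κ : ℝ) (B : Finset K) (x : Gsp B) (k : K) : ℂ :=
  κ * ∑ h ∈ B, (ek k h : ℂ) * sy B x.1 (k - h) * ext B x.2 h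

/-- The Galerkin vector field. -/
def Gf (ν κ g : ℝ) (B : Finset K) (x : Gsp B) : Gsp B :=
  (fun k => Ga ν κ g B x k, fun k => Gt κ B x k)

lemma contDiff_ext_fst (B : Finset K) (k : K) :
    ContDiff ℝ 1 (fun x : Gsp B => ext B x.1 k) := by
  unfold ext
  split_ifs with h
  · fun_prop
  · exact contDiff_const

lemma contDiff_ext_snd (B : Finset K) (k : K) :
    ContDiff ℝ 1 (fun x : Gsp B => ext B x.2 k) := by
  unfold ext
  split_ifs with h
  · fun_prop
  · exact contDiff_const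

lemma contDiff_sy (B : Finset K) (k : K) :
    ContDiff ℝ 1 (fun x : Gsp B => sy B x.1 k) := by
  unfold sy
  apply ContDiff.div_const
  apply (contDiff_ext_fst B k).add
  exact Complex.conjCLE.contDiff.comp (contDiff_ext_fst B (-k))

lemma contDiff_Gf (ν κ g : ℝ) (B : Finset K) : ContDiff ℝ 1 (Gf ν κ g B) := by
  unfold Gf
  apply ContDiff.prodMk
  · rw [contDiff_pi]
    intro k
    unfold Ga
    apply ContDiff.sub
    · apply ContDiff.add
      · exact contDiff_const.mul (contDiff_ext_fst B k)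
      · apply contDiff_const.mul
        apply ContDiff.sum
        intro h _
        exact (contDiff_const.mul (contDiff_sy B _)).mul (contDiff_ext_fst B h)
    · exact contDiff_const.mul (contDiff_ext_snd B k)
  · rw [contDiff_pi]
    intro k
    unfold Gt
    apply contDiff_const.mul
    apply ContDiff.sum
    intro h _
    exact (contDiff_const.mul (contDiff_sy B _)).mul (contDiff_ext_snd B h)

/-- total energy. -/
def Qe (B : Finset K) (x : Gsp B) : ℝ := ∑ k ∈ B, (‖ext B x.1 k‖ ^ 2 + ‖ext B x.2 k‖ ^ 2)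

lemma contDiff_Qe (B : Finset K) : ContDiff ℝ 1 (Qe B) := by
  unfold Qe
  apply ContDiff.sum
  intro k _
  apply ContDiff.add
  · exact (contDiff_ext_fst B k).norm_sq ℝ
  · exact (contDiff_ext_snd B k).norm_sq ℝ

lemma Qe_nonneg (B : Finset K) (x : Gsp B) : 0 ≤ Qe B x :=
  Finset.sum_nonneg fun k _ => by positivity

lemma norm_sq_le_Qe (B : Finset K) (x : Gsp B) : ‖x‖ ^ 2 ≤ Qe B x := by
  have key : ∀ k : B, ‖x.1 k‖ ^ 2 + ‖x.2 k‖ ^ 2 ≤ Qe B x := by
    intro k
    have := Finset.single_le_sum (s := B)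
      (f := fun k => ‖ext B x.1 k‖ ^ 2 + ‖ext B x.2 k‖ ^ 2) (fun k _ => by positivity) k.2
    rwa [ext_of_mem _ k.2, ext_of_mem _ k.2] at this
  have h1 : ‖x.1‖ ≤ √(Qe B x) := by
    rw [pi_norm_le_iff_of_nonneg (Real.sqrt_nonneg _)]
    intro k
    apply Real.le_sqrt_of_sq_le
    nlinarith [key k, sq_nonneg ‖x.2 k‖]
  have h2 : ‖x.2‖ ≤ √(Qe B x) := by
    rw [pi_norm_le_iff_of_nonneg (Real.sqrt_nonneg _)]
    intro k
    apply Real.le_sqrt_of_sq_le
    nlinarith [key k, sq_nonneg ‖x.1 k‖]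
  have h3 : ‖x‖ ≤ √(Qe B x) := by
    rw [Prod.norm_def]
    exact max_le h1 h2
  calc ‖x‖ ^ 2 ≤ √(Qe B x) ^ 2 := by gcongr
    _ = Qe B x := Real.sq_sqrt (Qe_nonneg B x)

/-- cutoff function. -/
def cutoff (ρ : ℝ) (B : Finset K) (x : Gsp B) : ℝ := Real.smoothTransition (ρ + 1 - Qe B x)

lemma contDiff_cutoff (ρ : ℝ) (B : Finset K) : ContDiff ℝ 1 (cutoff ρ B) := by
  unfold cutoff
  exact Real.smoothTransition.contDiff.comp (contDiff_const.sub (contDiff_Qe B))

lemma cutoff_supp (ρ : ℝ) (B : Finset K) : HasCompactSupport (cutoff ρ B) := by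
  have hK : IsCompact {x : Gsp B | Qe B x ≤ ρ + 1} := by
    apply Metric.isCompact_of_isClosed_isBounded
    · exact isClosed_le (contDiff_Qe B).continuous continuous_const
    · rw [Metric.isBounded_iff_subset_closedBall 0]
      refine ⟨√(ρ + 1), fun x hx => ?_⟩
      rw [mem_closedBall_zero_iff]
      apply Real.le_sqrt_of_sq_le
      exact (norm_sq_le_Qe B x).trans hx
  apply HasCompactSupport.intro hK
  intro x hx
  unfold cutoff
  apply Real.smoothTransition.zero_of_nonpos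
  have hx' : ¬ (Qe B x ≤ ρ + 1) := hx
  linarith

lemma cutoff_eq_one {ρ : ℝ} {B : Finset K} {x : Gsp B} (h : Qe B x ≤ ρ) : cutoff ρ B x = 1 := by
  unfold cutoff
  apply Real.smoothTransition.one_of_one_le
  linarith

lemma cutoff_nonneg (ρ : ℝ) (B : Finset K) (x : Gsp B) : 0 ≤ cutoff ρ B x :=
  Real.smoothTransition.nonneg _

lemma cutoff_le_one (ρ : ℝ) (B : Finset K) (x : Gsp B) : cutoff ρ B x ≤ 1 :=
  Real.smoothTransition.le_one _

/-! ### Finite antisymmetric sums -/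

lemma finite_antisymm (B : Finset K) {c : K → K → ℝ} (hc : ∀ k h, c h k = - c k h) {a : K → ℂ}
    (ha : Sym a) (z : K → ℂ) :
    ∑ k ∈ B, (conj (z k) * ∑ h ∈ B, (c k h : ℂ) * a (k - h) * z h).re = 0 := by
  set X : K → K → ℝ := fun k h => (conj (z k) * ((c k h : ℂ) * a (k - h) * z h)).re with hX
  have hXa : ∀ k h, X k h = - X h k := fun k h => antisymm_term hc ha z k h
  have e : ∑ k ∈ B, (conj (z k) * ∑ h ∈ B, (c k h : ℂ) * a (k - h) * z h).re
      = ∑ k ∈ B, ∑ h ∈ B, X k h := by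
    apply Finset.sum_congr rfl
    intro k _
    rw [Finset.mul_sum, Complex.re_sum]
  rw [e]
  have e2 : ∑ k ∈ B, ∑ h ∈ B, X k h = - ∑ k ∈ B, ∑ h ∈ B, X k h := by
    conv_lhs => rw [Finset.sum_comm]
    rw [← Finset.sum_neg_distrib]
    apply Finset.sum_congr rfl
    intro k _
    rw [← Finset.sum_neg_distrib]
    apply Finset.sum_congr rfl
    intro h _
    rw [hXa h k]
  linarith

lemma hasDeriv_wsum (B : Finset K) {z : ℝ → K → ℂ} {z' : K → ℂ} {s : Set ℝ} {t : ℝ}
    (hz : ∀ k, HasDerivWithinAt (fun t => z t k) (z' k) s t) (w : K → ℝ) :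
    HasDerivWithinAt (fun t => ∑ k ∈ B, w k * ‖z t k‖ ^ 2)
      (∑ k ∈ B, w k * (2 * (conj (z t k) * z' k).re)) s t := by
  apply HasDerivWithinAt.fun_sum
  intro k _
  apply HasDerivWithinAt.const_mul
  have := (hz k).norm_sq
  rwa [Complex.inner, mul_comm (z' k)] at this

/-! ### The equations -/

/-- Right-hand side of the momentum equation in the variable `a`. -/
def Fa (ν κ g : ℝ) (c : K → K → ℝ) (a θ : K → ℂ) (k : K) : ℂ :=
  -(ν * nsq k : ℝ) * a k + κ * Bil c a a k - Complex.I * (g * fk k : ℝ) * θ k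

/-- Right-hand side of the temperature equation. -/
def Ft (κ : ℝ) (e : K → K → ℝ) (a θ : K → ℂ) (k : K) : ℂ := κ * Bil e a θ k

open Classical in
/-- Kernel cut off to the modes in `B`. -/
def cut (B : Finset K) (c : K → K → ℝ) (k h : K) : ℝ :=
  if k ∈ B ∧ h ∈ B ∧ k - h ∈ B then c k h else 0

open Classical in
lemma Bil_cut (B : Finset K) (c : K → K → ℝ) {a y : K → ℂ} (ha : ∀ k ∉ B, a k = 0)
    (k : K) :
    Bil (cut B c) a y k = if k ∈ B then ∑ h ∈ B, (c k h : ℂ) * a (k - h) * y h else 0 := by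
  unfold Bil
  rw [tsum_eq_sum (s := B)]
  · split_ifs with hk
    · apply Finset.sum_congr rfl
      intro h hh
      unfold cut
      by_cases hkh : k - h ∈ B
      · rw [if_pos ⟨hk, hh, hkh⟩]
      · rw [if_neg (fun hc => hkh hc.2.2), ha _ hkh]
        simp
    · apply Finset.sum_eq_zero
      intro h hh
      unfold cut
      rw [if_neg (fun hc => hk hc.1)]
      simp
  · intro h hh
    unfold cut
    rw [if_neg (fun hc => hh hc.2.1)]
    simp

/-! ### The involution -/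

/-- The reality involution. -/
def invo (B : Finset K) (hB : ∀ k ∈ B, -k ∈ B) (x : Gsp B) : Gsp B :=
  (fun k => conj (x.1 ⟨-k.1, hB _ k.2⟩), fun k => conj (x.2 ⟨-k.1, hB _ k.2⟩))

lemma ext_invo_fst {B : Finset K} (hB : ∀ k ∈ B, -k ∈ B) (x : Gsp B) (k : K) :
    ext B (invo B hB x).1 k = conj (ext B x.1 (-k)) := by
  by_cases hk : k ∈ B
  · rw [ext_of_mem _ hk, ext_of_mem _ (hB _ hk)]
    rfl
  · have hk' : -k ∉ B := fun h => hk (by simpa using hB _ h)
    rw [ext_of_not_mem _ hk, ext_of_not_mem _ hk', map_zero]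

lemma ext_invo_snd {B : Finset K} (hB : ∀ k ∈ B, -k ∈ B) (x : Gsp B) (k : K) :
    ext B (invo B hB x).2 k = conj (ext B x.2 (-k)) := by
  by_cases hk : k ∈ B
  · rw [ext_of_mem _ hk, ext_of_mem _ (hB _ hk)]
    rfl
  · have hk' : -k ∉ B := fun h => hk (by simpa using hB _ h)
    rw [ext_of_not_mem _ hk, ext_of_not_mem _ hk', map_zero]

lemma sy_invo {B : Finset K} (hB : ∀ k ∈ B, -k ∈ B) (x : Gsp B) (k : K) :
    sy B (invo B hB x).1 k = sy B x.1 k := by
  unfold sy
  rw [ext_invo_fst, ext_invo_fst, Complex.conj_conj, neg_neg, add_comm]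

lemma sum_neg {B : Finset K} (hB : ∀ k ∈ B, -k ∈ B) {M : Type*} [AddCommMonoid M] (f : K → M) :
    ∑ h ∈ B, f (-h) = ∑ h ∈ B, f h :=
  Finset.sum_nbij' (fun k => -k) (fun k => -k) hB hB (fun _ _ => neg_neg _) (fun _ _ => neg_neg _)
    (fun _ _ => rfl)

lemma conj_sum_reindex {B : Finset K} (hB : ∀ k ∈ B, -k ∈ B) {c : K → K → ℝ}
    (hc : ∀ k h, c (-k) (-h) = c k h) {s : K → ℂ} (hs : Sym s) (y : K → ℂ) (k : K) :
    conj (∑ h ∈ B, (c (-k) h : ℂ) * s (-k - h) * y h) =
      ∑ h ∈ B, (c k h : ℂ) * s (k - h) * conj (y (-h)) := by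
  rw [← sum_neg hB, map_sum]
  apply Finset.sum_congr rfl
  intro h _
  rw [map_mul, map_mul, Complex.conj_ofReal, hc, ← hs]
  congr 3
  abel

lemma Gf_invo (ν κ g : ℝ) {B : Finset K} (hB : ∀ k ∈ B, -k ∈ B) (x : Gsp B) :
    Gf ν κ g B (invo B hB x) = invo B hB (Gf ν κ g B x) := by
  unfold Gf
  apply Prod.ext
  · funext k
    change Ga ν κ g B (invo B hB x) k.1 = conj (Ga ν κ g B x (-k.1))
    unfold Ga
    have := conj_sum_reindex hB ck_neg_neg (sy_sym B x.1) (ext B x.1) k.1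
    rw [map_sub, map_add, map_mul, map_mul, map_mul, this, map_mul]
    rw [ext_invo_fst, ext_invo_snd]
    simp only [sy_invo, ext_invo_fst, nsq_neg, fk_neg, map_neg, Complex.conj_ofReal,
      Complex.conj_I, mul_neg, Complex.ofReal_neg, neg_mul, neg_neg]
  · funext k
    change Gt κ B (invo B hB x) k.1 = conj (Gt κ B x (-k.1))
    unfold Gt
    have := conj_sum_reindex hB ek_neg_neg (sy_sym B x.1) (ext B x.2) k.1
    rw [map_mul, this]
    simp only [sy_invo, ext_invo_snd, Complex.conj_ofReal]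

lemma Qe_invo {B : Finset K} (hB : ∀ k ∈ B, -k ∈ B) (x : Gsp B) :
    Qe B (invo B hB x) = Qe B x := by
  unfold Qe
  rw [← sum_neg hB (fun k => ‖ext B x.1 k‖ ^ 2 + ‖ext B x.2 k‖ ^ 2)]
  apply Finset.sum_congr rfl
  intro k _
  rw [ext_invo_fst, ext_invo_snd]
  simp only [RCLike.norm_conj]

lemma cutoff_invo (ρ : ℝ) {B : Finset K} (hB : ∀ k ∈ B, -k ∈ B) (x : Gsp B) :
    cutoff ρ B (invo B hB x) = cutoff ρ B x := by
  unfold cutoff
  rw [Qe_invo]

end

end Pancake
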