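import Pool.Agent.Pancake.Gal

/-!
# MP_771030_an: Galerkin approximations, a priori bounds
-/

namespace Pancake

open Set Filter Topology
open scoped ENNReal NNReal ComplexConjugate

noncomputable section

lemma sum_dk_zero (B : Finset K) {A : K → ℂ} (hA : ∀ k ∉ B, A k = 0) (k : K) :
    ∑ h ∈ B, (dk k h : ℂ) * A (k - h) * A h = 0 := by
  set f : K → ℂ := fun h => (dk k h : ℂ) * A (k - h) * A h with hf
  have h1 : ∑ h ∈ B, f h = ∑' h, f h := by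
    rw [tsum_eq_sum]
    intro h hh
    simp only [hf, hA h hh, mul_zero]
  have h2 : ∑' h, f h = ∑' h, f (k - h) := ((Equiv.subLeft k).tsum_eq f).symm
  have h3 : ∀ h, f (k - h) = - f h := by
    intro h
    simp only [hf]
    rw [dk_antisymm, sub_sub_cancel]
    push_cast
    ring
  have h4 : ∑' h, f (k - h) = - ∑' h, f h := by
    rw [← tsum_neg]
    exact tsum_congr h3
  rw [h1]
  have h5 : ∑' h, f h = - ∑' h, f h := h2.trans h4
  have h6 : (2 : ℂ) * ∑' h, f h = 0 := by linear_combination h5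
  simpa using h6

lemma finite_enstrophy (B : Finset K) {A : K → ℂ} (hA : ∀ k ∉ B, A k = 0) (hs : Sym A) :
    ∑ k ∈ B, nsq k * (conj (A k) * ∑ h ∈ B, (ck k h : ℂ) * A (k - h) * A h).re = 0 := by
  have key : ∀ k ∈ B, nsq k * (conj (A k) * ∑ h ∈ B, (ck k h : ℂ) * A (k - h) * A h).re
      = (conj ((nrm k : ℂ) * A k) * ∑ h ∈ B, (ek k h : ℂ) * A (k - h) * ((nrm h : ℂ) * A h)).re := by
    intro k _
    have e1 : ((nsq k : ℝ) : ℂ) * (conj (A k) * ∑ h ∈ B, (ck k h : ℂ) * A (k - h) * A h)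
        = conj ((nrm k : ℂ) * A k) * (∑ h ∈ B, (ek k h : ℂ) * A (k - h) * ((nrm h : ℂ) * A h))
          + conj (A k) * (nrm k : ℂ) * ∑ h ∈ B, (dk k h : ℂ) * A (k - h) * A h := by
      simp only [Finset.mul_sum]
      rw [← Finset.sum_add_distrib]
      apply Finset.sum_congr rfl
      intro h _
      have := ck_form k h
      rw [nrm_sq] at this
      have e : ((nsq k : ℝ) : ℂ) * (ck k h : ℂ) = (nrm k : ℂ) * (nrm h : ℂ) * (ek k h : ℂ)
          + (nrm k : ℂ) * (dk k h : ℂ) := by exact_mod_cast congrArg (fun r : ℝ => (r : ℂ)) this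
      rw [map_mul, Complex.conj_ofReal]
      linear_combination (conj (A k) * A (k - h) * A h) * e
    rw [sum_dk_zero B hA, mul_zero, add_zero] at e1
    rw [← e1, Complex.re_ofReal_mul]
  rw [Finset.sum_congr rfl key]
  exact finite_antisymm B ek_antisymm hs _

/-- Bound for the buoyancy term. -/
lemma buoy_bound {ν g : ℝ} (hν : 0 < ν) (k : K) (a θ : ℂ) (w : ℝ) (hw : 0 ≤ w) :
    2 * (conj a * -(Complex.I * (g * fk k : ℝ) * θ)).re * w ≤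
      ν * (w ^ 2 * ‖a‖ ^ 2) + g ^ 2 / ν * ‖θ‖ ^ 2 := by
  have h1 : |(conj a * -(Complex.I * (g * fk k : ℝ) * θ)).re| ≤ ‖a‖ * (|g| * ‖θ‖) := by
    refine (Complex.abs_re_le_norm _).trans ?_
    rw [norm_mul, norm_neg, norm_mul, norm_mul, Complex.norm_I, RCLike.norm_conj, one_mul]
    rw [Complex.norm_real, Real.norm_eq_abs, abs_mul]
    have := abs_fk_le k
    gcongr
    calc |g| * |fk k| ≤ |g| * 1 := by gcongr
      _ = |g| := mul_one _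
  have h2 : 2 * (conj a * -(Complex.I * (g * fk k : ℝ) * θ)).re * w ≤ 2 * (w * ‖a‖) * (|g| * ‖θ‖) := by
    have := (abs_le.mp h1).2
    nlinarith
  have h3 : 2 * (w * ‖a‖) * (|g| * ‖θ‖) ≤ ν * (w * ‖a‖) ^ 2 + (|g| * ‖θ‖) ^ 2 / ν := by
    have e : ν * (w * ‖a‖) ^ 2 + (|g| * ‖θ‖) ^ 2 / ν - 2 * (w * ‖a‖) * (|g| * ‖θ‖)
        = (ν * (w * ‖a‖) - |g| * ‖θ‖) ^ 2 / ν := by
      field_simp
      ring
    have : 0 ≤ (ν * (w * ‖a‖) - |g| * ‖θ‖) ^ 2 / ν := by positivity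
    linarith
  have h4 : ν * (w * ‖a‖) ^ 2 + (|g| * ‖θ‖) ^ 2 / ν = ν * (w ^ 2 * ‖a‖ ^ 2) + g ^ 2 / ν * ‖θ‖ ^ 2 := by
    rw [mul_pow, mul_pow, sq_abs]; ring
  linarith

lemma re_conj_mul_self (z : ℂ) (r : ℝ) : (conj z * (-(r : ℂ) * z)).re = - r * ‖z‖ ^ 2 := by
  have : conj z * (-(r : ℂ) * z) = ((-r * ‖z‖ ^ 2 : ℝ) : ℂ) := by
    rw [show conj z * (-(r : ℂ) * z) = -(r : ℂ) * (z * conj z) by ring, Complex.mul_conj,
      Complex.normSq_eq_norm_sq]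
    push_cast; ring
  rw [this, Complex.ofReal_re]

/-- energy balance, `L²` level, with general transport field `s`. -/
lemma energy_L2 {ν κ g : ℝ} (hν : 0 < ν) (B : Finset K) {s A Θ : K → ℂ} (hs : Sym s)
    (hA0 : A 0 = 0) :
    ∑ k ∈ B, (2 * (conj (A k) * (-(ν * nsq k : ℝ) * A k
      + κ * ∑ h ∈ B, (ck k h : ℂ) * s (k - h) * A h - Complex.I * (g * fk k : ℝ) * Θ k)).re)
      ≤ -ν * ∑ k ∈ B, ‖A k‖ ^ 2 + g ^ 2 / ν * ∑ k ∈ B, ‖Θ k‖ ^ 2 := by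
  have e1 : ∀ k ∈ B, (2 * (conj (A k) * (-(ν * nsq k : ℝ) * A k
      + κ * ∑ h ∈ B, (ck k h : ℂ) * s (k - h) * A h - Complex.I * (g * fk k : ℝ) * Θ k)).re)
      ≤ (-ν * ‖A k‖ ^ 2 + g ^ 2 / ν * ‖Θ k‖ ^ 2)
        + 2 * κ * (conj (A k) * ∑ h ∈ B, (ck k h : ℂ) * s (k - h) * A h).re := by
    intro k _
    have e : conj (A k) * (-(ν * nsq k : ℝ) * A k
      + κ * ∑ h ∈ B, (ck k h : ℂ) * s (k - h) * A h - Complex.I * (g * fk k : ℝ) * Θ k)
      = conj (A k) * (-((ν * nsq k : ℝ) : ℂ) * A k)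
        + ((κ : ℝ) : ℂ) * (conj (A k) * ∑ h ∈ B, (ck k h : ℂ) * s (k - h) * A h)
        + conj (A k) * -(Complex.I * (g * fk k : ℝ) * Θ k) := by ring
    rw [e, Complex.add_re, Complex.add_re, re_conj_mul_self, Complex.re_ofReal_mul]
    have hb := buoy_bound (g := g) hν k (A k) (Θ k) 1 zero_le_one
    have hn : ‖A k‖ ^ 2 ≤ nsq k * ‖A k‖ ^ 2 := by
      by_cases hk : k = 0
      · rw [hk, hA0]; simp
      · have := one_le_nsq hk
        nlinarith [sq_nonneg ‖A k‖]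
    nlinarith
  refine (Finset.sum_le_sum e1).trans ?_
  rw [Finset.sum_add_distrib, ← Finset.mul_sum, finite_antisymm B ck_antisymm hs, mul_zero,
    add_zero, Finset.sum_add_distrib, ← Finset.mul_sum, ← Finset.mul_sum]

/-- energy balance, `H¹` level. -/
lemma energy_H1 {ν κ g : ℝ} (hν : 0 < ν) (B : Finset K) {A Θ : K → ℂ} (hs : Sym A)
    (hA : ∀ k ∉ B, A k = 0) :
    ∑ k ∈ B, nsq k * (2 * (conj (A k) * (-(ν * nsq k : ℝ) * A k
      + κ * ∑ h ∈ B, (ck k h : ℂ) * A (k - h) * A h - Complex.I * (g * fk k : ℝ) * Θ k)).re)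
      ≤ -(ν * ∑ k ∈ B, nsq k ^ 2 * ‖A k‖ ^ 2) + g ^ 2 / ν * ∑ k ∈ B, ‖Θ k‖ ^ 2 := by
  have e1 : ∀ k ∈ B, nsq k * (2 * (conj (A k) * (-(ν * nsq k : ℝ) * A k
      + κ * ∑ h ∈ B, (ck k h : ℂ) * A (k - h) * A h - Complex.I * (g * fk k : ℝ) * Θ k)).re)
      ≤ (-ν * (nsq k ^ 2 * ‖A k‖ ^ 2) + g ^ 2 / ν * ‖Θ k‖ ^ 2)
        + 2 * κ * (nsq k * (conj (A k) * ∑ h ∈ B, (ck k h : ℂ) * A (k - h) * A h).re) := by
    intro k _
    have e : conj (A k) * (-(ν * nsq k : ℝ) * A k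
      + κ * ∑ h ∈ B, (ck k h : ℂ) * A (k - h) * A h - Complex.I * (g * fk k : ℝ) * Θ k)
      = conj (A k) * (-((ν * nsq k : ℝ) : ℂ) * A k)
        + ((κ : ℝ) : ℂ) * (conj (A k) * ∑ h ∈ B, (ck k h : ℂ) * A (k - h) * A h)
        + conj (A k) * -(Complex.I * (g * fk k : ℝ) * Θ k) := by ring
    rw [e, Complex.add_re, Complex.add_re, re_conj_mul_self, Complex.re_ofReal_mul]
    have hb := buoy_bound (g := g) hν k (A k) (Θ k) (nsq k) (nsq_nonneg k)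
    nlinarith
  refine (Finset.sum_le_sum e1).trans ?_
  rw [Finset.sum_add_distrib, ← Finset.mul_sum, finite_enstrophy B hA hs, mul_zero,
    add_zero, Finset.sum_add_distrib, ← Finset.mul_sum, ← Finset.mul_sum]
  linarith

lemma energy_theta {κ : ℝ} (B : Finset K) {s Θ : K → ℂ} (hs : Sym s) :
    ∑ k ∈ B, (2 * (conj (Θ k) * (κ * ∑ h ∈ B, (ek k h : ℂ) * s (k - h) * Θ h)).re) = 0 := by
  have e1 : ∀ k ∈ B, (2 * (conj (Θ k) * (κ * ∑ h ∈ B, (ek k h : ℂ) * s (k - h) * Θ h)).re)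
      = 2 * κ * (conj (Θ k) * ∑ h ∈ B, (ek k h : ℂ) * s (k - h) * Θ h).re := by
    intro k _
    rw [show conj (Θ k) * (κ * ∑ h ∈ B, (ek k h : ℂ) * s (k - h) * Θ h) =
      ((κ : ℝ) : ℂ) * (conj (Θ k) * ∑ h ∈ B, (ek k h : ℂ) * s (k - h) * Θ h) by ring,
      Complex.re_ofReal_mul]
    ring
  rw [Finset.sum_congr rfl e1, ← Finset.mul_sum, finite_antisymm B ek_antisymm hs, mul_zero]

end

end Pancake
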