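import Pool.Agent.Pancake.Gal2

/-!
# MP_771030_an: existence of Galerkin approximations
-/

namespace Pancake

open Set Filter Topology
open scoped ENNReal NNReal ComplexConjugate

noncomputable section

theorem galerkin {ν κ g M0 M1 : ℝ} (hν : 0 < ν) (hM : g ^ 2 * M0 ≤ ν ^ 2 * M1)
    (B : Finset K) (hB : ∀ k ∈ B, -k ∈ B) {T : ℝ} (hT : 0 ≤ T) {a0 θ0 : K → ℂ}
    (ha0 : Sym a0) (hθ0 : Sym θ0) (ha00 : a0 0 = 0)
    (hb0 : ∑ k ∈ B, nsq k * ‖a0 k‖ ^ 2 ≤ M1) (hbθ : ∑ k ∈ B, ‖θ0 k‖ ^ 2 ≤ M0) :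
    ∃ a θ : ℝ → K → ℂ,
      (∀ k ∈ B, a 0 k = a0 k) ∧ (∀ k ∈ B, θ 0 k = θ0 k) ∧
      (∀ t, ∀ k ∉ B, a t k = 0) ∧ (∀ t, ∀ k ∉ B, θ t k = 0) ∧
      (∀ t ∈ Icc 0 T, Sym (a t)) ∧ (∀ t ∈ Icc 0 T, Sym (θ t)) ∧ (∀ t ∈ Icc 0 T, a t 0 = 0) ∧
      (∀ t ∈ Icc 0 T, ∀ k, HasDerivWithinAt (fun t => a t k)
        (Fa ν κ g (cut B ck) (a t) (θ t) k) (Icc 0 T) t) ∧
      (∀ t ∈ Icc 0 T, ∀ k, HasDerivWithinAt (fun t => θ t k)
        (Ft κ (cut B ek) (a t) (θ t) k) (Icc 0 T) t) ∧
      (∀ t ∈ Icc 0 T, ∑ k ∈ B, ‖θ t k‖ ^ 2 ≤ M0) ∧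
      (∀ t ∈ Icc 0 T, ∑ k ∈ B, nsq k * ‖a t k‖ ^ 2 ≤ M1) ∧
      (∀ s ∈ Icc 0 T, ∀ t ∈ Icc 0 T, s ≤ t →
        ∫ τ in s..t, ∑ k ∈ B, nsq k ^ 2 * ‖a τ k‖ ^ 2 ≤ M1 / ν + M1 * (t - s)) := by
  classical
  set x0 : Gsp B := (fun k => a0 k, fun k => θ0 k) with hx0
  have e1 : ∀ k ∈ B, ext B x0.1 k = a0 k := fun k hk => by rw [ext_of_mem _ hk]
  have e2 : ∀ k ∈ B, ext B x0.2 k = θ0 k := fun k hk => by rw [ext_of_mem _ hk]
  set ρ := M0 + M1 with hρ
  obtain ⟨x, hx00, hx⟩ := ode_exists (contDiff_Gf ν κ g B) (contDiff_cutoff ρ B)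
    (cutoff_supp ρ B) x0 hT
  have h0T : (0 : ℝ) ∈ Icc 0 T := ⟨le_rfl, hT⟩
  -- components
  set A : ℝ → K → ℂ := fun t k => ext B (x t).1 k with hAdef
  set Θ : ℝ → K → ℂ := fun t k => ext B (x t).2 k with hΘdef
  have hA' : ∀ t ∈ Icc 0 T, ∀ k, HasDerivWithinAt (fun t => A t k)
      ((cutoff ρ B (x t) : ℂ) * (if k ∈ B then Ga ν κ g B (x t) k else 0)) (Icc 0 T) t := by
    intro t ht k
    by_cases hk : k ∈ B
    · rw [if_pos hk]
      have h1 := (ContinuousLinearMap.fst ℝ (B → ℂ) (B → ℂ)).hasFDerivAt.comp_hasDerivWithinAt t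
        (hx t ht)
      rw [hasDerivWithinAt_pi] at h1
      have h2 := h1 ⟨k, hk⟩
      refine h2.congr_deriv ?_ |>.congr_of_mem ?_ ht
      · change cutoff ρ B (x t) • Ga ν κ g B (x t) k = _
        rw [Complex.real_smul]
      · intro y _
        simp only [hAdef, ext_of_mem _ hk, Function.comp]
        rfl
    · rw [if_neg hk, mul_zero]
      have : (fun t => A t k) = fun _ => 0 := by
        funext t
        simp only [hAdef, ext_of_not_mem _ hk]
      rw [this]
      exact hasDerivWithinAt_const _ _ _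
  have hΘ' : ∀ t ∈ Icc 0 T, ∀ k, HasDerivWithinAt (fun t => Θ t k)
      ((cutoff ρ B (x t) : ℂ) * (if k ∈ B then Gt κ B (x t) k else 0)) (Icc 0 T) t := by
    intro t ht k
    by_cases hk : k ∈ B
    · rw [if_pos hk]
      have h1 := (ContinuousLinearMap.snd ℝ (B → ℂ) (B → ℂ)).hasFDerivAt.comp_hasDerivWithinAt t
        (hx t ht)
      rw [hasDerivWithinAt_pi] at h1
      have h2 := h1 ⟨k, hk⟩
      refine h2.congr_deriv ?_ |>.congr_of_mem ?_ ht
      · change cutoff ρ B (x t) • Gt κ B (x t) k = _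
        rw [Complex.real_smul]
      · intro y _
        simp only [hΘdef, ext_of_mem _ hk, Function.comp]
        rfl
    · rw [if_neg hk, mul_zero]
      have : (fun t => Θ t k) = fun _ => 0 := by
        funext t
        simp only [hΘdef, ext_of_not_mem _ hk]
      rw [this]
      exact hasDerivWithinAt_const _ _ _
  -- the zero mode of `a`
  have hA0 : ∀ t ∈ Icc 0 T, A t 0 = 0 := by
    have hb := barrier (f := fun t => ‖A t 0‖ ^ 2) (f' := fun _ => 0) (T := T) (m := 0) ?_ ?_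
      (fun _ _ _ => le_rfl)
    · intro t ht
      have := hb t ht
      have h2 : ‖A t 0‖ = 0 := by
        have h3 := norm_nonneg (A t 0)
        nlinarith
      exact norm_eq_zero.mp h2
    · intro t ht
      have hz : (if (0 : K) ∈ B then Ga ν κ g B (x t) 0 else 0) = 0 := by
        split_ifs
        · unfold Ga
          simp [ck_zero_left]
        · rfl
      have h1 := hA' t ht 0
      rw [hz, mul_zero] at h1
      have := h1.norm_sq
      simpa using this
    · by_cases h0 : (0 : K) ∈ B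
      · simp only [hAdef, hx00, e1 0 h0, ha00]; simp
      · simp only [hAdef, ext_of_not_mem _ h0]; simp
  -- temperature bound
  have hΘb : ∀ t ∈ Icc 0 T, ∑ k ∈ B, ‖Θ t k‖ ^ 2 ≤ M0 := by
    apply barrier (f' := fun t => ∑ k ∈ B, (2 * (conj (Θ t k) *
      ((cutoff ρ B (x t) : ℂ) * (if k ∈ B then Gt κ B (x t) k else 0))).re))
    · intro t ht
      have := hasDeriv_wsum B (z := Θ) (hΘ' t ht) (fun _ => 1)
      simpa using this
    · simp only [hΘdef, hx00]
      rw [Finset.sum_congr rfl (fun k hk => by rw [e2 k hk])]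
      exact hbθ
    · intro t ht _
      have e : ∑ k ∈ B, (2 * (conj (Θ t k) *
          ((cutoff ρ B (x t) : ℂ) * (if k ∈ B then Gt κ B (x t) k else 0))).re)
          = cutoff ρ B (x t) * ∑ k ∈ B, (2 * (conj (Θ t k) * Gt κ B (x t) k).re) := by
        rw [Finset.mul_sum]
        apply Finset.sum_congr rfl
        intro k hk
        rw [if_pos hk, mul_left_comm, Complex.re_ofReal_mul]
        ring
      rw [e]
      unfold Gt
      rw [energy_theta B (sy_sym B _), mul_zero]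
  -- crude bound for `a`
  have hAb : ∀ t ∈ Icc 0 T, ∑ k ∈ B, ‖A t k‖ ^ 2 ≤ M1 := by
    apply barrier (f' := fun t => ∑ k ∈ B, (2 * (conj (A t k) *
      ((cutoff ρ B (x t) : ℂ) * (if k ∈ B then Ga ν κ g B (x t) k else 0))).re))
    · intro t ht
      have := hasDeriv_wsum B (z := A) (hA' t ht) (fun _ => 1)
      simpa using this
    · refine le_trans ?_ hb0
      apply Finset.sum_le_sum
      intro k hk
      simp only [hAdef, hx00, e1 k hk]
      by_cases hk0 : k = 0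
      · rw [hk0, ha00]; simp
      · have := one_le_nsq hk0
        nlinarith [sq_nonneg ‖a0 k‖]
    · intro t ht hMt
      have e : ∑ k ∈ B, (2 * (conj (A t k) *
          ((cutoff ρ B (x t) : ℂ) * (if k ∈ B then Ga ν κ g B (x t) k else 0))).re)
          = cutoff ρ B (x t) * ∑ k ∈ B, (2 * (conj (A t k) * Ga ν κ g B (x t) k).re) := by
        rw [Finset.mul_sum]
        apply Finset.sum_congr rfl
        intro k hk
        rw [if_pos hk, mul_left_comm, Complex.re_ofReal_mul]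
        ring
      rw [e]
      apply mul_nonpos_of_nonneg_of_nonpos (cutoff_nonneg _ _ _)
      unfold Ga
      have h1 := energy_L2 (κ := κ) (g := g) hν B (s := sy B (x t).1) (A := A t) (Θ := Θ t)
        (sy_sym B _) (hA0 t ht)
      refine h1.trans ?_
      have h2 := hΘb t ht
      have h3 : g ^ 2 / ν * ∑ k ∈ B, ‖Θ t k‖ ^ 2 ≤ ν * M1 := by
        calc g ^ 2 / ν * ∑ k ∈ B, ‖Θ t k‖ ^ 2 ≤ g ^ 2 / ν * M0 := by gcongr
          _ = (g ^ 2 * M0) / ν := by ring
          _ ≤ (ν ^ 2 * M1) / ν := by gcongr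
          _ = ν * M1 := by field_simp
      nlinarith
  -- the cutoff is inactive
  have hφ : ∀ t ∈ Icc 0 T, cutoff ρ B (x t) = 1 := by
    intro t ht
    apply cutoff_eq_one
    unfold Qe
    rw [Finset.sum_add_distrib]
    have h1 := hAb t ht
    have h2 := hΘb t ht
    simp only [hAdef] at h1
    simp only [hΘdef] at h2
    linarith
  -- symmetry
  have hinv : EqOn x (fun t => invo B hB (x t)) (Icc 0 T) := by
    apply ode_unique (contDiff_Gf ν κ g B) (contDiff_cutoff ρ B) (cutoff_supp ρ B) hx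
    · intro t ht
      rw [cutoff_invo, Gf_invo]
      have h1 : HasDerivWithinAt (fun t => (invo B hB (x t)).1)
          (cutoff ρ B (x t) • invo B hB (Gf ν κ g B (x t))).1 (Icc 0 T) t := by
        rw [hasDerivWithinAt_pi]
        intro k
        have h2 := (ContinuousLinearMap.fst ℝ (B → ℂ) (B → ℂ)).hasFDerivAt.comp_hasDerivWithinAt t
          (hx t ht)
        rw [hasDerivWithinAt_pi] at h2
        have h3 := (Complex.conjCLE.toContinuousLinearMap).hasFDerivAt.comp_hasDerivWithinAt t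
          (h2 ⟨-k.1, hB _ k.2⟩)
        refine h3.congr_deriv ?_
        simp [invo]
      have h1' : HasDerivWithinAt (fun t => (invo B hB (x t)).2)
          (cutoff ρ B (x t) • invo B hB (Gf ν κ g B (x t))).2 (Icc 0 T) t := by
        rw [hasDerivWithinAt_pi]
        intro k
        have h2 := (ContinuousLinearMap.snd ℝ (B → ℂ) (B → ℂ)).hasFDerivAt.comp_hasDerivWithinAt t
          (hx t ht)
        rw [hasDerivWithinAt_pi] at h2
        have h3 := (Complex.conjCLE.toContinuousLinearMap).hasFDerivAt.comp_hasDerivWithinAt t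
          (h2 ⟨-k.1, hB _ k.2⟩)
        refine h3.congr_deriv ?_
        simp [invo]
      exact h1.prodMk h1'
    · simp only [hx00]
      apply Prod.ext
      · funext k
        simp only [hx0, invo]
        rw [← ha0, neg_neg]
      · funext k
        simp only [hx0, invo]
        rw [← hθ0, neg_neg]
  have hAs : ∀ t ∈ Icc 0 T, Sym (A t) := by
    intro t ht k
    have := hinv ht
    simp only [hAdef]
    conv_lhs => rw [this]
    simp only []
    rw [ext_invo_fst, neg_neg]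
  have hΘs : ∀ t ∈ Icc 0 T, Sym (Θ t) := by
    intro t ht k
    have := hinv ht
    simp only [hΘdef]
    conv_lhs => rw [this]
    simp only []
    rw [ext_invo_snd, neg_neg]
  have hsy : ∀ t ∈ Icc 0 T, sy B (x t).1 = A t := by
    intro t ht
    funext k
    unfold sy
    have : ext B (x t).1 (-k) = conj (ext B (x t).1 k) := hAs t ht k
    rw [this, Complex.conj_conj]
    simp only [hAdef]
    ring
  have hAout : ∀ t, ∀ k ∉ B, A t k = 0 := fun t k hk => ext_of_not_mem _ hk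
  have hΘout : ∀ t, ∀ k ∉ B, Θ t k = 0 := fun t k hk => ext_of_not_mem _ hk
  have eqA : ∀ t ∈ Icc 0 T, ∀ k ∈ B, Ga ν κ g B (x t) k = -(ν * nsq k : ℝ) * A t k
      + κ * ∑ h ∈ B, (ck k h : ℂ) * A t (k - h) * A t h - Complex.I * (g * fk k : ℝ) * Θ t k := by
    intro t ht k _
    unfold Ga
    rw [hsy t ht]
  have dA : ∀ t ∈ Icc 0 T, ∀ k, HasDerivWithinAt (fun t => A t k)
        (Fa ν κ g (cut B ck) (A t) (Θ t) k) (Icc 0 T) t := by
    intro t ht k
    refine (hA' t ht k).congr_deriv ?_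
    rw [hφ t ht]
    unfold Fa
    rw [Bil_cut B ck (hAout t)]
    split_ifs with hk
    · rw [eqA t ht k hk]; push_cast; ring
    · rw [hAout t k hk, hΘout t k hk]; simp
  have dΘ : ∀ t ∈ Icc 0 T, ∀ k, HasDerivWithinAt (fun t => Θ t k)
        (Ft κ (cut B ek) (A t) (Θ t) k) (Icc 0 T) t := by
    intro t ht k
    refine (hΘ' t ht k).congr_deriv ?_
    rw [hφ t ht]
    unfold Ft
    rw [Bil_cut B ek (hAout t)]
    split_ifs with hk
    · unfold Gt
      rw [hsy t ht]; push_cast; ring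
    · simp
  have hder : ∀ t ∈ Icc 0 T, HasDerivWithinAt (fun t => ∑ k ∈ B, nsq k * ‖A t k‖ ^ 2)
      (∑ k ∈ B, nsq k * (2 * (conj (A t k) * Fa ν κ g (cut B ck) (A t) (Θ t) k).re)) (Icc 0 T) t :=
    fun t ht => hasDeriv_wsum B (z := A) (dA t ht) nsq
  have hFaB : ∀ t ∈ Icc 0 T, ∑ k ∈ B, nsq k * (2 * (conj (A t k) *
      Fa ν κ g (cut B ck) (A t) (Θ t) k).re) ≤
      -(ν * ∑ k ∈ B, nsq k ^ 2 * ‖A t k‖ ^ 2) + g ^ 2 / ν * ∑ k ∈ B, ‖Θ t k‖ ^ 2 := by
    intro t ht
    refine le_trans (le_of_eq ?_) (energy_H1 (κ := κ) (g := g) hν B (hAs t ht) (hAout t))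
    apply Finset.sum_congr rfl
    intro k hk
    unfold Fa
    rw [Bil_cut B ck (hAout t), if_pos hk]
  have hgν : g ^ 2 / ν * M0 ≤ ν * M1 := by
    calc g ^ 2 / ν * M0 = (g ^ 2 * M0) / ν := by ring
      _ ≤ (ν ^ 2 * M1) / ν := by gcongr
      _ = ν * M1 := by field_simp
  have hAb1 : ∀ t ∈ Icc 0 T, ∑ k ∈ B, nsq k * ‖A t k‖ ^ 2 ≤ M1 := by
    apply barrier hder
    · refine le_trans (le_of_eq ?_) hb0
      apply Finset.sum_congr rfl
      intro k hk
      simp only [hAdef, hx00, e1 k hk]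
    · intro t ht hMt
      refine (hFaB t ht).trans ?_
      have h2 := hΘb t ht
      have h3 : g ^ 2 / ν * ∑ k ∈ B, ‖Θ t k‖ ^ 2 ≤ g ^ 2 / ν * M0 := by gcongr
      have h4 : ∑ k ∈ B, nsq k * ‖A t k‖ ^ 2 ≤ ∑ k ∈ B, nsq k ^ 2 * ‖A t k‖ ^ 2 := by
        apply Finset.sum_le_sum
        intro k _
        by_cases hk0 : k = 0
        · rw [hk0]; simp
        · have := one_le_nsq hk0
          have h5 : nsq k ≤ nsq k ^ 2 := by nlinarith
          gcongr
      nlinarith
  refine ⟨A, Θ, ?_, ?_, hAout, hΘout, hAs, hΘs, hA0, dA, dΘ, hΘb, hAb1, ?_⟩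
  · intro k hk
    simp only [hAdef, hx00, e1 k hk]
  · intro k hk
    simp only [hΘdef, hx00, e2 k hk]
  · intro s hs t ht hst
    have hcA : ∀ k, ContinuousOn (fun t => A t k) (Icc 0 T) := fun k t ht =>
      (dA t ht k).continuousWithinAt
    have h1 := integral_bound (p := fun τ => ν * ∑ k ∈ B, nsq k ^ 2 * ‖A τ k‖ ^ 2)
      (C := ν * M1) hder ?_ ?_ hs ht hst
    · rw [intervalIntegral.integral_const_mul] at h1
      have h2 := hAb1 s hs
      have h3 : 0 ≤ ∑ k ∈ B, nsq k * ‖A t k‖ ^ 2 := Finset.sum_nonneg fun k _ => by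
        have := nsq_nonneg k; positivity
      have h4 : ν * ∫ τ in s..t, ∑ k ∈ B, nsq k ^ 2 * ‖A τ k‖ ^ 2 ≤ M1 + ν * M1 * (t - s) := by
        linarith
      have h5 : M1 / ν + M1 * (t - s) = (M1 + ν * M1 * (t - s)) / ν := by field_simp
      rw [h5, le_div_iff₀ hν]
      linarith
    · apply ContinuousOn.mul continuousOn_const
      apply continuousOn_finsetSum
      intro k _
      exact continuousOn_const.mul ((hcA k).norm.pow 2)
    · intro t ht
      refine (hFaB t ht).trans ?_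
      have h2 := hΘb t ht
      have h3 : g ^ 2 / ν * ∑ k ∈ B, ‖Θ t k‖ ^ 2 ≤ g ^ 2 / ν * M0 := by gcongr
      linarith

end

end Pancake
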