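import Pool.Agent.Pancake.Seq

/-!
# MP_771030_an: logarithmic lattice sums, kernels, antisymmetry
-/

namespace Pancake

open Set Filter Topology
open scoped ENNReal NNReal ComplexConjugate

noncomputable section

/-! ### Logarithmic sum -/

lemma L_box (n : ℕ) {c : ℝ} (hc : 0 ≤ c) :
    L (fun k => if nsq k < (n : ℝ) ^ 2 then c else 0) ≤ ENNReal.ofReal (4 * (n : ℝ) ^ 2 * c) := by
  classical
  set S : Finset K := Fintype.piFinset (fun _ : Fin 2 => Finset.Ioo (-(n : ℤ)) n) with hS
  have hsub : ∀ k : K, k ∉ S → ENNReal.ofReal (if nsq k < (n : ℝ) ^ 2 then c else 0) = 0 := by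
    intro k hk
    rw [if_neg, ENNReal.ofReal_zero]
    intro hlt
    apply hk
    rw [hS, Fintype.mem_piFinset]
    have key : ∀ x : ℤ, (x : ℝ) ^ 2 < (n : ℝ) ^ 2 → x ∈ Finset.Ioo (-(n : ℤ)) n := by
      intro x hx
      rw [Finset.mem_Ioo]
      have := abs_lt_of_sq_lt_sq hx (Nat.cast_nonneg n)
      rw [abs_lt] at this
      constructor
      · have := this.1
        exact_mod_cast this
      · have := this.2
        exact_mod_cast this
    intro i
    apply key
    unfold nsq at hlt
    fin_cases i
    · simp only [Fin.zero_eta, Fin.isValue]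
      nlinarith [sq_nonneg (k 1 : ℝ)]
    · simp only [Fin.mk_one, Fin.isValue]
      nlinarith [sq_nonneg (k 0 : ℝ)]
  unfold L
  rw [tsum_eq_sum hsub]
  have hcard : (S.card : ℝ) ≤ 4 * (n : ℝ) ^ 2 := by
    rw [hS, Fintype.card_piFinset]
    simp only [Int.card_Ioo, Finset.prod_const, Finset.card_univ, Fintype.card_fin]
    have : (((n : ℤ) - -(n : ℤ) - 1).toNat : ℝ) ≤ 2 * n := by
      have h1 : ((n : ℤ) - -(n : ℤ) - 1).toNat ≤ 2 * n := by omega
      exact_mod_cast h1
    push_cast
    have h0 : (0 : ℝ) ≤ (((n : ℤ) - -(n : ℤ) - 1).toNat : ℝ) := Nat.cast_nonneg _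
    nlinarith
  calc ∑ k ∈ S, ENNReal.ofReal (if nsq k < (n : ℝ) ^ 2 then c else 0)
      ≤ ∑ k ∈ S, ENNReal.ofReal c := by
        apply Finset.sum_le_sum
        intro k _
        apply ENNReal.ofReal_le_ofReal
        split_ifs <;> simp [hc]
    _ = ENNReal.ofReal (S.card * c) := by
        rw [Finset.sum_const, nsmul_eq_mul, ENNReal.ofReal_mul (by positivity)]
        simp
    _ ≤ ENNReal.ofReal (4 * (n : ℝ) ^ 2 * c) := by
        apply ENNReal.ofReal_le_ofReal
        gcongr

/-- indicator of the low frequencies `0 < |k| < 2^m`. -/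
def low (m : ℕ) (k : K) : Prop := k ≠ 0 ∧ nsq k < 4 ^ m

lemma log_sum (m : ℕ) [∀ m k, Decidable (low m k)] :
    L (fun k => if low m k then 1 / nsq k else 0) ≤ ENNReal.ofReal (16 * m) := by
  induction m with
  | zero =>
    have : (fun k => if low 0 k then 1 / nsq k else 0) = fun _ => (0 : ℝ) := by
      funext k
      rw [if_neg]
      rintro ⟨h1, h2⟩
      have := one_le_nsq h1
      simp at h2
      linarith
    rw [this]
    simp [L]
  | succ m ih =>
    have h4 : (0 : ℝ) < 4 ^ m := by positivity
    have step : L (fun k => if low (m + 1) k then 1 / nsq k else 0) ≤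
        L (fun k => (if low m k then 1 / nsq k else 0) +
          (if nsq k < ((2 ^ (m + 1) : ℕ) : ℝ) ^ 2 then 1 / 4 ^ m else 0)) := by
      apply L_mono
      intro k
      have e : ((2 ^ (m + 1) : ℕ) : ℝ) ^ 2 = 4 ^ (m + 1) := by
        push_cast
        rw [← pow_mul, mul_comm, pow_mul]
        norm_num
      rw [e]
      by_cases hk : low (m + 1) k
      · have hk2 := hk.2
        have hk1 := one_le_nsq hk.1
        rw [if_pos hk, if_pos hk.2]
        by_cases hl : low m k
        · rw [if_pos hl]
          have : (0 : ℝ) ≤ 1 / 4 ^ m := by positivity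
          linarith
        · rw [if_neg hl, zero_add]
          have : (4 : ℝ) ^ m ≤ nsq k := by
            by_contra hcon
            exact hl ⟨hk.1, not_le.mp hcon⟩
          exact one_div_le_one_div_of_le h4 this
      · rw [if_neg hk]
        have h1 : (0 : ℝ) ≤ (if low m k then 1 / nsq k else 0) := by
          split_ifs
          · have := nsq_nonneg k; positivity
          · exact le_rfl
        have h2 : (0 : ℝ) ≤ (if nsq k < 4 ^ (m + 1) then 1 / 4 ^ m else 0) := by
          split_ifs <;> positivity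
        linarith
    refine step.trans ?_
    rw [L_add]
    · refine (add_le_add ih (L_box (2 ^ (m + 1)) (by positivity))).trans ?_
      rw [← ENNReal.ofReal_add (by positivity) (by positivity)]
      apply ENNReal.ofReal_le_ofReal
      have e : (4 : ℝ) * ((2 ^ (m + 1) : ℕ) : ℝ) ^ 2 * (1 / 4 ^ m) = 16 := by
        push_cast
        rw [← pow_mul, mul_comm (m + 1), pow_mul]
        norm_num
        rw [pow_succ]
        field_simp
        norm_num
      rw [e]
      push_cast
      linarith
    · intro k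
      split_ifs
      · have := nsq_nonneg k; positivity
      · exact le_rfl
    · intro k
      split_ifs <;> positivity

/-! ### Kernels -/

/-- Kernel of the transport term. -/
def ek (k h : K) : ℝ := crs k h / nrm (k - h)

/-- Kernel of the momentum term. -/
def ck (k h : K) : ℝ := crs k h * dot k h / (nrm k * nrm (k - h) * nrm h)

lemma ek_antisymm (k h : K) : ek h k = - ek k h := by
  unfold ek
  rw [crs_swap h k, nrm_sub_comm h k, neg_div]

lemma ck_antisymm (k h : K) : ck h k = - ck k h := by
  unfold ck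
  rw [crs_swap h k, dot_comm h k, nrm_sub_comm h k]
  rw [show nrm h * nrm (k - h) * nrm k = nrm k * nrm (k - h) * nrm h by ring]
  ring

lemma abs_crs_le_sub_left (k h : K) : |crs k h| ≤ nrm (k - h) * nrm h := by
  rw [← crs_sub_left]; exact abs_crs_le _ _

lemma abs_crs_le_sub_right (k h : K) : |crs k h| ≤ nrm k * nrm (k - h) := by
  have := abs_crs_le k (k - h)
  rwa [crs_sub_right, abs_neg] at this

lemma abs_ek_le_left (k h : K) : |ek k h| ≤ nrm k := by
  unfold ek
  rw [abs_div, abs_of_nonneg (nrm_nonneg (k - h))]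
  rcases (nrm_nonneg (k - h)).eq_or_lt with h0 | h0
  · rw [← h0, div_zero]; exact nrm_nonneg k
  · rw [div_le_iff₀ h0]; exact abs_crs_le_sub_right k h

lemma abs_ek_le_right (k h : K) : |ek k h| ≤ nrm h := by
  rw [show |ek k h| = |ek h k| by rw [ek_antisymm h k, abs_neg]]
  exact abs_ek_le_left h k

lemma abs_ck_le (k h : K) : |ck k h| ≤ nrm k := by
  unfold ck
  have p1 := nrm_nonneg k
  have p2 := nrm_nonneg h
  have p3 := nrm_nonneg (k - h)
  rw [abs_div, abs_mul, abs_of_nonneg (by positivity : 0 ≤ nrm k * nrm (k - h) * nrm h)]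
  have h1 : |crs k h| * |dot k h| ≤ (nrm k * nrm (k - h)) * (nrm k * nrm h) :=
    mul_le_mul (abs_crs_le_sub_right k h) (abs_dot_le k h) (abs_nonneg _) (by positivity)
  rcases (by positivity : 0 ≤ nrm k * nrm (k - h) * nrm h).eq_or_lt with h0 | h0
  · rw [← h0, div_zero]; exact p1
  · rw [div_le_iff₀ h0]
    nlinarith

lemma ek_neg_neg (k h : K) : ek (-k) (-h) = ek k h := by
  unfold ek
  rw [crs_neg_neg, show -k - -h = -(k - h) by abel, nrm_neg]

lemma ck_neg_neg (k h : K) : ck (-k) (-h) = ck k h := by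
  unfold ck
  rw [crs_neg_neg, dot_neg_neg, show -k - -h = -(k - h) by abel, nrm_neg, nrm_neg, nrm_neg]

/-- The difference of the two forms of the momentum kernel. -/
def dk (k h : K) : ℝ := crs k h * dot h (k - h) / (nrm (k - h) * nrm h)

lemma dk_antisymm (k h : K) : dk k (k - h) = - dk k h := by
  unfold dk
  rw [crs_sub_right, sub_sub_cancel, dot_comm (k - h) h, mul_comm (nrm h)]
  ring

/-- Relation between the two forms of the momentum kernel. -/
lemma ck_form (k h : K) : nrm k ^ 2 * ck k h = nrm k * nrm h * ek k h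
    + nrm k * dk k h := by
  unfold ck ek dk
  have e : dot h (k - h) = dot k h - nrm h ^ 2 := by
    rw [nrm_sq]
    simp only [dot, nsq, Pi.sub_apply, Int.cast_sub]; ring
  rw [e]
  by_cases hk : nrm k = 0
  · rw [hk]; simp
  by_cases hh : nrm h = 0
  · have : h = 0 := nrm_eq_zero.mp hh
    subst this
    simp [crs]
  by_cases hkh : nrm (k - h) = 0
  · rw [hkh]; simp
  field_simp
  ring

/-- Reality condition. -/
def Sym (a : K → ℂ) : Prop := ∀ k, a (-k) = conj (a k)

/-- The bilinear term with kernel `c`. -/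
def Bil (c : K → K → ℝ) (a x : K → ℂ) (k : K) : ℂ := ∑' h, (c k h : ℂ) * a (k - h) * x h

lemma antisymm_term {c : K → K → ℝ} (hc : ∀ k h, c h k = - c k h) {a : K → ℂ} (ha : Sym a)
    (z : K → ℂ) (k h : K) :
    (conj (z k) * ((c k h : ℂ) * a (k - h) * z h)).re
      = - (conj (z h) * ((c h k : ℂ) * a (h - k) * z k)).re := by
  have e : a (h - k) = conj (a (k - h)) := by rw [← ha]; congr 1; abel
  rw [e, hc k h]
  have e2 : (conj (z h) * (((-c k h : ℝ) : ℂ) * conj (a (k - h)) * z k)) =
      - conj (conj (z k) * ((c k h : ℂ) * a (k - h) * z h)) := by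
    simp only [map_mul, Complex.conj_conj, Complex.conj_ofReal, Complex.ofReal_neg]
    ring
  rw [e2, Complex.neg_re, Complex.conj_re]
  ring

/-- Weighted antisymmetric double sums. -/
lemma antisymm_sum {X : K → K → ℝ} (hX : ∀ k h, X k h = - X h k) (w : K → ℝ)
    (hs : Summable (fun p : K × K => w p.1 * X p.1 p.2)) :
    2 * ∑' p : K × K, w p.1 * X p.1 p.2 = ∑' p : K × K, (w p.1 - w p.2) * X p.1 p.2 := by
  have hs' : Summable (fun p : K × K => w p.2 * X p.1 p.2) := by
    have := (Equiv.prodComm K K).summable_iff.mpr hs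
    have h2 := this.neg
    refine h2.congr fun p => ?_
    simp only [Function.comp, Equiv.prodComm_apply, Prod.fst_swap, Prod.snd_swap]
    rw [hX p.1 p.2]; ring
  have e : ∑' p : K × K, w p.2 * X p.1 p.2 = - ∑' p : K × K, w p.1 * X p.1 p.2 := by
    rw [← (Equiv.prodComm K K).tsum_eq (fun p : K × K => w p.1 * X p.1 p.2), ← tsum_neg]
    congr 1
    funext p
    simp only [Equiv.prodComm_apply, Prod.fst_swap, Prod.snd_swap]
    rw [hX p.1 p.2]; ring
  have e2 : ∑' p : K × K, (w p.1 - w p.2) * X p.1 p.2 =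
      ∑' p : K × K, w p.1 * X p.1 p.2 - ∑' p : K × K, w p.2 * X p.1 p.2 := by
    rw [← hs.tsum_sub hs']
    congr 1
    funext p
    ring
  rw [e2, e]; ring

lemma antisymm_sum_zero {X : K → K → ℝ} (hX : ∀ k h, X k h = - X h k)
    (hs : Summable (fun p : K × K => X p.1 p.2)) :
    ∑' p : K × K, X p.1 p.2 = 0 := by
  have := antisymm_sum hX (fun _ => 1) (by simpa using hs)
  simp only [one_mul, sub_self, zero_mul, tsum_zero] at this
  linarith

end

end Pancake
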