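import Pool.Agent.Pancake.Equiv2

/-!
# MP_771030_an: the two inclusions in physical space
-/

namespace Pancake

open Set Filter Topology MeasureTheory
open scoped ENNReal NNReal ComplexConjugate Real

noncomputable section

variable {Λ ν g : ℝ} {mz : Prop}

/-- The set of the values at times `t > τ` of the solutions starting in `X`. -/
def orbits (L ν g : ℝ) (mz : Prop) (X : Set (St L)) (τ : ℝ) : Set (St L) :=
  {y | ∃ z : ℝ → St L, WeakSol L ν g mz (Ici 0) z ∧ z 0 ∈ X ∧ ∃ t > τ, z t = y}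

/-- The `ω`-limit set, through `orbits`. -/
def omegaSet (L ν g : ℝ) (mz : Prop) (X : Set (St L)) : Set (St L) :=
  {y | ∀ τ ≥ 0, toWeakSpace ℝ (St L) y ∈
    closure (toWeakSpace ℝ (St L) '' orbits L ν g mz X τ)}

/-! ### Weak topology -/

lemma weak_tendsto {ι : Type*} {l : Filter ι} {z : ι → St Λ} {x : St Λ}
    (h : ∀ φ : St Λ →L[ℝ] ℝ, Tendsto (fun n => φ (z n)) l (𝓝 (φ x))) :
    Tendsto (fun n => toWeakSpace ℝ (St Λ) (z n)) l (𝓝 (toWeakSpace ℝ (St Λ) x)) := by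
  have hind : IsInducing (fun (x : WeakBilin (topDualPairing ℝ (St Λ)).flip) y =>
      (topDualPairing ℝ (St Λ)).flip x y) := ⟨rfl⟩
  refine hind.tendsto_nhds_iff.mpr ?_
  rw [tendsto_pi_nhds]
  intro φ
  exact h φ

/-- `wkClosure` is the closure in Mathlib's weak topology. -/
theorem mem_wkClosure_iff {y : St Λ} {X : Set (St Λ)} :
    y ∈ wkClosure Λ X ↔
      toWeakSpace ℝ (St Λ) y ∈ closure (toWeakSpace ℝ (St Λ) '' X) := by
  choose la hla using fun a : St Λ => ip_clm a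
  choose al hal using fun l : St Λ →L[ℝ] ℝ => clm_ip l
  set f : St Λ → (St Λ →L[ℝ] ℝ) → ℝ := fun x l => l x with hf
  have hind : IsInducing (fun (x : WeakSpace ℝ (St Λ)) =>
      f ((toWeakSpace ℝ (St Λ)).symm x)) := ⟨rfl⟩
  have h1 : toWeakSpace ℝ (St Λ) y ∈ closure (toWeakSpace ℝ (St Λ) '' X) ↔
      f y ∈ closure (f '' X) := by
    rw [hind.closure_eq_preimage_closure_image, mem_preimage, image_image]
    simp only [LinearEquiv.symm_apply_apply]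
  rw [h1]
  unfold wkClosure
  rw [mem_ofPred_eq]
  constructor
  · intro h
    have hc : Continuous (fun (G : St Λ → ℝ) (l : St Λ →L[ℝ] ℝ) => G (al l)) :=
      continuous_pi fun l => continuous_apply (al l)
    have h2 := image_closure_subset_closure_image hc (mem_image_of_mem _ h)
    rw [image_image] at h2
    simp only [← hal] at h2
    exact h2
  · intro h
    have hc : Continuous (fun (F : (St Λ →L[ℝ] ℝ) → ℝ) (a : St Λ) => F (la a)) :=
      continuous_pi fun a => continuous_apply (la a)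
    have h2 := image_closure_subset_closure_image hc (mem_image_of_mem _ h)
    rw [image_image] at h2
    simp only [hf, hla] at h2
    exact h2

lemma weak_cont (φ : St Λ →L[ℝ] ℂ) :
    Continuous fun w : WeakSpace ℝ (St Λ) => φ ((toWeakSpace ℝ (St Λ)).symm w) := by
  have h1 : Continuous fun w : WeakSpace ℝ (St Λ) =>
      (Complex.reCLM.comp φ) ((toWeakSpace ℝ (St Λ)).symm w) :=
    WeakBilin.eval_continuous (topDualPairing ℝ (St Λ)).flip (Complex.reCLM.comp φ)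
  have h2 : Continuous fun w : WeakSpace ℝ (St Λ) =>
      (Complex.imCLM.comp φ) ((toWeakSpace ℝ (St Λ)).symm w) :=
    WeakBilin.eval_continuous (topDualPairing ℝ (St Λ)).flip (Complex.imCLM.comp φ)
  have e : (fun w : WeakSpace ℝ (St Λ) => φ ((toWeakSpace ℝ (St Λ)).symm w)) = fun w =>
      (((Complex.reCLM.comp φ) ((toWeakSpace ℝ (St Λ)).symm w) : ℝ) : ℂ) +
      (((Complex.imCLM.comp φ) ((toWeakSpace ℝ (St Λ)).symm w) : ℝ) : ℂ) * Complex.I := by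
    funext w
    exact (Complex.re_add_im _).symm
  rw [e]
  exact (Complex.continuous_ofReal.comp h1).add
    ((Complex.continuous_ofReal.comp h2).mul continuous_const)

/-- A point of the weak closure is a limit, mode by mode, of points of the set. -/
lemma weak_seq {y : St Λ} {S : ℕ → Set (St Λ)} (Φ : K → Fin 3 → St Λ →L[ℝ] ℂ)
    (h : ∀ n, toWeakSpace ℝ (St Λ) y ∈ closure (toWeakSpace ℝ (St Λ) '' S n)) :
    ∃ w : ℕ → St Λ, (∀ n, w n ∈ S n) ∧
      ∀ k i, Tendsto (fun n => Φ k i (w n)) atTop (𝓝 (Φ k i y)) := by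
  have hex : ∀ n : ℕ, ∃ w ∈ S n, ∀ k ∈ BB n, ∀ i, ‖Φ k i w - Φ k i y‖ < 1 / ((n : ℝ) + 1) := by
    intro n
    set U : Set (WeakSpace ℝ (St Λ)) := ⋂ k ∈ BB n, ⋂ i : Fin 3,
      {w | ‖Φ k i ((toWeakSpace ℝ (St Λ)).symm w) - Φ k i y‖ < 1 / ((n : ℝ) + 1)} with hU
    have hUo : IsOpen U := by
      rw [hU]
      apply isOpen_biInter_finset
      intro k _
      apply isOpen_iInter_of_finite
      intro i
      exact isOpen_lt (((weak_cont (Φ k i)).sub continuous_const).norm) continuous_const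
    have hyU : toWeakSpace ℝ (St Λ) y ∈ U := by
      rw [hU]
      simp only [mem_iInter, mem_ofPred_eq]
      intro k _ i
      rw [LinearEquiv.symm_apply_apply, sub_self, norm_zero]
      positivity
    obtain ⟨w, hwU, hwS⟩ := mem_closure_iff.mp (h n) U hUo hyU
    obtain ⟨w', hw', rfl⟩ := hwS
    refine ⟨w', hw', fun k hk i => ?_⟩
    rw [hU] at hwU
    simp only [mem_iInter, mem_ofPred_eq] at hwU
    have := hwU k hk i
    rwa [LinearEquiv.symm_apply_apply] at this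
  choose w hw1 hw2 using hex
  refine ⟨w, hw1, fun k i => ?_⟩
  rw [tendsto_iff_norm_sub_tendsto_zero]
  refine squeeze_zero' (Eventually.of_forall fun n => norm_nonneg _) ?_
    tendsto_one_div_add_atTop_nhds_zero_nat
  filter_upwards [eventually_mem_BB k] with n hn
  exact (hw2 n k hn i).le

/-! ### Data in `B̃_r` -/

lemma data_bound (hΛ : 0 < Λ) {x : St Λ} (hx : x ∈ phase Λ mz) {R : ℝ}
    (h : gradSq Λ x ≤ ENNReal.ofReal R) :
    L (fun k => nsq k * ‖am Λ x k‖ ^ 2) ≤ ENNReal.ofReal (R / (Λ ^ 2 * kap Λ ^ 2)) := by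
  have hc := const_pos hΛ
  rw [gradSq_eq hΛ hx] at h
  rw [ENNReal.ofReal_div_of_pos hc, ENNReal.le_div_iff_mul_le (Or.inl (by
    rw [Ne, ENNReal.ofReal_eq_zero, not_le]; exact hc)) (Or.inl ENNReal.ofReal_ne_top), mul_comm]
  exact h

lemma data_bound' (hΛ : 0 < Λ) {x : St Λ} (hx : x ∈ phase Λ mz) {R : ℝ}
    (h : L (fun k => nsq k * ‖am Λ x k‖ ^ 2) ≤ ENNReal.ofReal (R / (Λ ^ 2 * kap Λ ^ 2))) :
    gradSq Λ x ≤ ENNReal.ofReal R := by
  have hc := const_pos hΛ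
  rw [gradSq_eq hΛ hx]
  rw [ENNReal.ofReal_div_of_pos hc, ENNReal.le_div_iff_mul_le (Or.inl (by
    rw [Ne, ENNReal.ofReal_eq_zero, not_le]; exact hc)) (Or.inl ENNReal.ofReal_ne_top), mul_comm] at h
  exact h

lemma nb_Ici : ∀ t ∈ Ici (0 : ℝ), ∃ s ∈ Ici (0 : ℝ), ∃ r ∈ Ici (0 : ℝ), s ≤ r ∧
    Icc s r ∈ 𝓝[Ici 0] t := by
  intro t ht
  refine ⟨0, self_mem_Ici, t + 1, ?_, ?_, ?_⟩
  · have : (0 : ℝ) ≤ t := ht
    simp only [mem_Ici]; linarith
  · have : (0 : ℝ) ≤ t := ht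
    linarith
  · have h1 : Iic (t + 1) ∈ 𝓝[Ici 0] t := mem_nhdsWithin_of_mem_nhds (Iic_mem_nhds (by linarith))
    have h2 : Ici (0 : ℝ) ∈ 𝓝[Ici 0] t := self_mem_nhdsWithin
    exact inter_mem h2 h1

lemma nb_univ : ∀ t ∈ (univ : Set ℝ), ∃ s ∈ (univ : Set ℝ), ∃ r ∈ (univ : Set ℝ), s ≤ r ∧
    Icc s r ∈ 𝓝[univ] t := by
  intro t _
  refine ⟨t - 1, mem_univ _, t + 1, mem_univ _, by linarith, ?_⟩
  rw [nhdsWithin_univ]
  exact Icc_mem_nhds (by linarith) (by linarith)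

/-- Every solution in sequence space is given by a weak solution in physical space. -/
lemma realize_Ici (hΛ : 0 < Λ) {a θ : ℝ → K → ℂ}
    (W : Weak (ν * kap Λ ^ 2) (kap Λ) g (Ici 0) a θ) (hm : mz → θ 0 0 = 0) :
    ∃ z : ℝ → St Λ, WeakSol Λ ν g mz (Ici 0) z ∧
      ∀ t ∈ Ici (0 : ℝ), am Λ (z t) = a t ∧ tm Λ (z t) = θ t := by
  obtain ⟨z, h1, h2⟩ := W.trig hΛ ordConnected_Ici nb_Ici (mz := mz) (fun h t ht => by
    rw [zero_mode W.int self_mem_Ici ht ht]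
    exact hm h)
  exact ⟨z, h1.weakSol hΛ ordConnected_Ici, h2⟩

lemma realize_univ (hΛ : 0 < Λ) {a θ : ℝ → K → ℂ}
    (W : Weak (ν * kap Λ ^ 2) (kap Λ) g univ a θ) (hm : mz → θ 0 0 = 0) :
    ∃ z : ℝ → St Λ, WeakSol Λ ν g mz univ z ∧ ∀ t, am Λ (z t) = a t ∧ tm Λ (z t) = θ t := by
  obtain ⟨z, h1, h2⟩ := W.trig hΛ ordConnected_univ nb_univ (mz := mz) (fun h t _ => by
    rcases le_total 0 t with h0 | h0
    · rw [zero_mode W.int (mem_univ 0) (mem_univ t) h0]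
      exact hm h
    · rw [← zero_mode W.int (mem_univ t) (mem_univ 0) h0]
      exact hm h)
  exact ⟨z, h1.weakSol hΛ ordConnected_univ, fun t => h2 t (mem_univ t)⟩

/-- Existence of weak solutions for regular data. -/
theorem wp_exists (hΛ : 0 < Λ) (hν : 0 < ν) {x : St Λ} (hx : x ∈ phase Λ mz)
    (hg : gradSq Λ x ≠ ∞) : ∃ z : ℝ → St Λ, WeakSol Λ ν g mz (Ici 0) z ∧ z 0 = x := by
  have hκ := kap_pos hΛ
  have hν1 : 0 < ν * kap Λ ^ 2 := by positivity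
  set R : ℝ := (gradSq Λ x).toReal with hR
  have hR0 : 0 ≤ R := ENNReal.toReal_nonneg
  have hRx : gradSq Λ x ≤ ENNReal.ofReal R := by rw [hR, ENNReal.ofReal_toReal hg]
  have hb := data_bound hΛ hx hRx
  set M0 : ℝ := ‖x.2.2‖ ^ 2 / Λ ^ 2 with hM0
  have hM00 : 0 ≤ M0 := by positivity
  set M1 : ℝ := R / (Λ ^ 2 * kap Λ ^ 2) + g ^ 2 * M0 / (ν * kap Λ ^ 2) ^ 2 with hM1
  have h2 : 0 ≤ g ^ 2 * M0 / (ν * kap Λ ^ 2) ^ 2 := by positivity
  have h3 : 0 ≤ R / (Λ ^ 2 * kap Λ ^ 2) := by positivity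
  have hM10 : 0 ≤ M1 := by positivity
  have hM : g ^ 2 * M0 ≤ (ν * kap Λ ^ 2) ^ 2 * M1 := by
    have e : (ν * kap Λ ^ 2) ^ 2 * (g ^ 2 * M0 / (ν * kap Λ ^ 2) ^ 2) = g ^ 2 * M0 := by field_simp
    rw [hM1, mul_add, e]
    have : 0 ≤ (ν * kap Λ ^ 2) ^ 2 * (R / (Λ ^ 2 * kap Λ ^ 2)) := by positivity
    linarith
  obtain ⟨a, θ, ha, hθ, I, C⟩ := exist_strong (κ := kap Λ) hν1 hM00 hM10 hM (am_sym x) (tm_sym x)
    (am_zero x) (hb.trans (ENNReal.ofReal_le_ofReal (by rw [hM1]; linarith)))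
    (by rw [L_tm hΛ x])
  have W := Cls.weak ordConnected_Ici I C
  obtain ⟨z, hz, hzm⟩ := realize_Ici (mz := mz) hΛ W (fun h => by
    rw [hθ]
    exact hx.2.2.2 h)
  refine ⟨z, hz, ?_⟩
  obtain ⟨e1, e2⟩ := hzm 0 self_mem_Ici
  exact St_ext hΛ (hz.mem 0 self_mem_Ici) hx (by rw [e1, ha]) (by rw [e2, hθ])

/-- Uniqueness of weak solutions for regular data. -/
theorem wp_unique (hΛ : 0 < Λ) (hν : 0 < ν) {z z' : ℝ → St Λ}
    (H : WeakSol Λ ν g mz (Ici 0) z) (H' : WeakSol Λ ν g mz (Ici 0) z') (h0 : z 0 = z' 0)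
    (hg : gradSq Λ (z 0) ≠ ∞) : ∀ t, 0 ≤ t → z t = z' t := by
  have hκ := kap_pos hΛ
  have hν1 : 0 < ν * kap Λ ^ 2 := by positivity
  have hx := H.mem 0 self_mem_Ici
  have W := (H.trig hΛ).weak hΛ ordConnected_Ici
  have W' := (H'.trig hΛ).weak hΛ ordConnected_Ici
  have hfin : L (fun k => nsq k * ‖am Λ (z 0) k‖ ^ 2) ≠ ∞ := by
    have hR : gradSq Λ (z 0) ≤ ENNReal.ofReal (gradSq Λ (z 0)).toReal := by
      rw [ENNReal.ofReal_toReal hg]
    exact ofReal_ne (data_bound hΛ hx hR)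
  intro t ht
  obtain ⟨e1, e2⟩ := weak_unique hν1 W W' hfin (by rw [L_tm hΛ]; exact ENNReal.ofReal_ne_top)
    (by rw [h0]) (by rw [h0]) t ht
  exact St_ext hΛ (H.mem t ht) (H'.mem t ht) e1 e2

/-- `𝒜 ⊆ ⋃ ω(B̃_r)`. -/
theorem sub_omega (hΛ : 0 < Λ) (hν : 0 < ν) (hg : 0 < g) {x : St Λ}
    (hx : x ∈ attractor Λ ν g mz) :
    ∃ r : ℝ, 0 ≤ r ∧ x ∈ omegaSet Λ ν g mz (Btilde Λ ν g mz r) := by
  have hκ := kap_pos hΛ
  have hν1 : 0 < ν * kap Λ ^ 2 := by positivity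
  obtain ⟨z, H, hz0, B, hB⟩ := hx
  have W := (H.trig hΛ).weak hΛ ordConnected_univ
  set M : ℝ := 2 * B ^ 2 / Λ ^ 2 + 1 with hM
  have hM1 : 1 ≤ M := by
    rw [hM]
    have : 0 ≤ 2 * B ^ 2 / Λ ^ 2 := by positivity
    linarith
  have hM0 : 0 ≤ M := by linarith
  have hbd : ∀ t, L (fun k => ‖am Λ (z t) k‖ ^ 2) ≤ ENNReal.ofReal M ∧
      L (fun k => ‖tm Λ (z t) k‖ ^ 2) ≤ ENNReal.ofReal M := by
    intro t
    obtain ⟨h1, h2⟩ := am_bound hΛ (H.mem t (mem_univ t)) (hB t)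
    have h3 : ENNReal.ofReal (2 * B ^ 2 / Λ ^ 2) ≤ ENNReal.ofReal M :=
      ENNReal.ofReal_le_ofReal (by rw [hM]; linarith)
    exact ⟨h1.trans h3, h2.trans h3⟩
  set Cn : ℝ := M / (ν * kap Λ ^ 2) * (1 + 8 * g ^ 2 / (ν * kap Λ ^ 2)) with hCn
  have hCn0 : 0 ≤ Cn := by positivity
  set r : ℝ := √(Λ ^ 2 * M + Cn * (ν * kap Λ ^ 2) ^ 2 * (Λ ^ 2 * kap Λ ^ 2) / (4 * g ^ 2)) with hr
  have hr0 : 0 ≤ r := Real.sqrt_nonneg _
  have hq0 : 0 ≤ Cn * (ν * kap Λ ^ 2) ^ 2 * (Λ ^ 2 * kap Λ ^ 2) / (4 * g ^ 2) := by positivity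
  have hr2 : r ^ 2 = Λ ^ 2 * M + Cn * (ν * kap Λ ^ 2) ^ 2 * (Λ ^ 2 * kap Λ ^ 2) / (4 * g ^ 2) :=
    Real.sq_sqrt (by positivity)
  have hMr : M ≤ r ^ 2 / Λ ^ 2 := by
    rw [le_div_iff₀ (by positivity), hr2]
    linarith
  have hCr : Cn ≤ Rad Λ ν g r ^ 2 / (Λ ^ 2 * kap Λ ^ 2) := by
    rw [le_div_iff₀ (const_pos hΛ)]
    have e : Rad Λ ν g r ^ 2 = 4 * g ^ 2 / (ν * kap Λ ^ 2) ^ 2 * r ^ 2 := by
      unfold Rad
      field_simp
      ring
    rw [e, hr2, mul_add]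
    have e2 : 4 * g ^ 2 / (ν * kap Λ ^ 2) ^ 2 *
        (Cn * (ν * kap Λ ^ 2) ^ 2 * (Λ ^ 2 * kap Λ ^ 2) / (4 * g ^ 2)) =
        Cn * (Λ ^ 2 * kap Λ ^ 2) := by
      field_simp
    rw [e2]
    have : 0 ≤ 4 * g ^ 2 / (ν * kap Λ ^ 2) ^ 2 * (Λ ^ 2 * M) := by positivity
    linarith
  refine ⟨r, hr0, ?_⟩
  intro τ hτ
  obtain ⟨T, hT, aj, θj, Wj, ca, cθ, c0, ta, tθ, B', Cj⟩ := core_sub (θ := fun t => tm Λ (z t))
    (M0 := r ^ 2 / Λ ^ 2) (C := Rad Λ ν g r ^ 2 / (Λ ^ 2 * kap Λ ^ 2)) hν1 hM1 W hbd hMr hCr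
    (⌊τ⌋₊ + 1)
  have hTτ : τ < T := by
    have h1 := Nat.lt_floor_add_one τ
    push_cast at hT
    linarith
  have hT0 : 0 ≤ T := hτ.trans hTτ.le
  choose zj Hj hzj using fun j => realize_Ici (mz := mz) hΛ (Wj j) (fun h => by
    rw [c0 j]
    exact (H.mem 0 (mem_univ 0)).2.2.2 h)
  have hmem : ∀ j, zj j T ∈ orbits Λ ν g mz (Btilde Λ ν g mz r) τ := by
    intro j
    refine ⟨zj j, Hj j, ⟨(Hj j).mem 0 self_mem_Ici, ?_, ?_⟩, T, hTτ, rfl⟩
    · have h1 := cθ j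
      rw [← (hzj j 0 self_mem_Ici).2, L_tm hΛ] at h1
      have h2 : ‖(zj j 0).2.2‖ ^ 2 / Λ ^ 2 = r ^ 2 / Λ ^ 2 := by
        have h3 := congrArg ENNReal.toReal h1
        rwa [ENNReal.toReal_ofReal (by positivity), ENNReal.toReal_ofReal (by positivity)] at h3
      have h4 : ‖(zj j 0).2.2‖ ^ 2 = r ^ 2 := by
        field_simp at h2
        exact h2
      exact (pow_left_inj₀ (norm_nonneg _) hr0 two_ne_zero).mp h4
    · apply data_bound' hΛ ((Hj j).mem 0 self_mem_Ici)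
      rw [(hzj j 0 self_mem_Ici).1]
      exact ca j
  have hzT : ∀ j, am Λ (zj j T) = aj j T ∧ tm Λ (zj j T) = θj j T := fun j => hzj j T hT0
  have hbT : ∀ j, ‖zj j T‖ ≤ Λ * √(max (max (r ^ 2 / Λ ^ 2) B') 0) := by
    intro j
    apply state_bound hΛ ((Hj j).mem T hT0) (le_max_right _ _)
    · rw [(hzT j).1]
      refine ((Cj j).ba' hT0).trans (ENNReal.ofReal_le_ofReal ?_)
      exact (le_max_right _ _).trans (le_max_left _ _)
    · rw [(hzT j).2]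
      refine ((Cj j).bt T hT0).trans (ENNReal.ofReal_le_ofReal ?_)
      exact (le_max_left _ _).trans (le_max_left _ _)
  have hx : x ∈ phase Λ mz := by rw [← hz0]; exact H.mem 0 (mem_univ 0)
  have hconv : Tendsto (fun j => toWeakSpace ℝ (St Λ) (zj j T)) atTop
      (𝓝 (toWeakSpace ℝ (St Λ) x)) := by
    apply weak_tendsto
    intro φ
    apply tendsto_St hΛ (Eventually.of_forall hbT)
    · intro k
      have e : ∀ j, fc Λ (zj j T).1 k = Complex.I * aj j T k * (-(k 1 : ℂ)) / (nrm k : ℂ) := by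
        intro j
        rw [fc1 ((Hj j).mem T hT0), (hzT j).1]
      simp only [e]
      rw [fc1 hx, ← hz0]
      exact ((tendsto_const_nhds.mul (ta k)).mul tendsto_const_nhds).div_const _
    · intro k
      have e : ∀ j, fc Λ (zj j T).2.1 k = Complex.I * aj j T k * (k 0 : ℂ) / (nrm k : ℂ) := by
        intro j
        rw [fc2 ((Hj j).mem T hT0), (hzT j).1]
      simp only [e]
      rw [fc2 hx, ← hz0]
      exact ((tendsto_const_nhds.mul (ta k)).mul tendsto_const_nhds).div_const _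
    · intro k
      have e : ∀ j, fc Λ (zj j T).2.2 k = θj j T k := fun j => congrFun (hzT j).2 k
      simp only [e]
      rw [← hz0]
      exact tθ k
  exact mem_closure_of_tendsto hconv (Eventually.of_forall fun j => mem_image_of_mem _ (hmem j))

/-- `ω(B̃_r) ⊆ 𝒜`. -/
theorem omega_sub (hΛ : 0 < Λ) (hν : 0 < ν) {y : St Λ} {r : ℝ}
    (hy : y ∈ omegaSet Λ ν g mz (Btilde Λ ν g mz r)) : y ∈ attractor Λ ν g mz := by
  have hκ := kap_pos hΛ
  have hν1 : 0 < ν * kap Λ ^ 2 := by positivity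
  obtain ⟨w, hw, hconv⟩ := weak_seq (y := y)
    (S := fun n : ℕ => orbits Λ ν g mz (Btilde Λ ν g mz r) n)
    (fun k i => ![(fcL hΛ k).comp (fstL Λ), (fcL hΛ k).comp (sndL Λ), (fcL hΛ k).comp (thdL Λ)] i)
    (fun n => hy n (Nat.cast_nonneg n))
  have c1 : ∀ k, Tendsto (fun n => fc Λ (w n).1 k) atTop (𝓝 (fc Λ y.1 k)) := fun k => hconv k 0
  have c2 : ∀ k, Tendsto (fun n => fc Λ (w n).2.1 k) atTop (𝓝 (fc Λ y.2.1 k)) := fun k => hconv k 1
  have c3 : ∀ k, Tendsto (fun n => fc Λ (w n).2.2 k) atTop (𝓝 (fc Λ y.2.2 k)) := fun k => hconv k 2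
  choose z H hz0 t ht hzt using hw
  have ht0 : ∀ n, 0 ≤ t n := fun n => (Nat.cast_nonneg n).trans (ht n).le
  have hwm : ∀ n, w n ∈ phase Λ mz := by
    intro n
    rw [← hzt n]
    exact (H n).mem (t n) (ht0 n)
  have hyp : y ∈ phase Λ mz := by
    refine ⟨?_, ?_, ?_, ?_⟩
    · refine tendsto_nhds_unique (c1 0) (tendsto_const_nhds.congr fun n => ?_)
      exact (hwm n).1.symm
    · refine tendsto_nhds_unique (c2 0) (tendsto_const_nhds.congr fun n => ?_)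
      exact (hwm n).2.1.symm
    · intro k
      refine tendsto_nhds_unique (((tendsto_const_nhds (x := (k 0 : ℂ))).mul (c1 k)).add
        ((tendsto_const_nhds (x := (k 1 : ℂ))).mul (c2 k))) (tendsto_const_nhds.congr fun n => ?_)
      exact ((hwm n).2.2.1 k).symm
    · intro h
      refine tendsto_nhds_unique (c3 0) (tendsto_const_nhds.congr fun n => ?_)
      exact ((hwm n).2.2.2 h).symm
  have ca : ∀ k, Tendsto (fun n => am Λ (w n) k) atTop (𝓝 (am Λ y k)) := by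
    intro k
    unfold am
    exact ((tendsto_const_nhds.mul ((tendsto_const_nhds.mul (c1 k)).add
      (tendsto_const_nhds.mul (c2 k)))).div_const _)
  set M0 : ℝ := r ^ 2 / Λ ^ 2 with hM0
  have hM00 : 0 ≤ M0 := by positivity
  set R1 : ℝ := Rad Λ ν g r ^ 2 / (Λ ^ 2 * kap Λ ^ 2) with hR1
  have hR10 : 0 ≤ R1 := by positivity
  set M1 : ℝ := R1 + g ^ 2 * M0 / (ν * kap Λ ^ 2) ^ 2 with hM1
  have h2 : 0 ≤ g ^ 2 * M0 / (ν * kap Λ ^ 2) ^ 2 := by positivity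
  have hM10 : 0 ≤ M1 := by positivity
  have hM : g ^ 2 * M0 ≤ (ν * kap Λ ^ 2) ^ 2 * M1 := by
    have e : (ν * kap Λ ^ 2) ^ 2 * (g ^ 2 * M0 / (ν * kap Λ ^ 2) ^ 2) = g ^ 2 * M0 := by field_simp
    rw [hM1, mul_add, e]
    have : 0 ≤ (ν * kap Λ ^ 2) ^ 2 * R1 := by positivity
    linarith
  obtain ⟨a, θ, ha, hθ, I, C⟩ := core_sup (κ := kap Λ) hν1 hM00 hM10 hM
    (an := fun n t => am Λ (z n t)) (θn := fun n t => tm Λ (z n t)) (tn := t)
    (fun n => (ht n).le) (fun n => ((H n).trig hΛ).weak hΛ ordConnected_Ici)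
    (fun n => (data_bound hΛ ((H n).mem 0 self_mem_Ici) (hz0 n).2.2).trans
      (ENNReal.ofReal_le_ofReal (by rw [hM1]; linarith)))
    (fun n => by
      rw [L_tm hΛ, (hz0 n).2.1])
    (y := am Λ y) (η := tm Λ y)
    (fun k => by simpa only [hzt] using ca k)
    (fun k => by simpa only [hzt, tm] using c3 k)
  have W := Cls.weak ordConnected_univ I C
  obtain ⟨Z, hZ, hZm⟩ := realize_univ (mz := mz) hΛ W (fun h => by
    rw [hθ]
    exact hyp.2.2.2 h)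
  refine ⟨Z, hZ, ?_, Λ * √(max (max M0 M1) 0), ?_⟩
  · obtain ⟨e1, e2⟩ := hZm 0
    exact St_ext hΛ (hZ.mem 0 (mem_univ 0)) hyp (by rw [e1, ha]) (by rw [e2, hθ])
  · intro s
    apply state_bound hΛ (hZ.mem s (mem_univ s)) (le_max_right _ _)
    · rw [(hZm s).1]
      refine (C.ba' (mem_univ s)).trans (ENNReal.ofReal_le_ofReal ?_)
      exact (le_max_right _ _).trans (le_max_left _ _)
    · rw [(hZm s).2]
      refine (C.bt s (mem_univ s)).trans (ENNReal.ofReal_le_ofReal ?_)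
      exact (le_max_left _ _).trans (le_max_left _ _)

/-- The solution operator exists. -/
theorem exists_solOp (hΛ : 0 < Λ) (hν : 0 < ν) (g : ℝ) (mz : Prop) :
    ∃ S : ℝ → St Λ → St Λ, SolOp Λ ν g mz S := by
  classical
  refine ⟨fun t x => if h : ∃ z : ℝ → St Λ, WeakSol Λ ν g mz (Ici 0) z ∧ z 0 = x then
    h.choose t else x, ?_⟩
  intro x hx hgx z
  have h := wp_exists (g := g) hΛ hν hx hgx
  simp only [dif_pos h]
  obtain ⟨h1, h2⟩ := h.choose_spec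
  constructor
  · rintro ⟨h3, h4⟩ t ht
    exact wp_unique hΛ hν h3 h1 (by rw [h4, h2]) (by rw [h4]; exact hgx) t ht
  · intro h3
    refine ⟨?_, ?_⟩
    · have e : EqOn z h.choose (Ici 0) := fun t ht => h3 t ht
      refine ⟨?_, ?_, ?_, ?_, ?_, ?_⟩
      · intro t ht
        rw [e ht]
        exact h1.mem t ht
      · intro l
        exact (h1.cont l).congr fun t ht => by simp only [e ht]
      · intro s hs t ht
        obtain ⟨M, hM⟩ := h1.bdd s hs t ht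
        refine ⟨M, fun τ hτ => ?_⟩
        have hτ' : τ ∈ Ici (0 : ℝ) := (mem_Ici.mp hs).trans hτ.1
        rw [e hτ']
        exact hM τ hτ
      · intro s hs t ht
        have e2 : ∫⁻ τ in Icc s t, gradSq Λ (z τ) = ∫⁻ τ in Icc s t, gradSq Λ (h.choose τ) := by
          apply setLIntegral_congr_fun measurableSet_Icc
          intro τ hτ
          have hτ' : τ ∈ Ici (0 : ℝ) := (mem_Ici.mp hs).trans hτ.1
          simp only [e hτ']
        rw [e2]
        exact h1.diss s hs t ht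
      · intro v w hvw s hs t ht hst
        rw [e hs, e ht, h1.mom v w hvw s hs t ht hst]
        apply intervalIntegral.integral_congr
        intro τ hτ
        rw [uIcc_of_le hst] at hτ
        have hτ' : τ ∈ Ici (0 : ℝ) := (mem_Ici.mp hs).trans hτ.1
        simp only [e hτ']
      · intro φ hφ s hs t ht hst
        rw [e hs, e ht, h1.temp φ hφ s hs t ht hst]
        apply intervalIntegral.integral_congr
        intro τ hτ
        rw [uIcc_of_le hst] at hτ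
        have hτ' : τ ∈ Ici (0 : ℝ) := (mem_Ici.mp hs).trans hτ.1
        simp only [e hτ']
    · rw [h3 0 le_rfl, h2]

lemma omega_eq {S : ℝ → St Λ → St Λ} (hS : SolOp Λ ν g mz S) (r : ℝ) :
    omegaLim Λ S (Btilde Λ ν g mz r) = omegaSet Λ ν g mz (Btilde Λ ν g mz r) := by
  have hset : ∀ τ, 0 ≤ τ → {w | ∃ x ∈ Btilde Λ ν g mz r, ∃ t > τ, S t x = w} =
      orbits Λ ν g mz (Btilde Λ ν g mz r) τ := by
    intro τ hτ
    ext w
    constructor
    · rintro ⟨x, hx, t, ht, rfl⟩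
      have hfin : gradSq Λ x ≠ ⊤ := ofReal_ne hx.2.2
      obtain ⟨h1, h2⟩ := (hS x hx.1 hfin (fun t => S t x)).mpr (fun t _ => rfl)
      exact ⟨fun t => S t x, h1, by change S 0 x ∈ _; rw [h2]; exact hx, t, ht, rfl⟩
    · rintro ⟨z, hz, hz0, t, ht, rfl⟩
      have hfin : gradSq Λ (z 0) ≠ ⊤ := ofReal_ne hz0.2.2
      have := (hS (z 0) hz0.1 hfin z).mp ⟨hz, rfl⟩ t (hτ.trans ht.le)
      exact ⟨z 0, hz0, t, ht, this.symm⟩
  unfold omegaLim omegaSet
  ext y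
  simp only [mem_iInter, mem_Ici, mem_ofPred_eq, mem_wkClosure_iff]
  constructor
  · intro h τ hτ
    have := h τ hτ
    rwa [hset τ hτ] at this
  · intro h τ hτ
    have := h τ hτ
    rwa [← hset τ hτ] at this

/-- Main theorem. -/
theorem main (hΛ : 0 < Λ) (hν : 0 < ν) (hg : 0 < g) (mz : Prop) :
    ∃ S : ℝ → St Λ → St Λ, SolOp Λ ν g mz S ∧
      attractor Λ ν g mz = ⋃ r ∈ Ici (0 : ℝ), omegaLim Λ S (Btilde Λ ν g mz r) := by
  obtain ⟨S, hS⟩ := exists_solOp hΛ hν g mz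
  refine ⟨S, hS, ?_⟩
  ext x
  simp only [mem_iUnion, mem_Ici, exists_prop]
  constructor
  · intro hx
    obtain ⟨r, hr, h⟩ := sub_omega hΛ hν hg hx
    exact ⟨r, hr, by rw [omega_eq hS]; exact h⟩
  · rintro ⟨r, _, h⟩
    rw [omega_eq hS] at h
    exact omega_sub hΛ hν h

end

end Pancake
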