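import Pool.Agent.Pancake.Transfer3
import Pool.Agent.Pancake.Core

/-!
# MP_771030_an: from states to sequences of Fourier modes
-/

namespace Pancake

open Set Filter Topology MeasureTheory
open scoped ENNReal NNReal ComplexConjugate Real

noncomputable section

variable {Λ : ℝ}

/-- Velocity modes. -/
def am (Λ : ℝ) (x : St Λ) (k : K) : ℂ :=
  -Complex.I * (-(k 1 : ℂ) * fc Λ x.1 k + (k 0 : ℂ) * fc Λ x.2.1 k) / (nrm k : ℂ)

/-- Temperature modes. -/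
def tm (Λ : ℝ) (x : St Λ) (k : K) : ℂ := fc Λ x.2.2 k

lemma am_zero (x : St Λ) : am Λ x 0 = 0 := by simp [am]

lemma kap_pos (hΛ : 0 < Λ) : 0 < kap Λ := by unfold kap; positivity

lemma am_sym (x : St Λ) : Sym (am Λ x) := by
  intro k
  unfold am
  rw [fc_sym x.1 k, fc_sym x.2.1 k, nrm_neg]
  simp only [map_div₀, map_mul, map_add, map_neg, Complex.conj_I, Complex.conj_ofReal,
    Pi.neg_apply, Int.cast_neg, map_intCast]
  ring

lemma tm_sym (x : St Λ) : Sym (tm Λ x) := fc_sym x.2.2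

lemma nrm_sq' (k : K) : (nrm k : ℂ) ^ 2 = (k 0 : ℂ) ^ 2 + (k 1 : ℂ) ^ 2 := by
  rw [← Complex.ofReal_pow, nrm_sq, nsq]
  push_cast
  ring

lemma nrm_ne (k : K) (hk : k ≠ 0) : (nrm k : ℂ) ≠ 0 := by
  rw [Ne, Complex.ofReal_eq_zero]
  exact (nrm_pos hk).ne'

variable {mz : Prop} {x : St Λ}

lemma fc1 (hx : x ∈ phase Λ mz) (k : K) :
    fc Λ x.1 k = Complex.I * am Λ x k * (-(k 1 : ℂ)) / (nrm k : ℂ) := by
  obtain ⟨h1, h2, h3, h4⟩ := hx
  by_cases hk : k = 0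
  · subst hk; simp [h1, am]
  have hn := nrm_ne k hk
  have hd := h3 k
  have hsq := nrm_sq' k
  unfold am
  have hI := Complex.I_sq
  field_simp
  rw [hsq]
  have e : (k 0 : ℂ) * (k 0 : ℂ) * fc Λ x.1 k + (k 0 : ℂ) * (k 1 : ℂ) * fc Λ x.2.1 k = 0 := by
    have : (k 0 : ℂ) * ((k 0 : ℂ) * fc Λ x.1 k + (k 1 : ℂ) * fc Λ x.2.1 k) = 0 := by
      rw [hd, mul_zero]
    linear_combination this
  linear_combination e + ((k 1 : ℂ) * fc Λ x.1 k - (k 0 : ℂ) * fc Λ x.2.1 k) * (k 1 : ℂ) * hI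

lemma fc2 (hx : x ∈ phase Λ mz) (k : K) :
    fc Λ x.2.1 k = Complex.I * am Λ x k * (k 0 : ℂ) / (nrm k : ℂ) := by
  obtain ⟨h1, h2, h3, h4⟩ := hx
  by_cases hk : k = 0
  · subst hk; simp [h2, am]
  have hn := nrm_ne k hk
  have hd := h3 k
  have hsq := nrm_sq' k
  unfold am
  have hI := Complex.I_sq
  field_simp
  rw [hsq]
  have e : (k 1 : ℂ) * (k 0 : ℂ) * fc Λ x.1 k + (k 1 : ℂ) * (k 1 : ℂ) * fc Λ x.2.1 k = 0 := by
    have : (k 1 : ℂ) * ((k 0 : ℂ) * fc Λ x.1 k + (k 1 : ℂ) * fc Λ x.2.1 k) = 0 := by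
      rw [hd, mul_zero]
    linear_combination this
  linear_combination e + ((k 0 : ℂ) * fc Λ x.2.1 k - (k 1 : ℂ) * fc Λ x.1 k) * (k 0 : ℂ) * hI

lemma norm_fc1 (hx : x ∈ phase Λ mz) (k : K) (_ : k ≠ 0) :
    ‖fc Λ x.1 k‖ ^ 2 = ‖am Λ x k‖ ^ 2 * (k 1 : ℝ) ^ 2 / nsq k := by
  rw [fc1 hx k, norm_div, norm_mul, norm_mul, Complex.norm_I, norm_neg, Complex.norm_real,
    Real.norm_eq_abs, abs_of_nonneg (nrm_nonneg k), div_pow, nrm_sq]
  congr 1
  rw [one_mul, mul_pow]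
  congr 1
  rw [← Complex.ofReal_intCast, Complex.norm_real, Real.norm_eq_abs, sq_abs]

lemma norm_fc2 (hx : x ∈ phase Λ mz) (k : K) (_ : k ≠ 0) :
    ‖fc Λ x.2.1 k‖ ^ 2 = ‖am Λ x k‖ ^ 2 * (k 0 : ℝ) ^ 2 / nsq k := by
  rw [fc2 hx k, norm_div, norm_mul, norm_mul, Complex.norm_I, Complex.norm_real,
    Real.norm_eq_abs, abs_of_nonneg (nrm_nonneg k), div_pow, nrm_sq]
  congr 1
  rw [one_mul, mul_pow]
  congr 1
  rw [← Complex.ofReal_intCast, Complex.norm_real, Real.norm_eq_abs, sq_abs]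

lemma norm_fc (hx : x ∈ phase Λ mz) (k : K) :
    ‖fc Λ x.1 k‖ ^ 2 + ‖fc Λ x.2.1 k‖ ^ 2 = ‖am Λ x k‖ ^ 2 := by
  by_cases hk : k = 0
  · subst hk
    rw [hx.1, hx.2.1, am_zero]; simp
  rw [norm_fc1 hx k hk, norm_fc2 hx k hk]
  have h := (nsq_pos hk).ne'
  field_simp
  unfold nsq
  ring

lemma L_am (hΛ : 0 < Λ) (hx : x ∈ phase Λ mz) :
    L (fun k => ‖am Λ x k‖ ^ 2) = ENNReal.ofReal ((‖x.1‖ ^ 2 + ‖x.2.1‖ ^ 2) / Λ ^ 2) := by
  have h := (hasSum_fc hΛ x.1).add (hasSum_fc hΛ x.2.1)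
  have e : (fun k => ‖fc Λ x.1 k‖ ^ 2 + ‖fc Λ x.2.1 k‖ ^ 2) = fun k => ‖am Λ x k‖ ^ 2 :=
    funext fun k => norm_fc hx k
  rw [e] at h
  unfold L
  rw [← ENNReal.ofReal_tsum_of_nonneg (fun k => by positivity) h.summable, h.tsum_eq, add_div]

lemma L_tm (hΛ : 0 < Λ) (x : St Λ) :
    L (fun k => ‖tm Λ x k‖ ^ 2) = ENNReal.ofReal (‖x.2.2‖ ^ 2 / Λ ^ 2) := by
  have h := hasSum_fc hΛ x.2.2
  unfold L tm
  rw [← ENNReal.ofReal_tsum_of_nonneg (fun k => by positivity) h.summable, h.tsum_eq]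

lemma gradSq_eq (hΛ : 0 < Λ) (hx : x ∈ phase Λ mz) :
    gradSq Λ x = ENNReal.ofReal (Λ ^ 2 * kap Λ ^ 2) * L (fun k => nsq k * ‖am Λ x k‖ ^ 2) := by
  have hκ := kap_pos hΛ
  unfold gradSq L
  rw [← ENNReal.tsum_mul_left]
  apply tsum_congr
  intro k
  rw [norm_fc hx k, ← ENNReal.ofReal_mul (by positivity)]
  congr 1
  unfold nsq
  ring

/-! ### Realization -/

lemma nrm_sq_div (k : K) (hk : k ≠ 0) (z : ℂ) : z * (nrm k : ℂ) ^ 2 / (nrm k : ℂ) ^ 2 = z := by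
  have := nrm_ne k hk
  field_simp

lemma exists_state (hΛ : 0 < Λ) {mz : Prop} {a θ : K → ℂ} (ha : Sym a) (hθ : Sym θ) (h0 : a 0 = 0)
    (hsa : L (fun k => ‖a k‖ ^ 2) ≠ ∞) (hsθ : L (fun k => ‖θ k‖ ^ 2) ≠ ∞) (hmz : mz → θ 0 = 0) :
    ∃ x : St Λ, x ∈ phase Λ mz ∧ am Λ x = a ∧ tm Λ x = θ := by
  have sa := summable_of_L (fun k => by positivity) hsa
  have sθ := summable_of_L (fun k => by positivity) hsθ
  have hb : ∀ (k : K) (i : Fin 2), |(k i : ℝ)| ≤ nrm k := by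
    intro k i
    unfold nrm nsq
    apply Real.abs_le_sqrt
    fin_cases i
    · simp only [Fin.zero_eta, Fin.isValue]; nlinarith [sq_nonneg (k 1 : ℝ)]
    · simp only [Fin.mk_one, Fin.isValue]; nlinarith [sq_nonneg (k 0 : ℝ)]
  have hb2 : ∀ (k : K) (i : Fin 2), ‖Complex.I * a k * (k i : ℂ) / (nrm k : ℂ)‖ ≤ ‖a k‖ := by
    intro k i
    rw [norm_div, norm_mul, norm_mul, Complex.norm_I, one_mul, Complex.norm_real, Real.norm_eq_abs,
      abs_of_nonneg (nrm_nonneg k), ← Complex.ofReal_intCast, Complex.norm_real, Real.norm_eq_abs]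
    apply div_le_of_le_mul₀ (nrm_nonneg k) (norm_nonneg _)
    have := hb k i
    gcongr
  have s1 : Summable fun k => ‖Complex.I * a k * (-(k 1 : ℂ)) / (nrm k : ℂ)‖ ^ 2 := by
    refine Summable.of_nonneg_of_le (fun k => by positivity) (fun k => ?_) sa
    have := hb2 k 1
    have e : ‖Complex.I * a k * (-(k 1 : ℂ)) / (nrm k : ℂ)‖ = ‖Complex.I * a k * (k 1 : ℂ) / (nrm k : ℂ)‖ := by
      rw [mul_neg, neg_div, norm_neg]
    rw [e]
    gcongr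
  have s2 : Summable fun k => ‖Complex.I * a k * (k 0 : ℂ) / (nrm k : ℂ)‖ ^ 2 := by
    refine Summable.of_nonneg_of_le (fun k => by positivity) (fun k => ?_) sa
    have := hb2 k 0
    gcongr
  have y1 : Sym fun k => Complex.I * a k * (-(k 1 : ℂ)) / (nrm k : ℂ) := by
    intro k
    simp only [ha k, nrm_neg, map_div₀, map_mul, map_neg, Complex.conj_I, Complex.conj_ofReal,
      Pi.neg_apply, Int.cast_neg, map_intCast]
    ring
  have y2 : Sym fun k => Complex.I * a k * (k 0 : ℂ) / (nrm k : ℂ) := by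
    intro k
    simp only [ha k, nrm_neg, map_div₀, map_mul, Complex.conj_I, Complex.conj_ofReal,
      Pi.neg_apply, Int.cast_neg, map_intCast]
    ring
  obtain ⟨f1, hf1⟩ := exists_E hΛ y1 s1
  obtain ⟨f2, hf2⟩ := exists_E hΛ y2 s2
  obtain ⟨f3, hf3⟩ := exists_E hΛ hθ sθ
  refine ⟨(f1, f2, f3), ⟨?_, ?_, ?_, ?_⟩, ?_, ?_⟩
  · simp only [hf1]; simp
  · simp only [hf2]; simp
  · intro k
    simp only [hf1, hf2]
    ring
  · intro h
    simp only [hf3]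
    exact hmz h
  · funext k
    unfold am
    simp only [hf1, hf2]
    by_cases hk : k = 0
    · subst hk; simp [h0]
    · have e : -Complex.I * (-(k 1 : ℂ) * (Complex.I * a k * (-(k 1 : ℂ)) / (nrm k : ℂ)) +
          (k 0 : ℂ) * (Complex.I * a k * (k 0 : ℂ) / (nrm k : ℂ))) / (nrm k : ℂ) =
          a k * (nrm k : ℂ) ^ 2 / (nrm k : ℂ) ^ 2 := by
        rw [nrm_sq']
        have hI := Complex.I_sq
        have hn := nrm_ne k hk
        rw [← nrm_sq']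
        field_simp
        rw [nrm_sq']
        linear_combination (-(a k) * ((k 0 : ℂ) ^ 2 + (k 1 : ℂ) ^ 2)) * hI
      rw [e, nrm_sq_div k hk]
  · funext k
    unfold tm
    simp only [hf3]

/-- States with the same modes are equal. -/
lemma St_ext (hΛ : 0 < Λ) {mz : Prop} {x y : St Λ} (hx : x ∈ phase Λ mz) (hy : y ∈ phase Λ mz)
    (h1 : am Λ x = am Λ y) (h2 : tm Λ x = tm Λ y) : x = y := by
  ext1
  · apply E_ext hΛ
    intro k
    rw [fc1 hx, fc1 hy, h1]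
  · ext1
    · apply E_ext hΛ
      intro k
      rw [fc2 hx, fc2 hy, h1]
    · apply E_ext hΛ
      intro k
      exact congrFun h2 k

end

end Pancake
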