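import Mathlib

/-!
# MP_771030_an: weighted sequences on the lattice of wave numbers and the basic trilinear estimate
-/

namespace Pancake

open Set Filter Topology
open scoped ENNReal NNReal

noncomputable section

/-- Wave numbers. -/
abbrev K := Fin 2 → ℤ

/-- `|k|^2`. -/
def nsq (k : K) : ℝ := (k 0 : ℝ) ^ 2 + (k 1 : ℝ) ^ 2

/-- `|k|`. -/
def nrm (k : K) : ℝ := √(nsq k)

/-- `k × h`. -/
def crs (k h : K) : ℝ := (k 0 : ℝ) * h 1 - (k 1 : ℝ) * h 0

/-- `k · h`. -/
def dot (k h : K) : ℝ := (k 0 : ℝ) * h 0 + (k 1 : ℝ) * h 1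

lemma nsq_nonneg (k : K) : 0 ≤ nsq k := by unfold nsq; positivity

@[simp] lemma nsq_zero : nsq 0 = 0 := by simp [nsq]

@[simp] lemma nsq_neg (k : K) : nsq (-k) = nsq k := by simp [nsq]

@[simp] lemma nrm_zero : nrm 0 = 0 := by simp [nrm]

@[simp] lemma nrm_neg (k : K) : nrm (-k) = nrm k := by simp [nrm]

lemma nrm_nonneg (k : K) : 0 ≤ nrm k := Real.sqrt_nonneg _

lemma nrm_sq (k : K) : nrm k ^ 2 = nsq k := Real.sq_sqrt (nsq_nonneg k)

lemma nrm_sub_comm (k h : K) : nrm (k - h) = nrm (h - k) := by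
  rw [← nrm_neg]; congr 1; abel

lemma one_le_nsq {k : K} (hk : k ≠ 0) : 1 ≤ nsq k := by
  have h : k 0 ≠ 0 ∨ k 1 ≠ 0 := by
    by_contra hcon
    push Not at hcon
    apply hk
    funext i
    fin_cases i
    · exact hcon.1
    · exact hcon.2
  have key : ∀ n : ℤ, n ≠ 0 → (1 : ℝ) ≤ (n : ℝ) ^ 2 := by
    intro n hn
    have : (1 : ℤ) ≤ n ^ 2 := by
      have := sq_pos_of_ne_zero hn
      omega
    exact_mod_cast this
  unfold nsq
  rcases h with h | h
  · nlinarith [key _ h, sq_nonneg (k 1 : ℝ)]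
  · nlinarith [key _ h, sq_nonneg (k 0 : ℝ)]

lemma nsq_pos {k : K} (hk : k ≠ 0) : 0 < nsq k := lt_of_lt_of_le one_pos (one_le_nsq hk)

lemma one_le_nrm {k : K} (hk : k ≠ 0) : 1 ≤ nrm k := by
  rw [nrm, Real.one_le_sqrt]; exact one_le_nsq hk

lemma nrm_pos {k : K} (hk : k ≠ 0) : 0 < nrm k := lt_of_lt_of_le one_pos (one_le_nrm hk)

lemma nrm_eq_zero {k : K} : nrm k = 0 ↔ k = 0 := by
  constructor
  · intro h
    by_contra hk
    exact absurd h (nrm_pos hk).ne'
  · rintro rfl; simp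

lemma lagrange (k h : K) : crs k h ^ 2 + dot k h ^ 2 = nsq k * nsq h := by
  unfold crs dot nsq; ring

lemma abs_crs_le (k h : K) : |crs k h| ≤ nrm k * nrm h := by
  have p := nrm_nonneg k
  have q := nrm_nonneg h
  refine abs_le_of_sq_le_sq ?_ (by positivity)
  have := lagrange k h
  rw [mul_pow, nrm_sq, nrm_sq]
  nlinarith [sq_nonneg (dot k h)]

lemma abs_dot_le (k h : K) : |dot k h| ≤ nrm k * nrm h := by
  have p := nrm_nonneg k
  have q := nrm_nonneg h
  refine abs_le_of_sq_le_sq ?_ (by positivity)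
  have := lagrange k h
  rw [mul_pow, nrm_sq, nrm_sq]
  nlinarith [sq_nonneg (crs k h)]

lemma nrm_add_le (k h : K) : nrm (k + h) ≤ nrm k + nrm h := by
  have h1 : nsq (k + h) = nsq k + nsq h + 2 * dot k h := by
    simp only [nsq, dot, Pi.add_apply, Int.cast_add]; ring
  rw [nrm, Real.sqrt_le_left (by have := nrm_nonneg k; have := nrm_nonneg h; positivity), h1]
  have := (abs_le.mp (abs_dot_le k h)).2
  nlinarith [nrm_sq k, nrm_sq h]

lemma crs_self (k : K) : crs k k = 0 := by unfold crs; ring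

lemma crs_swap (k h : K) : crs k h = - crs h k := by unfold crs; ring

lemma dot_comm (k h : K) : dot k h = dot h k := by unfold dot; ring

lemma crs_sub_left (k h : K) : crs (k - h) h = crs k h := by
  simp only [crs, Pi.sub_apply, Int.cast_sub]; ring

lemma crs_sub_right (k h : K) : crs k (k - h) = - crs k h := by
  simp only [crs, Pi.sub_apply, Int.cast_sub]; ring

@[simp] lemma crs_neg_neg (k h : K) : crs (-k) (-h) = crs k h := by
  simp only [crs, Pi.neg_apply, Int.cast_neg]; ring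

@[simp] lemma dot_neg_neg (k h : K) : dot (-k) (-h) = dot k h := by
  simp only [dot, Pi.neg_apply, Int.cast_neg]; ring

/-! ### Lattice sums -/

/-- The weight `R + |k|^2/R`. -/
def rho (R : ℝ) (k : K) : ℝ := R + nsq k / R

lemma rho_pos {R : ℝ} (hR : 1 ≤ R) (k : K) : 0 < rho R k := by
  have := nsq_nonneg k
  unfold rho; positivity

/-- Sum of a nonnegative function in `[0, ∞]`. -/
def L (f : K → ℝ) : ℝ≥0∞ := ∑' k, ENNReal.ofReal (f k)

lemma nat_sum_le {R : ℝ} (hR : 1 ≤ R) (n : ℕ) :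
    ∑ i ∈ Finset.range n, 1 / (R ^ 2 + ((i : ℝ) + 1) ^ 2) ≤ 2 / R := by
  have h : ∀ n : ℕ, ∑ i ∈ Finset.range n, 1 / (R ^ 2 + ((i : ℝ) + 1) ^ 2)
      ≤ 2 / R - 2 / (R + n) := by
    intro n
    induction n with
    | zero => simp
    | succ m ih =>
      rw [Finset.sum_range_succ]
      have h1 : 1 / (R ^ 2 + ((m : ℝ) + 1) ^ 2) ≤ 2 / (R + m) - 2 / (R + (m + 1)) := by
        have hm : (0 : ℝ) ≤ m := Nat.cast_nonneg m
        rw [div_sub_div _ _ (by positivity) (by positivity)]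
        rw [div_le_div_iff₀ (by positivity) (by positivity)]
        nlinarith [sq_nonneg (R - (m + 1))]
      push_cast
      linarith
  have h2 : (0 : ℝ) ≤ 2 / (R + n) := by positivity
  linarith [h n]

lemma int_sum_le {R : ℝ} (hR : 1 ≤ R) :
    ∑' x : ℤ, ENNReal.ofReal (1 / (R ^ 2 + (x : ℝ) ^ 2)) ≤ ENNReal.ofReal (5 / R) := by
  have hR0 : 0 < R := by linarith
  have e := tsum_of_nat_of_neg_add_one (f := fun x : ℤ => ENNReal.ofReal (1 / (R ^ 2 + (x : ℝ) ^ 2)))
    ENNReal.summable ENNReal.summable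
  have hneg : ∑' n : ℕ, ENNReal.ofReal (1 / (R ^ 2 + ((-((n : ℤ) + 1) : ℤ) : ℝ) ^ 2))
      ≤ ENNReal.ofReal (2 / R) := by
    apply ENNReal.tsum_le_of_sum_range_le
    intro n
    rw [← ENNReal.ofReal_sum_of_nonneg (fun i _ => by positivity)]
    apply ENNReal.ofReal_le_ofReal
    refine le_trans (le_of_eq ?_) (nat_sum_le hR n)
    apply Finset.sum_congr rfl
    intro i _
    push_cast
    ring_nf
  have hpos : ∑' n : ℕ, ENNReal.ofReal (1 / (R ^ 2 + (((n : ℕ) : ℤ) : ℝ) ^ 2))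
      ≤ ENNReal.ofReal (3 / R) := by
    apply ENNReal.tsum_le_of_sum_range_le
    intro n
    rw [← ENNReal.ofReal_sum_of_nonneg (fun i _ => by positivity)]
    apply ENNReal.ofReal_le_ofReal
    cases n with
    | zero => simp; positivity
    | succ m =>
      rw [Finset.sum_range_succ']
      have h0 : 1 / (R ^ 2 + ((((0 : ℕ) : ℤ) : ℝ)) ^ 2) ≤ 1 / R := by
        simp only [Nat.cast_zero, Int.cast_zero]
        apply one_div_le_one_div_of_le hR0
        nlinarith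
      have h1 := nat_sum_le hR m
      have h2 : ∑ k ∈ Finset.range m, 1 / (R ^ 2 + ((((k + 1 : ℕ) : ℤ) : ℝ)) ^ 2)
          = ∑ i ∈ Finset.range m, 1 / (R ^ 2 + ((i : ℝ) + 1) ^ 2) := by
        apply Finset.sum_congr rfl
        intro i _
        push_cast
        ring_nf
      rw [h2]
      have h3 : 3 / R = 2 / R + 1 / R := by ring
      linarith
  calc ∑' x : ℤ, ENNReal.ofReal (1 / (R ^ 2 + (x : ℝ) ^ 2))
      = _ := e
    _ ≤ ENNReal.ofReal (3 / R) + ENNReal.ofReal (2 / R) := add_le_add hpos hneg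
    _ = ENNReal.ofReal (5 / R) := by
        rw [← ENNReal.ofReal_add (by positivity) (by positivity)]
        congr 1; ring

lemma lattice_prod (f g : ℤ → ℝ≥0∞) :
    ∑' k : K, f (k 0) * g (k 1) = (∑' x, f x) * ∑' y, g y := by
  have h1 : ∑' k : K, f (k 0) * g (k 1) = ∑' p : ℤ × ℤ, f p.1 * g p.2 := by
    rw [← (finTwoArrowEquiv ℤ).tsum_eq (fun p : ℤ × ℤ => f p.1 * g p.2)]
    rfl
  rw [h1, ENNReal.tsum_prod (f := fun x y => f x * g y), ← ENNReal.tsum_mul_right]
  congr 1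
  funext x
  rw [ENNReal.tsum_mul_left]

lemma rho_sum {R : ℝ} (hR : 1 ≤ R) : L (fun k => 1 / rho R k ^ 2) ≤ 25 := by
  have hR0 : 0 < R := by linarith
  have h1 : L (fun k => 1 / rho R k ^ 2) ≤ ∑' k : K, ENNReal.ofReal (R ^ 2) *
      (ENNReal.ofReal (1 / (R ^ 2 + (k 0 : ℝ) ^ 2)) * ENNReal.ofReal (1 / (R ^ 2 + (k 1 : ℝ) ^ 2))) := by
    apply ENNReal.tsum_le_tsum
    intro k
    rw [← ENNReal.ofReal_mul (by positivity), ← ENNReal.ofReal_mul (by positivity)]
    apply ENNReal.ofReal_le_ofReal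
    have h2 : rho R k = (R ^ 2 + nsq k) / R := by unfold rho; field_simp
    simp only []
    have h3 : R ^ 2 * (1 / (R ^ 2 + (k 0 : ℝ) ^ 2) * (1 / (R ^ 2 + (k 1 : ℝ) ^ 2)))
        = R ^ 2 / ((R ^ 2 + (k 0 : ℝ) ^ 2) * (R ^ 2 + (k 1 : ℝ) ^ 2)) := by
      field_simp
    rw [h2, div_pow, one_div_div, h3]
    apply div_le_div_of_nonneg_left (by positivity) (by positivity)
    unfold nsq
    nlinarith [mul_nonneg (sq_nonneg (k 0 : ℝ)) (sq_nonneg (k 1 : ℝ)), sq_nonneg ((k 0 : ℝ)),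
      sq_nonneg ((k 1 : ℝ)), mul_nonneg (sq_nonneg R) (sq_nonneg (k 0 : ℝ)),
      mul_nonneg (sq_nonneg R) (sq_nonneg (k 1 : ℝ)), sq_nonneg ((k 0 : ℝ) ^ 2),
      sq_nonneg ((k 1 : ℝ) ^ 2)]
  refine h1.trans ?_
  rw [ENNReal.tsum_mul_left, lattice_prod
    (fun x => ENNReal.ofReal (1 / (R ^ 2 + (x : ℝ) ^ 2)))
    (fun x => ENNReal.ofReal (1 / (R ^ 2 + (x : ℝ) ^ 2)))]
  calc ENNReal.ofReal (R ^ 2) * ((∑' x : ℤ, ENNReal.ofReal (1 / (R ^ 2 + (x : ℝ) ^ 2))) *
        ∑' x : ℤ, ENNReal.ofReal (1 / (R ^ 2 + (x : ℝ) ^ 2)))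
      ≤ ENNReal.ofReal (R ^ 2) * (ENNReal.ofReal (5 / R) * ENNReal.ofReal (5 / R)) := by
        gcongr <;> exact int_sum_le hR
    _ = 25 := by
        rw [← ENNReal.ofReal_mul (by positivity), ← ENNReal.ofReal_mul (by positivity)]
        have : R ^ 2 * (5 / R * (5 / R)) = 25 := by field_simp; norm_num
        rw [this]
        norm_num

/-! ### The trilinear form -/

/-- `∑_{k, l} f_k g_{k-l} h_l` for nonnegative sequences. -/
def T (f g h : K → ℝ) : ℝ≥0∞ := ∑' k, ∑' l, ENNReal.ofReal (f k * g (k - l) * h l)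

lemma tsum_sub_left (k : K) (F : K → ℝ≥0∞) : ∑' l, F (k - l) = ∑' l, F l :=
  (Equiv.subLeft k).tsum_eq F

lemma tsum_sub_right (k : K) (F : K → ℝ≥0∞) : ∑' l, F (l - k) = ∑' l, F l :=
  (Equiv.subRight k).tsum_eq F

/-- swapping the last two arguments. -/
lemma T_swap (f g h : K → ℝ) : T f g h = T f h g := by
  unfold T
  congr 1
  funext k
  rw [← tsum_sub_left k]
  congr 1
  funext l
  rw [sub_sub_cancel]
  congr 1
  ring

/-- swapping the first and the last argument. -/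
lemma T_swap' (f g h : K → ℝ) : T f g h = T h (fun k => g (-k)) f := by
  unfold T
  rw [ENNReal.tsum_comm]
  congr 1
  funext l
  congr 1
  funext k
  simp only []
  rw [neg_sub]
  congr 1
  ring

lemma L_neg (f : K → ℝ) : L (fun k => f (-k)) = L f :=
  (Equiv.neg K).tsum_eq (fun k => ENNReal.ofReal (f k))

lemma L_mono {f g : K → ℝ} (h : ∀ k, f k ≤ g k) : L f ≤ L g :=
  ENNReal.tsum_le_tsum fun k => ENNReal.ofReal_le_ofReal (h k)

lemma L_mul_left {c : ℝ} (hc : 0 ≤ c) (f : K → ℝ) : L (fun k => c * f k) = ENNReal.ofReal c * L f := by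
  unfold L
  rw [← ENNReal.tsum_mul_left]
  congr 1
  funext k
  rw [ENNReal.ofReal_mul hc]

lemma L_add {f g : K → ℝ} (hf : ∀ k, 0 ≤ f k) (hg : ∀ k, 0 ≤ g k) :
    L (fun k => f k + g k) = L f + L g := by
  unfold L
  rw [← ENNReal.tsum_add]
  congr 1
  funext k
  rw [ENNReal.ofReal_add (hf k) (hg k)]

lemma T_mono {f g h f' g' h' : K → ℝ} (hf : ∀ k, 0 ≤ f k) (hg : ∀ k, 0 ≤ g k)
    (hh : ∀ k, 0 ≤ h k) (hff : ∀ k, f k ≤ f' k) (hgg : ∀ k, g k ≤ g' k) (hhh : ∀ k, h k ≤ h' k) :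
    T f g h ≤ T f' g' h' := by
  unfold T
  refine ENNReal.tsum_le_tsum fun k => ENNReal.tsum_le_tsum fun l => ENNReal.ofReal_le_ofReal ?_
  have := hff k; have := hgg (k - l); have := hhh l
  have := hf k; have := hg (k - l); have := hh l
  have h1 : 0 ≤ g' (k - l) := by linarith
  have h2 : 0 ≤ f' k := by linarith
  gcongr

lemma pt_amgm {a b c r s lam : ℝ} (hr : 0 < r) (hs : 0 < s) (hlam : 0 < lam) :
    a * b * c ≤ lam / 4 * (a ^ 2 * (1 / r ^ 2)) + lam / 4 * (a ^ 2 * (1 / s ^ 2))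
      + 1 / (2 * lam) * ((r * b ^ 2) * (s * c ^ 2)) := by
  have h1 : 1 / (r * s) ≤ (1 / r ^ 2 + 1 / s ^ 2) / 2 := by
    have := sq_nonneg (1 / r - 1 / s)
    have e : 1 / (r * s) = (1 / r) * (1 / s) := by field_simp
    have e1 : 1 / r ^ 2 = (1 / r) ^ 2 := by field_simp
    have e2 : 1 / s ^ 2 = (1 / s) ^ 2 := by field_simp
    rw [e, e1, e2]; nlinarith
  have h2 : a * b * c ≤ lam / 2 * (a ^ 2 * (1 / (r * s))) + 1 / (2 * lam) * (r * b ^ 2 * (s * c ^ 2)) := by
    have e : lam / 2 * (a ^ 2 * (1 / (r * s))) + 1 / (2 * lam) * (r * b ^ 2 * (s * c ^ 2)) - a * b * c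
        = (1 / (2 * lam * (r * s))) * (lam * a - (r * s) * (b * c)) ^ 2 := by
      field_simp
      ring
    have h3 : 0 ≤ (1 / (2 * lam * (r * s))) * (lam * a - (r * s) * (b * c)) ^ 2 := by positivity
    linarith
  have h3 : lam / 2 * (a ^ 2 * (1 / (r * s))) ≤ lam / 2 * (a ^ 2 * ((1 / r ^ 2 + 1 / s ^ 2) / 2)) := by
    gcongr
  nlinarith

/-- The basic trilinear estimate. -/
lemma T_le {R R' lam : ℝ} (hR : 1 ≤ R) (hR' : 1 ≤ R') (hlam : 0 < lam) {f g h : K → ℝ} :
    T f g h ≤ ENNReal.ofReal (25 * lam / 2) * L (fun k => f k ^ 2)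
      + ENNReal.ofReal (1 / (2 * lam)) *
        (L (fun k => rho R k * g k ^ 2) * L (fun k => rho R' k * h k ^ 2)) := by
  have step1 : T f g h ≤ ∑' k, ∑' l,
      (ENNReal.ofReal (lam / 4) * (ENNReal.ofReal (f k ^ 2) * ENNReal.ofReal (1 / rho R (k - l) ^ 2))
      + ENNReal.ofReal (lam / 4) * (ENNReal.ofReal (f k ^ 2) * ENNReal.ofReal (1 / rho R' l ^ 2))
      + ENNReal.ofReal (1 / (2 * lam)) * (ENNReal.ofReal (rho R (k - l) * g (k - l) ^ 2) *
        ENNReal.ofReal (rho R' l * h l ^ 2))) := by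
    refine ENNReal.tsum_le_tsum fun k => ENNReal.tsum_le_tsum fun l => ?_
    have p1 := rho_pos hR (k - l)
    have p2 := rho_pos hR' l
    rw [← ENNReal.ofReal_mul (by positivity), ← ENNReal.ofReal_mul (by positivity),
      ← ENNReal.ofReal_mul (by positivity), ← ENNReal.ofReal_mul (by positivity),
      ← ENNReal.ofReal_mul (by positivity), ← ENNReal.ofReal_mul (by positivity),
      ← ENNReal.ofReal_add (by positivity) (by positivity),
      ← ENNReal.ofReal_add (by positivity) (by positivity)]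
    exact ENNReal.ofReal_le_ofReal (pt_amgm p1 p2 hlam)
  refine step1.trans ?_
  simp only [ENNReal.tsum_add, ENNReal.tsum_mul_left]
  have e1 : ∀ k : K, ∑' l : K, ENNReal.ofReal (1 / rho R (k - l) ^ 2) = L (fun k => 1 / rho R k ^ 2) :=
    fun k => tsum_sub_left k (fun j => ENNReal.ofReal (1 / rho R j ^ 2))
  have e2 : ∑' l : K, ENNReal.ofReal (1 / rho R' l ^ 2) = L (fun k => 1 / rho R' k ^ 2) := rfl
  have e3 : ∑' k : K, ∑' l : K, ENNReal.ofReal (rho R (k - l) * g (k - l) ^ 2) *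
      ENNReal.ofReal (rho R' l * h l ^ 2) =
      L (fun k => rho R k * g k ^ 2) * L (fun k => rho R' k * h k ^ 2) := by
    rw [ENNReal.tsum_comm]
    have : ∀ l : K, ∑' k : K, ENNReal.ofReal (rho R (k - l) * g (k - l) ^ 2) *
      ENNReal.ofReal (rho R' l * h l ^ 2) = L (fun k => rho R k * g k ^ 2) *
        ENNReal.ofReal (rho R' l * h l ^ 2) := by
      intro l
      rw [ENNReal.tsum_mul_right]
      congr 1
      exact tsum_sub_right l (fun j => ENNReal.ofReal (rho R j * g j ^ 2))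
    simp only [this, ENNReal.tsum_mul_left]
    rfl
  simp only [e1, e2, ENNReal.tsum_mul_right, e3]
  have s1 := rho_sum hR
  have s2 := rho_sum hR'
  have key : ENNReal.ofReal (lam / 4) * ((∑' i, ENNReal.ofReal (f i ^ 2)) * L fun k => 1 / rho R k ^ 2)
      + ENNReal.ofReal (lam / 4) * ((∑' i, ENNReal.ofReal (f i ^ 2)) * L fun k => 1 / rho R' k ^ 2)
      ≤ ENNReal.ofReal (25 * lam / 2) * L (fun k => f k ^ 2) := by
    calc _ ≤ ENNReal.ofReal (lam / 4) * (L (fun k => f k ^ 2) * 25) +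
          ENNReal.ofReal (lam / 4) * (L (fun k => f k ^ 2) * 25) := by
            unfold L at *
            gcongr
      _ = ENNReal.ofReal (25 * lam / 2) * L (fun k => f k ^ 2) := by
            have : ENNReal.ofReal (25 * lam / 2) = ENNReal.ofReal (lam / 4) * 25 +
                ENNReal.ofReal (lam / 4) * 25 := by
              have h25 : (25 : ℝ≥0∞) = ENNReal.ofReal 25 := by norm_num
              rw [h25, ← ENNReal.ofReal_mul (by positivity), ← ENNReal.ofReal_add (by positivity)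
                (by positivity)]
              congr 1; ring
            rw [this]; ring
  gcongr

end

end Pancake
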