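import Pool.Agent.Pancake.Sys

/-!
# MP_771030_an: static trilinear estimates for weak-strong uniqueness
-/

namespace Pancake

open Set Filter Topology
open scoped ENNReal NNReal ComplexConjugate

noncomputable section

lemma T_eq_prod (f g h : K → ℝ) :
    T f g h = ∑' p : K × K, ENNReal.ofReal (f p.1 * g (p.1 - p.2) * h p.2) := by
  unfold T
  rw [ENNReal.tsum_prod (f := fun k l => ENNReal.ofReal (f k * g (k - l) * h l))]

/-- Absolutely convergent double sums from the trilinear estimate. -/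
lemma double_bound {X : K → K → ℝ} {f g h : K → ℝ} (hX : ∀ k l, |X k l| ≤ f k * g (k - l) * h l)
    (hT : T f g h ≠ ∞) :
    Summable (fun p : K × K => X p.1 p.2) ∧ |∑' p : K × K, X p.1 p.2| ≤ (T f g h).toReal := by
  rw [T_eq_prod] at hT ⊢
  have hnn : ∀ p : K × K, 0 ≤ f p.1 * g (p.1 - p.2) * h p.2 := fun p =>
    (abs_nonneg _).trans (hX p.1 p.2)
  have hs : Summable (fun p : K × K => f p.1 * g (p.1 - p.2) * h p.2) := by
    refine (ENNReal.summable_toReal hT).congr fun p => ?_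
    rw [ENNReal.toReal_ofReal (hnn p)]
  have hs2 : Summable (fun p : K × K => |X p.1 p.2|) :=
    Summable.of_nonneg_of_le (fun _ => abs_nonneg _) (fun p => hX p.1 p.2) hs
  refine ⟨hs2.of_abs, ?_⟩
  have e : (∑' p : K × K, ENNReal.ofReal (f p.1 * g (p.1 - p.2) * h p.2)).toReal
      = ∑' p : K × K, f p.1 * g (p.1 - p.2) * h p.2 := by
    rw [← ENNReal.ofReal_tsum_of_nonneg hnn hs, ENNReal.toReal_ofReal (tsum_nonneg hnn)]
  rw [e]
  have h1 : |∑' p : K × K, X p.1 p.2| ≤ ∑' p : K × K, |X p.1 p.2| := by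
    have := norm_tsum_le_tsum_norm (f := fun p : K × K => X p.1 p.2) (by
      simpa only [Real.norm_eq_abs] using hs2)
    simpa only [Real.norm_eq_abs] using this
  exact h1.trans (hs2.tsum_le_tsum (fun p => hX p.1 p.2) hs)

lemma L_rho {R S0 S1 : ℝ} (hR : 0 < R) (h0 : 0 ≤ S0) (h1 : 0 ≤ S1) {x : K → ℝ}
    (hx0 : L (fun k => x k ^ 2) ≤ ENNReal.ofReal S0)
    (hx1 : L (fun k => nsq k * x k ^ 2) ≤ ENNReal.ofReal S1) :
    L (fun k => rho R k * x k ^ 2) ≤ ENNReal.ofReal (R * S0 + S1 / R) := by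
  have e : (fun k => rho R k * x k ^ 2) = fun k => R * x k ^ 2 + (1 / R) * (nsq k * x k ^ 2) := by
    funext k
    unfold rho
    ring
  rw [e, L_add (fun k => by positivity) (fun k => by have := nsq_nonneg k; positivity),
    L_mul_left (by positivity), L_mul_left (by positivity)]
  calc _ ≤ ENNReal.ofReal R * ENNReal.ofReal S0 + ENNReal.ofReal (1 / R) * ENNReal.ofReal S1 := by
        gcongr
    _ = _ := by
        rw [← ENNReal.ofReal_mul (by positivity), ← ENNReal.ofReal_mul (by positivity),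
          ← ENNReal.ofReal_add (by positivity) (by positivity)]
        congr 1
        ring

/-- T-estimate in real form. -/
lemma T_le_real {R R' lam A B C : ℝ} (hR : 1 ≤ R) (hR' : 1 ≤ R') (hlam : 0 < lam) (hA : 0 ≤ A)
    (hB : 0 ≤ B) (hC : 0 ≤ C) {f g h : K → ℝ}
    (hf : L (fun k => f k ^ 2) ≤ ENNReal.ofReal A)
    (hg : L (fun k => rho R k * g k ^ 2) ≤ ENNReal.ofReal B)
    (hh : L (fun k => rho R' k * h k ^ 2) ≤ ENNReal.ofReal C) :
    T f g h ≤ ENNReal.ofReal (25 * lam / 2 * A + B * C / (2 * lam)) := by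
  refine (T_le hR hR' hlam).trans ?_
  calc _ ≤ ENNReal.ofReal (25 * lam / 2) * ENNReal.ofReal A
        + ENNReal.ofReal (1 / (2 * lam)) * (ENNReal.ofReal B * ENNReal.ofReal C) := by
        gcongr
    _ = _ := by
        rw [← ENNReal.ofReal_mul (by positivity), ← ENNReal.ofReal_mul (by positivity),
          ← ENNReal.ofReal_mul (by positivity), ← ENNReal.ofReal_add (by positivity) (by positivity)]
        congr 1
        ring

lemma L_neg' (w : K → ℝ) (hw : ∀ k, w (-k) = w k) (x : K → ℝ) :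
    L (fun k => w k * x (-k) ^ 2) = L (fun k => w k * x k ^ 2) := by
  rw [← L_neg (fun k => w k * x k ^ 2)]
  congr 1
  funext k
  simp only [hw]

lemma rho_neg (R : ℝ) (k : K) : rho R (-k) = rho R k := by simp [rho]

/-- (N1) -/
lemma T_N1 {S0 S1 M1 ε : ℝ} (hε : 0 < ε) (h0 : 0 ≤ S0) (h01 : S0 ≤ S1) (hM1 : 0 ≤ M1)
    {a b : K → ℝ} (hb0 : L (fun k => b k ^ 2) ≤ ENNReal.ofReal S0)
    (hb1 : L (fun k => nsq k * b k ^ 2) ≤ ENNReal.ofReal S1)
    (ha : L (fun k => (nrm k * a k) ^ 2) ≤ ENNReal.ofReal M1) :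
    T (fun k => nrm k * a k) (fun k => b (-k)) b ≤ ENNReal.ofReal (25 * M1 / ε * S0 + ε * S1) := by
  rcases h0.eq_or_lt with hz | hpos
  · have hb : ∀ k, b k = 0 := by
      intro k
      rw [← hz, ENNReal.ofReal_zero, nonpos_iff_eq_zero] at hb0
      have h1 : ENNReal.ofReal (b k ^ 2) = 0 := (ENNReal.tsum_eq_zero.mp hb0) k
      have h2 : b k ^ 2 ≤ 0 := ENNReal.ofReal_eq_zero.mp h1
      nlinarith [sq_nonneg (b k)]
    have : T (fun k => nrm k * a k) (fun k => b (-k)) b = 0 := by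
      unfold T
      simp [hb]
    rw [this]
    exact zero_le
  · have hS1 : 0 < S1 := lt_of_lt_of_le hpos h01
    set R := √(S1 / S0) with hR
    have hR1 : 1 ≤ R := by
      rw [hR, Real.one_le_sqrt, one_le_div hpos]; exact h01
    have hR0 : 0 < R := lt_of_lt_of_le one_pos hR1
    have hR2 : R ^ 2 = S1 / S0 := Real.sq_sqrt (by positivity)
    have hS1' : S1 = R ^ 2 * S0 := by rw [hR2]; field_simp
    have e1 : L (fun k => rho R k * (b (-k)) ^ 2) = L (fun k => rho R k * b k ^ 2) :=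
      L_neg' (rho R) (rho_neg R) b
    have h3 := L_rho hR0 h0 hS1.le hb0 hb1
    refine (T_le_real (lam := 2 * S0 / ε) hR1 hR1 (by positivity) hM1 (by positivity) (by positivity)
      ha (e1.le.trans h3) h3).trans ?_
    apply ENNReal.ofReal_le_ofReal
    apply le_of_eq
    rw [hS1']
    field_simp
    ring

/-- high frequency part (N2) -/
lemma T_N2 {S1 M0 m0 Z N ε : ℝ} (hε : 0 < ε) (hS1 : 0 ≤ S1) (hM0 : 0 ≤ M0)
    (hm0 : 0 < m0) (hZ : 0 ≤ Z) (hN : 1 ≤ N) {b θ η : K → ℝ}
    (hb1 : L (fun k => nsq k * b k ^ 2) ≤ ENNReal.ofReal S1)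
    (hb0 : ∀ k, nsq k < N ^ 2 → b k = 0)
    (hθ : L (fun k => θ k ^ 2) ≤ ENNReal.ofReal M0)
    (hη0 : L (fun k => η k ^ 2) ≤ ENNReal.ofReal Z)
    (hη1 : L (fun k => nsq k * η k ^ 2) ≤ ENNReal.ofReal m0) :
    T η b θ ≤ ENNReal.ofReal (25 * M0 / (2 * ε) * (Z + m0 / N ^ 2) + ε * S1) := by
  have hN0 : 0 < N := by linarith
  rw [T_swap']
  have hbb : L (fun k => b k ^ 2) ≤ ENNReal.ofReal (S1 / N ^ 2) := by
    have h1 : L (fun k => b k ^ 2) ≤ L (fun k => (1 / N ^ 2) * (nsq k * b k ^ 2)) := by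
      apply L_mono
      intro k
      by_cases hk : nsq k < N ^ 2
      · rw [hb0 k hk]; simp
      · push Not at hk
        rw [← mul_assoc]
        have : 1 ≤ 1 / N ^ 2 * nsq k := by
          rw [one_div, ← div_eq_inv_mul, one_le_div (by positivity)]; exact hk
        nlinarith [sq_nonneg (b k)]
    refine h1.trans ?_
    rw [L_mul_left (by positivity)]
    calc _ ≤ ENNReal.ofReal (1 / N ^ 2) * ENNReal.ofReal S1 := by gcongr
      _ = _ := by rw [← ENNReal.ofReal_mul (by positivity)]; congr 1; ring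
  have e1 : L (fun k => rho N k * (b (-k)) ^ 2) = L (fun k => rho N k * b k ^ 2) :=
    L_neg' (rho N) (rho_neg N) b
  have h3 := L_rho hN0 (by positivity) hS1 hbb hb1
  have h4 := L_rho hN0 hZ hm0.le hη0 hη1
  have hδ : 0 < Z + m0 / N ^ 2 := by positivity
  refine (T_le_real (lam := (Z + m0 / N ^ 2) / ε) hN hN (by positivity) hM0 (by positivity)
    (by positivity) hθ (e1.le.trans h3) h4).trans ?_
  apply ENNReal.ofReal_le_ofReal
  apply le_of_eq
  field_simp
  ring

/-- high frequency part (N3) -/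
lemma T_N3 {S2 m0 Z N : ℝ} (hS2 : 0 ≤ S2)
    (hm0 : 0 < m0) (hZ : 0 ≤ Z) (hN : 1 ≤ N) {x η : K → ℝ}
    (hx : L (fun k => nsq k * x k ^ 2) ≤ ENNReal.ofReal S2)
    (hx0 : ∀ k, nsq k < N ^ 2 → x k = 0)
    (hη0 : L (fun k => η k ^ 2) ≤ ENNReal.ofReal Z)
    (hη1 : L (fun k => nsq k * η k ^ 2) ≤ ENNReal.ofReal m0) :
    T η x η ≤ ENNReal.ofReal ((25 * S2 + 1) / 2 * (Z + m0 / N ^ 2)) := by
  have hN0 : 0 < N := by linarith
  rw [T_swap, T_swap']
  have hbb : L (fun k => x k ^ 2) ≤ ENNReal.ofReal (S2 / N ^ 2) := by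
    have h1 : L (fun k => x k ^ 2) ≤ L (fun k => (1 / N ^ 2) * (nsq k * x k ^ 2)) := by
      apply L_mono
      intro k
      by_cases hk : nsq k < N ^ 2
      · rw [hx0 k hk]; simp
      · push Not at hk
        rw [← mul_assoc]
        have : 1 ≤ 1 / N ^ 2 * nsq k := by
          rw [one_div, ← div_eq_inv_mul, one_le_div (by positivity)]; exact hk
        nlinarith [sq_nonneg (x k)]
    refine h1.trans ?_
    rw [L_mul_left (by positivity)]
    calc _ ≤ ENNReal.ofReal (1 / N ^ 2) * ENNReal.ofReal S2 := by gcongr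
      _ = _ := by rw [← ENNReal.ofReal_mul (by positivity)]; congr 1; ring
  have e1 : L (fun k => rho N k * (η (-k)) ^ 2) = L (fun k => rho N k * η k ^ 2) :=
    L_neg' (rho N) (rho_neg N) η
  have h4 := L_rho hN0 hZ hm0.le hη0 hη1
  have hδ : 0 < Z + m0 / N ^ 2 := by positivity
  refine (T_le_real (lam := N ^ 2 * (Z + m0 / N ^ 2)) hN hN (by positivity) (by positivity)
    (by positivity) (by positivity) hbb (e1.le.trans h4) h4).trans ?_
  apply ENNReal.ofReal_le_ofReal
  apply le_of_eq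
  field_simp

open Classical in
/-- low frequency part (N4) -/
lemma T_N4 {S1 M0 Z p : ℝ} (m : ℕ) (hp : 0 < p) (hS1 : 0 ≤ S1) (hM0 : 0 ≤ M0)
    (hZ : 0 ≤ Z) {b θ η : K → ℝ}
    (hb1 : L (fun k => nsq k * b k ^ 2) ≤ ENNReal.ofReal S1)
    (hb0 : ∀ k, ¬ low m k → b k = 0)
    (hθ : L (fun k => θ k ^ 2) ≤ ENNReal.ofReal M0)
    (hη0 : L (fun k => η k ^ 2) ≤ ENNReal.ofReal Z) :
    T η b θ ≤ ENNReal.ofReal (p / 2 * (S1 * M0) + 16 * m * Z / (2 * p)) := by
  have step : T η b θ ≤ ∑' k, ∑' l, (ENNReal.ofReal (p / 2) *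
      (ENNReal.ofReal (nsq (k - l) * b (k - l) ^ 2) * ENNReal.ofReal (θ l ^ 2))
      + ENNReal.ofReal (1 / (2 * p)) * (ENNReal.ofReal (η k ^ 2) *
        ENNReal.ofReal (if low m (k - l) then 1 / nsq (k - l) else 0))) := by
    refine ENNReal.tsum_le_tsum fun k => ENNReal.tsum_le_tsum fun l => ?_
    have hn := nsq_nonneg (k - l)
    have hif : 0 ≤ (if low m (k - l) then 1 / nsq (k - l) else 0) := by
      split_ifs <;> positivity
    rw [← ENNReal.ofReal_mul (by positivity), ← ENNReal.ofReal_mul (by positivity),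
      ← ENNReal.ofReal_mul (by positivity), ← ENNReal.ofReal_mul (by positivity),
      ← ENNReal.ofReal_add (by positivity) (by positivity)]
    apply ENNReal.ofReal_le_ofReal
    by_cases hl : low m (k - l)
    · rw [if_pos hl]
      have hpos := nsq_pos hl.1
      have e : p / 2 * (nsq (k - l) * b (k - l) ^ 2 * θ l ^ 2) + 1 / (2 * p) *
          (η k ^ 2 * (1 / nsq (k - l))) - η k * b (k - l) * θ l
          = (1 / (2 * p * nsq (k - l))) * (p * nsq (k - l) * (b (k - l) * θ l) - η k) ^ 2 := by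
        field_simp
        ring
      have : 0 ≤ (1 / (2 * p * nsq (k - l))) * (p * nsq (k - l) * (b (k - l) * θ l) - η k) ^ 2 := by
        positivity
      linarith
    · rw [if_neg hl, hb0 _ hl]
      simp
  refine step.trans ?_
  simp only [ENNReal.tsum_add, ENNReal.tsum_mul_left]
  have e3 : ∑' k : K, ∑' l : K, ENNReal.ofReal (nsq (k - l) * b (k - l) ^ 2) *
      ENNReal.ofReal (θ l ^ 2) = L (fun k => nsq k * b k ^ 2) * L (fun k => θ k ^ 2) := by
    rw [ENNReal.tsum_comm]
    have : ∀ l : K, ∑' k : K, ENNReal.ofReal (nsq (k - l) * b (k - l) ^ 2) *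
      ENNReal.ofReal (θ l ^ 2) = L (fun k => nsq k * b k ^ 2) * ENNReal.ofReal (θ l ^ 2) := by
      intro l
      rw [ENNReal.tsum_mul_right]
      congr 1
      exact tsum_sub_right l (fun j => ENNReal.ofReal (nsq j * b j ^ 2))
    simp only [this, ENNReal.tsum_mul_left]
    rfl
  have e4 : ∀ k : K, ∑' l : K, ENNReal.ofReal (if low m (k - l) then 1 / nsq (k - l) else 0)
      = L (fun k => if low m k then 1 / nsq k else 0) := fun k =>
    tsum_sub_left k (fun j => ENNReal.ofReal (if low m j then 1 / nsq j else 0))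
  simp only [e3, e4, ENNReal.tsum_mul_right]
  have hlog := log_sum m
  calc _ ≤ ENNReal.ofReal (p / 2) * (ENNReal.ofReal S1 * ENNReal.ofReal M0)
        + ENNReal.ofReal (1 / (2 * p)) * (ENNReal.ofReal Z * ENNReal.ofReal (16 * m)) := by
        gcongr
        exact hη0
    _ = _ := by
        rw [← ENNReal.ofReal_mul (by positivity), ← ENNReal.ofReal_mul (by positivity),
          ← ENNReal.ofReal_mul (by positivity), ← ENNReal.ofReal_mul (by positivity),
          ← ENNReal.ofReal_add (by positivity) (by positivity)]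
        congr 1
        ring

open Classical in
/-- low frequency part (N5) -/
lemma T_N5 {S2 Z s : ℝ} (m : ℕ) (hs : 0 < s) (hS2 : 0 ≤ S2) (hZ : 0 ≤ Z)
    {x η : K → ℝ} (hx : L (fun k => nsq k * x k ^ 2) ≤ ENNReal.ofReal S2)
    (hx0 : ∀ k, ¬ low m k → x k = 0) (hxn : ∀ k, 0 ≤ x k)
    (hη0 : L (fun k => η k ^ 2) ≤ ENNReal.ofReal Z) :
    T η x η ≤ ENNReal.ofReal ((s * S2 + 16 * m / s) / 2 * Z) := by
  have hLx : L x ≤ ENNReal.ofReal ((s * S2 + 16 * m / s) / 2) := by
    have h1 : L x ≤ L (fun k => s / 2 * (nsq k * x k ^ 2) +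
        1 / (2 * s) * (if low m k then 1 / nsq k else 0)) := by
      apply L_mono
      intro k
      by_cases hl : low m k
      · rw [if_pos hl]
        have hpos := nsq_pos hl.1
        have e : s / 2 * (nsq k * x k ^ 2) + 1 / (2 * s) * (1 / nsq k) - x k
            = (1 / (2 * s * nsq k)) * (s * nsq k * x k - 1) ^ 2 := by
          field_simp
          ring
        have : 0 ≤ (1 / (2 * s * nsq k)) * (s * nsq k * x k - 1) ^ 2 := by positivity
        linarith
      · rw [if_neg hl, hx0 _ hl]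
        simp
    refine h1.trans ?_
    rw [L_add, L_mul_left (by positivity), L_mul_left (by positivity)]
    · have hlog := log_sum m
      calc _ ≤ ENNReal.ofReal (s / 2) * ENNReal.ofReal S2 +
            ENNReal.ofReal (1 / (2 * s)) * ENNReal.ofReal (16 * m) := by gcongr
        _ = _ := by
            rw [← ENNReal.ofReal_mul (by positivity), ← ENNReal.ofReal_mul (by positivity),
              ← ENNReal.ofReal_add (by positivity) (by positivity)]
            congr 1
            ring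
    · intro k
      have := nsq_nonneg k
      positivity
    · intro k
      have := nsq_nonneg k
      split_ifs <;> positivity
  have step : T η x η ≤ ∑' k, ∑' l, (ENNReal.ofReal (1 / 2) *
      (ENNReal.ofReal (η k ^ 2) * ENNReal.ofReal (x (k - l)))
      + ENNReal.ofReal (1 / 2) * (ENNReal.ofReal (x (k - l)) * ENNReal.ofReal (η l ^ 2))) := by
    refine ENNReal.tsum_le_tsum fun k => ENNReal.tsum_le_tsum fun l => ?_
    have hx' := hxn (k - l)
    rw [← ENNReal.ofReal_mul (by positivity), ← ENNReal.ofReal_mul (by positivity),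
      ← ENNReal.ofReal_mul (by positivity), ← ENNReal.ofReal_mul (by positivity),
      ← ENNReal.ofReal_add (by positivity) (by positivity)]
    apply ENNReal.ofReal_le_ofReal
    nlinarith [mul_nonneg hx' (sq_nonneg (η k - η l))]
  refine step.trans ?_
  simp only [ENNReal.tsum_add, ENNReal.tsum_mul_left]
  have e3 : ∑' k : K, ∑' l : K, ENNReal.ofReal (x (k - l)) *
      ENNReal.ofReal (η l ^ 2) = L x * L (fun k => η k ^ 2) := by
    rw [ENNReal.tsum_comm]
    have : ∀ l : K, ∑' k : K, ENNReal.ofReal (x (k - l)) *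
      ENNReal.ofReal (η l ^ 2) = L x * ENNReal.ofReal (η l ^ 2) := by
      intro l
      rw [ENNReal.tsum_mul_right]
      congr 1
      exact tsum_sub_right l (fun j => ENNReal.ofReal (x j))
    simp only [this, ENNReal.tsum_mul_left]
    rfl
  have e4 : ∀ k : K, ∑' l : K, ENNReal.ofReal (x (k - l)) = L x := fun k =>
    tsum_sub_left k (fun j => ENNReal.ofReal (x j))
  simp only [e3, e4, ENNReal.tsum_mul_right]
  have hpos : 0 ≤ (s * S2 + 16 * m / s) / 2 := by positivity
  calc _ ≤ ENNReal.ofReal (1 / 2) * (ENNReal.ofReal Z * ENNReal.ofReal ((s * S2 + 16 * m / s) / 2))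
        + ENNReal.ofReal (1 / 2) * (ENNReal.ofReal ((s * S2 + 16 * m / s) / 2) * ENNReal.ofReal Z) := by
        gcongr
        exact hη0
    _ = _ := by
        rw [← ENNReal.ofReal_mul (by positivity), ← ENNReal.ofReal_mul (by positivity),
          ← ENNReal.ofReal_mul (by positivity), ← ENNReal.ofReal_mul (by positivity),
          ← ENNReal.ofReal_add (by positivity) (by positivity)]
        congr 1
        ring

lemma T_add_mid {f g1 g2 h : K → ℝ} (hf : ∀ k, 0 ≤ f k) (h1 : ∀ k, 0 ≤ g1 k) (h2 : ∀ k, 0 ≤ g2 k)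
    (hh : ∀ k, 0 ≤ h k) : T f (fun k => g1 k + g2 k) h = T f g1 h + T f g2 h := by
  unfold T
  rw [← ENNReal.tsum_add]
  congr 1
  funext k
  rw [← ENNReal.tsum_add]
  congr 1
  funext l
  have := hf k; have := hh l; have := h1 (k - l); have := h2 (k - l)
  rw [← ENNReal.ofReal_add (by positivity) (by positivity)]
  congr 1
  ring

/-- crude bound, used for domination. -/
lemma T_crude {A M R : ℝ} (hR : 1 ≤ R) (hA : 0 ≤ A) (hM : 0 ≤ M) {f x y : K → ℝ}
    (hf : L (fun k => f k ^ 2) ≤ ENNReal.ofReal A)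
    (hx0 : L (fun k => x k ^ 2) ≤ ENNReal.ofReal M)
    (hx1 : L (fun k => nsq k * x k ^ 2) ≤ ENNReal.ofReal (R ^ 2))
    (hy0 : L (fun k => y k ^ 2) ≤ ENNReal.ofReal M)
    (hy1 : L (fun k => nsq k * y k ^ 2) ≤ ENNReal.ofReal (R ^ 2)) :
    T f x y ≤ ENNReal.ofReal (25 / 2 * A + (M + 1) ^ 2 / 2 * R ^ 2) := by
  have hR0 : 0 < R := by linarith
  have h3 := L_rho hR0 hM (by positivity) hx0 hx1
  have h4 := L_rho hR0 hM (by positivity) hy0 hy1
  refine (T_le_real (lam := 1) hR hR one_pos hA (by positivity) (by positivity) hf h3 h4).trans ?_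
  apply ENNReal.ofReal_le_ofReal
  apply le_of_eq
  field_simp

end

end Pancake
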