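import Pool.Agent.Pancake.Static

/-!
# MP_771030_an: the energy balance of the difference of two solutions, static part
-/

namespace Pancake

open Set Filter Topology
open scoped ENNReal NNReal ComplexConjugate

noncomputable section

lemma rows {X : K → K → ℝ} {f g h : K → ℝ} {B : ℝ} (hB : 0 ≤ B)
    (hX : ∀ k l, |X k l| ≤ f k * g (k - l) * h l) (hT : T f g h ≤ ENNReal.ofReal B) :
    HasSum (fun k => ∑' l, X k l) (∑' p : K × K, X p.1 p.2) ∧
      (∀ F : Finset K, ∑ k ∈ F, |∑' l, X k l| ≤ B) ∧ |∑' p : K × K, X p.1 p.2| ≤ B := by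
  have hT' : T f g h ≠ ∞ := ne_top_of_le_ne_top ENNReal.ofReal_ne_top hT
  have hTr : (T f g h).toReal ≤ B := ENNReal.toReal_le_of_le_ofReal hB hT
  obtain ⟨h1, h2⟩ := double_bound hX hT'
  obtain ⟨h3, h4⟩ := double_bound (X := fun k l => |X k l|) (fun k l => by
    rw [abs_abs]; exact hX k l) hT'
  refine ⟨h1.hasSum.prod_fiberwise fun k => (h1.prod_factor k).hasSum, ?_, h2.trans hTr⟩
  intro F
  calc ∑ k ∈ F, |∑' l, X k l| ≤ ∑ k ∈ F, ∑' l, |X k l| := by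
        apply Finset.sum_le_sum
        intro k _
        have := norm_tsum_le_tsum_norm (f := fun l => X k l) (by
          simpa only [Real.norm_eq_abs] using h3.prod_factor k)
        simpa only [Real.norm_eq_abs] using this
    _ ≤ ∑' k, ∑' l, |X k l| := by
        apply Summable.sum_le_tsum
        · intro k _
          exact tsum_nonneg fun l => abs_nonneg _
        · exact h3.prod
    _ = ∑' p : K × K, |X p.1 p.2| := (h3.tsum_prod).symm
    _ ≤ abs (∑' p : K × K, |X p.1 p.2|) := le_abs_self _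
    _ ≤ B := h4.trans hTr

/-- `|ζ_k|/|k|`. -/
def eta (ζ : K → ℂ) (k : K) : ℝ := ‖ζ k‖ / nrm k

lemma eta_nonneg (ζ : K → ℂ) (k : K) : 0 ≤ eta ζ k := div_nonneg (norm_nonneg _) (nrm_nonneg k)

lemma eta_mul {ζ : K → ℂ} (h0 : ζ 0 = 0) (k : K) : nrm k * eta ζ k = ‖ζ k‖ := by
  unfold eta
  by_cases hk : k = 0
  · rw [hk, h0]; simp
  · have := (nrm_pos hk).ne'
    field_simp

lemma eta_le {ζ : K → ℂ} (k : K) : eta ζ k ≤ ‖ζ k‖ := by
  unfold eta
  by_cases hk : k = 0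
  · rw [hk]; simp
  · exact div_le_self (norm_nonneg _) (one_le_nrm hk)

lemma inv_nsq_eta (ζ : K → ℂ) (k : K) : 1 / nsq k * (nrm k * ‖ζ k‖) = eta ζ k := by
  unfold eta
  by_cases hk : k = 0
  · rw [hk]; simp
  · have h1 := (nrm_pos hk).ne'
    rw [← nrm_sq]
    field_simp

lemma L_eta0 {ζ : K → ℂ} {m0 : ℝ} (h : L (fun k => ‖ζ k‖ ^ 2) ≤ ENNReal.ofReal m0) :
    L (fun k => eta ζ k ^ 2) ≤ ENNReal.ofReal m0 := by
  refine (L_mono fun k => ?_).trans h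
  have := eta_nonneg ζ k
  have := eta_le (ζ := ζ) k
  gcongr

lemma L_eta1 {ζ : K → ℂ} {m0 : ℝ} (h0 : ζ 0 = 0) (h : L (fun k => ‖ζ k‖ ^ 2) ≤ ENNReal.ofReal m0) :
    L (fun k => nsq k * eta ζ k ^ 2) ≤ ENNReal.ofReal m0 := by
  refine le_trans (le_of_eq ?_) h
  congr 1
  funext k
  rw [← nrm_sq, ← mul_pow, eta_mul h0]

/-! ### The four double series -/

variable (b ζ a1 a2 θ2 : K → ℂ)

/-- first double series. -/
def X1 (k h : K) : ℝ := (conj (b k) * ((ck k h : ℂ) * b (k - h) * a1 h)).re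
/-- second double series. -/
def X2 (k h : K) : ℝ := (conj (b k) * ((ck k h : ℂ) * a2 (k - h) * b h)).re
/-- unweighted third double series. -/
def X3' (k h : K) : ℝ := (conj (ζ k) * ((ek k h : ℂ) * a1 (k - h) * ζ h)).re
/-- fourth double series. -/
def X4 (k h : K) : ℝ := 1 / nsq k * (conj (ζ k) * ((ek k h : ℂ) * b (k - h) * θ2 h)).re
/-- buoyancy term. -/
def Yb (g : ℝ) (k : K) : ℝ := (conj (b k) * -(Complex.I * (g * fk k : ℝ) * ζ k)).re

variable {b ζ a1 a2 θ2}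

lemma abs_re_triple (x y z : ℂ) (r : ℝ) : |(conj x * ((r : ℂ) * y * z)).re| ≤ ‖x‖ * |r| * ‖y‖ * ‖z‖ := by
  refine (Complex.abs_re_le_norm _).trans (le_of_eq ?_)
  rw [norm_mul, norm_mul, norm_mul, RCLike.norm_conj, Complex.norm_real, Real.norm_eq_abs]
  ring

lemma abs_ck_le_right (k h : K) : |ck k h| ≤ nrm h := by
  rw [show |ck k h| = |ck h k| by rw [ck_antisymm h k, abs_neg]]
  exact abs_ck_le h k

lemma abs_X1_le (k h : K) : |X1 b a1 k h| ≤ ‖b k‖ * ‖b (k - h)‖ * (nrm h * ‖a1 h‖) := by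
  unfold X1
  refine (abs_re_triple _ _ _ _).trans ?_
  have := abs_ck_le_right k h
  calc ‖b k‖ * |ck k h| * ‖b (k - h)‖ * ‖a1 h‖ ≤ ‖b k‖ * nrm h * ‖b (k - h)‖ * ‖a1 h‖ := by gcongr
    _ = _ := by ring

lemma abs_X2_le (k h : K) : |X2 b a2 k h| ≤ (nrm k * ‖b k‖) * ‖a2 (k - h)‖ * ‖b h‖ := by
  unfold X2
  refine (abs_re_triple _ _ _ _).trans ?_
  have := abs_ck_le k h
  calc ‖b k‖ * |ck k h| * ‖a2 (k - h)‖ * ‖b h‖ ≤ ‖b k‖ * nrm k * ‖a2 (k - h)‖ * ‖b h‖ := by gcongr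
    _ = _ := by ring

lemma abs_X4_le (k h : K) : |X4 b ζ θ2 k h| ≤ eta ζ k * ‖b (k - h)‖ * ‖θ2 h‖ := by
  unfold X4
  rw [abs_mul, abs_of_nonneg (by have := nsq_nonneg k; positivity : 0 ≤ 1 / nsq k)]
  have h1 := abs_re_triple (ζ k) (b (k - h)) (θ2 h) (ek k h)
  have h2 := abs_ek_le_left k h
  have hn := nsq_nonneg k
  calc _ ≤ 1 / nsq k * (‖ζ k‖ * nrm k * ‖b (k - h)‖ * ‖θ2 h‖) := by
        gcongr
        refine h1.trans ?_
        gcongr
    _ = (1 / nsq k * (nrm k * ‖ζ k‖)) * ‖b (k - h)‖ * ‖θ2 h‖ := by ring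
    _ = _ := by rw [inv_nsq_eta]

lemma abs_X3_le (k h : K) : |1 / nsq k * X3' ζ a1 k h| ≤ eta ζ k * ‖a1 (k - h)‖ * ‖ζ h‖ := by
  unfold X3'
  rw [abs_mul, abs_of_nonneg (by have := nsq_nonneg k; positivity : 0 ≤ 1 / nsq k)]
  have h1 := abs_re_triple (ζ k) (a1 (k - h)) (ζ h) (ek k h)
  have h2 := abs_ek_le_left k h
  have hn := nsq_nonneg k
  calc _ ≤ 1 / nsq k * (‖ζ k‖ * nrm k * ‖a1 (k - h)‖ * ‖ζ h‖) := by
        gcongr
        refine h1.trans ?_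
        gcongr
    _ = (1 / nsq k * (nrm k * ‖ζ k‖)) * ‖a1 (k - h)‖ * ‖ζ h‖ := by ring
    _ = _ := by rw [inv_nsq_eta]

lemma nrm_sub_abs_le (k h : K) : |nrm k - nrm h| ≤ nrm (k - h) := by
  rw [abs_le]
  constructor
  · have := nrm_add_le k (h - k)
    rw [add_sub_cancel] at this
    rw [nrm_sub_comm k h]
    linarith
  · have := nrm_add_le h (k - h)
    rw [add_sub_cancel] at this
    linarith

lemma abs_X3_diff_le (h0 : ζ 0 = 0) (k h : K) : |(1 / nsq k - 1 / nsq h) * X3' ζ a1 k h| ≤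
    2 * (eta ζ k * (nrm (k - h) * ‖a1 (k - h)‖) * eta ζ h) := by
  unfold X3'
  rw [abs_mul]
  have h1 := abs_re_triple (ζ k) (a1 (k - h)) (ζ h) (ek k h)
  by_cases hk : k = 0
  · subst hk
    rw [h0]
    simp [eta]
  by_cases hh : h = 0
  · subst hh
    rw [h0]
    simp [eta]
  have pk := nrm_pos hk
  have ph := nrm_pos hh
  have key : |1 / nsq k - 1 / nsq h| * |ek k h| ≤ 2 * nrm (k - h) / (nrm k * nrm h) := by
    have e : 1 / nsq k - 1 / nsq h = -((nrm k - nrm h) * (nrm k + nrm h)) / (nsq k * nsq h) := by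
      rw [← nrm_sq, ← nrm_sq]
      field_simp
      ring
    have e2 : |1 / nsq k - 1 / nsq h| = |nrm k - nrm h| * (nrm k + nrm h) / (nsq k * nsq h) := by
      rw [e, abs_div, abs_neg, abs_mul, abs_of_pos (by positivity : 0 < nrm k + nrm h),
        abs_of_pos (by have := nsq_pos hk; have := nsq_pos hh; positivity : 0 < nsq k * nsq h)]
    have e3 : (nrm k + nrm h) * |ek k h| ≤ 2 * (nrm k * nrm h) := by
      have q1 := abs_ek_le_left k h
      have q2 := abs_ek_le_right k h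
      have q3 := abs_nonneg (ek k h)
      nlinarith
    have hsub := nrm_sub_abs_le k h
    have hnn := abs_nonneg (nrm k - nrm h)
    have hsn := nrm_nonneg (k - h)
    rw [e2]
    have e4 : |nrm k - nrm h| * (nrm k + nrm h) / (nsq k * nsq h) * |ek k h|
        = |nrm k - nrm h| * ((nrm k + nrm h) * |ek k h|) / (nsq k * nsq h) := by ring
    rw [e4]
    calc _ ≤ nrm (k - h) * (2 * (nrm k * nrm h)) / (nsq k * nsq h) := by
          have := nsq_pos hk; have := nsq_pos hh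
          gcongr
      _ = _ := by
          rw [← nrm_sq, ← nrm_sq]
          field_simp
  calc _ ≤ |1 / nsq k - 1 / nsq h| * (‖ζ k‖ * |ek k h| * ‖a1 (k - h)‖ * ‖ζ h‖) := by gcongr
    _ = (|1 / nsq k - 1 / nsq h| * |ek k h|) * (‖ζ k‖ * ‖a1 (k - h)‖ * ‖ζ h‖) := by ring
    _ ≤ (2 * nrm (k - h) / (nrm k * nrm h)) * (‖ζ k‖ * ‖a1 (k - h)‖ * ‖ζ h‖) := by gcongr
    _ = _ := by unfold eta; field_simp

lemma abs_Yb_le {g ν : ℝ} (hν : 0 < ν) (hζ0 : ζ 0 = 0) (k : K) :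
    |Yb b ζ g k| ≤ ν / 4 * (nsq k * ‖b k‖ ^ 2) + g ^ 2 / ν * eta ζ k ^ 2 := by
  unfold Yb
  have h1 : |(conj (b k) * -(Complex.I * (g * fk k : ℝ) * ζ k)).re| ≤ ‖b k‖ * (|g| * ‖ζ k‖) := by
    refine (Complex.abs_re_le_norm _).trans ?_
    rw [norm_mul, norm_neg, norm_mul, norm_mul, Complex.norm_I, RCLike.norm_conj, one_mul]
    rw [Complex.norm_real, Real.norm_eq_abs, abs_mul]
    have := abs_fk_le k
    gcongr
    calc |g| * |fk k| ≤ |g| * 1 := by gcongr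
      _ = |g| := mul_one _
  refine h1.trans ?_
  rw [← eta_mul hζ0, ← nrm_sq]
  have e : ν / 4 * (nrm k ^ 2 * ‖b k‖ ^ 2) + g ^ 2 / ν * eta ζ k ^ 2
      - ‖b k‖ * (|g| * (nrm k * eta ζ k)) = (ν / 2 * (nrm k * ‖b k‖) - |g| * eta ζ k) ^ 2 / ν := by
    have : g ^ 2 = |g| ^ 2 := (sq_abs g).symm
    rw [this]
    field_simp
    ring
  have h2 : 0 ≤ (ν / 2 * (nrm k * ‖b k‖) - |g| * eta ζ k) ^ 2 / ν := by positivity
  linarith

end

end Pancake
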