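import Pool.Agent.Pancake.Static2

/-!
# MP_771030_an: the energy balance of the difference of two solutions, static part II
-/

namespace Pancake

open Set Filter Topology
open scoped ENNReal NNReal ComplexConjugate

noncomputable section

variable {b ζ a1 a2 θ2 : K → ℂ}

lemma nrm_mul_sq_eq (x : K → ℂ) : (fun k => (nrm k * ‖x k‖) ^ 2) = fun k => nsq k * ‖x k‖ ^ 2 := by
  funext k
  rw [mul_pow, nrm_sq]

/-- The time derivative of the weighted energy of the mode `k` of the difference. -/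
def dk' (ν κ g lam : ℝ) (b ζ a1 θ1 a2 θ2 : K → ℂ) (k : K) : ℝ :=
  2 * (conj (b k) * (Fa ν κ g ck a1 θ1 k - Fa ν κ g ck a2 θ2 k)).re +
    lam * (1 / nsq k * (2 * (conj (ζ k) * (Ft κ ek a1 θ1 k - Ft κ ek a2 θ2 k)).re))

lemma summable_bil {c : K → K → ℝ} {a x : K → ℂ} {k : K} (hc : ∀ h, |c k h| ≤ nrm k)
    (ha : L (fun k => ‖a k‖ ^ 2) ≠ ∞) (hx : L (fun k => ‖x k‖ ^ 2) ≠ ∞) :
    Summable (fun h => (c k h : ℂ) * a (k - h) * x h) := by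
  have h1 : L (fun k => ‖a k‖ ^ 2) ≤ ENNReal.ofReal (L (fun k => ‖a k‖ ^ 2)).toReal := by
    rw [ENNReal.ofReal_toReal ha]
  have h2 : L (fun k => ‖x k‖ ^ 2) ≤ ENNReal.ofReal (L (fun k => ‖x k‖ ^ 2)).toReal := by
    rw [ENNReal.ofReal_toReal hx]
  have h3 := bil_L (c := c k) (k := k) (nrm_nonneg k) ENNReal.toReal_nonneg ENNReal.toReal_nonneg
    hc h1 h2
  exact (summable_of_L (fun _ => norm_nonneg _)
    (ne_top_of_le_ne_top ENNReal.ofReal_ne_top h3)).of_norm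

lemma re_conj_mul_Bil {c : K → K → ℝ} {a x : K → ℂ} {k : K} (z : ℂ)
    (hs : Summable (fun h => (c k h : ℂ) * a (k - h) * x h)) :
    (conj z * Bil c a x k).re = ∑' h, (conj z * ((c k h : ℂ) * a (k - h) * x h)).re := by
  unfold Bil
  rw [← tsum_mul_left, Complex.re_tsum (hs.mul_left _)]

lemma Bil_sub {c : K → K → ℝ} {a x a' x' : K → ℂ} {k : K} (hc : ∀ h, |c k h| ≤ nrm k)
    (ha : L (fun k => ‖a k‖ ^ 2) ≠ ∞) (hx : L (fun k => ‖x k‖ ^ 2) ≠ ∞)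
    (ha' : L (fun k => ‖a' k‖ ^ 2) ≠ ∞) (hx' : L (fun k => ‖x' k‖ ^ 2) ≠ ∞)
    (hb : L (fun k => ‖a k - a' k‖ ^ 2) ≠ ∞) (hy : L (fun k => ‖x k - x' k‖ ^ 2) ≠ ∞) :
    Bil c a x k - Bil c a' x' k = Bil c (fun k => a k - a' k) x k
      + Bil c a' (fun k => x k - x' k) k := by
  unfold Bil
  have s1 := summable_bil (x := x) hc ha hx
  have s2 := summable_bil (x := x') hc ha' hx'
  have s3 := summable_bil (a := fun k => a k - a' k) (x := x) hc hb hx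
  have s4 := summable_bil (a := a') (x := fun k => x k - x' k) hc ha' hy
  rw [← s1.tsum_sub s2, ← s3.tsum_add s4]
  apply tsum_congr
  intro h
  ring

/-- Expansion of the derivative into the double series. -/
lemma dk'_eq {ν κ g lam : ℝ} {a1 θ1 a2 θ2 : K → ℂ}
    (h1 : L (fun k => ‖a1 k‖ ^ 2) ≠ ∞) (h2 : L (fun k => ‖a2 k‖ ^ 2) ≠ ∞)
    (h3 : L (fun k => ‖θ1 k‖ ^ 2) ≠ ∞) (h4 : L (fun k => ‖θ2 k‖ ^ 2) ≠ ∞)
    (h5 : L (fun k => ‖a1 k - a2 k‖ ^ 2) ≠ ∞) (h6 : L (fun k => ‖θ1 k - θ2 k‖ ^ 2) ≠ ∞) (k : K) :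
    dk' ν κ g lam (fun k => a1 k - a2 k) (fun k => θ1 k - θ2 k) a1 θ1 a2 θ2 k =
      -2 * ν * (nsq k * ‖a1 k - a2 k‖ ^ 2) +
      2 * κ * (∑' h, X1 (fun k => a1 k - a2 k) a1 k h) +
      2 * κ * (∑' h, X2 (fun k => a1 k - a2 k) a2 k h) +
      2 * Yb (fun k => a1 k - a2 k) (fun k => θ1 k - θ2 k) g k +
      2 * (lam * κ) * (∑' h, 1 / nsq k * X3' (fun k => θ1 k - θ2 k) a1 k h) +
      2 * (lam * κ) * (∑' h, X4 (fun k => a1 k - a2 k) (fun k => θ1 k - θ2 k) θ2 k h) := by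
  set b : K → ℂ := fun k => a1 k - a2 k with hb
  set ζ : K → ℂ := fun k => θ1 k - θ2 k with hζ
  have eA : Fa ν κ g ck a1 θ1 k - Fa ν κ g ck a2 θ2 k =
      -((ν * nsq k : ℝ) : ℂ) * b k + κ * (Bil ck b a1 k + Bil ck a2 b k)
        + -(Complex.I * (g * fk k : ℝ) * ζ k) := by
    have := Bil_sub (c := ck) (a := a1) (x := a1) (a' := a2) (x' := a2) (k := k)
      (fun h => abs_ck_le k h) h1 h1 h2 h2 h5 h5
    rw [← this]
    unfold Fa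
    simp only [hb, hζ]
    ring
  have eT : Ft κ ek a1 θ1 k - Ft κ ek a2 θ2 k = κ * (Bil ek a1 ζ k + Bil ek b θ2 k) := by
    -- Bil a1 θ1 - Bil a2 θ2 = Bil a1 (θ1-θ2) + Bil (a1-a2) θ2
    have s1 := summable_bil (k := k) (a := a1) (x := θ1) (fun h => abs_ek_le_left k h) h1 h3
    have s2 := summable_bil (k := k) (a := a2) (x := θ2) (fun h => abs_ek_le_left k h) h2 h4
    have s3 := summable_bil (k := k) (a := a1) (x := ζ) (fun h => abs_ek_le_left k h) h1 h6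
    have s4 := summable_bil (k := k) (a := b) (x := θ2) (fun h => abs_ek_le_left k h) h5 h4
    unfold Ft
    rw [← mul_sub]
    congr 1
    unfold Bil
    rw [← s1.tsum_sub s2, ← s3.tsum_add s4]
    apply tsum_congr
    intro h
    simp only [hb, hζ]
    ring
  have r1 : (conj (b k) * (-((ν * nsq k : ℝ) : ℂ) * b k)).re = -(ν * nsq k) * ‖b k‖ ^ 2 :=
    re_conj_mul_self _ _
  have q1 := re_conj_mul_Bil (b k) (summable_bil (k := k) (a := b) (x := a1)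
    (fun h => abs_ck_le k h) h5 h1)
  have q2 := re_conj_mul_Bil (b k) (summable_bil (k := k) (a := a2) (x := b)
    (fun h => abs_ck_le k h) h2 h5)
  have q3 := re_conj_mul_Bil (ζ k) (summable_bil (k := k) (a := a1) (x := ζ)
    (fun h => abs_ek_le_left k h) h1 h6)
  have q4 := re_conj_mul_Bil (ζ k) (summable_bil (k := k) (a := b) (x := θ2)
    (fun h => abs_ek_le_left k h) h5 h4)
  have c1 : (conj (b k) * (Fa ν κ g ck a1 θ1 k - Fa ν κ g ck a2 θ2 k)).re =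
      -(ν * nsq k) * ‖b k‖ ^ 2 + κ * ((∑' h, X1 b a1 k h) + ∑' h, X2 b a2 k h) + Yb b ζ g k := by
    rw [eA]
    have e : conj (b k) * (-((ν * nsq k : ℝ) : ℂ) * b k + κ * (Bil ck b a1 k + Bil ck a2 b k)
        + -(Complex.I * (g * fk k : ℝ) * ζ k)) = conj (b k) * (-((ν * nsq k : ℝ) : ℂ) * b k)
        + ((κ : ℝ) : ℂ) * (conj (b k) * Bil ck b a1 k + conj (b k) * Bil ck a2 b k)
        + conj (b k) * -(Complex.I * (g * fk k : ℝ) * ζ k) := by ring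
    rw [e, Complex.add_re, Complex.add_re, r1, Complex.re_ofReal_mul, Complex.add_re, q1, q2]
    rfl
  have c2 : (conj (ζ k) * (Ft κ ek a1 θ1 k - Ft κ ek a2 θ2 k)).re =
      κ * ((∑' h, X3' ζ a1 k h) + ∑' h, (conj (ζ k) * ((ek k h : ℂ) * b (k - h) * θ2 h)).re) := by
    rw [eT]
    have e : conj (ζ k) * (κ * (Bil ek a1 ζ k + Bil ek b θ2 k)) =
      ((κ : ℝ) : ℂ) * (conj (ζ k) * Bil ek a1 ζ k + conj (ζ k) * Bil ek b θ2 k) := by ring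
    rw [e, Complex.re_ofReal_mul, Complex.add_re, q3, q4]
    rfl
  have c3 : ∑' h, 1 / nsq k * X3' ζ a1 k h = 1 / nsq k * ∑' h, X3' ζ a1 k h := tsum_mul_left
  have c4 : ∑' h, X4 b ζ θ2 k h =
      1 / nsq k * ∑' h, (conj (ζ k) * ((ek k h : ℂ) * b (k - h) * θ2 h)).re := by
    rw [← tsum_mul_left]
    rfl
  unfold dk'
  rw [c1, c2, c3, c4]
  simp only [hb]
  ring

/-- All the bounds on a pair of states used below. -/
structure PairBd (M P : ℝ) (a1 θ1 a2 θ2 : K → ℂ) : Prop where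
  hM : 1 ≤ M
  hP : 1 ≤ P
  a10 : L (fun k => ‖a1 k‖ ^ 2) ≤ ENNReal.ofReal M
  a20 : L (fun k => ‖a2 k‖ ^ 2) ≤ ENNReal.ofReal M
  b0 : L (fun k => ‖a1 k - a2 k‖ ^ 2) ≤ ENNReal.ofReal M
  θ10 : L (fun k => ‖θ1 k‖ ^ 2) ≤ ENNReal.ofReal M
  θ20 : L (fun k => ‖θ2 k‖ ^ 2) ≤ ENNReal.ofReal M
  ζ0 : L (fun k => ‖θ1 k - θ2 k‖ ^ 2) ≤ ENNReal.ofReal M
  a11 : L (fun k => nsq k * ‖a1 k‖ ^ 2) ≤ ENNReal.ofReal P
  a21 : L (fun k => nsq k * ‖a2 k‖ ^ 2) ≤ ENNReal.ofReal P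
  b1 : L (fun k => nsq k * ‖a1 k - a2 k‖ ^ 2) ≤ ENNReal.ofReal P
  MP : M ≤ P
  zb : a1 0 - a2 0 = 0
  zζ : θ1 0 - θ2 0 = 0
  s1 : Sym a1
  s2 : Sym a2

lemma ofReal_ne {M : ℝ} {x : ℝ≥0∞} (h : x ≤ ENNReal.ofReal M) : x ≠ ∞ :=
  ne_top_of_le_ne_top ENNReal.ofReal_ne_top h

lemma PairBd.T1 {M P : ℝ} {a1 θ1 a2 θ2 : K → ℂ} (H : PairBd M P a1 θ1 a2 θ2) :
    T (fun k => ‖a1 k - a2 k‖) (fun k => ‖a1 k - a2 k‖) (fun k => nrm k * ‖a1 k‖) ≤
      ENNReal.ofReal (25 / 2 * P + (M + 1) ^ 2 / 2 * P) := by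
  rw [T_swap']
  have hM := H.hM
  have hP := H.hP
  have hR : 1 ≤ √P := Real.one_le_sqrt.mpr hP
  have hR2 : √P ^ 2 = P := Real.sq_sqrt (by linarith)
  have hb0 := L_neg' (fun _ => 1) (fun _ => rfl) (fun k => ‖a1 k - a2 k‖)
  have hb1 := L_neg' nsq nsq_neg (fun k => ‖a1 k - a2 k‖)
  simp only [one_mul] at hb0
  have := T_crude (R := √P) (A := P) (M := M) hR (by linarith) (by linarith)
    (f := fun k => nrm k * ‖a1 k‖) (x := fun k => ‖a1 (-k) - a2 (-k)‖)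
    (y := fun k => ‖a1 k - a2 k‖) (by rw [nrm_mul_sq_eq]; exact H.a11) (hb0.le.trans H.b0)
    (by rw [hR2]; exact hb1.le.trans H.b1) H.b0 (by rw [hR2]; exact H.b1)
  rwa [hR2] at this

lemma PairBd.T2 {M P : ℝ} {a1 θ1 a2 θ2 : K → ℂ} (H : PairBd M P a1 θ1 a2 θ2) :
    T (fun k => nrm k * ‖a1 k - a2 k‖) (fun k => ‖a2 k‖) (fun k => ‖a1 k - a2 k‖) ≤
      ENNReal.ofReal (25 / 2 * P + (M + 1) ^ 2 / 2 * P) := by
  have hM := H.hM
  have hP := H.hP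
  have hR : 1 ≤ √P := Real.one_le_sqrt.mpr hP
  have hR2 : √P ^ 2 = P := Real.sq_sqrt (by linarith)
  have := T_crude (R := √P) (A := P) (M := M) hR (by linarith) (by linarith)
    (f := fun k => nrm k * ‖a1 k - a2 k‖) (x := fun k => ‖a2 k‖)
    (y := fun k => ‖a1 k - a2 k‖) (by
      have := nrm_mul_sq_eq (fun k => a1 k - a2 k)
      rw [this]; exact H.b1) H.a20
    (by rw [hR2]; exact H.a21) H.b0 (by rw [hR2]; exact H.b1)
  rwa [hR2] at this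

lemma PairBd.T3 {M P : ℝ} {a1 θ1 a2 θ2 : K → ℂ} (H : PairBd M P a1 θ1 a2 θ2) :
    T (eta (fun k => θ1 k - θ2 k)) (fun k => ‖a1 k‖) (fun k => ‖θ1 k - θ2 k‖) ≤
      ENNReal.ofReal (25 / 2 * P + (M + 1) ^ 2 / 2 * P) := by
  rw [T_swap']
  have hM := H.hM
  have hP := H.hP
  have hR : 1 ≤ √P := Real.one_le_sqrt.mpr hP
  have hR2 : √P ^ 2 = P := Real.sq_sqrt (by linarith)
  have hb0 := L_neg' (fun _ => 1) (fun _ => rfl) (fun k => ‖a1 k‖)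
  have hb1 := L_neg' nsq nsq_neg (fun k => ‖a1 k‖)
  simp only [one_mul] at hb0
  have hMP : ENNReal.ofReal M ≤ ENNReal.ofReal P := ENNReal.ofReal_le_ofReal H.MP
  have := T_crude (R := √P) (A := P) (M := M) hR (by linarith) (by linarith)
    (f := fun k => ‖θ1 k - θ2 k‖) (x := fun k => ‖a1 (-k)‖)
    (y := eta (fun k => θ1 k - θ2 k)) (H.ζ0.trans hMP) (hb0.le.trans H.a10)
    (by rw [hR2]; exact hb1.le.trans H.a11) (L_eta0 H.ζ0)
    (by rw [hR2]; exact (L_eta1 H.zζ H.ζ0).trans hMP)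
  rwa [hR2] at this

lemma PairBd.T4 {M P : ℝ} {a1 θ1 a2 θ2 : K → ℂ} (H : PairBd M P a1 θ1 a2 θ2) :
    T (eta (fun k => θ1 k - θ2 k)) (fun k => ‖a1 k - a2 k‖) (fun k => ‖θ2 k‖) ≤
      ENNReal.ofReal (25 / 2 * P + (M + 1) ^ 2 / 2 * P) := by
  rw [T_swap']
  have hM := H.hM
  have hP := H.hP
  have hR : 1 ≤ √P := Real.one_le_sqrt.mpr hP
  have hR2 : √P ^ 2 = P := Real.sq_sqrt (by linarith)
  have hb0 := L_neg' (fun _ => 1) (fun _ => rfl) (fun k => ‖a1 k - a2 k‖)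
  have hb1 := L_neg' nsq nsq_neg (fun k => ‖a1 k - a2 k‖)
  simp only [one_mul] at hb0
  have hMP : ENNReal.ofReal M ≤ ENNReal.ofReal P := ENNReal.ofReal_le_ofReal H.MP
  have := T_crude (R := √P) (A := P) (M := M) hR (by linarith) (by linarith)
    (f := fun k => ‖θ2 k‖) (x := fun k => ‖a1 (-k) - a2 (-k)‖)
    (y := eta (fun k => θ1 k - θ2 k)) (H.θ20.trans hMP) (hb0.le.trans H.b0)
    (by rw [hR2]; exact hb1.le.trans H.b1) (L_eta0 H.ζ0)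
    (by rw [hR2]; exact (L_eta1 H.zζ H.ζ0).trans hMP)
  rwa [hR2] at this

end

end Pancake
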