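import Pool.Agent.Pancake.Static3

/-!
# MP_771030_an: the energy balance of the difference of two solutions, static part III
-/

namespace Pancake

open Set Filter Topology
open scoped ENNReal NNReal ComplexConjugate

noncomputable section

variable {ν κ g lam M P : ℝ} {a1 θ1 a2 θ2 : K → ℂ}

/-- bound for the four double series. -/
def BB4 (M P : ℝ) : ℝ := 25 / 2 * P + (M + 1) ^ 2 / 2 * P

lemma BB4_nonneg (hP : 0 ≤ P) : 0 ≤ BB4 M P := by unfold BB4; positivity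

/-- conclusion of `rows`. -/
def RowsC (X : K → K → ℝ) (B : ℝ) : Prop :=
  HasSum (fun k => ∑' l, X k l) (∑' p : K × K, X p.1 p.2) ∧
      (∀ F : Finset K, ∑ k ∈ F, |∑' l, X k l| ≤ B) ∧ |∑' p : K × K, X p.1 p.2| ≤ B

lemma PairBd.r1 (H : PairBd M P a1 θ1 a2 θ2) :
    RowsC (X1 (fun k => a1 k - a2 k) a1) (BB4 M P) :=
  rows (BB4_nonneg (M := M) (by linarith [H.hP] : 0 ≤ P)) (fun k h => abs_X1_le k h) H.T1

lemma PairBd.r2 (H : PairBd M P a1 θ1 a2 θ2) :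
    RowsC (X2 (fun k => a1 k - a2 k) a2) (BB4 M P) :=
  rows (BB4_nonneg (M := M) (by linarith [H.hP] : 0 ≤ P)) (fun k h => abs_X2_le k h) H.T2

lemma PairBd.r3 (H : PairBd M P a1 θ1 a2 θ2) :
    RowsC (fun k h => 1 / nsq k * X3' (fun k => θ1 k - θ2 k) a1 k h) (BB4 M P) :=
  rows (BB4_nonneg (M := M) (by linarith [H.hP] : 0 ≤ P)) (fun k h => abs_X3_le k h) H.T3

lemma PairBd.r4 (H : PairBd M P a1 θ1 a2 θ2) :
    RowsC (X4 (fun k => a1 k - a2 k) (fun k => θ1 k - θ2 k) θ2) (BB4 M P) :=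
  rows (BB4_nonneg (M := M) (by linarith [H.hP] : 0 ≤ P)) (fun k h => abs_X4_le k h) H.T4

lemma nnb (x : K → ℂ) (k : K) : 0 ≤ nsq k * ‖x k‖ ^ 2 := by
  have := nsq_nonneg k
  positivity

lemma PairBd.sb1 (H : PairBd M P a1 θ1 a2 θ2) :
    Summable (fun k => nsq k * ‖a1 k - a2 k‖ ^ 2) :=
  summable_of_L (fun k => nnb (fun k => a1 k - a2 k) k) (ofReal_ne H.b1)

lemma PairBd.sη (H : PairBd M P a1 θ1 a2 θ2) :
    Summable (fun k => eta (fun k => θ1 k - θ2 k) k ^ 2) :=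
  summable_of_L (fun k => by positivity) (ofReal_ne (L_eta0 H.ζ0))

lemma PairBd.sYabs (H : PairBd M P a1 θ1 a2 θ2) (hν : 0 < ν) :
    Summable (fun k => |Yb (fun k => a1 k - a2 k) (fun k => θ1 k - θ2 k) g k|) :=
  Summable.of_nonneg_of_le (fun _ => abs_nonneg _) (fun k => abs_Yb_le (g := g) hν H.zζ k)
    ((H.sb1.mul_left _).add (H.sη.mul_left _))

/-- The sum over all modes of the derivative. -/
def Dsum (ν κ g lam : ℝ) (a1 θ1 a2 θ2 : K → ℂ) : ℝ :=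
  -2 * ν * (∑' k, nsq k * ‖a1 k - a2 k‖ ^ 2) +
      2 * κ * (∑' p : K × K, X1 (fun k => a1 k - a2 k) a1 p.1 p.2) +
      2 * κ * (∑' p : K × K, X2 (fun k => a1 k - a2 k) a2 p.1 p.2) +
      2 * (∑' k, Yb (fun k => a1 k - a2 k) (fun k => θ1 k - θ2 k) g k) +
      2 * (lam * κ) * (∑' p : K × K, 1 / nsq p.1 * X3' (fun k => θ1 k - θ2 k) a1 p.1 p.2) +
      2 * (lam * κ) * (∑' p : K × K, X4 (fun k => a1 k - a2 k) (fun k => θ1 k - θ2 k) θ2 p.1 p.2)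

lemma PairBd.eq (H : PairBd M P a1 θ1 a2 θ2) (k : K) :
    dk' ν κ g lam (fun k => a1 k - a2 k) (fun k => θ1 k - θ2 k) a1 θ1 a2 θ2 k =
      -2 * ν * (nsq k * ‖a1 k - a2 k‖ ^ 2) +
      2 * κ * (∑' h, X1 (fun k => a1 k - a2 k) a1 k h) +
      2 * κ * (∑' h, X2 (fun k => a1 k - a2 k) a2 k h) +
      2 * Yb (fun k => a1 k - a2 k) (fun k => θ1 k - θ2 k) g k +
      2 * (lam * κ) * (∑' h, 1 / nsq k * X3' (fun k => θ1 k - θ2 k) a1 k h) +
      2 * (lam * κ) * (∑' h, X4 (fun k => a1 k - a2 k) (fun k => θ1 k - θ2 k) θ2 k h) :=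
  dk'_eq (ofReal_ne H.a10) (ofReal_ne H.a20)
    (ofReal_ne H.θ10) (ofReal_ne H.θ20) (ofReal_ne H.b0) (ofReal_ne H.ζ0) k

lemma PairBd.hasSum (H : PairBd M P a1 θ1 a2 θ2) (hν : 0 < ν) :
    HasSum (dk' ν κ g lam (fun k => a1 k - a2 k) (fun k => θ1 k - θ2 k) a1 θ1 a2 θ2)
      (Dsum ν κ g lam a1 θ1 a2 θ2) := by
  have e : dk' ν κ g lam (fun k => a1 k - a2 k) (fun k => θ1 k - θ2 k) a1 θ1 a2 θ2 =
    fun k => -2 * ν * (nsq k * ‖a1 k - a2 k‖ ^ 2) +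
      2 * κ * (∑' h, X1 (fun k => a1 k - a2 k) a1 k h) +
      2 * κ * (∑' h, X2 (fun k => a1 k - a2 k) a2 k h) +
      2 * Yb (fun k => a1 k - a2 k) (fun k => θ1 k - θ2 k) g k +
      2 * (lam * κ) * (∑' h, 1 / nsq k * X3' (fun k => θ1 k - θ2 k) a1 k h) +
      2 * (lam * κ) * (∑' h, X4 (fun k => a1 k - a2 k) (fun k => θ1 k - θ2 k) θ2 k h) := by
    funext k
    exact H.eq k
  rw [e]
  unfold Dsum
  refine HasSum.add (HasSum.add (HasSum.add (HasSum.add (HasSum.add ?_ ?_) ?_) ?_) ?_) ?_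
  · exact H.sb1.hasSum.mul_left _
  · exact H.r1.1.mul_left _
  · exact H.r2.1.mul_left _
  · exact ((H.sYabs (g := g) hν).of_abs.hasSum).mul_left _
  · exact H.r3.1.mul_left _
  · exact H.r4.1.mul_left _

/-- constant of the domination. -/
def Cdom (ν κ g M : ℝ) : ℝ :=
  2 * ν + 8 * |κ| * (25 / 2 + (M + 1) ^ 2 / 2) + 2 * (ν / 4 + g ^ 2 / ν * M)

lemma PairBd.dom (H : PairBd M P a1 θ1 a2 θ2) (hν : 0 < ν) (hl0 : 0 ≤ lam) (hl1 : lam ≤ 1)
    (F : Finset K) :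
    |∑ k ∈ F, dk' ν κ g lam (fun k => a1 k - a2 k) (fun k => θ1 k - θ2 k) a1 θ1 a2 θ2 k|
      ≤ Cdom ν κ g M * P := by
  have hP := H.hP
  have hM := H.hM
  have q1 := H.r1.2.1 F
  have q2 := H.r2.2.1 F
  have q3 := H.r3.2.1 F
  have q4 := H.r4.2.1 F
  have q0 : ∑ k ∈ F, nsq k * ‖a1 k - a2 k‖ ^ 2 ≤ P :=
    (H.sb1.sum_le_tsum F (fun k _ => nnb (fun k => a1 k - a2 k) k)).trans
      (tsum_le_of_L (fun k => nnb (fun k => a1 k - a2 k) k) (by linarith) H.b1)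
  have qη : ∑ k ∈ F, eta (fun k => θ1 k - θ2 k) k ^ 2 ≤ M :=
    (H.sη.sum_le_tsum F (fun k _ => by positivity)).trans
      (tsum_le_of_L (fun k => by positivity) (by linarith) (L_eta0 H.ζ0))
  have qY : ∑ k ∈ F, |Yb (fun k => a1 k - a2 k) (fun k => θ1 k - θ2 k) g k| ≤
      ν / 4 * P + g ^ 2 / ν * M := by
    calc _ ≤ ∑ k ∈ F, (ν / 4 * (nsq k * ‖a1 k - a2 k‖ ^ 2)
          + g ^ 2 / ν * eta (fun k => θ1 k - θ2 k) k ^ 2) :=
          Finset.sum_le_sum fun k _ => abs_Yb_le (g := g) hν H.zζ k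
      _ = ν / 4 * ∑ k ∈ F, (nsq k * ‖a1 k - a2 k‖ ^ 2)
          + g ^ 2 / ν * ∑ k ∈ F, eta (fun k => θ1 k - θ2 k) k ^ 2 := by
          rw [Finset.sum_add_distrib, Finset.mul_sum, Finset.mul_sum]
      _ ≤ _ := by gcongr
  have hB : BB4 M P = (25 / 2 + (M + 1) ^ 2 / 2) * P := by unfold BB4; ring
  calc |∑ k ∈ F, dk' ν κ g lam (fun k => a1 k - a2 k) (fun k => θ1 k - θ2 k) a1 θ1 a2 θ2 k|
      ≤ ∑ k ∈ F, |dk' ν κ g lam (fun k => a1 k - a2 k) (fun k => θ1 k - θ2 k) a1 θ1 a2 θ2 k| :=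
        Finset.abs_sum_le_sum_abs _ _
    _ ≤ ∑ k ∈ F, (2 * ν * (nsq k * ‖a1 k - a2 k‖ ^ 2) +
          2 * |κ| * |∑' h, X1 (fun k => a1 k - a2 k) a1 k h| +
          2 * |κ| * |∑' h, X2 (fun k => a1 k - a2 k) a2 k h| +
          2 * |Yb (fun k => a1 k - a2 k) (fun k => θ1 k - θ2 k) g k| +
          2 * |κ| * |∑' h, 1 / nsq k * X3' (fun k => θ1 k - θ2 k) a1 k h| +
          2 * |κ| * |∑' h, X4 (fun k => a1 k - a2 k) (fun k => θ1 k - θ2 k) θ2 k h|) := by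
        apply Finset.sum_le_sum
        intro k _
        rw [H.eq k]
        have n0 := nnb (fun k => a1 k - a2 k) k
        have hlk : |lam * κ| ≤ |κ| := by
          rw [abs_mul, abs_of_nonneg hl0]
          calc lam * |κ| ≤ 1 * |κ| := by gcongr
            _ = |κ| := one_mul _
        have t0 : |-2 * ν * (nsq k * ‖a1 k - a2 k‖ ^ 2)| = 2 * ν * (nsq k * ‖a1 k - a2 k‖ ^ 2) := by
          rw [abs_mul, abs_mul, abs_neg, abs_of_pos hν, abs_of_pos (by norm_num : (0 : ℝ) < 2),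
            abs_of_nonneg n0]
        refine (abs_add_le _ _).trans (add_le_add ?_ ?_)
        · refine (abs_add_le _ _).trans (add_le_add ?_ ?_)
          · refine (abs_add_le _ _).trans (add_le_add ?_ ?_)
            · refine (abs_add_le _ _).trans (add_le_add ?_ ?_)
              · refine (abs_add_le _ _).trans (add_le_add t0.le ?_)
                rw [abs_mul, abs_mul, abs_of_pos (by norm_num : (0 : ℝ) < 2)]
              · rw [abs_mul, abs_mul, abs_of_pos (by norm_num : (0 : ℝ) < 2)]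
            · rw [abs_mul, abs_of_pos (by norm_num : (0 : ℝ) < 2)]
          · rw [abs_mul, abs_mul 2 (lam * κ), abs_of_pos (by norm_num : (0 : ℝ) < 2)]
            gcongr
        · rw [abs_mul, abs_mul 2 (lam * κ), abs_of_pos (by norm_num : (0 : ℝ) < 2)]
          gcongr
    _ = 2 * ν * (∑ k ∈ F, nsq k * ‖a1 k - a2 k‖ ^ 2) +
          2 * |κ| * (∑ k ∈ F, |∑' h, X1 (fun k => a1 k - a2 k) a1 k h|) +
          2 * |κ| * (∑ k ∈ F, |∑' h, X2 (fun k => a1 k - a2 k) a2 k h|) +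
          2 * (∑ k ∈ F, |Yb (fun k => a1 k - a2 k) (fun k => θ1 k - θ2 k) g k|) +
          2 * |κ| * (∑ k ∈ F, |∑' h, 1 / nsq k * X3' (fun k => θ1 k - θ2 k) a1 k h|) +
          2 * |κ| * (∑ k ∈ F, |∑' h, X4 (fun k => a1 k - a2 k) (fun k => θ1 k - θ2 k) θ2 k h|) := by
        simp only [Finset.sum_add_distrib, Finset.mul_sum]
    _ ≤ 2 * ν * P + 2 * |κ| * BB4 M P + 2 * |κ| * BB4 M P + 2 * (ν / 4 * P + g ^ 2 / ν * M)
          + 2 * |κ| * BB4 M P + 2 * |κ| * BB4 M P := by gcongr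
    _ ≤ Cdom ν κ g M * P := by
        unfold Cdom
        rw [hB]
        have : g ^ 2 / ν * M ≤ g ^ 2 / ν * M * P := by
          have h0 : 0 ≤ g ^ 2 / ν * M := by positivity
          nlinarith
        nlinarith

end

end Pancake
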