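import Pool.Agent.Pancake.Gal3

/-!
# MP_771030_an: the system in integral form, bounds and limits of the bilinear terms
-/

namespace Pancake

open Set Filter Topology MeasureTheory
open scoped ENNReal NNReal ComplexConjugate

noncomputable section

/-- Integral form of the equations on the time set `J`. -/
structure IntSol (ν κ g : ℝ) (c e : K → K → ℝ) (J : Set ℝ) (a θ : ℝ → K → ℂ) : Prop where
  ca : ∀ k, ContinuousOn (fun t => a t k) J
  ct : ∀ k, ContinuousOn (fun t => θ t k) J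
  ea : ∀ k, ∀ s ∈ J, ∀ t ∈ J, s ≤ t → a t k - a s k = ∫ τ in s..t, Fa ν κ g c (a τ) (θ τ) k
  et : ∀ k, ∀ s ∈ J, ∀ t ∈ J, s ≤ t → θ t k - θ s k = ∫ τ in s..t, Ft κ e (a τ) (θ τ) k

/-- Uniform bounds on the time set `J`. -/
structure Cls (M0 M1 ν : ℝ) (J : Set ℝ) (a θ : ℝ → K → ℂ) : Prop where
  sa : ∀ t ∈ J, Sym (a t)
  st : ∀ t ∈ J, Sym (θ t)
  z : ∀ t ∈ J, a t 0 = 0
  bt : ∀ t ∈ J, L (fun k => ‖θ t k‖ ^ 2) ≤ ENNReal.ofReal M0
  ba : ∀ t ∈ J, L (fun k => nsq k * ‖a t k‖ ^ 2) ≤ ENNReal.ofReal M1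
  bi : ∀ s ∈ J, ∀ t ∈ J, s ≤ t →
    ∫⁻ τ in Icc s t, L (fun k => nsq k ^ 2 * ‖a τ k‖ ^ 2) ≤ ENNReal.ofReal (M1 / ν + M1 * (t - s))

/-! ### `L` and real sums -/

lemma summable_of_L {f : K → ℝ} (hf : ∀ k, 0 ≤ f k) (h : L f ≠ ∞) : Summable f := by
  have := ENNReal.summable_toReal h
  refine this.congr fun k => ?_
  rw [ENNReal.toReal_ofReal (hf k)]

lemma L_eq_ofReal {f : K → ℝ} (hf : ∀ k, 0 ≤ f k) (h : L f ≠ ∞) :
    L f = ENNReal.ofReal (∑' k, f k) :=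
  (ENNReal.ofReal_tsum_of_nonneg hf (summable_of_L hf h)).symm

lemma tsum_le_of_L {f : K → ℝ} (hf : ∀ k, 0 ≤ f k) {C : ℝ} (hC : 0 ≤ C)
    (h : L f ≤ ENNReal.ofReal C) : ∑' k, f k ≤ C := by
  have h1 : L f ≠ ∞ := ne_top_of_le_ne_top ENNReal.ofReal_ne_top h
  rw [L_eq_ofReal hf h1, ENNReal.ofReal_le_ofReal_iff hC] at h
  exact h

lemma le_of_L {f : K → ℝ} {C : ℝ} (hC : 0 ≤ C) (h : L f ≤ ENNReal.ofReal C) (k : K) : f k ≤ C := by
  have h1 : ENNReal.ofReal (f k) ≤ L f := ENNReal.le_tsum k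
  exact (ENNReal.ofReal_le_ofReal_iff hC).mp (h1.trans h)

/-- Lower semicontinuity of `L`. -/
lemma L_le_of_tendsto {ι : Type*} {l : Filter ι} [l.NeBot] {f : ι → K → ℝ} {fl : K → ℝ}
    (h : ∀ k, Tendsto (fun n => f n k) l (𝓝 (fl k))) {C : ℝ≥0∞} (hC : ∀ᶠ n in l, L (f n) ≤ C) :
    L fl ≤ C := by
  unfold L
  rw [ENNReal.tsum_eq_iSup_sum]
  apply iSup_le
  intro s
  have h1 : Tendsto (fun n => ∑ k ∈ s, ENNReal.ofReal (f n k)) l
      (𝓝 (∑ k ∈ s, ENNReal.ofReal (fl k))) := by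
    apply tendsto_finsetSum
    intro k _
    exact (ENNReal.continuous_ofReal.tendsto _).comp (h k)
  refine le_of_tendsto h1 ?_
  filter_upwards [hC] with n hn
  exact (ENNReal.sum_le_tsum s).trans hn

/-! ### Tails -/

lemma tendsto_tsum_of_tail {ι : Type*} {l : Filter ι} {t : ι → K → ℂ} {tl : K → ℂ}
    (hp : ∀ h, Tendsto (fun n => t n h) l (𝓝 (tl h)))
    (tail : ∀ ε > 0, ∃ F : Finset K, (∀ᶠ n in l, ‖∑' h, t n h - ∑ h ∈ F, t n h‖ ≤ ε) ∧
      ‖∑' h, tl h - ∑ h ∈ F, tl h‖ ≤ ε) :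
    Tendsto (fun n => ∑' h, t n h) l (𝓝 (∑' h, tl h)) := by
  rw [Metric.tendsto_nhds]
  intro ε hε
  obtain ⟨F, hF1, hF2⟩ := tail (ε / 4) (by positivity)
  have h1 : Tendsto (fun n => ∑ h ∈ F, t n h) l (𝓝 (∑ h ∈ F, tl h)) :=
    tendsto_finsetSum _ fun h _ => hp h
  rw [Metric.tendsto_nhds] at h1
  filter_upwards [hF1, h1 (ε / 4) (by positivity)] with n hn1 hn2
  rw [dist_eq_norm] at hn2 ⊢
  have e : ∑' h, t n h - ∑' h, tl h = (∑' h, t n h - ∑ h ∈ F, t n h)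
      + (∑ h ∈ F, t n h - ∑ h ∈ F, tl h) - (∑' h, tl h - ∑ h ∈ F, tl h) := by ring
  rw [e]
  calc _ ≤ ‖∑' h, t n h - ∑ h ∈ F, t n h‖ + ‖∑ h ∈ F, t n h - ∑ h ∈ F, tl h‖
        + ‖∑' h, tl h - ∑ h ∈ F, tl h‖ := (norm_sub_le _ _).trans (by gcongr; exact norm_add_le _ _)
    _ < ε := by linarith

open Classical in
/-- Bound for the tail of a bilinear term. -/
lemma tail_L {C M0 M1 δ R : ℝ} (hC : 0 ≤ C) (hδ : 0 < δ) (hR : 0 < R) (hM0 : 0 ≤ M0)
    (hM1 : 0 ≤ M1) {c : K → ℝ}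
    {a x : K → ℂ} {k : K} (hc : ∀ h, |c h| ≤ C)
    (ha : L (fun k => nsq k * ‖a k‖ ^ 2) ≤ ENNReal.ofReal M1)
    (hx : L (fun k => ‖x k‖ ^ 2) ≤ ENNReal.ofReal M0) :
    L (fun h => if nsq (k - h) < R ^ 2 then 0 else ‖(c h : ℂ) * a (k - h) * x h‖)
      ≤ ENNReal.ofReal (C * (M1 / (2 * δ * R ^ 2) + δ * M0 / 2)) := by
  have step : L (fun h => if nsq (k - h) < R ^ 2 then 0 else ‖(c h : ℂ) * a (k - h) * x h‖)
      ≤ ∑' h, (ENNReal.ofReal (C / (2 * δ * R ^ 2)) *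
        ENNReal.ofReal (nsq (k - h) * ‖a (k - h)‖ ^ 2) +
          ENNReal.ofReal (C * δ / 2) * ENNReal.ofReal (‖x h‖ ^ 2)) := by
    apply ENNReal.tsum_le_tsum
    intro h
    have hn := nsq_nonneg (k - h)
    rw [← ENNReal.ofReal_mul (by positivity), ← ENNReal.ofReal_mul (by positivity),
      ← ENNReal.ofReal_add (by positivity) (by positivity)]
    apply ENNReal.ofReal_le_ofReal
    beta_reduce
    split_ifs with hh
    · positivity
    · rw [norm_mul, norm_mul, Complex.norm_real, Real.norm_eq_abs]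
      have h1 : R ^ 2 ≤ nsq (k - h) := not_lt.mp hh
      have h2 : |c h| * ‖a (k - h)‖ * ‖x h‖ ≤ C * (‖a (k - h)‖ * ‖x h‖) := by
        rw [mul_assoc]
        gcongr
        exact hc h
      have h3 : ‖a (k - h)‖ * ‖x h‖ ≤ 1 / (2 * δ) * ‖a (k - h)‖ ^ 2 + δ / 2 * ‖x h‖ ^ 2 := by
        have e : 1 / (2 * δ) * ‖a (k - h)‖ ^ 2 + δ / 2 * ‖x h‖ ^ 2 - ‖a (k - h)‖ * ‖x h‖
            = (1 / (2 * δ)) * (‖a (k - h)‖ - δ * ‖x h‖) ^ 2 := by
          field_simp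
          ring
        have : 0 ≤ (1 / (2 * δ)) * (‖a (k - h)‖ - δ * ‖x h‖) ^ 2 := by positivity
        linarith
      have h4 : 1 / (2 * δ) * ‖a (k - h)‖ ^ 2 ≤
          1 / (2 * δ * R ^ 2) * (nsq (k - h) * ‖a (k - h)‖ ^ 2) := by
        have e : 1 / (2 * δ) * ‖a (k - h)‖ ^ 2 = 1 / (2 * δ * R ^ 2) * (R ^ 2 * ‖a (k - h)‖ ^ 2) := by
          field_simp
        rw [e]
        gcongr
      calc _ ≤ C * (‖a (k - h)‖ * ‖x h‖) := h2
        _ ≤ C * (1 / (2 * δ * R ^ 2) * (nsq (k - h) * ‖a (k - h)‖ ^ 2) + δ / 2 * ‖x h‖ ^ 2) := by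
            gcongr
            linarith
        _ = _ := by ring
  refine step.trans ?_
  rw [ENNReal.tsum_add, ENNReal.tsum_mul_left, ENNReal.tsum_mul_left]
  have e1 : ∑' h : K, ENNReal.ofReal (nsq (k - h) * ‖a (k - h)‖ ^ 2)
      = L (fun k => nsq k * ‖a k‖ ^ 2) :=
    tsum_sub_left k (fun j => ENNReal.ofReal (nsq j * ‖a j‖ ^ 2))
  rw [e1]
  calc _ ≤ ENNReal.ofReal (C / (2 * δ * R ^ 2)) * ENNReal.ofReal M1
        + ENNReal.ofReal (C * δ / 2) * ENNReal.ofReal M0 := by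
        gcongr
        exact hx
    _ = ENNReal.ofReal (C * (M1 / (2 * δ * R ^ 2) + δ * M0 / 2)) := by
        rw [← ENNReal.ofReal_mul (by positivity), ← ENNReal.ofReal_mul (by positivity),
          ← ENNReal.ofReal_add (by positivity) (by positivity)]
        congr 1
        field_simp

/-- General bound for a bilinear term. -/
lemma bil_L {C M0 M1 : ℝ} (hC : 0 ≤ C) (hM0 : 0 ≤ M0) (hM1 : 0 ≤ M1) {c : K → ℝ}
    {a x : K → ℂ} {k : K} (hc : ∀ h, |c h| ≤ C)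
    (ha : L (fun k => ‖a k‖ ^ 2) ≤ ENNReal.ofReal M1)
    (hx : L (fun k => ‖x k‖ ^ 2) ≤ ENNReal.ofReal M0) :
    L (fun h => ‖(c h : ℂ) * a (k - h) * x h‖) ≤ ENNReal.ofReal (C * (M1 + M0)) := by
  have step : L (fun h => ‖(c h : ℂ) * a (k - h) * x h‖)
      ≤ ∑' h, (ENNReal.ofReal C * ENNReal.ofReal (‖a (k - h)‖ ^ 2) +
          ENNReal.ofReal C * ENNReal.ofReal (‖x h‖ ^ 2)) := by
    apply ENNReal.tsum_le_tsum
    intro h
    rw [← ENNReal.ofReal_mul (by positivity), ← ENNReal.ofReal_mul (by positivity),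
      ← ENNReal.ofReal_add (by positivity) (by positivity)]
    apply ENNReal.ofReal_le_ofReal
    beta_reduce
    rw [norm_mul, norm_mul, Complex.norm_real, Real.norm_eq_abs]
    have h2 : |c h| * ‖a (k - h)‖ * ‖x h‖ ≤ C * (‖a (k - h)‖ * ‖x h‖) := by
      rw [mul_assoc]
      gcongr
      exact hc h
    have h3 : ‖a (k - h)‖ * ‖x h‖ ≤ ‖a (k - h)‖ ^ 2 + ‖x h‖ ^ 2 := by
      nlinarith [sq_nonneg (‖a (k - h)‖ - ‖x h‖), sq_nonneg ‖a (k - h)‖, sq_nonneg ‖x h‖]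
    calc _ ≤ C * (‖a (k - h)‖ * ‖x h‖) := h2
      _ ≤ C * (‖a (k - h)‖ ^ 2 + ‖x h‖ ^ 2) := by gcongr
      _ = _ := by ring
  refine step.trans ?_
  rw [ENNReal.tsum_add, ENNReal.tsum_mul_left, ENNReal.tsum_mul_left]
  have e1 : ∑' h : K, ENNReal.ofReal (‖a (k - h)‖ ^ 2) = L (fun k => ‖a k‖ ^ 2) :=
    tsum_sub_left k (fun j => ENNReal.ofReal (‖a j‖ ^ 2))
  rw [e1]
  calc _ ≤ ENNReal.ofReal C * ENNReal.ofReal M1 + ENNReal.ofReal C * ENNReal.ofReal M0 := by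
        gcongr
        exact hx
    _ = _ := by
        rw [← ENNReal.ofReal_mul (by positivity), ← ENNReal.ofReal_mul (by positivity),
          ← ENNReal.ofReal_add (by positivity) (by positivity)]
        congr 1
        ring

lemma L_a_le {a : K → ℂ} (h0 : a 0 = 0) :
    L (fun k => ‖a k‖ ^ 2) ≤ L (fun k => nsq k * ‖a k‖ ^ 2) := by
  apply L_mono
  intro k
  by_cases hk : k = 0
  · rw [hk, h0]; simp
  · have := one_le_nsq hk
    nlinarith [sq_nonneg ‖a k‖]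

lemma finite_ball (k : K) (R : ℝ) : {h : K | nsq (k - h) < R ^ 2}.Finite := by
  have key : {h : K | nsq (k - h) < R ^ 2} ⊆
      (fun h => k - h) ⁻¹' (Set.pi univ (fun _ : Fin 2 => Icc (-⌈|R|⌉ : ℤ) ⌈|R|⌉)) := by
    intro h hh
    have hh' : nsq (k - h) < R ^ 2 := hh
    rw [mem_preimage, mem_univ_pi]
    have key2 : ∀ x : ℤ, (x : ℝ) ^ 2 ≤ R ^ 2 → x ∈ Icc (-⌈|R|⌉) ⌈|R|⌉ := by
      intro x hx
      have h1 : |(x : ℝ)| ≤ |R| := sq_le_sq.mp hx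
      have h2 : |R| ≤ ⌈|R|⌉ := Int.le_ceil _
      have h3 := abs_le.mp (h1.trans h2)
      constructor
      · exact_mod_cast h3.1
      · exact_mod_cast h3.2
    intro i
    apply key2
    unfold nsq at hh'
    fin_cases i
    · simp only [Fin.zero_eta, Fin.isValue]
      nlinarith [sq_nonneg (((k - h) 1 : ℤ) : ℝ)]
    · simp only [Fin.mk_one, Fin.isValue]
      nlinarith [sq_nonneg (((k - h) 0 : ℤ) : ℝ)]
  refine Set.Finite.subset (Set.Finite.preimage ?_ ?_) key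
  · intro x _ y _ hxy
    exact sub_right_injective hxy
  · exact Set.Finite.pi fun i => Set.finite_Icc (-⌈|R|⌉ : ℤ) ⌈|R|⌉

lemma tail_norm_le {C M0 M1 δ R : ℝ} (hC : 0 ≤ C) (hδ : 0 < δ) (hR : 0 < R) (hM0 : 0 ≤ M0)
    (hM1 : 0 ≤ M1) {c : K → ℝ}
    {a x : K → ℂ} {k : K} (hc : ∀ h, |c h| ≤ C) (h0 : a 0 = 0)
    (ha : L (fun k => nsq k * ‖a k‖ ^ 2) ≤ ENNReal.ofReal M1)
    (hx : L (fun k => ‖x k‖ ^ 2) ≤ ENNReal.ofReal M0) :
    ‖∑' h, (c h : ℂ) * a (k - h) * x h - ∑ h ∈ (finite_ball k R).toFinset,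
      (c h : ℂ) * a (k - h) * x h‖ ≤ C * (M1 / (2 * δ * R ^ 2) + δ * M0 / 2) := by
  classical
  set t : K → ℂ := fun h => (c h : ℂ) * a (k - h) * x h with ht
  set F := (finite_ball k R).toFinset with hF
  have hsum : Summable t := by
    have h1 := bil_L (c := c) (k := k) hC hM0 hM1 hc ((L_a_le h0).trans ha) hx
    exact (summable_of_L (fun _ => norm_nonneg _) (ne_top_of_le_ne_top ENNReal.ofReal_ne_top h1)).of_norm
  have e : ∑' h, t h - ∑ h ∈ F, t h = ∑' h, (if nsq (k - h) < R ^ 2 then 0 else t h) := by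
    have h1 : ∑ h ∈ F, t h = ∑' h, (if nsq (k - h) < R ^ 2 then t h else 0) := by
      rw [tsum_eq_sum (s := F)]
      · apply Finset.sum_congr rfl
        intro h hh
        rw [hF, Set.Finite.mem_toFinset] at hh
        have hh' : nsq (k - h) < R ^ 2 := hh
        rw [if_pos hh']
      · intro h hh
        rw [hF, Set.Finite.mem_toFinset] at hh
        have hh' : ¬ nsq (k - h) < R ^ 2 := hh
        rw [if_neg hh']
    have hs2 : Summable (fun h => if nsq (k - h) < R ^ 2 then t h else 0) := by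
      apply summable_of_ne_finset_zero (s := F)
      intro h hh
      rw [hF, Set.Finite.mem_toFinset] at hh
      have hh' : ¬ nsq (k - h) < R ^ 2 := hh
      rw [if_neg hh']
    rw [h1, ← hsum.tsum_sub hs2]
    apply tsum_congr
    intro h
    split_ifs <;> simp
  rw [e]
  have hL := tail_L (k := k) hC hδ hR hM0 hM1 hc ha hx
  have hnn : ∀ h, 0 ≤ (if nsq (k - h) < R ^ 2 then 0 else ‖t h‖) := by
    intro h
    split_ifs <;> positivity
  have hs3 := summable_of_L hnn (ne_top_of_le_ne_top ENNReal.ofReal_ne_top hL)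
  have h4 : ‖∑' h, (if nsq (k - h) < R ^ 2 then 0 else t h)‖
      ≤ ∑' h, (if nsq (k - h) < R ^ 2 then 0 else ‖t h‖) := by
    have e2 : (fun h => if nsq (k - h) < R ^ 2 then 0 else ‖t h‖) =
        fun h => ‖(if nsq (k - h) < R ^ 2 then 0 else t h)‖ := by
      funext h
      split_ifs <;> simp
    rw [e2] at hs3 ⊢
    exact norm_tsum_le_tsum_norm hs3
  refine h4.trans (tsum_le_of_L hnn (by positivity) hL)

/-- Continuity of bilinear terms. -/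
lemma tendsto_Bil {ι : Type*} {l : Filter ι} {C M0 M1 : ℝ} (hC : 0 ≤ C) (hM0 : 0 ≤ M0)
    (hM1 : 0 ≤ M1) {k : K} {c : ι → K → K → ℝ} {cl : K → K → ℝ} {a x : ι → K → ℂ}
    {al xl : K → ℂ} (hc : ∀ᶠ n in l, ∀ h, |c n k h| ≤ C) (hcl0 : ∀ h, |cl k h| ≤ C)
    (hcl : ∀ h, Tendsto (fun n => c n k h) l (𝓝 (cl k h)))
    (h0 : ∀ᶠ n in l, a n 0 = 0) (h0l : al 0 = 0)
    (ha : ∀ᶠ n in l, L (fun k => nsq k * ‖a n k‖ ^ 2) ≤ ENNReal.ofReal M1)
    (ha0 : L (fun k => nsq k * ‖al k‖ ^ 2) ≤ ENNReal.ofReal M1)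
    (hx : ∀ᶠ n in l, L (fun k => ‖x n k‖ ^ 2) ≤ ENNReal.ofReal M0)
    (hx0 : L (fun k => ‖xl k‖ ^ 2) ≤ ENNReal.ofReal M0)
    (hal : ∀ k, Tendsto (fun n => a n k) l (𝓝 (al k)))
    (hxl : ∀ k, Tendsto (fun n => x n k) l (𝓝 (xl k))) :
    Tendsto (fun n => Bil (c n) (a n) (x n) k) l (𝓝 (Bil cl al xl k)) := by
  unfold Bil
  apply tendsto_tsum_of_tail
  · intro h
    refine Tendsto.mul (Tendsto.mul ?_ (hal _)) (hxl h)
    exact (Complex.continuous_ofReal.tendsto _).comp (hcl h)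
  · intro ε hε
    -- choose δ and R
    set δ : ℝ := ε / (C * M0 + 1) with hδ
    have hδ0 : 0 < δ := by positivity
    set R : ℝ := √((C * M1 + 1) / (δ * ε)) with hR
    have hR0 : 0 < R := Real.sqrt_pos.mpr (by positivity)
    have hR2 : R ^ 2 = (C * M1 + 1) / (δ * ε) := Real.sq_sqrt (by positivity)
    have hfin : C * (M1 / (2 * δ * R ^ 2) + δ * M0 / 2) ≤ ε := by
      have h1 : C * (M1 / (2 * δ * R ^ 2)) ≤ ε / 2 := by
        rw [hR2]
        have : C * (M1 / (2 * δ * ((C * M1 + 1) / (δ * ε)))) = (C * M1 / (C * M1 + 1)) * (ε / 2) := by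
          field_simp
        rw [this]
        have h2 : C * M1 / (C * M1 + 1) ≤ 1 := by
          rw [div_le_one (by positivity)]; linarith
        calc _ ≤ 1 * (ε / 2) := by gcongr
          _ = ε / 2 := one_mul _
      have h3 : C * (δ * M0 / 2) ≤ ε / 2 := by
        rw [hδ]
        have : C * (ε / (C * M0 + 1) * M0 / 2) = (C * M0 / (C * M0 + 1)) * (ε / 2) := by
          field_simp
        rw [this]
        have h2 : C * M0 / (C * M0 + 1) ≤ 1 := by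
          rw [div_le_one (by positivity)]; linarith
        calc _ ≤ 1 * (ε / 2) := by gcongr
          _ = ε / 2 := one_mul _
      rw [mul_add]
      linarith
    refine ⟨(finite_ball k R).toFinset, ?_, ?_⟩
    · filter_upwards [hc, h0, ha, hx] with n h1 h2 h3 h4
      exact (tail_norm_le hC hδ0 hR0 hM0 hM1 h1 h2 h3 h4).trans hfin
    · exact (tail_norm_le hC hδ0 hR0 hM0 hM1 hcl0 h0l ha0 hx0).trans hfin

lemma norm_Bil_le {C M0 M1 : ℝ} (hC : 0 ≤ C) (hM0 : 0 ≤ M0) (hM1 : 0 ≤ M1) {c : K → K → ℝ}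
    {a x : K → ℂ} {k : K} (hc : ∀ h, |c k h| ≤ C)
    (ha : L (fun k => ‖a k‖ ^ 2) ≤ ENNReal.ofReal M1)
    (hx : L (fun k => ‖x k‖ ^ 2) ≤ ENNReal.ofReal M0) :
    ‖Bil c a x k‖ ≤ C * (M1 + M0) := by
  have h1 := bil_L (c := c k) (k := k) hC hM0 hM1 hc ha hx
  have hs := summable_of_L (fun _ => norm_nonneg _) (ne_top_of_le_ne_top ENNReal.ofReal_ne_top h1)
  exact (norm_tsum_le_tsum_norm hs).trans (tsum_le_of_L (fun _ => norm_nonneg _) (by positivity) h1)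

end

end Pancake
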