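import Pool.Agent.Pancake.Transfer2

/-!
# MP_771030_an: smooth periodic test functions
-/

namespace Pancake

open Set Filter Topology MeasureTheory
open scoped ENNReal NNReal ComplexConjugate Real

noncomputable section

variable {Λ : ℝ}

/-- The phase of a Fourier mode. -/
def phs (Λ : ℝ) (k : K) : (Fin 2 → ℝ) →L[ℝ] ℂ :=
  (-(Complex.I * ((kap Λ * (k 0 : ℝ) : ℝ) : ℂ))) •
      (Complex.ofRealCLM.comp (ContinuousLinearMap.proj (R := ℝ) (φ := fun _ : Fin 2 => ℝ) 0)) +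
    (-(Complex.I * ((kap Λ * (k 1 : ℝ) : ℝ) : ℂ))) •
      (Complex.ofRealCLM.comp (ContinuousLinearMap.proj (R := ℝ) (φ := fun _ : Fin 2 => ℝ) 1))

lemma phs_apply (k : K) (x : Fin 2 → ℝ) : phs Λ k x =
    (-(Complex.I * ((kap Λ * (k 0 : ℝ) : ℝ) : ℂ))) * (x 0 : ℂ) +
    (-(Complex.I * ((kap Λ * (k 1 : ℝ) : ℝ) : ℂ))) * (x 1 : ℂ) := rfl

lemma chi_eq_exp (k : K) : chi Λ k = fun x => Complex.exp (phs Λ k x) := by
  funext x
  rw [phs_apply]
  unfold chi
  congr 1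
  push_cast
  ring

lemma hasFDerivAt_chi (k : K) (x : Fin 2 → ℝ) :
    HasFDerivAt (chi Λ k) (chi Λ k x • phs Λ k) x := by
  rw [chi_eq_exp]
  exact (phs Λ k).hasFDerivAt.cexp

lemma pd_chi (j : Fin 2) (k : K) (x : Fin 2 → ℝ) :
    pd j (chi Λ k) x = -(Complex.I * (kap Λ : ℂ) * (k j : ℂ)) * chi Λ k x := by
  unfold pd
  rw [(hasFDerivAt_chi k x).fderiv]
  change chi Λ k x * phs Λ k (Pi.single j 1) = _
  rw [phs_apply]
  fin_cases j
  · simp; ring
  · simp; ring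

lemma pd_chi' (j : Fin 2) (k : K) :
    pd j (chi Λ k) = fun x => -(Complex.I * (kap Λ : ℂ) * (k j : ℂ)) * chi Λ k x :=
  funext fun x => pd_chi j k x

lemma contDiff_chi (k : K) : ContDiff ℝ ((⊤ : ℕ∞) : WithTop ℕ∞) (chi Λ k) := by
  rw [chi_eq_exp]
  exact (phs Λ k).contDiff.cexp

lemma test_chi (hΛ : 0 < Λ) (k : K) : Test Λ (chi Λ k) := by
  refine ⟨contDiff_chi k, ?_⟩
  intro x i
  unfold chi
  have e : -(Complex.I * ((kap Λ * ((k 0 : ℝ) * (x + Pi.single i Λ : Fin 2 → ℝ) 0 +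
      (k 1 : ℝ) * (x + Pi.single i Λ : Fin 2 → ℝ) 1) : ℝ) : ℂ)) =
      -(Complex.I * ((kap Λ * ((k 0 : ℝ) * x 0 + (k 1 : ℝ) * x 1) : ℝ) : ℂ)) +
        ((-(k i) : ℤ) : ℂ) * (2 * (π : ℂ) * Complex.I) := by
    have hΛ' : (Λ : ℂ) ≠ 0 := by exact_mod_cast hΛ.ne'
    unfold kap
    fin_cases i
    · simp
      field_simp
      ring
    · simp
      field_simp
      ring
  rw [e, Complex.exp_add, Complex.exp_int_mul_two_pi_mul_I, mul_one]

lemma Test.pd {φ : (Fin 2 → ℝ) → ℂ} (h : Test Λ φ) (j : Fin 2) : Test Λ (pd j φ) := by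
  constructor
  · have h1 : ContDiff ℝ ((⊤ : ℕ∞) : WithTop ℕ∞) (fderiv ℝ φ) := h.smooth.fderiv_right (by simp)
    exact h1.clm_apply contDiff_const
  · intro x i
    unfold Pancake.pd
    congr 1
    have e : (fun y => φ (y + Pi.single i Λ)) = φ := funext fun y => h.per y i
    have h2 : fderiv ℝ (fun y => φ (y + Pi.single i Λ)) x = fderiv ℝ φ (x + Pi.single i Λ) :=
      fderiv_comp_add_right _
    rw [← h2, e]

lemma Test.add {φ ψ : (Fin 2 → ℝ) → ℂ} (h : Test Λ φ) (h' : Test Λ ψ) :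
    Test Λ (fun x => φ x + ψ x) :=
  ⟨h.smooth.add h'.smooth, fun x i => by rw [h.per, h'.per]⟩

lemma Test.mul {φ ψ : (Fin 2 → ℝ) → ℂ} (h : Test Λ φ) (h' : Test Λ ψ) :
    Test Λ (fun x => φ x * ψ x) :=
  ⟨h.smooth.mul h'.smooth, fun x i => by rw [h.per, h'.per]⟩

lemma Test.const_mul {φ : (Fin 2 → ℝ) → ℂ} (h : Test Λ φ) (c : ℂ) :
    Test Λ (fun x => c * φ x) :=
  ⟨contDiff_const.mul h.smooth, fun x i => by rw [h.per]⟩

lemma Test.lap {φ : (Fin 2 → ℝ) → ℂ} (h : Test Λ φ) : Test Λ (lap φ) :=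
  ((h.pd 0).pd 0).add ((h.pd 1).pd 1)

lemma Test.cont {φ : (Fin 2 → ℝ) → ℂ} (h : Test Λ φ) : Continuous φ := h.smooth.continuous

lemma Test.diff {φ : (Fin 2 → ℝ) → ℂ} (h : Test Λ φ) : Differentiable ℝ φ :=
  h.smooth.differentiable (by simp)

lemma Test.integrable {φ : (Fin 2 → ℝ) → ℂ} (h : Test Λ φ) : Integrable φ (mu Λ) :=
  h.cont.continuousOn.integrableOn_compact isCompact_Icc

lemma insertNth_single (j : Fin 2) (c : ℝ) (x : Fin 1 → ℝ) :
    (j.insertNth c x : Fin 2 → ℝ) = (j.insertNth 0 x : Fin 2 → ℝ) + Pi.single j c := by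
  funext i
  rcases eq_or_ne i j with rfl | hne
  · simp
  · obtain ⟨i', rfl⟩ := Fin.exists_succAbove_eq hne
    simp [hne]

/-- The integral of a derivative of a periodic function vanishes. -/
lemma integral_pd (hΛ : 0 < Λ) {F : (Fin 2 → ℝ) → ℂ} (h : Test Λ F) (j : Fin 2) :
    ∫ x in Om Λ, pd j F x = 0 := by
  have key := integral_divergence_of_hasFDerivAt_off_countable' (n := 1) (E := ℂ)
    (0 : Fin 2 → ℝ) (fun _ => Λ) (fun _ => hΛ.le)
    (fun i => if i = j then F else fun _ => 0)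
    (fun i x => if i = j then fderiv ℝ F x else 0) ∅ countable_empty
    (fun i => by
      split_ifs
      · exact h.cont.continuousOn
      · exact continuousOn_const)
    (fun x _ i => by
      split_ifs
      · exact (h.diff x).hasFDerivAt
      · exact hasFDerivAt_const _ _)
    (by
      have e : (fun x => ∑ i : Fin 2, (if i = j then fderiv ℝ F x else 0) (Pi.single i 1)) =
          fun x => pd j F x := by
        funext x
        rw [Finset.sum_eq_single j]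
        · rw [if_pos rfl]; rfl
        · intro i _ hi
          rw [if_neg hi]; rfl
        · intro hj; exact absurd (Finset.mem_univ j) hj
      rw [e]
      exact (h.pd j).cont.continuousOn.integrableOn_compact isCompact_Icc)
  have e : (fun x => ∑ i : Fin 2, (if i = j then fderiv ℝ F x else 0) (Pi.single i 1)) =
      fun x => pd j F x := by
    funext x
    rw [Finset.sum_eq_single j]
    · rw [if_pos rfl]; rfl
    · intro i _ hi
      rw [if_neg hi]; rfl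
    · intro hj; exact absurd (Finset.mem_univ j) hj
  rw [e] at key
  change ∫ x in Icc 0 (fun _ => Λ), pd j F x = 0
  rw [key]
  apply Finset.sum_eq_zero
  intro i _
  rw [sub_eq_zero]
  apply integral_congr_ae
  refine Eventually.of_forall fun x => ?_
  simp only
  by_cases hi : i = j
  · subst hi
    simp only [if_true]
    rw [insertNth_single i Λ x, h.per]
    rfl
  · simp only [if_neg hi]

lemma pd_mul {φ ψ : (Fin 2 → ℝ) → ℂ} (h : Test Λ φ) (h' : Test Λ ψ) (j : Fin 2) (x : Fin 2 → ℝ) :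
    pd j (fun y => φ y * ψ y) x = φ x * pd j ψ x + pd j φ x * ψ x := by
  unfold pd
  have := (h.diff x).hasFDerivAt.mul (h'.diff x).hasFDerivAt
  have h2 : HasFDerivAt (fun y => φ y * ψ y) (φ x • fderiv ℝ ψ x + ψ x • fderiv ℝ φ x) x := this
  rw [h2.fderiv]
  change φ x * fderiv ℝ ψ x (Pi.single j 1) + ψ x * fderiv ℝ φ x (Pi.single j 1) = _
  ring

/-- Fourier coefficients of a derivative. -/
lemma cf_pd (hΛ : 0 < Λ) {φ : (Fin 2 → ℝ) → ℂ} (h : Test Λ φ) (j : Fin 2) (k : K) :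
    cf Λ (pd j φ) k = Complex.I * (kap Λ : ℂ) * (k j : ℂ) * cf Λ φ k := by
  have h1 := integral_pd hΛ (h.mul (test_chi hΛ k)) j
  simp only [pd_mul h (test_chi hΛ k), pd_chi] at h1
  have i1 : Integrable (fun x => φ x * (-(Complex.I * (kap Λ : ℂ) * (k j : ℂ)) * chi Λ k x)) (mu Λ) :=
    (h.mul ((test_chi hΛ k).const_mul _)).integrable
  have i2 : Integrable (fun x => pd j φ x * chi Λ k x) (mu Λ) :=
    ((h.pd j).mul (test_chi hΛ k)).integrable
  rw [integral_add i1 i2] at h1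
  have e : ∀ x, φ x * (-(Complex.I * (kap Λ : ℂ) * (k j : ℂ)) * chi Λ k x) =
      (-(Complex.I * (kap Λ : ℂ) * (k j : ℂ))) * (φ x * chi Λ k x) := fun x => by ring
  simp only [e] at h1
  rw [integral_const_mul] at h1
  unfold cf
  have h3 : ∫ x in Om Λ, pd j φ x * chi Λ k x =
      Complex.I * (kap Λ : ℂ) * (k j : ℂ) * ∫ x in Om Λ, φ x * chi Λ k x := by
    linear_combination h1
  rw [h3]
  ring

lemma cf_lap (hΛ : 0 < Λ) {φ : (Fin 2 → ℝ) → ℂ} (h : Test Λ φ) (k : K) :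
    cf Λ (lap φ) k = -((kap Λ ^ 2 * nsq k : ℝ) : ℂ) * cf Λ φ k := by
  unfold lap
  rw [cf_add ((h.pd 0).pd 0).integrable ((h.pd 1).pd 1).integrable, cf_pd hΛ (h.pd 0),
    cf_pd hΛ (h.pd 1), cf_pd hΛ h, cf_pd hΛ h]
  have hI := Complex.I_sq
  unfold nsq
  push_cast
  linear_combination ((kap Λ : ℂ) ^ 2 * ((k 0 : ℂ) ^ 2 + (k 1 : ℂ) ^ 2) * cf Λ φ k) * hI

lemma norm_cf_le {φ : (Fin 2 → ℝ) → ℂ} (k : K) :
    ‖cf Λ φ k‖ ≤ 1 / Λ ^ 2 * ∫ x in Om Λ, ‖φ x‖ := by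
  unfold cf
  rw [norm_mul, Complex.norm_real, Real.norm_eq_abs, abs_of_nonneg (by positivity)]
  gcongr
  refine (norm_integral_le_integral_norm _).trans (le_of_eq ?_)
  congr 1
  funext x
  rw [norm_mul, norm_chi, mul_one]

/-- Rapid decay of the Fourier coefficients. -/
lemma Test.decay (hΛ : 0 < Λ) {φ : (Fin 2 → ℝ) → ℂ} (h : Test Λ φ) :
    ∃ C : ℝ, 0 ≤ C ∧ ∀ k, ‖cf Λ φ k‖ ≤ C * (1 / (1 + nsq k) ^ 3) := by
  have hκ : 0 < kap Λ := by unfold kap; positivity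
  set C0 := 1 / Λ ^ 2 * ∫ x in Om Λ, ‖φ x‖ with hC0
  set C3 := 1 / Λ ^ 2 * ∫ x in Om Λ, ‖Pancake.lap (Pancake.lap (Pancake.lap φ)) x‖ with hC3
  have hC00 : 0 ≤ C0 := by
    rw [hC0]
    exact mul_nonneg (by positivity) (integral_nonneg fun x => norm_nonneg _)
  have hC30 : 0 ≤ C3 := by
    rw [hC3]
    exact mul_nonneg (by positivity) (integral_nonneg fun x => norm_nonneg _)
  refine ⟨4 * (C0 + C3 / kap Λ ^ 6), by positivity, fun k => ?_⟩
  have hn := nsq_nonneg k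
  have h0 : ‖cf Λ φ k‖ ≤ C0 := norm_cf_le k
  have h3 : ‖cf Λ (Pancake.lap (Pancake.lap (Pancake.lap φ))) k‖ ≤ C3 := norm_cf_le k
  rw [cf_lap hΛ h.lap.lap, cf_lap hΛ h.lap, cf_lap hΛ h] at h3
  simp only [norm_mul, norm_neg, Complex.norm_real, Real.norm_eq_abs, abs_mul, abs_pow,
    abs_of_pos hκ, abs_of_nonneg hn] at h3
  have h4 : kap Λ ^ 6 * nsq k ^ 3 * ‖cf Λ φ k‖ ≤ C3 := by
    refine le_trans (le_of_eq ?_) h3
    ring
  have h5 : nsq k ^ 3 * ‖cf Λ φ k‖ ≤ C3 / kap Λ ^ 6 := by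
    rw [le_div_iff₀ (by positivity)]
    linarith
  have h6 : (1 + nsq k) ^ 3 ≤ 4 * (1 + nsq k ^ 3) := by
    nlinarith [sq_nonneg (nsq k - 1), mul_nonneg hn (sq_nonneg (nsq k - 1))]
  rw [mul_one_div, le_div_iff₀ (by positivity)]
  calc ‖cf Λ φ k‖ * (1 + nsq k) ^ 3 ≤ ‖cf Λ φ k‖ * (4 * (1 + nsq k ^ 3)) := by gcongr
    _ = 4 * (‖cf Λ φ k‖ + nsq k ^ 3 * ‖cf Λ φ k‖) := by ring
    _ ≤ 4 * (C0 + C3 / kap Λ ^ 6) := by gcongr

lemma summable_dec : Summable fun k : K => 1 / (1 + nsq k) ^ 2 := by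
  have h := rho_sum (R := 1) le_rfl
  have e : (fun k : K => 1 / rho 1 k ^ 2) = fun k => 1 / (1 + nsq k) ^ 2 := by
    funext k
    unfold rho
    rw [div_one]
  rw [e] at h
  exact summable_of_L (fun k => by positivity) (ne_top_of_le_ne_top (by norm_num) h)

/-- The weighted coefficients are summable. -/
lemma Test.summable (hΛ : 0 < Λ) {φ : (Fin 2 → ℝ) → ℂ} (h : Test Λ φ) :
    Summable fun k => (1 + nsq k) * ‖cf Λ φ k‖ := by
  obtain ⟨C, hC, hd⟩ := h.decay hΛ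
  refine Summable.of_nonneg_of_le (fun k => ?_) (fun k => ?_) (summable_dec.mul_left C)
  · have := nsq_nonneg k
    positivity
  · have hn := nsq_nonneg k
    calc (1 + nsq k) * ‖cf Λ φ k‖ ≤ (1 + nsq k) * (C * (1 / (1 + nsq k) ^ 3)) := by
          gcongr
          exact hd k
      _ = C * (1 / (1 + nsq k) ^ 2) := by
          have : 1 + nsq k ≠ 0 := by positivity
          field_simp

lemma Test.summable0 (hΛ : 0 < Λ) {φ : (Fin 2 → ℝ) → ℂ} (h : Test Λ φ) :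
    Summable fun k => ‖cf Λ φ k‖ := by
  refine Summable.of_nonneg_of_le (fun k => norm_nonneg _) (fun k => ?_) (h.summable hΛ)
  have := nsq_nonneg k
  have := norm_nonneg (cf Λ φ k)
  nlinarith

end

end Pancake
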