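import Pool.Agent.Pancake.Defs

/-!
# MP_771030_an: Fourier coefficients on the square `[0, L]²`
-/

namespace Pancake

open Set Filter Topology MeasureTheory UnitAddTorus
open scoped ENNReal NNReal ComplexConjugate Real

noncomputable section

local instance msCTransfer : MeasureSpace UnitAddCircle := ⟨AddCircle.haarAddCircle⟩

local instance hmCTransfer : Measure.IsAddHaarMeasure (volume : Measure UnitAddCircle) :=
  inferInstanceAs (Measure.IsAddHaarMeasure AddCircle.haarAddCircle)

local instance pmCTransfer : IsProbabilityMeasure (volume : Measure UnitAddCircle) :=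
  inferInstanceAs (IsProbabilityMeasure AddCircle.haarAddCircle)

/-- The section of the covering map. -/
def sg (L : ℝ) (y : UnitAddTorus (Fin 2)) : Fin 2 → ℝ :=
  L • ((measurableEquivPiIoc (0 : Fin 2 → ℝ)) y).1

/-- The covering map. -/
def pr (L : ℝ) (x : Fin 2 → ℝ) : UnitAddTorus (Fin 2) := fun i => ((x i / L : ℝ) : UnitAddCircle)

lemma pr_sg {L : ℝ} (hL : 0 < L) (y : UnitAddTorus (Fin 2)) : pr L (sg L y) = y := by
  have h := (measurableEquivPiIoc (0 : Fin 2 → ℝ)).symm_apply_apply y
  rw [coe_symm_measurableEquivPiIoc_apply] at h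
  conv_rhs => rw [← h]
  funext i
  unfold pr sg
  congr 1
  rw [Pi.smul_apply, smul_eq_mul]
  field_simp

lemma measurable_pr (L : ℝ) : Measurable (pr L) := by
  unfold pr
  apply measurable_pi_lambda
  intro i
  have h : Measurable (fun x : Fin 2 → ℝ => x i / L) := by fun_prop
  exact AddCircle.measurable_mk'.comp h

lemma mp_sg {L : ℝ} (hL : 0 < L) : MeasurePreserving (sg L)
    (volume : Measure (UnitAddTorus (Fin 2)))
    (ENNReal.ofReal (1 / L ^ 2) • (volume : Measure (Fin 2 → ℝ)).restrict (Om L)) := by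
  have h1 := measurePreserving_equivPiIoc (0 : Fin 2 → ℝ)
  set S : Set (Fin 2 → ℝ) := {x | ∀ i, x i ∈ Ioc ((0 : Fin 2 → ℝ) i) ((0 : Fin 2 → ℝ) i + 1)} with hS
  have hSm : MeasurableSet S := MeasurableSet.univ_pi' (fun i => measurableSet_Ioc)
  have h2 : MeasurePreserving (Subtype.val : S → (Fin 2 → ℝ)) (Measure.comap Subtype.val volume)
      (volume.restrict S) := measurePreserving_subtype_coe hSm
  set s : Set (Fin 2 → ℝ) := {x | ∀ i, x i ∈ Ioc 0 L} with hs
  have hsm : MeasurableSet s := MeasurableSet.univ_pi' (fun i => measurableSet_Ioc)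
  have hpre : (fun x : Fin 2 → ℝ => L • x) ⁻¹' s = S := by
    ext x
    simp only [hs, hS, mem_preimage, mem_ofPred_eq, Pi.smul_apply, smul_eq_mul, mem_Ioc,
      Pi.zero_apply, zero_add]
    constructor
    · intro h i
      obtain ⟨h1, h2⟩ := h i
      constructor
      · by_contra hc
        push Not at hc
        have : L * x i ≤ 0 := mul_nonpos_of_nonneg_of_nonpos hL.le hc
        linarith
      · by_contra hc
        push Not at hc
        have : L * 1 < L * x i := by gcongr
        linarith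
    · intro h i
      obtain ⟨h1, h2⟩ := h i
      constructor
      · positivity
      · calc L * x i ≤ L * 1 := by gcongr
          _ = L := mul_one L
  have hmeas : Measurable (fun x : Fin 2 → ℝ => L • x) := measurable_const_smul L
  have h3 : MeasurePreserving (fun x : Fin 2 → ℝ => L • x) (volume.restrict S)
      (ENNReal.ofReal (1 / L ^ 2) • volume.restrict s) := by
    refine ⟨hmeas, ?_⟩
    rw [← hpre, ← Measure.restrict_map hmeas hsm, Measure.map_addHaar_smul volume hL.ne',
      Measure.restrict_smul]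
    congr 2
    rw [Module.finrank_fin_fun, abs_of_pos (by positivity), one_div]
  have h4 : (volume : Measure (Fin 2 → ℝ)).restrict s = volume.restrict (Om L) := by
    apply Measure.restrict_congr_set
    have h5 := Measure.univ_pi_Ioc_ae_eq_Icc (μ := fun _ : Fin 2 => (volume : Measure ℝ))
      (f := (0 : Fin 2 → ℝ)) (g := fun _ => L)
    have e : s = Set.pi univ (fun i : Fin 2 => Ioc ((0 : Fin 2 → ℝ) i) ((fun _ => L : Fin 2 → ℝ) i)) := by
      ext x
      simp [hs, Set.mem_pi]
    rw [e]
    exact h5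
  rw [h4] at h3
  exact (h3.comp h2).comp h1

lemma mp_pr {L : ℝ} (hL : 0 < L) : MeasurePreserving (pr L)
    (ENNReal.ofReal (1 / L ^ 2) • (volume : Measure (Fin 2 → ℝ)).restrict (Om L))
    (volume : Measure (UnitAddTorus (Fin 2))) := by
  refine ⟨measurable_pr L, ?_⟩
  rw [← (mp_sg hL).map_eq, Measure.map_map (measurable_pr L) (mp_sg hL).measurable]
  have : pr L ∘ sg L = id := by
    funext y
    exact pr_sg hL y
  rw [this, Measure.map_id]

lemma chi_eq {L : ℝ} (k : Fin 2 → ℤ) (x : Fin 2 → ℝ) : chi L k x = mFourier (-k) (pr L x) := by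
  unfold chi mFourier pr
  rw [ContinuousMap.coe_mk, Fin.prod_univ_two, fourier_coe_apply, fourier_coe_apply,
    ← Complex.exp_add]
  congr 1
  simp only [Pi.neg_apply, kap]
  push_cast
  ring

lemma chi_sg {L : ℝ} (hL : 0 < L) (k : Fin 2 → ℤ) (y : UnitAddTorus (Fin 2)) :
    chi L k (sg L y) = mFourier (-k) y := by
  rw [chi_eq, pr_sg hL]

lemma ofReal_inv_ne {L : ℝ} : ENNReal.ofReal (1 / L ^ 2) ≠ ⊤ := ENNReal.ofReal_ne_top

lemma integral_sg {L : ℝ} (hL : 0 < L) {F : Type*} [NormedAddCommGroup F] [NormedSpace ℝ F]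
    {f : (Fin 2 → ℝ) → F} (hf : AEStronglyMeasurable f (mu L)) :
    ∫ y, f (sg L y) = (1 / L ^ 2) • ∫ x in Om L, f x := by
  have h1 := (mp_sg hL).map_eq
  have h2 : AEStronglyMeasurable f (Measure.map (sg L) (volume : Measure (UnitAddTorus (Fin 2)))) := by
    rw [h1]; exact hf.smul_measure _
  rw [← integral_map (mp_sg hL).measurable.aemeasurable h2, h1, integral_smul_measure,
    ENNReal.toReal_ofReal (by positivity)]

lemma memLp_sg {L : ℝ} (hL : 0 < L) {F : Type*} [NormedAddCommGroup F]
    {p : ℝ≥0∞} {f : (Fin 2 → ℝ) → F} (hf : MemLp f p (mu L)) :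
    MemLp (fun y => f (sg L y)) p (volume : Measure (UnitAddTorus (Fin 2))) :=
  (hf.smul_measure ofReal_inv_ne).comp_measurePreserving (mp_sg hL)

lemma mFourierCoeff_congr {f g : UnitAddTorus (Fin 2) → ℂ} (h : f =ᵐ[volume] g) (k : Fin 2 → ℤ) :
    mFourierCoeff f k = mFourierCoeff g k := by
  unfold mFourierCoeff
  apply integral_congr_ae
  filter_upwards [h] with y hy
  rw [hy]

/-- The Fourier coefficient of a complex valued function on the square. -/
def cf (L : ℝ) (f : (Fin 2 → ℝ) → ℂ) (k : Fin 2 → ℤ) : ℂ :=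
  ((1 / L ^ 2 : ℝ) : ℂ) * ∫ x in Om L, f x * chi L k x

lemma fc_eq_cf (L : ℝ) (f : E L) (k : Fin 2 → ℤ) :
    fc L f k = cf L (fun x => ((f x : ℝ) : ℂ)) k := rfl

lemma continuous_chi (L : ℝ) (k : Fin 2 → ℤ) : Continuous (chi L k) := by
  unfold chi
  fun_prop

lemma cf_eq {L : ℝ} (hL : 0 < L) {f : (Fin 2 → ℝ) → ℂ} (hf : AEStronglyMeasurable f (mu L))
    (k : Fin 2 → ℤ) : cf L f k = mFourierCoeff (fun y => f (sg L y)) k := by
  unfold mFourierCoeff cf
  have h := integral_sg hL (f := fun x => f x * chi L k x)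
    (hf.mul (continuous_chi L k).aestronglyMeasurable)
  simp only [chi_sg hL] at h
  have e : ∀ y, mFourier (-k) y • f (sg L y) = f (sg L y) * mFourier (-k) y := by
    intro y; rw [smul_eq_mul, mul_comm]
  simp only [e]
  rw [h, Complex.real_smul]

/-- Product formula on the torus. -/
lemma mFourierCoeff_mul {F G : UnitAddTorus (Fin 2) → ℂ} (hF : MemLp F 2 volume)
    (hG : MemLp G 2 volume) (k : Fin 2 → ℤ) :
    HasSum (fun h => mFourierCoeff F (k - h) * mFourierCoeff G h)
      (mFourierCoeff (fun y => F y * G y) k) := by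
  have hP : MemLp (fun y => mFourier k y * conj (F y)) 2 (volume : Measure (UnitAddTorus (Fin 2))) := by
    have h1 : MemLp (fun y => conj (F y)) 2 (volume : Measure (UnitAddTorus (Fin 2))) := hF.star
    have h2 : MemLp (fun y => mFourier k y) ⊤ (volume : Measure (UnitAddTorus (Fin 2))) := by
      apply memLp_top_of_bound (mFourier k).continuous.aestronglyMeasurable 1
      refine Eventually.of_forall fun y => ?_
      exact ((mFourier k).norm_coe_le_norm y).trans mFourier_norm.le
    exact h1.mul' h2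
  have key := hasSum_prod_mFourierCoeff (hP.toLp _) (hG.toLp _)
  have e1 : ∀ h, mFourierCoeff (hP.toLp _ : UnitAddTorus (Fin 2) → ℂ) h = conj (mFourierCoeff F (k - h)) := by
    intro h
    rw [mFourierCoeff_congr hP.coeFn_toLp]
    unfold mFourierCoeff
    rw [← integral_conj]
    congr 1
    funext y
    simp only [smul_eq_mul, map_mul]
    rw [← mul_assoc, ← mFourier_add, ← mFourier_neg]
    congr 2
    abel_nf
  have e2 : ∀ h, mFourierCoeff (hG.toLp _ : UnitAddTorus (Fin 2) → ℂ) h = mFourierCoeff G h :=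
    fun h => mFourierCoeff_congr hG.coeFn_toLp h
  simp only [e1, e2, Complex.conj_conj] at key
  have e3 : ∫ y, conj ((hP.toLp _ : UnitAddTorus (Fin 2) → ℂ) y) * (hG.toLp _ : UnitAddTorus (Fin 2) → ℂ) y =
      mFourierCoeff (fun y => F y * G y) k := by
    unfold mFourierCoeff
    apply integral_congr_ae
    filter_upwards [hP.coeFn_toLp, hG.coeFn_toLp] with y h1 h2
    rw [h1, h2, map_mul, Complex.conj_conj, mFourier_neg, smul_eq_mul]
    ring
  rw [e3] at key
  exact key

lemma hasSum_sq_cf {L : ℝ} (hL : 0 < L) {f : (Fin 2 → ℝ) → ℂ} (hf : MemLp f 2 (mu L)) :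
    HasSum (fun k => ‖cf L f k‖ ^ 2) (1 / L ^ 2 * ∫ x in Om L, ‖f x‖ ^ 2) := by
  have hF := memLp_sg hL hf
  have key := hasSum_sq_mFourierCoeff (hF.toLp _)
  have e1 : ∀ h, mFourierCoeff (hF.toLp _ : UnitAddTorus (Fin 2) → ℂ) h = cf L f h := by
    intro h
    rw [mFourierCoeff_congr hF.coeFn_toLp, cf_eq hL hf.aestronglyMeasurable]
  simp only [e1] at key
  convert key using 1
  have h := integral_sg hL (f := fun x => ‖f x‖ ^ 2) (hf.aestronglyMeasurable.norm.pow 2)
  rw [smul_eq_mul] at h
  rw [← h]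
  apply integral_congr_ae
  filter_upwards [hF.coeFn_toLp] with y hy
  rw [hy]

/-- Product formula on the square. -/
lemma cf_mul {L : ℝ} (hL : 0 < L) {f g : (Fin 2 → ℝ) → ℂ} (hf : MemLp f 2 (mu L))
    (hg : MemLp g 2 (mu L)) (k : Fin 2 → ℤ) :
    HasSum (fun h => cf L f (k - h) * cf L g h) (cf L (fun x => f x * g x) k) := by
  have key := mFourierCoeff_mul (memLp_sg hL hf) (memLp_sg hL hg) k
  have e := cf_eq hL (f := fun x => f x * g x) (hf.aestronglyMeasurable.mul hg.aestronglyMeasurable) k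
  rw [e]
  simp only [cf_eq hL hf.aestronglyMeasurable, cf_eq hL hg.aestronglyMeasurable]
  exact key

end

end Pancake
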