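import Pool.Agent.Pancake.Transfer
import Pool.Agent.Pancake.Sys

/-!
# MP_771030_an: real functions on the square and weak convergence
-/

namespace Pancake

open Set Filter Topology MeasureTheory UnitAddTorus
open scoped ENNReal NNReal ComplexConjugate Real

noncomputable section

local instance msCTransfer2 : MeasureSpace UnitAddCircle := ⟨AddCircle.haarAddCircle⟩

local instance hmCTransfer2 : Measure.IsAddHaarMeasure (volume : Measure UnitAddCircle) :=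
  inferInstanceAs (Measure.IsAddHaarMeasure AddCircle.haarAddCircle)

local instance pmCTransfer2 : IsProbabilityMeasure (volume : Measure UnitAddCircle) :=
  inferInstanceAs (IsProbabilityMeasure AddCircle.haarAddCircle)

variable {Λ : ℝ}

lemma memLp_E (f : E Λ) : MemLp (fun x => ((f x : ℝ) : ℂ)) 2 (mu Λ) := (Lp.memLp f).ofReal

lemma norm_sq_E (f : E Λ) : ‖f‖ ^ 2 = ∫ x in Om Λ, ‖((f x : ℝ) : ℂ)‖ ^ 2 := by
  rw [← real_inner_self_eq_norm_sq, L2.inner_def]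
  apply integral_congr_ae
  refine Eventually.of_forall fun x => ?_
  simp only [real_inner_self_eq_norm_sq, Complex.norm_real]

/-- Parseval. -/
lemma hasSum_fc (hΛ : 0 < Λ) (f : E Λ) : HasSum (fun k => ‖fc Λ f k‖ ^ 2) (‖f‖ ^ 2 / Λ ^ 2) := by
  have h := hasSum_sq_cf hΛ (memLp_E f)
  rw [← norm_sq_E] at h
  have e : ‖f‖ ^ 2 / Λ ^ 2 = 1 / Λ ^ 2 * ‖f‖ ^ 2 := by ring
  rw [e]
  exact h

lemma fc_sym (f : E Λ) : Sym (fc Λ f) := by
  intro k
  unfold fc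
  rw [map_mul, Complex.conj_ofReal, ← integral_conj]
  congr 2
  funext x
  rw [map_mul, Complex.conj_ofReal]
  congr 1
  unfold chi
  rw [← Complex.exp_conj]
  congr 1
  simp only [Pi.neg_apply, map_neg, map_mul, Complex.conj_I, Complex.conj_ofReal]
  push_cast
  ring

lemma norm_chi (L : ℝ) (k : Fin 2 → ℤ) (x : Fin 2 → ℝ) : ‖chi L k x‖ = 1 := by
  unfold chi
  rw [Complex.norm_exp]
  simp

lemma mul_chi_integrable {f : (Fin 2 → ℝ) → ℂ} (hf : Integrable f (mu Λ)) (k : Fin 2 → ℤ) :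
    Integrable (fun x => f x * chi Λ k x) (mu Λ) := by
  apply hf.mul_bdd (c := 1) (continuous_chi Λ k).aestronglyMeasurable
  exact Eventually.of_forall fun x => (norm_chi Λ k x).le

instance : IsFiniteMeasure (mu Λ) := by
  constructor
  rw [Measure.restrict_apply_univ]
  exact isCompact_Icc.measure_lt_top

lemma cf_add {f g : (Fin 2 → ℝ) → ℂ} (hf : Integrable f (mu Λ)) (hg : Integrable g (mu Λ))
    (k : Fin 2 → ℤ) : cf Λ (fun x => f x + g x) k = cf Λ f k + cf Λ g k := by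
  unfold cf
  simp only [add_mul]
  rw [integral_add (mul_chi_integrable hf k) (mul_chi_integrable hg k), mul_add]

lemma cf_const_mul (c : ℂ) (f : (Fin 2 → ℝ) → ℂ) (k : Fin 2 → ℤ) :
    cf Λ (fun x => c * f x) k = c * cf Λ f k := by
  unfold cf
  simp only [mul_assoc]
  rw [integral_const_mul]
  ring

lemma cf_congr {f g : (Fin 2 → ℝ) → ℂ} (h : f =ᵐ[mu Λ] g) (k : Fin 2 → ℤ) : cf Λ f k = cf Λ g k := by
  unfold cf
  congr 1
  apply integral_congr_ae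
  filter_upwards [h] with x hx
  rw [hx]

/-- The Fourier coefficient as a continuous linear functional. -/
def fcL (hΛ : 0 < Λ) (k : Fin 2 → ℤ) : E Λ →L[ℝ] ℂ :=
  LinearMap.mkContinuous
    { toFun := fun f => fc Λ f k
      map_add' := by
        intro f g
        rw [fc_eq_cf, fc_eq_cf, fc_eq_cf, ← cf_add ((memLp_E f).integrable (by norm_num))
          ((memLp_E g).integrable (by norm_num))]
        apply cf_congr
        filter_upwards [Lp.coeFn_add f g] with x hx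
        rw [hx, Pi.add_apply, Complex.ofReal_add]
      map_smul' := by
        intro c f
        rw [fc_eq_cf, fc_eq_cf, RingHom.id_apply, Complex.real_smul, ← cf_const_mul]
        apply cf_congr
        filter_upwards [Lp.coeFn_smul c f] with x hx
        rw [hx, Pi.smul_apply, smul_eq_mul, Complex.ofReal_mul] }
    (1 / Λ) (by
      intro f
      have h := hasSum_fc hΛ f
      have h1 := le_hasSum h k (fun j _ => by positivity)
      have h2 : ‖fc Λ f k‖ ^ 2 ≤ (1 / Λ * ‖f‖) ^ 2 := by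
        refine h1.trans (le_of_eq ?_)
        rw [mul_pow]; ring
      exact (pow_le_pow_iff_left₀ (norm_nonneg _) (by positivity) two_ne_zero).mp h2)

@[simp] lemma fcL_apply (hΛ : 0 < Λ) (k : Fin 2 → ℤ) (f : E Λ) : fcL hΛ k f = fc Λ f k := rfl

/-- Tail estimate. -/
lemma tail_cs {g f : K → ℂ} (hg : Summable fun k => ‖g k‖ ^ 2) (hf : Summable fun k => ‖f k‖ ^ 2)
    {D δ : ℝ} (hδ : 0 < δ) (hD : ∑' k, ‖f k‖ ^ 2 ≤ D) (F : Finset K) :
    ‖∑' k, g k * f k - ∑ k ∈ F, g k * f k‖ ≤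
      1 / (2 * δ) * (∑' k, ‖g k‖ ^ 2 - ∑ k ∈ F, ‖g k‖ ^ 2) + δ / 2 * D := by
  have hpt : ∀ k, ‖g k * f k‖ ≤ 1 / (2 * δ) * ‖g k‖ ^ 2 + δ / 2 * ‖f k‖ ^ 2 := by
    intro k
    rw [norm_mul]
    have e : 1 / (2 * δ) * ‖g k‖ ^ 2 + δ / 2 * ‖f k‖ ^ 2 - ‖g k‖ * ‖f k‖
        = (1 / (2 * δ)) * (‖g k‖ - δ * ‖f k‖) ^ 2 := by
      field_simp
      ring
    have : 0 ≤ (1 / (2 * δ)) * (‖g k‖ - δ * ‖f k‖) ^ 2 := by positivity
    linarith
  have hs2 : Summable fun k => 1 / (2 * δ) * ‖g k‖ ^ 2 + δ / 2 * ‖f k‖ ^ 2 :=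
    (hg.mul_left _).add (hf.mul_left _)
  have hsn : Summable fun k => ‖g k * f k‖ := Summable.of_nonneg_of_le (fun _ => norm_nonneg _) hpt hs2
  have hs : Summable fun k => g k * f k := hsn.of_norm
  have h1 := hs.sum_add_tsum_subtype_compl F
  have h2 := hg.sum_add_tsum_subtype_compl F
  have h3 := hf.sum_add_tsum_subtype_compl F
  have e : ∑' k, g k * f k - ∑ k ∈ F, g k * f k = ∑' k : {x // x ∉ F}, g k * f k := by
    rw [← h1]; ring
  rw [e]
  have h4 : ‖∑' k : {x // x ∉ F}, g k * f k‖ ≤ ∑' k : {x // x ∉ F}, ‖g k * f k‖ :=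
    norm_tsum_le_tsum_norm (hsn.subtype _)
  have h5 : ∑' k : {x // x ∉ F}, ‖g k * f k‖ ≤
      ∑' k : {x // x ∉ F}, (1 / (2 * δ) * ‖g k‖ ^ 2 + δ / 2 * ‖f k‖ ^ 2) :=
    (hsn.subtype _).tsum_le_tsum (fun k => hpt k) (hs2.subtype _)
  have h6 : ∑' k : {x // x ∉ F}, (1 / (2 * δ) * ‖g k‖ ^ 2 + δ / 2 * ‖f k‖ ^ 2) =
      1 / (2 * δ) * (∑' k : {x // x ∉ F}, ‖g k‖ ^ 2) + δ / 2 * ∑' k : {x // x ∉ F}, ‖f k‖ ^ 2 := by
    have a1 : Summable fun k : {x // x ∉ F} => 1 / (2 * δ) * ‖g k‖ ^ 2 := (hg.subtype _).mul_left _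
    have a2 : Summable fun k : {x // x ∉ F} => δ / 2 * ‖f k‖ ^ 2 := (hf.subtype _).mul_left _
    rw [a1.tsum_add a2, tsum_mul_left, tsum_mul_left]
  have h7 : ∑' k : {x // x ∉ F}, ‖g k‖ ^ 2 = ∑' k, ‖g k‖ ^ 2 - ∑ k ∈ F, ‖g k‖ ^ 2 := by
    rw [← h2]; ring
  have h8 : ∑' k : {x // x ∉ F}, ‖f k‖ ^ 2 ≤ D := by
    have : 0 ≤ ∑ k ∈ F, ‖f k‖ ^ 2 := Finset.sum_nonneg fun k _ => by positivity
    linarith
  rw [h6, h7] at h5
  have h9 : δ / 2 * ∑' k : {x // x ∉ F}, ‖f k‖ ^ 2 ≤ δ / 2 * D := by gcongr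
  linarith

/-- Bounded families converging mode by mode converge against `ℓ²` sequences. -/
lemma tendsto_tsum_l2 {ι : Type*} {l : Filter ι} {g : K → ℂ} {f : ι → K → ℂ} {fl : K → ℂ}
    (hg : Summable fun k => ‖g k‖ ^ 2) {D : ℝ}
    (hf : ∀ᶠ n in l, (Summable fun k => ‖f n k‖ ^ 2) ∧ ∑' k, ‖f n k‖ ^ 2 ≤ D)
    (hfl : Summable fun k => ‖fl k‖ ^ 2) (hp : ∀ k, Tendsto (fun n => f n k) l (𝓝 (fl k))) :
    Tendsto (fun n => ∑' k, g k * f n k) l (𝓝 (∑' k, g k * fl k)) := by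
  apply tendsto_tsum_of_tail
  · intro k
    exact tendsto_const_nhds.mul (hp k)
  · intro ε hε
    set D' : ℝ := max D (∑' k, ‖fl k‖ ^ 2) with hD'
    have hD'0 : 0 ≤ D' := le_trans (tsum_nonneg fun k => by positivity) (le_max_right _ _)
    set δ : ℝ := ε / (D' + 1) with hδ
    have hδ0 : 0 < δ := by positivity
    have h1 := hg.hasSum
    unfold HasSum at h1
    rw [SummationFilter.unconditional_filter, Metric.tendsto_atTop] at h1
    obtain ⟨F, hF⟩ := h1 (δ * ε) (by positivity)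
    have h2 := hF F le_rfl
    rw [Real.dist_eq, abs_sub_comm] at h2
    have h3 : ∑' k, ‖g k‖ ^ 2 - ∑ k ∈ F, ‖g k‖ ^ 2 ≤ δ * ε := (le_abs_self _).trans h2.le
    have h4 : 1 / (2 * δ) * (∑' k, ‖g k‖ ^ 2 - ∑ k ∈ F, ‖g k‖ ^ 2) + δ / 2 * D' ≤ ε := by
      have h5 : 1 / (2 * δ) * (∑' k, ‖g k‖ ^ 2 - ∑ k ∈ F, ‖g k‖ ^ 2) ≤ 1 / (2 * δ) * (δ * ε) := by
        gcongr
      have h6 : 1 / (2 * δ) * (δ * ε) = ε / 2 := by field_simp
      have h7 : δ / 2 * D' ≤ ε / 2 := by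
        rw [hδ]
        have e : ε / (D' + 1) / 2 * D' = (D' / (D' + 1)) * (ε / 2) := by field_simp
        rw [e]
        have h8 : D' / (D' + 1) ≤ 1 := by rw [div_le_one (by positivity)]; linarith
        calc _ ≤ 1 * (ε / 2) := by gcongr
          _ = ε / 2 := one_mul _
      linarith
    refine ⟨F, ?_, ?_⟩
    · filter_upwards [hf] with n hn
      exact (tail_cs hg hn.1 hδ0 (hn.2.trans (le_max_left _ _)) F).trans h4
    · exact (tail_cs hg hfl hδ0 (le_max_right _ _) F).trans h4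

/-- Parseval for inner products. -/
lemma inner_E (hΛ : 0 < Λ) (g f : E Λ) :
    ((inner ℝ g f : ℝ) : ℂ) = (Λ ^ 2 : ℝ) * ∑' k, conj (fc Λ g k) * fc Λ f k := by
  have hs := cf_mul hΛ (memLp_E g) (memLp_E f) 0
  have e1 : (fun h => cf Λ (fun x => ((g x : ℝ) : ℂ)) (0 - h) * cf Λ (fun x => ((f x : ℝ) : ℂ)) h) =
      fun h => conj (fc Λ g h) * fc Λ f h := by
    funext h
    rw [zero_sub, ← fc_eq_cf, ← fc_eq_cf, fc_sym g h]
  rw [e1] at hs
  rw [hs.tsum_eq]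
  unfold cf
  rw [L2.inner_def, ← integral_complex_ofReal, ← mul_assoc, ← Complex.ofReal_mul]
  have e2 : Λ ^ 2 * (1 / Λ ^ 2) = 1 := by field_simp
  rw [e2, Complex.ofReal_one, one_mul]
  apply integral_congr_ae
  refine Eventually.of_forall fun x => ?_
  have e3 : chi Λ 0 x = 1 := by simp [chi]
  simp only [e3, mul_one]
  rw [RCLike.inner_apply, conj_trivial, mul_comm]
  push_cast
  ring

/-- Weak convergence from convergence of the modes. -/
lemma tendsto_E (hΛ : 0 < Λ) {ι : Type*} {l : Filter ι} {f : ι → E Λ} {fl : E Λ} {M : ℝ}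
    (hM : ∀ᶠ n in l, ‖f n‖ ≤ M) (hp : ∀ k, Tendsto (fun n => fc Λ (f n) k) l (𝓝 (fc Λ fl k)))
    (φ : E Λ →L[ℝ] ℝ) : Tendsto (fun n => φ (f n)) l (𝓝 (φ fl)) := by
  set g : E Λ := (InnerProductSpace.toDual ℝ (E Λ)).symm φ with hg
  have hφ : ∀ x, φ x = inner ℝ g x := by
    intro x
    rw [hg, InnerProductSpace.toDual_symm_apply]
  have hre : ∀ x : E Λ, φ x = (((Λ ^ 2 : ℝ) : ℂ) * ∑' k, conj (fc Λ g k) * fc Λ x k).re := by
    intro x
    rw [hφ, ← inner_E hΛ, Complex.ofReal_re]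
  simp only [hre]
  apply (Complex.continuous_re.tendsto _).comp
  apply tendsto_const_nhds.mul
  refine tendsto_tsum_l2 (D := M ^ 2 / Λ ^ 2) ?_ ?_ ?_ hp
  · have := (hasSum_fc hΛ g).summable
    simpa using this
  · filter_upwards [hM] with n hn
    refine ⟨(hasSum_fc hΛ (f n)).summable, ?_⟩
    rw [(hasSum_fc hΛ (f n)).tsum_eq]
    gcongr
  · exact (hasSum_fc hΛ fl).summable

/-- Weak convergence in the state space from convergence of the modes. -/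
lemma tendsto_St (hΛ : 0 < Λ) {ι : Type*} {l : Filter ι} {z : ι → St Λ} {zl : St Λ} {M : ℝ}
    (hM : ∀ᶠ n in l, ‖z n‖ ≤ M)
    (h1 : ∀ k, Tendsto (fun n => fc Λ (z n).1 k) l (𝓝 (fc Λ zl.1 k)))
    (h2 : ∀ k, Tendsto (fun n => fc Λ (z n).2.1 k) l (𝓝 (fc Λ zl.2.1 k)))
    (h3 : ∀ k, Tendsto (fun n => fc Λ (z n).2.2 k) l (𝓝 (fc Λ zl.2.2 k)))
    (φ : St Λ →L[ℝ] ℝ) : Tendsto (fun n => φ (z n)) l (𝓝 (φ zl)) := by
  have e : ∀ x : St Λ, φ x = φ (x.1, 0, 0) + φ (0, x.2.1, 0) + φ (0, 0, x.2.2) := by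
    intro x
    rw [← map_add, ← map_add]
    congr 1
    ext <;> simp
  have e' : (fun n => φ (z n)) = fun n => φ ((z n).1, 0, 0) + φ (0, (z n).2.1, 0) +
      φ (0, 0, (z n).2.2) := funext fun n => e (z n)
  rw [e', e zl]
  have hb1 : ∀ᶠ n in l, ‖(z n).1‖ ≤ M := by
    filter_upwards [hM] with n hn using (norm_fst_le _).trans hn
  have hb2 : ∀ᶠ n in l, ‖(z n).2.1‖ ≤ M := by
    filter_upwards [hM] with n hn using ((norm_fst_le _).trans (norm_snd_le _)).trans hn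
  have hb3 : ∀ᶠ n in l, ‖(z n).2.2‖ ≤ M := by
    filter_upwards [hM] with n hn using ((norm_snd_le _).trans (norm_snd_le _)).trans hn
  refine (Tendsto.add ?_ ?_).add ?_
  · exact tendsto_E hΛ hb1 h1 (φ.comp (ContinuousLinearMap.inl ℝ (E Λ) (E Λ × E Λ)))
  · exact tendsto_E hΛ hb2 h2 ((φ.comp (ContinuousLinearMap.inr ℝ (E Λ) (E Λ × E Λ))).comp
      (ContinuousLinearMap.inl ℝ (E Λ) (E Λ)))
  · exact tendsto_E hΛ hb3 h3 ((φ.comp (ContinuousLinearMap.inr ℝ (E Λ) (E Λ × E Λ))).comp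
      (ContinuousLinearMap.inr ℝ (E Λ) (E Λ)))

end

end Pancake
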