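import Pool.Agent.Pancake.Transfer2

/-!
# MP_771030_an: realization of symmetric square summable sequences by real functions
-/

namespace Pancake

open Set Filter Topology MeasureTheory UnitAddTorus
open scoped ENNReal NNReal ComplexConjugate Real

noncomputable section

local instance msCTransfer3 : MeasureSpace UnitAddCircle := ⟨AddCircle.haarAddCircle⟩

local instance hmCTransfer3 : Measure.IsAddHaarMeasure (volume : Measure UnitAddCircle) :=
  inferInstanceAs (Measure.IsAddHaarMeasure AddCircle.haarAddCircle)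

local instance pmCTransfer3 : IsProbabilityMeasure (volume : Measure UnitAddCircle) :=
  inferInstanceAs (IsProbabilityMeasure AddCircle.haarAddCircle)

variable {Λ : ℝ}

lemma integrable_mFourier_mul {F : UnitAddTorus (Fin 2) → ℂ} (hF : Integrable F volume)
    (k : Fin 2 → ℤ) : Integrable (fun y => mFourier k y * F y) volume := by
  apply hF.bdd_mul (c := 1) (mFourier k).continuous.aestronglyMeasurable
  exact Eventually.of_forall fun y => ((mFourier k).norm_coe_le_norm y).trans mFourier_norm.le

lemma exists_E (hΛ : 0 < Λ) {c : K → ℂ} (hc : Sym c) (hs : Summable fun k => ‖c k‖ ^ 2) :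
    ∃ f : E Λ, ∀ k, fc Λ f k = c k := by
  have hmem : Memℓp c 2 := by
    rw [memℓp_gen_iff (by norm_num)]
    simpa using hs
  set F := (mFourierBasis (d := Fin 2)).repr.symm ⟨c, hmem⟩ with hF
  have hcoef : ∀ k, mFourierCoeff F k = c k := by
    intro k
    rw [← mFourierBasis_repr, hF, LinearIsometryEquiv.apply_symm_apply]
  have hFm : MemLp (F : UnitAddTorus (Fin 2) → ℂ) 2 volume := Lp.memLp F
  have h1 : MemLp (fun x => F (pr Λ x)) 2
      (ENNReal.ofReal (1 / Λ ^ 2) • (volume : Measure (Fin 2 → ℝ)).restrict (Om Λ)) :=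
    hFm.comp_measurePreserving (mp_pr hΛ)
  have h2 : MemLp (fun x => (F (pr Λ x)).re) 2 (mu Λ) := by
    apply h1.re.of_measure_le_smul (c := ENNReal.ofReal (Λ ^ 2)) ENNReal.ofReal_ne_top
    rw [smul_smul, ← ENNReal.ofReal_mul (by positivity)]
    have : Λ ^ 2 * (1 / Λ ^ 2) = 1 := by field_simp
    rw [this, ENNReal.ofReal_one, one_smul]
  refine ⟨h2.toLp _, fun k => ?_⟩
  rw [fc_eq_cf]
  have h3 : cf Λ (fun x => (((h2.toLp _ : E Λ) x : ℝ) : ℂ)) k =
      cf Λ (fun x => (((F (pr Λ x)).re : ℝ) : ℂ)) k := by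
    apply cf_congr
    filter_upwards [h2.coeFn_toLp] with x hx
    rw [hx]
  rw [h3, cf_eq hΛ (Complex.continuous_ofReal.comp_aestronglyMeasurable h2.aestronglyMeasurable)]
  simp only [pr_sg hΛ]
  have hFi : Integrable (F : UnitAddTorus (Fin 2) → ℂ) volume := hFm.integrable (by norm_num)
  have hFc : Integrable (fun y => conj (F y)) (volume : Measure (UnitAddTorus (Fin 2))) :=
    (hFm.star).integrable (by norm_num)
  have h4 : mFourierCoeff (fun y => conj (F y)) k = conj (c (-k)) := by
    rw [← hcoef]
    unfold mFourierCoeff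
    rw [← integral_conj]
    congr 1
    funext y
    simp only [smul_eq_mul, map_mul, ← mFourier_neg, neg_neg]
  have h5 : mFourierCoeff (fun y => (((F y).re : ℝ) : ℂ)) k =
      (1 / 2) * (mFourierCoeff F k + mFourierCoeff (fun y => conj (F y)) k) := by
    unfold mFourierCoeff
    simp only [smul_eq_mul]
    rw [← integral_add (integrable_mFourier_mul hFi _) (integrable_mFourier_mul hFc _),
      ← integral_const_mul]
    congr 1
    funext y
    have : (((F y).re : ℝ) : ℂ) = (1 / 2) * (F y + conj (F y)) := by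
      rw [Complex.add_conj]; push_cast; ring
    rw [this]
    ring
  rw [h5, h4, hcoef, hc k, Complex.conj_conj]
  ring

lemma E_zero (hΛ : 0 < Λ) {d : E Λ} (h : ∀ k, fc Λ d k = 0) : d = 0 := by
  have h1 := hasSum_fc hΛ d
  simp only [h, norm_zero] at h1
  have h3 : ‖d‖ ^ 2 / Λ ^ 2 = 0 := by
    have := h1.tsum_eq
    simpa using this.symm
  have h4 : ‖d‖ ^ 2 = 0 := by
    rw [div_eq_zero_iff] at h3
    rcases h3 with h3 | h3
    · exact h3
    · exact absurd h3 (by positivity)
  rw [← norm_eq_zero]
  exact pow_eq_zero_iff two_ne_zero |>.mp h4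

/-- Functions with the same Fourier coefficients are equal. -/
lemma E_ext (hΛ : 0 < Λ) {f g : E Λ} (h : ∀ k, fc Λ f k = fc Λ g k) : f = g := by
  rw [← sub_eq_zero]
  apply E_zero hΛ
  intro k
  have := map_sub (fcL hΛ k) f g
  simp only [fcL_apply] at this
  rw [this, h k, sub_self]

end

end Pancake
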