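import Pool.Agent.Pancake.Modes

/-!
# MP_771030_an: the equations for the Fourier modes
-/

namespace Pancake

open Set Filter Topology MeasureTheory
open scoped ENNReal NNReal ComplexConjugate Real

noncomputable section

variable {Λ : ℝ}

/-- Fourier coefficients of a product. -/
def pc (Λ : ℝ) (f g : E Λ) (k : K) : ℂ := cf Λ (fun y => ((f y : ℝ) : ℂ) * ((g y : ℝ) : ℂ)) k

lemma pc_hasSum (hΛ : 0 < Λ) (f g : E Λ) (k : K) :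
    HasSum (fun h => fc Λ f (k - h) * fc Λ g h) (pc Λ f g k) :=
  cf_mul hΛ (memLp_E f) (memLp_E g) k

lemma pc_comm (f g : E Λ) (k : K) : pc Λ f g k = pc Λ g f k := by
  unfold pc
  congr 1
  funext y
  ring

/-- Right-hand side of the momentum equation tested with `(-k₁ χ_k, k₀ χ_k)`. -/
def Nk (Λ ν g : ℝ) (x : St Λ) (k : K) : ℂ :=
  -((ν * kap Λ ^ 2 * nsq k : ℝ) : ℂ) * (-(k 1 : ℂ) * fc Λ x.1 k + (k 0 : ℂ) * fc Λ x.2.1 k) -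
    Complex.I * (kap Λ : ℂ) * (-(k 1 : ℂ) * ((k 0 : ℂ) * pc Λ x.1 x.1 k + (k 1 : ℂ) * pc Λ x.1 x.2.1 k)
      + (k 0 : ℂ) * ((k 0 : ℂ) * pc Λ x.1 x.2.1 k + (k 1 : ℂ) * pc Λ x.2.1 x.2.1 k)) +
    (g : ℂ) * (k 0 : ℂ) * tm Λ x k

/-- Right-hand side of the temperature equation tested with `χ_k`. -/
def Tk (Λ : ℝ) (x : St Λ) (k : K) : ℂ :=
  -Complex.I * (kap Λ : ℂ) * ((k 0 : ℂ) * pc Λ x.1 x.2.2 k + (k 1 : ℂ) * pc Λ x.2.1 x.2.2 k)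

variable {mz : Prop} {x : St Λ}

lemma kdot (hx : x ∈ phase Λ mz) (k h : K) :
    (k 0 : ℂ) * fc Λ x.1 (k - h) + (k 1 : ℂ) * fc Λ x.2.1 (k - h) =
      Complex.I * am Λ x (k - h) * ((crs k h / nrm (k - h) : ℝ) : ℂ) := by
  rw [fc1 hx, fc2 hx]
  unfold crs
  simp only [Pi.sub_apply]
  push_cast
  ring

lemma kperp (hx : x ∈ phase Λ mz) (k h : K) :
    -(k 1 : ℂ) * fc Λ x.1 h + (k 0 : ℂ) * fc Λ x.2.1 h =
      Complex.I * am Λ x h * ((dot k h / nrm h : ℝ) : ℂ) := by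
  rw [fc1 hx, fc2 hx]
  unfold dot
  push_cast
  ring

lemma Tk_eq (hΛ : 0 < Λ) (hx : x ∈ phase Λ mz) (k : K) :
    Tk Λ x k = Ft (kap Λ) ek (am Λ x) (tm Λ x) k := by
  have h1 := ((pc_hasSum hΛ x.1 x.2.2 k).mul_left (k 0 : ℂ)).add
    ((pc_hasSum hΛ x.2.1 x.2.2 k).mul_left (k 1 : ℂ))
  have e : (fun h => (k 0 : ℂ) * (fc Λ x.1 (k - h) * fc Λ x.2.2 h) +
      (k 1 : ℂ) * (fc Λ x.2.1 (k - h) * fc Λ x.2.2 h)) =
      fun h => Complex.I * ((ek k h : ℂ) * am Λ x (k - h) * tm Λ x h) := by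
    funext h
    have := kdot hx k h
    unfold ek tm
    linear_combination fc Λ x.2.2 h * this
  rw [e] at h1
  unfold Tk Ft Bil
  rw [← h1.tsum_eq, tsum_mul_left]
  have hI := Complex.I_sq
  linear_combination (-(kap Λ : ℂ) * ∑' h, (ek k h : ℂ) * am Λ x (k - h) * tm Λ x h) * hI

lemma Nk_eq (hΛ : 0 < Λ) (hx : x ∈ phase Λ mz) (ν g : ℝ) (k : K) :
    -Complex.I * Nk Λ ν g x k / (nrm k : ℂ) =
      Fa (ν * kap Λ ^ 2) (kap Λ) g ck (am Λ x) (tm Λ x) k := by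
  by_cases hk : k = 0
  · subst hk
    unfold Fa Bil ck
    simp [crs]
  have hn := nrm_ne k hk
  have h1 := (((pc_hasSum hΛ x.1 x.1 k).mul_left (-(k 0 : ℂ) * (k 1 : ℂ))).add
    ((pc_hasSum hΛ x.1 x.2.1 k).mul_left ((k 0 : ℂ) * (k 0 : ℂ)))).add
    (((pc_hasSum hΛ x.2.1 x.1 k).mul_left (-(k 1 : ℂ) * (k 1 : ℂ))).add
    ((pc_hasSum hΛ x.2.1 x.2.1 k).mul_left ((k 0 : ℂ) * (k 1 : ℂ))))
  have e : (fun h => -(k 0 : ℂ) * (k 1 : ℂ) * (fc Λ x.1 (k - h) * fc Λ x.1 h) +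
      (k 0 : ℂ) * (k 0 : ℂ) * (fc Λ x.1 (k - h) * fc Λ x.2.1 h) +
      (-(k 1 : ℂ) * (k 1 : ℂ) * (fc Λ x.2.1 (k - h) * fc Λ x.1 h) +
      (k 0 : ℂ) * (k 1 : ℂ) * (fc Λ x.2.1 (k - h) * fc Λ x.2.1 h))) =
      fun h => -(nrm k : ℂ) * ((ck k h : ℂ) * am Λ x (k - h) * am Λ x h) := by
    funext h
    have p1 := kdot hx k h
    have p2 := kperp hx k h
    have e1 : -(k 0 : ℂ) * (k 1 : ℂ) * (fc Λ x.1 (k - h) * fc Λ x.1 h) +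
      (k 0 : ℂ) * (k 0 : ℂ) * (fc Λ x.1 (k - h) * fc Λ x.2.1 h) +
      (-(k 1 : ℂ) * (k 1 : ℂ) * (fc Λ x.2.1 (k - h) * fc Λ x.1 h) +
      (k 0 : ℂ) * (k 1 : ℂ) * (fc Λ x.2.1 (k - h) * fc Λ x.2.1 h)) =
      ((k 0 : ℂ) * fc Λ x.1 (k - h) + (k 1 : ℂ) * fc Λ x.2.1 (k - h)) *
        (-(k 1 : ℂ) * fc Λ x.1 h + (k 0 : ℂ) * fc Λ x.2.1 h) := by ring
    rw [e1, p1, p2]
    have e2 : ((ck k h : ℝ) : ℂ) = ((crs k h / nrm (k - h) : ℝ) : ℂ) * ((dot k h / nrm h : ℝ) : ℂ) /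
        (nrm k : ℂ) := by
      unfold ck
      push_cast
      ring
    rw [e2]
    have hI := Complex.I_sq
    field_simp
    linear_combination (am Λ x (k - h) * am Λ x h * (crs k h / nrm (k - h) : ℝ) *
      (dot k h / nrm h : ℝ)) * hI
  rw [e] at h1
  have h2 := h1.tsum_eq
  rw [tsum_mul_left] at h2
  have hc := pc_comm x.2.1 x.1 k
  rw [hc] at h2
  unfold Nk Fa Bil
  have hfk : ((g * fk k : ℝ) : ℂ) = (g : ℂ) * (k 0 : ℂ) / (nrm k : ℂ) := by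
    unfold fk; push_cast; ring
  rw [hfk]
  have ha : am Λ x k = -Complex.I * (-(k 1 : ℂ) * fc Λ x.1 k + (k 0 : ℂ) * fc Λ x.2.1 k) / (nrm k : ℂ) := rfl
  rw [ha]
  have hI := Complex.I_sq
  set S := ∑' h, (ck k h : ℂ) * am Λ x (k - h) * am Λ x h with hS
  have h3 : S = -(-(k 0 : ℂ) * (k 1 : ℂ) * pc Λ x.1 x.1 k + (k 0 : ℂ) * (k 0 : ℂ) * pc Λ x.1 x.2.1 k +
      (-(k 1 : ℂ) * (k 1 : ℂ) * pc Λ x.1 x.2.1 k + (k 0 : ℂ) * (k 1 : ℂ) * pc Λ x.2.1 x.2.1 k)) /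
        (nrm k : ℂ) := by
    rw [← h2]
    field_simp
  rw [h3]
  push_cast
  field_simp
  linear_combination ((kap Λ : ℂ) * (-(k 1 : ℂ) * ((k 0 : ℂ) * pc Λ x.1 x.1 k +
    (k 1 : ℂ) * pc Λ x.1 x.2.1 k) + (k 0 : ℂ) * ((k 0 : ℂ) * pc Λ x.1 x.2.1 k +
    (k 1 : ℂ) * pc Λ x.2.1 x.2.1 k))) * hI

end

end Pancake
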