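import Pool.Agent.Pancake.Dyn

/-!
# MP_771030_an: weak–strong uniqueness
-/

namespace Pancake

open Set Filter Topology MeasureTheory
open scoped ENNReal NNReal ComplexConjugate Interval

noncomputable section

variable {ν κ g M M0 M1 s t T : ℝ} {a θ a1 θ1 a2 θ2 : ℝ → K → ℂ}

lemma WB.weaken (W : WB ν κ g M s t a θ) {M' : ℝ} (h : M ≤ M') : WB ν κ g M' s t a θ :=
  ⟨W.int, W.sa, W.st, W.z, fun τ hτ => (W.ba τ hτ).trans (ENNReal.ofReal_le_ofReal h),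
    fun τ hτ => (W.bt τ hτ).trans (ENNReal.ofReal_le_ofReal h), W.h1⟩

lemma Cls.toWB (I : IntSol ν κ g ck ek (Icc s t) a θ) (C : Cls M0 M1 ν (Icc s t) a θ)
    (h0 : M0 ≤ M) (h1 : M1 ≤ M) : WB ν κ g M s t a θ := by
  refine ⟨I, C.sa, C.st, C.z, fun τ hτ => (C.ba' hτ).trans (ENNReal.ofReal_le_ofReal h1),
    fun τ hτ => (C.bt τ hτ).trans (ENNReal.ofReal_le_ofReal h0), ?_⟩
  have h2 : ∫⁻ τ in Icc s t, L (fun k => nsq k * ‖a τ k‖ ^ 2) ≤
      ∫⁻ _ in Icc s t, ENNReal.ofReal M1 := by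
    apply setLIntegral_mono' measurableSet_Icc
    intro τ hτ
    exact C.ba τ hτ
  refine ne_top_of_le_ne_top ?_ h2
  rw [setLIntegral_const]
  exact ENNReal.mul_ne_top ENNReal.ofReal_ne_top measure_Icc_lt_top.ne

lemma Ft_zero (κ : ℝ) (a θ : K → ℂ) : Ft κ ek a θ 0 = 0 := by
  unfold Ft Bil
  simp [ek_zero_left]

lemma zero_mode {c : K → K → ℝ} {J : Set ℝ} (I : IntSol ν κ g c ek J a θ) {s t : ℝ} (hs : s ∈ J)
    (ht : t ∈ J) (hst : s ≤ t) : θ t 0 = θ s 0 := by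
  have := I.et 0 s hs t ht hst
  simp only [Ft_zero, intervalIntegral.integral_zero] at this
  exact sub_eq_zero.mp this

lemma cmain_nonneg (hν : 0 < ν) (h0 : 0 ≤ M0) (h1 : 0 ≤ M1) : 0 ≤ Cmain ν κ g M0 M1 := by
  unfold Cmain
  positivity

lemma arith_m {C : ℝ} (hC : 0 ≤ C) (m : ℕ) :
    (⌈2 * (C * √(1 + 16 * (m : ℝ)))⌉₊ + 1) ≤ m + ⌈3 + 32 * C ^ 2⌉₊ := by
  set ℓ := √(1 + 16 * (m : ℝ)) with hℓ
  have hℓ2 : ℓ ^ 2 = 1 + 16 * m := Real.sq_sqrt (by positivity)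
  have hℓ0 : 0 ≤ ℓ := Real.sqrt_nonneg _
  have h1 : 2 * (C * ℓ) ≤ (1 + 16 * m) / 32 + 32 * C ^ 2 := by
    rw [← hℓ2]
    nlinarith [sq_nonneg (ℓ - 32 * C)]
  have h2 : (⌈2 * (C * ℓ)⌉₊ : ℝ) < 2 * (C * ℓ) + 1 := Nat.ceil_lt_add_one (by positivity)
  have h3 : 3 + 32 * C ^ 2 ≤ (⌈3 + 32 * C ^ 2⌉₊ : ℝ) := Nat.le_ceil _
  have h4 : (0 : ℝ) ≤ m := Nat.cast_nonneg m
  have h5 : ((⌈2 * (C * ℓ)⌉₊ + 1 : ℕ) : ℝ) ≤ ((m + ⌈3 + 32 * C ^ 2⌉₊ : ℕ) : ℝ) := by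
    push_cast
    linarith
  exact_mod_cast h5

lemma lim_m (x c : ℝ) (h : ∀ m : ℕ, x ≤ (1 + 16 * (m : ℝ)) * (c / 2 ^ m)) : x ≤ 0 := by
  have h1 : Tendsto (fun m : ℕ => c * ((1 : ℝ) / 2 ^ m) + 16 * c * ((m : ℝ) ^ 1 / 2 ^ m)) atTop
      (𝓝 (c * 0 + 16 * c * 0)) := by
    refine (Tendsto.const_mul _ ?_).add (Tendsto.const_mul _ ?_)
    · have := tendsto_pow_const_div_const_pow_of_one_lt 0 (one_lt_two : (1 : ℝ) < 2)
      simpa using this
    · exact tendsto_pow_const_div_const_pow_of_one_lt 1 (one_lt_two : (1 : ℝ) < 2)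
  rw [mul_zero, mul_zero, add_zero] at h1
  refine ge_of_tendsto' h1 fun m => ?_
  refine (h m).trans (le_of_eq ?_)
  rw [pow_one]
  ring

/-- Weak–strong uniqueness. -/
theorem uniq (hν : 0 < ν) (hT : 0 ≤ T)
    (I1 : IntSol ν κ g ck ek (Icc 0 T) a1 θ1) (C1 : Cls M0 M1 ν (Icc 0 T) a1 θ1)
    (W2 : WB ν κ g M 0 T a2 θ2) (ha : a1 0 = a2 0) (hθ : θ1 0 = θ2 0) :
    ∀ t ∈ Icc 0 T, a1 t = a2 t ∧ θ1 t = θ2 t := by
  -- a common bound
  set M' : ℝ := 1 + |M0| + |M1| + |M| with hM'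
  have hM'1 : 1 ≤ M' := by rw [hM']; have := abs_nonneg M0; have := abs_nonneg M1
                           have := abs_nonneg M; linarith
  have hM'0 : 0 ≤ M' := by linarith
  have hMM' : M ≤ M' := by rw [hM']; have := abs_nonneg M0; have := abs_nonneg M1
                           have := le_abs_self M; linarith
  have hM0M' : M0 ≤ M' := by rw [hM']; have := le_abs_self M0; have := abs_nonneg M1
                             have := abs_nonneg M; linarith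
  have hM1M' : M1 ≤ M' := by rw [hM']; have := abs_nonneg M0; have := le_abs_self M1
                             have := abs_nonneg M; linarith
  have W1' : WB ν κ g M' 0 T a1 θ1 := Cls.toWB I1 C1 hM0M' hM1M'
  have W2' : WB ν κ g M' 0 T a2 θ2 := W2.weaken hMM'
  have h0T : (0 : ℝ) ∈ Icc 0 T := ⟨le_rfl, hT⟩
  have hz : ∀ τ ∈ Icc 0 T, θ1 τ 0 - θ2 τ 0 = 0 := by
    intro τ hτ
    rw [zero_mode W1'.int h0T hτ hτ.1, zero_mode W2'.int h0T hτ hτ.1, hθ, sub_self]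
  -- the palinstrophy of the strong solution
  set S2 : ℝ → ℝ := fun τ => (L (fun k => nsq k ^ 2 * ‖a1 τ k‖ ^ 2)).toReal with hS2
  have hmeasS2 : AEMeasurable (fun τ => L (fun k => nsq k ^ 2 * ‖a1 τ k‖ ^ 2))
      (volume.restrict (Icc 0 T)) := aemeas_L (w := fun k => nsq k ^ 2) W1'.int.ca
  have hbi := C1.bi 0 h0T T ⟨hT, le_rfl⟩ hT
  have hbi' : ∫⁻ τ in Icc 0 T, L (fun k => nsq k ^ 2 * ‖a1 τ k‖ ^ 2) ≠ ∞ :=
    ne_top_of_le_ne_top ENNReal.ofReal_ne_top hbi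
  have hS2i : IntegrableOn S2 (Icc 0 T) := integrable_toReal_of_lintegral_ne_top hmeasS2 hbi'
  have hS20 : ∀ τ, 0 ≤ S2 τ := fun τ => ENNReal.toReal_nonneg
  have hS2f : ∀ᵐ τ ∂(volume.restrict (Icc 0 T)),
      L (fun k => nsq k ^ 2 * ‖a1 τ k‖ ^ 2) ≤ ENNReal.ofReal (S2 τ) := by
    filter_upwards [ae_lt_top' hmeasS2 hbi'] with τ hτ
    simp only [hS2]
    rw [ENNReal.ofReal_toReal hτ.ne]
  have hP := pairBd_ae hM'1 W1' W2' hz
  have hζb : ∀ τ ∈ Icc 0 T, L (fun k => ‖θ1 τ k - θ2 τ k‖ ^ 2) ≤ ENNReal.ofReal (4 * M') := by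
    intro τ hτ
    have := L_sub_le (w := fun _ => 1) (x := θ1 τ) (y := θ2 τ) (fun _ => zero_le_one)
      hM'0 hM'0 (by simpa using W1'.bt τ hτ) (by simpa using W2'.bt τ hτ)
    rw [show 2 * M' + 2 * M' = 4 * M' by ring] at this
    simpa using this
  have hbb : ∀ τ ∈ Icc 0 T, L (fun k => ‖a1 τ k - a2 τ k‖ ^ 2) ≤ ENNReal.ofReal (4 * M') := by
    intro τ hτ
    have := L_sub_le (w := fun _ => 1) (x := a1 τ) (y := a2 τ) (fun _ => zero_le_one)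
      hM'0 hM'0 (by simpa using W1'.ba τ hτ) (by simpa using W2'.ba τ hτ)
    rw [show 2 * M' + 2 * M' = 4 * M' by ring] at this
    simpa using this
  set m0 : ℝ := 4 * M' with hm0
  have hm0p : 0 < m0 := by rw [hm0]; linarith
  set C0 : ℝ := Cmain ν κ g M' M' with hC0
  have hC00 : 0 ≤ C0 := cmain_nonneg hν hM'0 hM'0
  set C : ℝ := C0 * ∫ τ in (0 : ℝ)..T, (1 + S2 τ) with hC
  have hIi : IntegrableOn (fun τ => 1 + S2 τ) (Icc 0 T) :=
    (integrableOn_const (by simp)).add hS2i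
  have hCnn : 0 ≤ C := by
    rw [hC]
    apply mul_nonneg hC00
    apply intervalIntegral.integral_nonneg hT
    intro u _
    have := hS20 u
    linarith
  set N0 : ℕ := ⌈3 + 32 * C ^ 2⌉₊ with hN0
  intro t ht
  have hEnn : ∀ (lam : ℝ), 0 ≤ lam → ∀ τ, 0 ≤ En lam (a1 τ) (θ1 τ) (a2 τ) (θ2 τ) := by
    intro lam hlam τ
    unfold En
    have h1 : 0 ≤ ∑' k, ‖a1 τ k - a2 τ k‖ ^ 2 := tsum_nonneg fun k => by positivity
    have h2 : 0 ≤ ∑' k, eta (fun k => θ1 τ k - θ2 τ k) k ^ 2 := tsum_nonneg fun k => by positivity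
    positivity
  -- the main estimate for each `m`
  have main : ∀ m : ℕ, En (1 / √(1 + 16 * (m : ℝ))) (a1 t) (θ1 t) (a2 t) (θ2 t) ≤
      2 ^ N0 * m0 / 2 ^ m := by
    intro m
    have hm : (0 : ℝ) ≤ m := Nat.cast_nonneg m
    set ℓ := √(1 + 16 * (m : ℝ)) with hℓ
    have hℓ1 : 1 ≤ ℓ := Real.one_le_sqrt.mpr (by linarith)
    have hℓ0 : 0 < ℓ := by linarith
    have hlam0 : 0 ≤ 1 / ℓ := by positivity
    have hlam1 : 1 / ℓ ≤ 1 := by rw [div_le_one hℓ0]; exact hℓ1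
    set δ : ℝ := m0 / 4 ^ m with hδ
    have hδ0 : 0 < δ := by positivity
    set E : ℝ → ℝ := fun τ => En (1 / ℓ) (a1 τ) (θ1 τ) (a2 τ) (θ2 τ) with hE
    set DD : ℝ → ℝ := fun τ => Dsum ν κ g (1 / ℓ) (a1 τ) (θ1 τ) (a2 τ) (θ2 τ) with hDD
    have hDDi : IntegrableOn DD (Icc 0 T) := (pair_energy hν hT hM'1 hlam0 hlam1 W1' W2' hz).1
    have hE0 : E 0 = 0 := by
      simp only [hE, En, ha, hθ, sub_self, norm_zero, eta]
      simp
    have hEt : ∀ τ ∈ Icc 0 T, E τ = ∫ r in (0 : ℝ)..τ, DD r := by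
      intro τ hτ
      have := (pair_energy hν hτ.1 hM'1 hlam0 hlam1 (W1'.mono le_rfl hτ.2) (W2'.mono le_rfl hτ.2)
        (fun r hr => hz r ⟨hr.1, hr.2.trans hτ.2⟩)).2
      change E τ - E 0 = _ at this
      rw [hE0, sub_zero] at this
      exact this
    have hEc : ContinuousOn E (Icc 0 T) := by
      have h1 : ContinuousOn (fun τ => ∫ r in (0 : ℝ)..τ, DD r) (uIcc 0 T) :=
        intervalIntegral.continuousOn_primitive_interval' (ii_of_integrableOn hDDi h0T ⟨hT, le_rfl⟩)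
          left_mem_uIcc
      rw [uIcc_of_le hT] at h1
      exact h1.congr hEt
    set Φ : ℝ → ℝ := fun τ => C0 * ℓ * (1 + S2 τ) with hΦ
    have hΦi : IntegrableOn Φ (Icc 0 T) := hIi.const_mul _
    have hΦ0 : ∀ τ, 0 ≤ Φ τ := by
      intro τ
      have := hS20 τ
      simp only [hΦ]
      positivity
    have hAc : ContinuousOn (fun τ => E τ + δ) (Icc 0 T) := hEc.add continuousOn_const
    have hineq : ∀ τ ∈ Icc 0 T, E τ + δ ≤ δ + ∫ r in (0 : ℝ)..τ, Φ r * (E r + δ) := by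
      intro τ hτ
      rw [hEt τ hτ, add_comm]
      gcongr
      have hτi1 : IntervalIntegrable DD volume 0 τ := ii_of_integrableOn hDDi h0T hτ
      have hτi2 : IntervalIntegrable (fun r => Φ r * (E r + δ)) volume 0 τ := by
        apply (ii_of_integrableOn hΦi h0T hτ).mul_continuousOn
        rw [uIcc_of_le hτ.1]
        exact hAc.mono (Icc_subset_Icc_right hτ.2)
      apply intervalIntegral.integral_mono_ae_restrict hτ.1 hτi1 hτi2
      have hsub : Icc 0 τ ⊆ Icc 0 T := Icc_subset_Icc_right hτ.2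
      have hall : ∀ᵐ r ∂(volume.restrict (Icc 0 T)), DD r ≤ Φ r * (E r + δ) := by
        filter_upwards [hP, hS2f, ae_restrict_mem measurableSet_Icc] with r H hr2 hr
        have := H.main (g := g) (κ := κ) hν hM'0 hM'0 hm0p m (hS20 r)
          ((C1.ba r hr).trans (ENNReal.ofReal_le_ofReal hM1M')) hr2 (W2'.bt r hr) (hζb r hr)
        refine this.trans (le_of_eq ?_)
        simp only [hΦ, hE, En, hδ, hC0, hℓ]
      exact ae_restrict_of_ae_restrict_of_subset hsub hall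
    have hGr := gronwall (A := fun τ => E τ + δ) (Φ := Φ) (T := T) (δ := δ) hδ0.le
      (ii_of_integrableOn hΦi h0T ⟨hT, le_rfl⟩) (fun τ _ => hΦ0 τ) hAc
      (fun τ _ => by have := hEnn (1 / ℓ) hlam0 τ; simp only [hE]; linarith) hineq
      (n := ⌈2 * (C * ℓ)⌉₊) (by
        have e1 : ∫ τ in (0 : ℝ)..T, Φ τ = C * ℓ := by
          simp only [hΦ]
          rw [intervalIntegral.integral_const_mul, hC]
          ring
        rw [e1]
        have h2 : 2 * (C * ℓ) ≤ (⌈2 * (C * ℓ)⌉₊ : ℝ) := Nat.le_ceil _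
        linarith)
    have h3 := hGr t ht
    have h4 := arith_m hCnn m
    rw [← hℓ, ← hN0] at h4
    have h5 : (2 : ℝ) ^ (⌈2 * (C * ℓ)⌉₊ + 1) ≤ 2 ^ (m + N0) :=
      pow_le_pow_right₀ (by norm_num) h4
    have h6 : (2 : ℝ) ^ (⌈2 * (C * ℓ)⌉₊ + 1) * δ ≤ 2 ^ (m + N0) * δ := by gcongr
    have h7 : (2 : ℝ) ^ (m + N0) * δ = 2 ^ N0 * m0 / 2 ^ m := by
      rw [hδ, pow_add, show (4 : ℝ) = 2 * 2 by norm_num, mul_pow]
      field_simp
    rw [h7] at h6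
    have h8 : E t ≤ 2 ^ N0 * m0 / 2 ^ m := by linarith
    exact h8
  -- passage to the limit
  have hS0n : 0 ≤ ∑' k, ‖a1 t k - a2 t k‖ ^ 2 := tsum_nonneg fun k => by positivity
  have hZn : 0 ≤ ∑' k, eta (fun k => θ1 t k - θ2 t k) k ^ 2 := tsum_nonneg fun k => by positivity
  have hlim : (∑' k, ‖a1 t k - a2 t k‖ ^ 2) + ∑' k, eta (fun k => θ1 t k - θ2 t k) k ^ 2 ≤ 0 := by
    apply lim_m _ (2 ^ N0 * m0)
    intro m
    have hm : (0 : ℝ) ≤ m := Nat.cast_nonneg m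
    have h1 := main m
    set ℓ := √(1 + 16 * (m : ℝ)) with hℓ
    have hℓ1 : 1 ≤ ℓ := Real.one_le_sqrt.mpr (by linarith)
    have hℓ0 : 0 < ℓ := by linarith
    have hℓ2 : ℓ ^ 2 = 1 + 16 * m := Real.sq_sqrt (by positivity)
    unfold En at h1
    have h2 : ℓ * ((∑' k, ‖a1 t k - a2 t k‖ ^ 2) +
        1 / ℓ * ∑' k, eta (fun k => θ1 t k - θ2 t k) k ^ 2) ≤ ℓ * (2 ^ N0 * m0 / 2 ^ m) := by gcongr
    have h3 : ℓ * ((∑' k, ‖a1 t k - a2 t k‖ ^ 2) +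
        1 / ℓ * ∑' k, eta (fun k => θ1 t k - θ2 t k) k ^ 2) =
        ℓ * (∑' k, ‖a1 t k - a2 t k‖ ^ 2) + ∑' k, eta (fun k => θ1 t k - θ2 t k) k ^ 2 := by
      field_simp
    rw [h3] at h2
    have h4 : (∑' k, ‖a1 t k - a2 t k‖ ^ 2) ≤ ℓ * ∑' k, ‖a1 t k - a2 t k‖ ^ 2 :=
      le_mul_of_one_le_left hS0n hℓ1
    have h5 : ℓ ≤ 1 + 16 * m := by
      rw [← hℓ2]
      nlinarith
    have h6 : ℓ * (2 ^ N0 * m0 / 2 ^ m) ≤ (1 + 16 * m) * (2 ^ N0 * m0 / 2 ^ m) := by gcongr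
    linarith
  have hS00 : ∑' k, ‖a1 t k - a2 t k‖ ^ 2 = 0 := by linarith
  have hZ00 : ∑' k, eta (fun k => θ1 t k - θ2 t k) k ^ 2 = 0 := by linarith
  have hs1 : Summable (fun k => ‖a1 t k - a2 t k‖ ^ 2) :=
    summable_of_L (fun k => by positivity) (ofReal_ne (hbb t ht))
  have hs2 : Summable (fun k => eta (fun k => θ1 t k - θ2 t k) k ^ 2) :=
    summable_of_L (fun k => by positivity) (ofReal_ne (L_eta0 (hζb t ht)))
  constructor
  · funext k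
    have h1 := hs1.le_tsum k (fun j _ => by positivity)
    rw [hS00] at h1
    have h2 : ‖a1 t k - a2 t k‖ = 0 := by
      have h3 := norm_nonneg (a1 t k - a2 t k)
      nlinarith
    rwa [norm_sub_eq_zero_iff] at h2
  · funext k
    have h1 := hs2.le_tsum k (fun j _ => by positivity)
    rw [hZ00] at h1
    have h2 : eta (fun k => θ1 t k - θ2 t k) k = 0 := by
      have h3 := eta_nonneg (fun k => θ1 t k - θ2 t k) k
      nlinarith
    have h4 := eta_mul (ζ := fun k => θ1 t k - θ2 t k) (hz t ht) k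
    rw [h2, mul_zero] at h4
    rw [← norm_sub_eq_zero_iff]
    exact h4.symm

end

end Pancake
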